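import Pool.Agent.H46.PR.Cel

/-!
# Two hops with equal slopes

`tie_two`: all differences of copies over the record `G` are along one direction `(1, κ)`, which is a
function of the line and a function of the record.
-/

set_option autoImplicit false

namespace Pool.PR46

open Finset Real
open Pool.Agent.H49.Ent Pool.Agent.H32.Dense Pool.STK Pool.OWN68
open Pool.BFL (Pb)

/-- **Selection.** -/
theorem glue_select {A B T : Type} [Fintype A] [Fintype B] {q : A → ℝ} {r : B → ℝ} (hq : IsLaw q)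
    (hr : IsLaw r) {X : A → T} {Y : B → T} (hZ : ∀ z, law q X z = law r Y z) (Bad : A → B → Prop) :
    ∃ sel : T → B, (∀ a, 0 < q a → 0 < r (sel (X a)) ∧ Y (sel (X a)) = X a) ∧
      Pb q (fun a => Bad a (sel (X a))) ≤ Pb (glue q r X Y) (fun w => Bad w.1 w.2) := by
  classical
  have hq0 := hq.nonneg
  have hr0 := hr.nonneg
  obtain ⟨f, hf⟩ : ∃ f : T → B → ℝ, ∀ z b, f z b = ∑ a, if X a = z ∧ Bad a b then q a else 0 :=
    ⟨_, fun _ _ => rfl⟩
  have hf0 : ∀ z b, 0 ≤ f z b := fun z b => by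
    rw [hf]
    exact Finset.sum_nonneg fun a _ => by split_ifs; exacts [hq0 a, le_rfl]
  obtain ⟨b₀, hb₀⟩ : ∃ b, 0 < r b := by
    by_contra hcon
    push Not at hcon
    have : ∑ b, r b ≤ 0 := Finset.sum_nonpos fun b _ => hcon b
    rw [hr.sum_one] at this
    linarith
  have hex : ∀ z, ∃ b, (0 < law r Y z → 0 < r b ∧ Y b = z) ∧
      (∀ b', 0 < r b' → Y b' = z → f z b ≤ f z b') := by
    intro z
    by_cases hne : (Finset.univ.filter fun b => 0 < r b ∧ Y b = z).Nonempty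
    · obtain ⟨b, hb, hmin⟩ := Finset.exists_min_image _ (f z) hne
      obtain ⟨-, h1, h2⟩ := Finset.mem_filter.mp hb
      exact ⟨b, fun _ => ⟨h1, h2⟩, fun b' h3 h4 =>
        hmin b' (Finset.mem_filter.mpr ⟨Finset.mem_univ _, h3, h4⟩)⟩
    · refine ⟨b₀, fun hl => ?_, fun b' h3 h4 => absurd ⟨b', Finset.mem_filter.mpr
        ⟨Finset.mem_univ _, h3, h4⟩⟩ hne⟩
      exfalso
      have : law r Y z = 0 := by
        unfold law
        refine Finset.sum_eq_zero fun b _ => ?_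
        split_ifs with h
        · by_contra h5
          exact hne ⟨b, Finset.mem_filter.mpr ⟨Finset.mem_univ _,
            lt_of_le_of_ne (hr0 b) (Ne.symm h5), h⟩⟩
        · rfl
      rw [this] at hl
      exact lt_irrefl _ hl
  obtain ⟨sel, hsel⟩ : ∃ sel : T → B, ∀ z, (0 < law r Y z → 0 < r (sel z) ∧ Y (sel z) = z) ∧
      (∀ b', 0 < r b' → Y b' = z → f z (sel z) ≤ f z b') :=
    ⟨fun z => (hex z).choose, fun z => (hex z).choose_spec⟩
  refine ⟨sel, fun a ha => (hsel (X a)).1 (by rw [← hZ]; exact law_pos hq0 X ha), ?_⟩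
  rw [← Pb_sum, ← Pb_sum, Fintype.sum_prod_type]
  -- fiberwise
  have hmaps : ∀ a ∈ (Finset.univ : Finset A), X a ∈ Finset.univ.image X := fun a _ =>
    Finset.mem_image_of_mem _ (Finset.mem_univ _)
  rw [← Finset.sum_fiberwise_of_maps_to hmaps, ← Finset.sum_fiberwise_of_maps_to hmaps]
  refine Finset.sum_le_sum fun z hz => ?_
  obtain ⟨a₀, -, ha₀⟩ := Finset.mem_image.mp hz
  -- the left side
  have e1 : ∑ a ∈ Finset.univ.filter (fun a => X a = z), (if Bad a (sel (X a)) then q a else 0) =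
      f z (sel z) := by
    rw [hf, Finset.sum_filter]
    refine Finset.sum_congr rfl fun a _ => ?_
    by_cases h1 : X a = z
    · rw [if_pos h1, h1]
      by_cases h2 : Bad a (sel z)
      · rw [if_pos h2, if_pos ⟨rfl, h2⟩]
      · rw [if_neg h2, if_neg (fun h => h2 h.2)]
    · rw [if_neg h1, if_neg (fun h => h1 h.1)]
  rw [e1]
  have e2 : ∑ a ∈ Finset.univ.filter (fun a => X a = z), ∑ b,
      (if Bad a b then glue q r X Y (a, b) else 0) =
      ∑ b, (if Y b = z then r b * f z b / law q X z else 0) := by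
    rw [Finset.sum_comm]
    refine Finset.sum_congr rfl fun b _ => ?_
    rw [Finset.sum_filter]
    by_cases hb : Y b = z
    · rw [if_pos hb, hf, Finset.mul_sum, Finset.sum_div]
      refine Finset.sum_congr rfl fun a _ => ?_
      by_cases h1 : X a = z
      · rw [if_pos h1]
        by_cases h2 : Bad a b
        · rw [if_pos h2, if_pos ⟨h1, h2⟩]
          unfold glue
          dsimp only
          rw [if_pos (h1.trans hb.symm), h1]
          ring
        · rw [if_neg h2, if_neg (show ¬ (X a = z ∧ Bad a b) from fun h => h2 h.2)]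
          simp
      · rw [if_neg h1, if_neg (show ¬ (X a = z ∧ Bad a b) from fun h => h1 h.1)]
        simp
    · rw [if_neg hb]
      refine Finset.sum_eq_zero fun a _ => ?_
      by_cases h1 : X a = z
      · rw [if_pos h1]
        unfold glue
        dsimp only
        rw [if_neg (show ¬ X a = Y b from fun h => hb (h.symm.trans h1))]
        split_ifs <;> rfl
      · rw [if_neg h1]
  rw [e2]
  rcases (law_nonneg hq0 X z).eq_or_lt with hl | hl
  · -- no mass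
    have : f z (sel z) ≤ law q X z := by
      rw [hf]
      unfold law
      refine Finset.sum_le_sum fun a _ => ?_
      by_cases h1 : X a = z
      · rw [if_pos h1]
        split_ifs
        exacts [le_rfl, hq0 a]
      · rw [if_neg h1, if_neg (fun h => h1 h.1)]
    rw [← hl] at this
    refine this.trans (Finset.sum_nonneg fun b _ => ?_)
    split_ifs
    · exact div_nonneg (mul_nonneg (hr0 b) (hf0 z b)) (law_nonneg hq0 X z)
    · exact le_rfl
  · have h1 : law r Y z * f z (sel z) ≤ ∑ b, (if Y b = z then r b * f z b else 0) := by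
      unfold law
      rw [Finset.sum_mul]
      refine Finset.sum_le_sum fun b _ => ?_
      by_cases hb : Y b = z
      · rw [if_pos hb, if_pos hb]
        rcases (hr0 b).eq_or_lt with h2 | h2
        · rw [← h2, zero_mul, zero_mul]
        · exact mul_le_mul_of_nonneg_left ((hsel z).2 b h2 hb) h2.le
      · rw [if_neg hb, if_neg hb, zero_mul]
    have h2 : ∑ b, (if Y b = z then r b * f z b / law q X z else 0) =
        (∑ b, (if Y b = z then r b * f z b else 0)) / law q X z := by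
      rw [Finset.sum_div]
      refine Finset.sum_congr rfl fun b _ => ?_
      split_ifs
      · rfl
      · rw [zero_div]
    rw [h2, le_div_iff₀ hl]
    rw [← hZ] at h1
    linarith

/-- The slope of a pair. -/
noncomputable def kap {Ω Λ 𝒟 : Type} (L : Ω → Λ) (D : Λ → 𝒟) (du dn : 𝒟 → ℝ) (ω ω' : Ω) : ℝ :=
  (dn (D (L ω')) - dn (D (L ω))) / (du (D (L ω')) - du (D (L ω)))

theorem kap_symm {Ω Λ 𝒟 : Type} (L : Ω → Λ) (D : Λ → 𝒟) (du dn : 𝒟 → ℝ) (ω ω' : Ω) :
    kap L D du dn ω ω' = kap L D du dn ω' ω := by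
  unfold kap
  rw [← neg_sub (dn (D (L ω))) (dn (D (L ω'))), ← neg_sub (du (D (L ω))) (du (D (L ω'))),
    neg_div_neg_eq]

/-- The slopes of two pairs. -/
theorem kap_near {M V B x₁ x₂ y₁ y₂ : ℝ} (hM : 1 ≤ M) (hB : 0 < B) (h1 : |x₁| ≤ M) (h2 : |x₂| ≤ M)
    (hf : frq x₁ x₂ y₁ y₂ < V) (hx₁ : B ≤ |x₁|) (hx₂ : B ≤ |x₂|) :
    |y₁ / x₁ - y₂ / x₂| ≤ V * M / B ^ 2 := by
  have hX1 : 0 < |x₁| := hB.trans_le hx₁
  have hX2 : 0 < |x₂| := hB.trans_le hx₂
  have n1 : x₁ ≠ 0 := abs_pos.mp hX1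
  have n2 : x₂ ≠ 0 := abs_pos.mp hX2
  have hV : 0 ≤ V := (frq_nonneg _ _ _ _).trans hf.le
  have hm : 0 < max 1 (max |x₁| |x₂|) := zero_lt_one.trans_le (le_max_left _ _)
  have hd : |x₁ * y₂ - x₂ * y₁| ≤ V * M := by
    have g1 : frd x₁ x₂ y₁ y₂ < V * max 1 (max |x₁| |x₂|) := by
      unfold frq at hf
      rwa [div_lt_iff₀ hm] at hf
    have g2 : |x₁ * y₂ - x₂ * y₁| ≤ frd x₁ x₂ y₁ y₂ := le_max_left _ _
    have g3 : max 1 (max |x₁| |x₂|) ≤ M := max_le hM (max_le h1 h2)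
    exact g2.trans (g1.le.trans (mul_le_mul_of_nonneg_left g3 hV))
  have e : y₁ / x₁ - y₂ / x₂ = -(x₁ * y₂ - x₂ * y₁) / (x₁ * x₂) := by
    field_simp
    ring
  rw [e, abs_div, abs_neg, abs_mul]
  have hBB : B ^ 2 ≤ |x₁| * |x₂| := by
    rw [sq]
    exact mul_le_mul hx₁ hx₂ hB.le hX1.le
  exact div_le_div₀ (by positivity) hd (by positivity) hBB

/-- **Equal slopes: one direction.** -/
theorem tie_two {Ω Λ Γ 𝒞 𝒟 𝒩 : Type} [Fintype Ω] {p : Ω → ℝ} (hp : IsLaw p)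
    {M K : ℕ} (hM : 1 ≤ M) {L : Ω → Λ} {t : Ω → ℤ} {G : Ω → Γ} {C : Λ → 𝒞}
    {D : Λ → 𝒟} {N : Λ → 𝒩} {u n : Λ → ℤ → ℤ} {du dn : 𝒟 → ℝ}
    {V R e : ℝ} (hR : 0 < R) (he : 0 ≤ e) (hrec : Recs p M e L t G G C D N N)
    (hd : Disp p M K L t G D u n du dn) {B δ : ℝ} (hB : 0 < B)
    (hal : Pb (glue p p G G) (fun w => |du (D (L w.2)) - du (D (L w.1))| < B) ≤ δ)
    {J : ℕ} {Vs Us : ℕ → ℝ} {ms : ℕ → ℕ} (hcel : Cells p M K V R e L t C D u n J Vs Us ms) :
    ∃ (ks : Λ → ℝ) (kg : Γ → ℝ),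
      (∀ ω, 0 < p ω → |ks (L ω)| ≤ M / B ∧ |kg (G ω)| ≤ M / B) ∧
      Pb p (fun ω => 2 * (V * M / B ^ 2) < |kg (G ω) - ks (L ω)|) ≤ 2 * (J / R + 2 * δ) ∧
      Pb (glue p p G G) (fun w => 3 * (V * M / B ^ 2) * M <
        |(dn (D (L w.2)) - dn (D (L w.1))) - kg (G w.1) * (du (D (L w.2)) - du (D (L w.1)))|) ≤
          3 * (J / R + 2 * δ) + δ := by
  classical
  have h0 := hp.nonneg
  have hMr : (1 : ℝ) ≤ M := by exact_mod_cast hM
  have hM0 : (0 : ℝ) < M := by linarith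
  have hP1 := P1_law hp G
  have hPn : ∀ w, 0 ≤ glue p p G G w := hP1.nonneg
  have hP3 := P3_law hp L G G
  have hP4 := P4_law hp L G G
  obtain ⟨κ, hκ⟩ : ∃ κ : Ω → Ω → ℝ, κ = kap L D du dn := ⟨_, rfl⟩
  obtain ⟨W, hW⟩ : ∃ W, W = V * M / B ^ 2 := ⟨_, rfl⟩
  rw [← hW]
  obtain ⟨η, hη⟩ : ∃ η, η = J / R + 2 * δ := ⟨_, rfl⟩
  rw [← hη]
  -- typical pairs of hops
  obtain ⟨Bad, hBad⟩ : ∃ Bad : Ω → Ω → Ω → Ω → Prop, Bad = fun ω₀ ω₁ ω₁' ω₂ =>
      W < |κ ω₀ ω₁ - κ ω₁' ω₂| ∨ |du (D (L ω₂)) - du (D (L ω₁'))| < B := ⟨_, rfl⟩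
  have h3 : Pb (P3 p L G G) (fun w => Bad w.1.1.1 w.1.1.2 w.1.2 w.2) ≤ η := by
    have key := two_hops hp (K := 2 * K) hM L t G G C D N N u n
      (fun z => du z.2.2.1 - du (D z.2.2.2)) (fun z => du z.2.1 - du z.2.2.1)
      (fun z => dn z.2.2.1 - dn (D z.2.2.2)) (fun z => dn z.2.1 - dn z.2.2.1)
      (fun z => u z.2.2.2 z.1 + ((du z.2.2.1 - du (D z.2.2.2)) * z.1 +
        (du z.2.1 - du z.2.2.1) * z.1) / M)
      (fun z => n z.2.2.2 z.1 + ((dn z.2.2.1 - dn (D z.2.2.2)) * z.1 +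
        (dn z.2.1 - dn z.2.2.1) * z.1) / M)
      (V := V) hR he hrec.tb hrec.g1 hrec.g2 hrec.nd hrec.full hrec.i1 hrec.i2 (by
        intro ω₀ ω₁ ω₁' ω₂ p0 p1 p1' p2 e1 e2 e3 τ hτ z hz
        subst hz
        obtain ⟨b1, b2, b3⟩ := hd.dis ω₀ ω₁ p0 p1 e1
        obtain ⟨c1, c2, c3⟩ := hd.dis ω₁' ω₂ p1' p2 e3
        obtain ⟨b4, b5⟩ := b3 τ hτ
        obtain ⟨c4, c5⟩ := c3 τ hτ
        rw [← e2] at c1 c2 c4 c5
        refine ⟨b1, c1, b2, c2, ?_, ?_⟩
        · show |(u (L ω₂) τ : ℝ) - ((u (L ω₀) τ + ((du (D (L ω₁)) - du (D (L ω₀))) * τ +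
            (du (D (L ω₂)) - du (D (L ω₁))) * τ) / M) - ((du (D (L ω₁)) - du (D (L ω₀))) * t ω₀ +
            (du (D (L ω₂)) - du (D (L ω₁))) * t ω₁') / M)| ≤ ((2 * K : ℕ) : ℝ)
          have e : (u (L ω₂) τ : ℝ) - ((u (L ω₀) τ + ((du (D (L ω₁)) - du (D (L ω₀))) * τ +
            (du (D (L ω₂)) - du (D (L ω₁))) * τ) / M) - ((du (D (L ω₁)) - du (D (L ω₀))) * t ω₀ +
            (du (D (L ω₂)) - du (D (L ω₁))) * t ω₁') / M) =
            (((u (L ω₁) τ : ℝ) - u (L ω₀) τ) -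
              (du (D (L ω₁)) - du (D (L ω₀))) * (((τ : ℝ) - t ω₀) / M)) +
            (((u (L ω₂) τ : ℝ) - u (L ω₁) τ) -
              (du (D (L ω₂)) - du (D (L ω₁))) * (((τ : ℝ) - t ω₁') / M)) := by
            field_simp
            ring
          rw [e]
          refine (abs_add_le _ _).trans ?_
          push_cast
          linarith
        · show |(n (L ω₂) τ : ℝ) - ((n (L ω₀) τ + ((dn (D (L ω₁)) - dn (D (L ω₀))) * τ +
            (dn (D (L ω₂)) - dn (D (L ω₁))) * τ) / M) - ((dn (D (L ω₁)) - dn (D (L ω₀))) * t ω₀ +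
            (dn (D (L ω₂)) - dn (D (L ω₁))) * t ω₁') / M)| ≤ ((2 * K : ℕ) : ℝ)
          have e : (n (L ω₂) τ : ℝ) - ((n (L ω₀) τ + ((dn (D (L ω₁)) - dn (D (L ω₀))) * τ +
            (dn (D (L ω₂)) - dn (D (L ω₁))) * τ) / M) - ((dn (D (L ω₁)) - dn (D (L ω₀))) * t ω₀ +
            (dn (D (L ω₂)) - dn (D (L ω₁))) * t ω₁') / M) =
            (((n (L ω₁) τ : ℝ) - n (L ω₀) τ) -
              (dn (D (L ω₁)) - dn (D (L ω₀))) * (((τ : ℝ) - t ω₀) / M)) +
            (((n (L ω₂) τ : ℝ) - n (L ω₁) τ) -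
              (dn (D (L ω₂)) - dn (D (L ω₁))) * (((τ : ℝ) - t ω₁') / M)) := by
            field_simp
            ring
          rw [e]
          refine (abs_add_le _ _).trans ?_
          push_cast
          linarith) Vs Us ms hcel.one hcel.cov hcel.nf hcel.big
    have hp1 := Pb_marg (P4_pair1 hp L G G) (fun w => |du (D (L w.2)) - du (D (L w.1))| < B)
    have hp2 := Pb_marg (P4_pair hp L G G) (fun w => |du (D (L w.2)) - du (D (L w.1))| < B)
    rw [← Pb_marg (P4_f hp L G G) (fun w => Bad w.1.1.1 w.1.1.2 w.1.2 w.2)]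
    have g1 := Pb_imp2 hP4.nonneg
      (E := fun w => Bad w.1.1.1.1 w.1.1.1.2 w.1.1.2 w.1.2)
      (F := fun w => V ≤ frq (du (zt L t D w).2.2.1 - du (D (zt L t D w).2.2.2))
        (du (zt L t D w).2.1 - du (zt L t D w).2.2.1)
        (dn (zt L t D w).2.2.1 - dn (D (zt L t D w).2.2.2))
        (dn (zt L t D w).2.1 - dn (zt L t D w).2.2.1))
      (H := fun w => |du (D (L w.1.1.1.2)) - du (D (L w.1.1.1.1))| < B ∨
        |du (D (L w.1.2)) - du (D (L w.1.1.2))| < B) fun w hw hbad => by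
      by_contra hcon
      push Not at hcon
      obtain ⟨hf, hb1, hb2⟩ := hcon
      obtain ⟨q1, q2, q3⟩ := P4_pos hp L G G hw
      obtain ⟨a1, a2, a3, a4, a5, a6, a7⟩ := P3_sup hp L G G q1
      obtain ⟨b1, -, -⟩ := hd.dis _ _ a1 a2 a5
      obtain ⟨c1, -, -⟩ := hd.dis _ _ a3 a4 a7
      rw [hBad] at hbad
      rcases hbad with hbad | hbad
      · have hf' : frq (du (D (L w.1.1.1.2)) - du (D (L w.1.1.1.1)))
            (du (D (L w.1.2)) - du (D (L w.1.1.2)))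
            (dn (D (L w.1.1.1.2)) - dn (D (L w.1.1.1.1)))
            (dn (D (L w.1.2)) - dn (D (L w.1.1.2))) < V := by
          rw [← a6]
          exact hf
        have := kap_near hMr hB b1 c1 hf' hb1 hb2
        rw [hκ, hW] at hbad
        exact absurd this (not_le.mpr hbad)
      · exact absurd hb2 (not_le.mpr hbad)
    have g2 := Pb_imp2 hP4.nonneg
      (E := fun w => |du (D (L w.1.1.1.2)) - du (D (L w.1.1.1.1))| < B ∨
        |du (D (L w.1.2)) - du (D (L w.1.1.2))| < B)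
      (F := fun w => |du (D (L w.1.1.1.2)) - du (D (L w.1.1.1.1))| < B)
      (H := fun w => |du (D (L w.1.2)) - du (D (L w.1.1.2))| < B) fun w _ hw => hw
    have g3 : Pb (P4 p L G G) (fun w => |du (D (L w.1.1.1.2)) - du (D (L w.1.1.1.1))| < B) ≤ δ :=
      hp1.le.trans hal
    have g4 : Pb (P4 p L G G) (fun w => |du (D (L w.1.2)) - du (D (L w.1.1.2))| < B) ≤ δ :=
      hp2.le.trans hal
    have g5 := key
    rw [hη]
    linarith
  -- the selection
  obtain ⟨sel2, s2a, s2b⟩ := glue_select (P2_law hp L G) hp (P3_z hp L G G)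
    (fun w ω₂ => Bad w.1.1 w.1.2 w.2 ω₂)
  obtain ⟨sel1, s1a, s1b⟩ := glue_select (P1_law hp G) hp (P2_z hp L G)
    (fun w ω₁' => Bad w.1 w.2 ω₁' (sel2 (G ω₁')))
  have s1 : Pb (P1 p G) (fun w => Bad w.1 w.2 (sel1 (L w.2)) (sel2 (G (sel1 (L w.2))))) ≤ η :=
    s1b.trans (s2b.trans h3)
  -- the slope of a line
  obtain ⟨ks, hks⟩ : ∃ ks : Λ → ℝ, ∀ l, ks l =
      if B ≤ |du (D (L (sel2 (G (sel1 l))))) - du (D (L (sel1 l)))| then
        κ (sel1 l) (sel2 (G (sel1 l))) else 0 := ⟨_, fun _ => rfl⟩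
  -- the partner is a partner
  have hsel : ∀ ω, 0 < p ω → 0 < p (sel1 (L ω)) ∧ 0 < p (sel2 (G (sel1 (L ω)))) ∧
      G (sel1 (L ω)) = G (sel2 (G (sel1 (L ω)))) := by
    intro ω hω
    have hd1 : 0 < P1 p G (ω, ω) := (glue_pos_iff h0 h0 _).mpr ⟨hω, hω, rfl⟩
    obtain ⟨a1, a2⟩ := s1a (ω, ω) hd1
    have hd2 : 0 < P2 p L G ((ω, ω), sel1 (L ω)) :=
      (glue_pos_iff hP1.nonneg h0 _).mpr ⟨hd1, a1, a2.symm⟩
    obtain ⟨b1, b2⟩ := s2a ((ω, ω), sel1 (L ω)) hd2
    exact ⟨a1, b1, b2.symm⟩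
  have hksb : ∀ ω, 0 < p ω → |ks (L ω)| ≤ M / B := by
    intro ω hω
    rw [hks]
    split_ifs with hb
    · obtain ⟨a1, a2, a3⟩ := hsel ω hω
      obtain ⟨-, c2, -⟩ := hd.dis _ _ a1 a2 a3
      rw [hκ]
      unfold kap
      rw [abs_div]
      exact div_le_div₀ hM0.le c2 hB hb
    · rw [abs_zero]
      positivity
  have hk1 : Pb (glue p p G G) (fun w => W < |κ w.1 w.2 - ks (L w.2)|) ≤ η := by
    refine (Pb_imp hPn fun w _ hw => ?_).trans s1
    rw [hBad]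
    rw [hks] at hw
    by_cases hb : B ≤ |du (D (L (sel2 (G (sel1 (L w.2)))))) - du (D (L (sel1 (L w.2))))|
    · rw [if_pos hb] at hw
      exact Or.inl hw
    · exact Or.inr (not_le.mp hb)
  have hk0 : Pb (glue p p G G) (fun w => W < |κ w.1 w.2 - ks (L w.1)|) ≤ η := by
    rw [Pb_sym]
    refine (Pb_imp hPn fun w _ hw => ?_).trans hk1
    have e : κ w.swap.1 w.swap.2 = κ w.1 w.2 := by
      rw [hκ]
      exact kap_symm L D du dn w.2 w.1
    rw [e] at hw
    exact hw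
  have hk2 : Pb (glue p p G G) (fun w => 2 * W < |ks (L w.2) - ks (L w.1)|) ≤ 2 * η := by
    have g1 := Pb_imp2 hPn (E := fun w => 2 * W < |ks (L w.2) - ks (L w.1)|)
      (F := fun w => W < |κ w.1 w.2 - ks (L w.2)|) (H := fun w => W < |κ w.1 w.2 - ks (L w.1)|)
      fun w _ hw => by
        by_contra hcon
        push Not at hcon
        obtain ⟨c1, c2⟩ := hcon
        have e : ks (L w.2) - ks (L w.1) = (κ w.1 w.2 - ks (L w.1)) - (κ w.1 w.2 - ks (L w.2)) := by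
          ring
        rw [e] at hw
        have := abs_sub (κ w.1 w.2 - ks (L w.1)) (κ w.1 w.2 - ks (L w.2))
        linarith
    linarith
  -- the slope of a record
  obtain ⟨sel, sa, sb⟩ := glue_select hp hp (X := G) (Y := G) (fun _ => rfl)
    (fun ω ω' => 2 * W < |ks (L ω') - ks (L ω)|)
  have hkg : Pb p (fun ω => 2 * W < |ks (L (sel (G ω))) - ks (L ω)|) ≤ 2 * η := sb.trans hk2
  refine ⟨ks, fun g => ks (L (sel g)), fun ω hω => ⟨hksb ω hω, hksb _ (sa ω hω).1⟩, hkg, ?_⟩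
  have hkg1 : Pb (glue p p G G) (fun w => 2 * W < |ks (L (sel (G w.1))) - ks (L w.1)|) ≤ 2 * η := by
    exact (Pb_marg (P1_f hp G) (fun ω => 2 * W < |ks (L (sel (G ω))) - ks (L ω)|)).le.trans hkg
  have g1 := Pb_imp2 hPn (E := fun w => 3 * W * M < |(dn (D (L w.2)) - dn (D (L w.1))) -
      ks (L (sel (G w.1))) * (du (D (L w.2)) - du (D (L w.1)))|)
    (F := fun w => W < |κ w.1 w.2 - ks (L w.1)| ∨ 2 * W < |ks (L (sel (G w.1))) - ks (L w.1)|)
    (H := fun w => |du (D (L w.2)) - du (D (L w.1))| < B) fun w hw hbad => by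
      by_contra hcon
      push Not at hcon
      obtain ⟨⟨c1, c2⟩, c3⟩ := hcon
      obtain ⟨a1, a2, a3⟩ := P1_pos hp G hw
      obtain ⟨b1, -, -⟩ := hd.dis _ _ a1 a2 a3
      have hx : du (D (L w.2)) - du (D (L w.1)) ≠ 0 := abs_pos.mp (hB.trans_le c3)
      have e : (dn (D (L w.2)) - dn (D (L w.1))) -
          ks (L (sel (G w.1))) * (du (D (L w.2)) - du (D (L w.1))) =
          ((κ w.1 w.2 - ks (L w.1)) - (ks (L (sel (G w.1))) - ks (L w.1))) *
            (du (D (L w.2)) - du (D (L w.1))) := by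
        rw [hκ]
        unfold kap
        field_simp
        ring
      rw [e, abs_mul] at hbad
      have g2 := abs_sub (κ w.1 w.2 - ks (L w.1)) (ks (L (sel (G w.1))) - ks (L w.1))
      have g3 : |κ w.1 w.2 - ks (L w.1) - (ks (L (sel (G w.1))) - ks (L w.1))| ≤ 3 * W := by
        linarith
      have g4 := mul_le_mul g3 b1 (abs_nonneg _) ((abs_nonneg _).trans g3)
      linarith
  have g5 := Pb_imp2 hPn
    (E := fun w => W < |κ w.1 w.2 - ks (L w.1)| ∨ 2 * W < |ks (L (sel (G w.1))) - ks (L w.1)|)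
    (F := fun w => W < |κ w.1 w.2 - ks (L w.1)|)
    (H := fun w => 2 * W < |ks (L (sel (G w.1))) - ks (L w.1)|) fun w _ hw => hw
  linarith

end Pool.PR46
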