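import Pool.Agent.H46.PR.Thr3

/-!
# The third hop: the slope is a function of the record without `E`

`thr_all`: the slopes of the two copies over `F` are near. `thr_fun`: the slope of a line is near a
function of `F`. `shift_eq`: after a shift of the grid their codes are equal.
-/

set_option autoImplicit false

namespace Pool.PR46

open Finset Real
open Pool.Agent.H49.Ent Pool.Agent.H32.Dense Pool.STK Pool.OWN68
open Pool.BFL (Pb)

section main

variable {Ω Λ 𝒜 ℰ 𝒞 𝒩 : Type} [Fintype Ω] {p : Ω → ℝ} {M r : ℕ} {R e₁ e₂ e₃ : ℝ}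
    {L : Ω → Λ} {t : Ω → ℤ} {A : Ω → 𝒜} {E : Ω → ℰ} {C : Λ → 𝒞} {N : Λ → 𝒩}
    {u n : Λ → ℤ → ℤ} {ks : Λ → ℝ}

/-- **All cells.** -/
theorem thr_all (hp : IsLaw p) (hM : 1 ≤ M) (hr : 1 ≤ r)
    (H : ThrH p M r R e₁ e₂ e₃ L t A E C N u n ks) {R₁ : ℝ} (hR₁ : 0 < R₁) (hR₁R : R₁ ≤ R)
    {κ : ℝ} (hkb : ∀ ω, 0 < p ω → |ks (L ω)| ≤ κ) (hκ : 2 * κ ≤ 8 * r)
    {J : ℕ} {V : ℝ} (Vs Us : ℕ → ℝ) (ms : ℕ → ℕ) (hms : ∀ j < J, r ≤ ms j)
    (hVs : ∀ j < J, 4 * r ≤ Vs j)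
    (hcov : ∀ x : ℝ, V ≤ x → x ≤ 2 * κ * M → ∃ j < J, Vs j ≤ x ∧ x ≤ ms j)
    (hnf : ∀ j < J, ∀ q : Ω → ℝ, IsLaw q → (∀ ω, q ω ≤ R * p ω) →
      CH q (fun ω => n (L ω) (t ω)) (fun ω => ((n (L ω) (t ω) / (ms j : ℤ), u (L ω) (t ω)),
        (t ω, C (L ω)))) ≤ Us j)
    (hbig : ∀ j < J, Us j + 2 * (e₁ + i2 R₁ e₂) + R₁ * e₃ + Real.log 2565 +
      Real.log (16 * r) < Real.log (Vs j)) :
    Pb (glue p p (FF L t A u n) (FF L t A u n)) (fun w => V ≤ |ks (L w.2) - ks (L w.1)| * M) ≤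
      J * (1 / R₁) := by
  have hM0 : (0 : ℝ) < M := by
    have : (1 : ℝ) ≤ M := by exact_mod_cast hM
    linarith
  have hP := P1_law hp (FF L t A u n)
  refine cells_all hP.nonneg (fun w => |ks (L w.2) - ks (L w.1)| * M) (X := 2 * κ * M) Vs
    (fun j => (ms j : ℝ)) hcov (fun w hw => ?_) fun j hj => ?_
  · obtain ⟨a1, a2, -⟩ := P1_pos hp _ hw
    have h1 := abs_sub (ks (L w.2)) (ks (L w.1))
    have h2 := hkb _ a1
    have h3 := hkb _ a2
    exact mul_le_mul_of_nonneg_right (by linarith) hM0.le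
  · rcases le_or_gt (Vs j) (8 * r * M) with h1 | h1
    · exact (thr_cell hp hM hr H hR₁ hR₁R (hms j hj) (hVs j hj) h1 (hnf j hj)
        (hbig j hj)).le
    · have h2 : Pb (glue p p (FF L t A u n) (FF L t A u n)) (fun w =>
          Vs j ≤ |ks (L w.2) - ks (L w.1)| * M ∧ |ks (L w.2) - ks (L w.1)| * M ≤ ms j) ≤
          Pb (glue p p (FF L t A u n) (FF L t A u n)) (fun _ => False) := by
        refine Pb_imp hP.nonneg fun w hw hh => ?_
        obtain ⟨a1, a2, -⟩ := P1_pos hp _ hw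
        have h3 := abs_sub (ks (L w.2)) (ks (L w.1))
        have h4 := hkb _ a1
        have h5 := hkb _ a2
        have h6 : |ks (L w.2) - ks (L w.1)| * M ≤ 8 * r * M :=
          mul_le_mul_of_nonneg_right (by linarith) hM0.le
        linarith [hh.1]
      refine h2.trans ?_
      have h3 : Pb (glue p p (FF L t A u n) (FF L t A u n)) (fun _ => False) = 0 := by
        classical
        rw [← Pb_sum]
        exact Finset.sum_eq_zero fun w _ => if_neg (fun h => h)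
      rw [h3]
      positivity

/-- **The slope is a function of the record.** -/
theorem thr_fun {Γ : Type} (hp : IsLaw p) (F : Ω → Γ) (ks : Λ → ℝ) {V η κ : ℝ}
    (hkb : ∀ ω, 0 < p ω → |ks (L ω)| ≤ κ)
    (h : Pb (glue p p F F) (fun w => V ≤ |ks (L w.2) - ks (L w.1)| * M) ≤ η) :
    ∃ kf : Γ → ℝ, (∀ ω, 0 < p ω → |kf (F ω)| ≤ κ) ∧
      Pb p (fun ω => V ≤ |kf (F ω) - ks (L ω)| * M) ≤ η := by
  obtain ⟨sel, sa, sb⟩ := glue_select hp hp (X := F) (Y := F) (fun _ => rfl)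
    (fun ω ω' => V ≤ |ks (L ω') - ks (L ω)| * M)
  exact ⟨fun g => ks (L (sel g)), fun ω hω => hkb _ (sa ω hω).1, sb.trans h⟩

end main

/-- The floors of two near numbers, after a shift. -/
theorem shift_card {x y θ : ℝ} (hθ : 0 ≤ θ) (h : |x - y| ≤ θ) (m : ℕ) (hm : 1 ≤ m) :
    (((Finset.range m).filter fun i : ℕ => ⌊x + i / m⌋ ≠ ⌊y + i / m⌋).card : ℝ) ≤ θ * m + 1 := by
  have hm0 : (0 : ℝ) < m := by exact_mod_cast hm
  -- wlog x ≤ y
  have key : ∀ x y : ℝ, x ≤ y → y - x ≤ θ →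
      (((Finset.range m).filter fun i : ℕ => ⌊x + i / m⌋ ≠ ⌊y + i / m⌋).card : ℝ) ≤ θ * m + 1 := by
    intro x y hxy hd
    rcases le_or_gt 1 θ with h1 | h1
    · have h2 : ((Finset.range m).filter fun i : ℕ => ⌊x + i / m⌋ ≠ ⌊y + i / m⌋).card ≤ m :=
        (Finset.card_filter_le _ _).trans (by rw [Finset.card_range])
      have h3 : (((Finset.range m).filter fun i : ℕ => ⌊x + i / m⌋ ≠ ⌊y + i / m⌋).card : ℝ) ≤ m := by
        exact_mod_cast h2
      nlinarith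
    -- an integer between x + i / m and y + i / m
    obtain ⟨f, hf⟩ : ∃ f : ℕ → ℤ, ∀ i, f i = i - m * ⌊y + i / m⌋ := ⟨_, fun _ => rfl⟩
    obtain ⟨s, hs⟩ : ∃ s, s = (Finset.range m).filter fun i : ℕ => ⌊x + i / m⌋ ≠ ⌊y + i / m⌋ :=
      ⟨_, rfl⟩
    rw [← hs]
    have hmem : ∀ i ∈ s, (-(m * y) ≤ (f i : ℝ) ∧ (f i : ℝ) ≤ -(m * x)) := by
      intro i hi
      rw [hs, Finset.mem_filter] at hi
      have hne := hi.2
      have h2 : ⌊x + i / m⌋ < ⌊y + i / m⌋ :=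
        lt_of_le_of_ne (Int.floor_le_floor (by linarith)) hne
      have h3 : x + i / m < ⌊y + (i : ℝ) / m⌋ := Int.floor_lt.mp h2
      have h4 := Int.floor_le (y + (i : ℝ) / m)
      rw [hf]
      push_cast
      have e1 : (m : ℝ) * (i / m) = i := by field_simp
      constructor
      · nlinarith
      · nlinarith
    have hinj : Set.InjOn f s := by
      intro i hi j hj hij
      have hi' : i ∈ s := hi
      have hj' : j ∈ s := hj
      rw [hs, Finset.mem_filter, Finset.mem_range] at hi' hj'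
      rw [hf, hf] at hij
      have h2 : ((i : ℤ) - j) = m * (⌊y + (i : ℝ) / m⌋ - ⌊y + (j : ℝ) / m⌋) := by linarith
      have hi0 : (i : ℤ) < m := by exact_mod_cast hi'.1
      have hj0 : (j : ℤ) < m := by exact_mod_cast hj'.1
      have h3 : (m : ℤ) ∣ ((i : ℤ) - j) := ⟨_, h2⟩
      have h4 : (i : ℤ) - j = 0 := by
        refine Int.eq_zero_of_abs_lt_dvd h3 ?_
        rw [abs_lt]
        constructor <;> omega
      omega
    have h5 : (s.card : ℝ) = ((s.image f).card : ℝ) := by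
      rw [Finset.card_image_of_injOn hinj]
    rw [h5]
    exact card_near (s.image f) (B := θ * m) (by positivity)
      (fun a ha b hb => by
        obtain ⟨i, hi, rfl⟩ := Finset.mem_image.mp ha
        obtain ⟨j, hj, rfl⟩ := Finset.mem_image.mp hb
        obtain ⟨g1, g2⟩ := hmem i hi
        obtain ⟨g3, g4⟩ := hmem j hj
        have g5 : (m : ℝ) * (y - x) ≤ θ * m := by
          rw [mul_comm θ]
          exact mul_le_mul_of_nonneg_left hd hm0.le
        rw [abs_le]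
        constructor <;> linarith)
  rcases le_total x y with hxy | hxy
  · exact key x y hxy (by linarith [(abs_le.mp h).1])
  · have h1 := key y x hxy (by linarith [(abs_le.mp h).2])
    have h2 : ((Finset.range m).filter fun i : ℕ => ⌊x + i / m⌋ ≠ ⌊y + i / m⌋) =
        ((Finset.range m).filter fun i : ℕ => ⌊y + i / m⌋ ≠ ⌊x + i / m⌋) :=
      Finset.filter_congr fun i _ => ne_comm
    rw [h2]
    exact h1

/-- **After a shift of the grid the codes are equal.** -/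
theorem shift_eq {Ω : Type} [Fintype Ω] {p : Ω → ℝ} (hp : IsLaw p) (x y : Ω → ℝ) {θ η : ℝ}
    (hθ : 0 ≤ θ) (h : Pb p (fun ω => θ < |x ω - y ω|) ≤ η) (m : ℕ) (hm : 1 ≤ m) :
    ∃ i < m, Pb p (fun ω => ⌊x ω + (i : ℝ) / m⌋ ≠ ⌊y ω + (i : ℝ) / m⌋) ≤ η + θ + 1 / m := by
  classical
  have hm0 : (0 : ℝ) < m := by exact_mod_cast hm
  by_contra hcon
  push Not at hcon
  have h1 : ∑ _i ∈ Finset.range m, (η + θ + 1 / m) < ∑ i ∈ Finset.range m,
      Pb p (fun ω => ⌊x ω + (i : ℝ) / m⌋ ≠ ⌊y ω + (i : ℝ) / m⌋) :=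
    Finset.sum_lt_sum_of_nonempty ⟨0, Finset.mem_range.mpr (by omega)⟩ fun i hi =>
      hcon i (Finset.mem_range.mp hi)
  rw [Finset.sum_const, Finset.card_range, nsmul_eq_mul] at h1
  have h2 : ∑ i ∈ Finset.range m, Pb p (fun ω => ⌊x ω + (i : ℝ) / m⌋ ≠ ⌊y ω + (i : ℝ) / m⌋) ≤
      m * η + (θ * m + 1) := by
    have e : ∀ i ∈ Finset.range m, Pb p (fun ω => ⌊x ω + (i : ℝ) / m⌋ ≠ ⌊y ω + (i : ℝ) / m⌋) =
        ∑ ω, (if ⌊x ω + (i : ℝ) / m⌋ ≠ ⌊y ω + (i : ℝ) / m⌋ then p ω else 0) :=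
      fun i _ => (Pb_sum p _).symm
    rw [Finset.sum_congr rfl e, Finset.sum_comm]
    have e2 : ∀ ω ∈ (Finset.univ : Finset Ω), ∑ i ∈ Finset.range m,
        (if ⌊x ω + (i : ℝ) / m⌋ ≠ ⌊y ω + (i : ℝ) / m⌋ then p ω else 0) ≤
        m * (if θ < |x ω - y ω| then p ω else 0) + (θ * m + 1) * p ω := by
      intro ω _
      rw [← Finset.sum_filter, Finset.sum_const, nsmul_eq_mul]
      have hp0 := hp.nonneg ω
      by_cases hh : θ < |x ω - y ω|
      · rw [if_pos hh]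
        have h3 : ((Finset.range m).filter fun i : ℕ =>
            ⌊x ω + (i : ℝ) / m⌋ ≠ ⌊y ω + (i : ℝ) / m⌋).card ≤ m :=
          (Finset.card_filter_le _ _).trans (by rw [Finset.card_range])
        have h4 : (((Finset.range m).filter fun i : ℕ =>
            ⌊x ω + (i : ℝ) / m⌋ ≠ ⌊y ω + (i : ℝ) / m⌋).card : ℝ) ≤ m := by exact_mod_cast h3
        have h5 := mul_le_mul_of_nonneg_right h4 hp0
        have h6 : 0 ≤ (θ * m + 1) * p ω := by positivity
        linarith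
      · rw [if_neg hh, mul_zero, zero_add]
        push Not at hh
        exact mul_le_mul_of_nonneg_right (shift_card hθ hh m hm) hp0
    refine (Finset.sum_le_sum e2).trans ?_
    rw [Finset.sum_add_distrib, ← Finset.mul_sum, ← Finset.mul_sum, hp.sum_one, mul_one, Pb_sum]
    exact add_le_add_left (mul_le_mul_of_nonneg_left h hm0.le) _
  have h3 : (m : ℝ) * (η + θ + 1 / m) = m * η + (θ * m + 1) := by
    field_simp
    ring
  linarith

end Pool.PR46
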