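import Pool.Agent.H46.PR.Wdg

/-!
# Two hops

`L0 – T1 → L1 – T2 → L2`, and a fresh time `τ` of `L2`. If the velocity data `D` of the lines are
independent of the records given their natural digits (`hI₁`, `hI₂`), then the two times are full given
`(L0, D (L1), D (L2), τ)`. If the height `n` is nonfull given the height `u` for all laws of density at
most `R`, then the freedom `frq` of `n` given `u` is small.
-/

set_option autoImplicit false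

namespace Pool.PR46

open Finset Real
open Pool.Agent.H49.Ent Pool.Agent.H32.Dense Pool.STK Pool.OWN68

/-- Exchange of two variables. -/
theorem swap_full {Ω R S T : Type} [Fintype Ω] {q : Ω → ℝ} (h0 : ∀ ω, 0 ≤ q ω) (A : Ω → R)
    (B : Ω → S) (Z : Ω → T) {l h e₁ e₂ : ℝ} (h1 : l - e₁ ≤ CH q A Z)
    (h2 : h - e₂ ≤ CH q B (fun ω => (A ω, Z ω))) (h3 : CH q B Z ≤ h) :
    l - (e₁ + e₂) ≤ CH q A (fun ω => (B ω, Z ω)) := by
  have c1 := CH_chain2 h0 A B Z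
  have c2 := CH_chain2 h0 B A Z
  have c3 := CH_swap2 h0 A B Z
  linarith

/-- The law of the first hop. -/
noncomputable def P1 {Ω Γ₁ : Type} [Fintype Ω] (p : Ω → ℝ) (G₁ : Ω → Γ₁) : Ω × Ω → ℝ :=
  glue p p G₁ G₁

/-- The line `L1` again. -/
noncomputable def P2 {Ω Λ Γ₁ : Type} [Fintype Ω] (p : Ω → ℝ) (L : Ω → Λ) (G₁ : Ω → Γ₁) :
    (Ω × Ω) × Ω → ℝ :=
  glue (P1 p G₁) p (fun w => L w.2) L

/-- The second hop. -/
noncomputable def P3 {Ω Λ Γ₁ Γ₂ : Type} [Fintype Ω] (p : Ω → ℝ) (L : Ω → Λ) (G₁ : Ω → Γ₁)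
    (G₂ : Ω → Γ₂) : ((Ω × Ω) × Ω) × Ω → ℝ :=
  glue (P2 p L G₁) p (fun w => G₂ w.2) G₂

/-- The line `L2` again. -/
noncomputable def P4 {Ω Λ Γ₁ Γ₂ : Type} [Fintype Ω] (p : Ω → ℝ) (L : Ω → Λ) (G₁ : Ω → Γ₁)
    (G₂ : Ω → Γ₂) : (((Ω × Ω) × Ω) × Ω) × Ω → ℝ :=
  glue (P3 p L G₁ G₂) p (fun w => L w.2) L

section laws

variable {Ω Λ Γ₁ Γ₂ : Type} [Fintype Ω] {p : Ω → ℝ} (hp : IsLaw p) (L : Ω → Λ) (G₁ : Ω → Γ₁)
  (G₂ : Ω → Γ₂)

include hp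

omit [Fintype Ω] hp in
theorem glueLaw {A B T : Type} [Fintype A] [Fintype B] {q : A → ℝ} {r : B → ℝ} (hq : IsLaw q)
    (hr : IsLaw r) {X : A → T} {Y : B → T} (h : ∀ z, law q X z = law r Y z) :
    IsLaw (glue q r X Y) :=
  ⟨glue_nonneg hq.nonneg hr.nonneg, by rw [sum_glue hq.nonneg h, hq.sum_one]⟩

theorem P1_law : IsLaw (P1 p G₁) := glueLaw hp hp fun _ => rfl

theorem P1_f : Marg (P1 p G₁) p (fun w => w.1) := marg_fst hp.nonneg fun _ => rfl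

theorem P1_s : Marg (P1 p G₁) p (fun w => w.2) := marg_snd hp.nonneg fun _ => rfl

theorem P2_z (z : Λ) : law (P1 p G₁) (fun w => L w.2) z = law p L z := (P1_s hp G₁).law L z

theorem P2_law : IsLaw (P2 p L G₁) := glueLaw (P1_law hp G₁) hp (P2_z hp L G₁)

theorem P2_f : Marg (P2 p L G₁) (P1 p G₁) (fun w => w.1) :=
  marg_fst (P1_law hp G₁).nonneg (P2_z hp L G₁)

theorem P2_s : Marg (P2 p L G₁) p (fun w => w.2) := marg_snd hp.nonneg (P2_z hp L G₁)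

theorem P3_z (z : Γ₂) : law (P2 p L G₁) (fun w => G₂ w.2) z = law p G₂ z := (P2_s hp L G₁).law G₂ z

theorem P3_law : IsLaw (P3 p L G₁ G₂) := glueLaw (P2_law hp L G₁) hp (P3_z hp L G₁ G₂)

theorem P3_f : Marg (P3 p L G₁ G₂) (P2 p L G₁) (fun w => w.1) :=
  marg_fst (P2_law hp L G₁).nonneg (P3_z hp L G₁ G₂)

theorem P3_s : Marg (P3 p L G₁ G₂) p (fun w => w.2) := marg_snd hp.nonneg (P3_z hp L G₁ G₂)

theorem P4_z (z : Λ) : law (P3 p L G₁ G₂) (fun w => L w.2) z = law p L z :=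
  (P3_s hp L G₁ G₂).law L z

theorem P4_law : IsLaw (P4 p L G₁ G₂) := glueLaw (P3_law hp L G₁ G₂) hp (P4_z hp L G₁ G₂)

theorem P4_f : Marg (P4 p L G₁ G₂) (P3 p L G₁ G₂) (fun w => w.1) :=
  marg_fst (P3_law hp L G₁ G₂).nonneg (P4_z hp L G₁ G₂)

theorem P4_s : Marg (P4 p L G₁ G₂) p (fun w => w.2) := marg_snd hp.nonneg (P4_z hp L G₁ G₂)

theorem P1_pos {w : Ω × Ω} (h : 0 < P1 p G₁ w) : 0 < p w.1 ∧ 0 < p w.2 ∧ G₁ w.1 = G₁ w.2 :=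
  (glue_pos_iff hp.nonneg hp.nonneg w).mp h

theorem P2_pos {w : (Ω × Ω) × Ω} (h : 0 < P2 p L G₁ w) : 0 < P1 p G₁ w.1 ∧ 0 < p w.2 ∧
    L w.1.2 = L w.2 :=
  (glue_pos_iff (P1_law hp G₁).nonneg hp.nonneg w).mp h

theorem P3_pos {w : ((Ω × Ω) × Ω) × Ω} (h : 0 < P3 p L G₁ G₂ w) : 0 < P2 p L G₁ w.1 ∧ 0 < p w.2 ∧
    G₂ w.1.2 = G₂ w.2 :=
  (glue_pos_iff (P2_law hp L G₁).nonneg hp.nonneg w).mp h

theorem P4_pos {w : (((Ω × Ω) × Ω) × Ω) × Ω} (h : 0 < P4 p L G₁ G₂ w) :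
    0 < P3 p L G₁ G₂ w.1 ∧ 0 < p w.2 ∧ L w.1.2 = L w.2 :=
  (glue_pos_iff (P3_law hp L G₁ G₂).nonneg hp.nonneg w).mp h

/-- Everything about the support of `P3`. -/
theorem P3_sup {w : ((Ω × Ω) × Ω) × Ω} (h : 0 < P3 p L G₁ G₂ w) :
    0 < p w.1.1.1 ∧ 0 < p w.1.1.2 ∧ 0 < p w.1.2 ∧ 0 < p w.2 ∧ G₁ w.1.1.1 = G₁ w.1.1.2 ∧
      L w.1.1.2 = L w.1.2 ∧ G₂ w.1.2 = G₂ w.2 := by
  obtain ⟨a1, a2, a3⟩ := P3_pos hp L G₁ G₂ h
  obtain ⟨b1, b2, b3⟩ := P2_pos hp L G₁ a1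
  obtain ⟨c1, c2, c3⟩ := P1_pos hp G₁ b1
  exact ⟨c1, c2, b2, a2, c3, b3, a3⟩

end laws

/-- **The time of the first hop is full.** -/
theorem full_one {Ω Λ Γ₁ 𝒞 𝒟 𝒩 : Type} [Fintype Ω] {p : Ω → ℝ} (hp : IsLaw p) (L : Ω → Λ)
    (t : Ω → ℤ) (G₁ : Ω → Γ₁) (C : Λ → 𝒞) (D : Λ → 𝒟) (N₁ : Λ → 𝒩) {l e : ℝ}
    (hG₁ : ∀ ω ω', 0 < p ω → 0 < p ω' → G₁ ω = G₁ ω' → C (L ω) = C (L ω') ∧ N₁ (L ω) = N₁ (L ω'))
    (hfull : l - e ≤ CH p t L)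
    (hI₁ : CH p (fun ω => D (L ω)) (fun ω => (N₁ (L ω), C (L ω))) - e ≤
      CH p (fun ω => D (L ω)) G₁) :
    l - (e + e) ≤ CH (P1 p G₁) (fun w => t w.1) (fun w => (D (L w.2), L w.1)) := by
  have h0 := hp.nonneg
  have hP := P1_law hp G₁
  refine swap_full hP.nonneg (fun w : Ω × Ω => t w.1) (fun w : Ω × Ω => D (L w.2))
    (fun w : Ω × Ω => L w.1) (h := CH p (fun ω => D (L ω)) (fun ω => (N₁ (L ω), C (L ω)))) ?_ ?_ ?_
  · rw [(P1_f hp G₁).CH t L]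
    exact hfull
  · refine hI₁.trans ?_
    have h1 : CH (P1 p G₁) (fun w => D (L w.2)) (fun w => (G₁ w.2, w.1)) =
        CH p (fun ω => D (L ω)) G₁ :=
      CH_glue_snd h0 h0 (fun _ => rfl) (fun ω => D (L ω)) (Y := G₁) (fun w => w)
        (fun _ _ _ _ h => h)
    rw [← h1]
    refine CH_mono_cond hP.nonneg fun w w' hw hw' hz => ?_
    have e1 : w.1 = w'.1 := (Prod.ext_iff.mp hz).2
    show (t w.1, L w.1) = (t w'.1, L w'.1)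
    rw [e1]
  · rw [← (P1_s hp G₁).CH (fun ω => D (L ω)) (fun ω => (N₁ (L ω), C (L ω)))]
    refine CH_mono_cond hP.nonneg fun w w' hw hw' hz => ?_
    obtain ⟨a1, a2, a3⟩ := P1_pos hp G₁ hw
    obtain ⟨b1, b2, b3⟩ := P1_pos hp G₁ hw'
    obtain ⟨c1, c2⟩ := hG₁ _ _ a1 a2 a3
    obtain ⟨d1, d2⟩ := hG₁ _ _ b1 b2 b3
    try dsimp only at hz ⊢
    rw [← c1, ← c2, ← d1, ← d2, hz]

/-- **The two times are full.** -/
theorem full_two {Ω Λ Γ₁ Γ₂ 𝒞 𝒟 𝒩₁ 𝒩₂ : Type} [Fintype Ω] {p : Ω → ℝ} (hp : IsLaw p) (L : Ω → Λ)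
    (t : Ω → ℤ) (G₁ : Ω → Γ₁) (G₂ : Ω → Γ₂) (C : Λ → 𝒞) (D : Λ → 𝒟) (N₁ : Λ → 𝒩₁) (N₂ : Λ → 𝒩₂)
    {l e : ℝ}
    (hG₁ : ∀ ω ω', 0 < p ω → 0 < p ω' → G₁ ω = G₁ ω' → C (L ω) = C (L ω') ∧ N₁ (L ω) = N₁ (L ω'))
    (hG₂ : ∀ ω ω', 0 < p ω → 0 < p ω' → G₂ ω = G₂ ω' → C (L ω) = C (L ω') ∧ N₂ (L ω) = N₂ (L ω'))
    (hN₂ : ∀ ω ω', 0 < p ω → 0 < p ω' → D (L ω) = D (L ω') → N₂ (L ω) = N₂ (L ω'))
    (hbox : ∀ {A T : Type} [Fintype A] {q : A → ℝ} (_ : IsLaw q) (pr : A → Ω) (Z : A → T),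
      (∀ a, 0 < q a → 0 < p (pr a)) → CH q (fun a => t (pr a)) Z ≤ l)
    (hfull : l - e ≤ CH p t L)
    (hI₁ : CH p (fun ω => D (L ω)) (fun ω => (N₁ (L ω), C (L ω))) - e ≤
      CH p (fun ω => D (L ω)) G₁)
    (hI₂ : CH p (fun ω => D (L ω)) (fun ω => (N₂ (L ω), C (L ω))) - e ≤
      CH p (fun ω => D (L ω)) G₂) :
    2 * l - 6 * e ≤ CH (P4 p L G₁ G₂) (fun w => (t w.1.1.1.1, t w.1.1.2))
      (fun w => (t w.2, (D (L w.1.2), (D (L w.1.1.1.2), L w.1.1.1.1)))) := by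
  have h0 := hp.nonneg
  have hL1 := P1_law hp G₁
  have hL2 := P2_law hp L G₁
  have hL3 := P3_law hp L G₁ G₂
  have hL4 := P4_law hp L G₁ G₂
  obtain ⟨h, hh⟩ : ∃ h, h = CH p (fun ω => D (L ω)) (fun ω => (N₂ (L ω), C (L ω))) := ⟨_, rfl⟩
  rw [← hh] at hI₂
  -- the entropy of the velocity of `L2` given everything before
  have hD2 : h - e ≤ CH (P3 p L G₁ G₂) (fun w => D (L w.2)) (fun w => w.1) := by
    refine hI₂.trans ?_
    have h1 : CH (P3 p L G₁ G₂) (fun w => D (L w.2)) (fun w => (G₂ w.2, w.1)) =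
        CH p (fun ω => D (L ω)) G₂ :=
      CH_glue_snd hL2.nonneg h0 (P3_z hp L G₁ G₂) (fun ω => D (L ω)) (Y := G₂) (fun w => w)
        (fun _ _ _ _ h => h)
    rw [← h1]
    exact CH_mono_cond hL3.nonneg fun w w' _ _ hz => (Prod.ext_iff.mp hz).2
  -- the upper bound
  have hD2' : ∀ {T : Type} (Z : ((Ω × Ω) × Ω) × Ω → T), (∀ w w', 0 < P3 p L G₁ G₂ w →
      0 < P3 p L G₁ G₂ w' → Z w = Z w' → N₂ (L w.1.1.2) = N₂ (L w'.1.1.2) ∧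
        C (L w.1.1.2) = C (L w'.1.1.2)) → CH (P3 p L G₁ G₂) (fun w => D (L w.2)) Z ≤ h := by
    intro T Z hZ
    rw [hh, ← (P3_s hp L G₁ G₂).CH (fun ω => D (L ω)) (fun ω => (N₂ (L ω), C (L ω)))]
    refine CH_mono_cond hL3.nonneg fun w w' hw hw' hz => ?_
    obtain ⟨q1, q2⟩ := hZ w w' hw hw' hz
    obtain ⟨a1, a2, a3, a4, a5, a6, a7⟩ := P3_sup hp L G₁ G₂ hw
    obtain ⟨b1, b2, b3, b4, b5, b6, b7⟩ := P3_sup hp L G₁ G₂ hw'
    obtain ⟨c1, c2⟩ := hG₂ _ _ a3 a4 a7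
    obtain ⟨d1, d2⟩ := hG₂ _ _ b3 b4 b7
    try dsimp only
    rw [← c1, ← c2, ← d1, ← d2, ← a6, ← b6, q1, q2]
  -- the second time
  have f2 : l - (e + e) ≤ CH (P3 p L G₁ G₂) (fun w => t w.1.2)
      (fun w => (D (L w.2), w.1.1)) := by
    refine swap_full hL3.nonneg (fun w : ((Ω × Ω) × Ω) × Ω => t w.1.2)
      (fun w : ((Ω × Ω) × Ω) × Ω => D (L w.2)) (fun w : ((Ω × Ω) × Ω) × Ω => w.1.1) (h := h) ?_ ?_ ?_
    · have h1 : CH (P3 p L G₁ G₂) (fun w => t w.1.2) (fun w => w.1.1) =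
          CH (P2 p L G₁) (fun w => t w.2) (fun w => w.1) :=
        (P3_f hp L G₁ G₂).CH (fun w => t w.2) (fun w => w.1)
      have h2 : CH (P2 p L G₁) (fun w => t w.2) (fun w => (L w.2, w.1)) = CH p t L :=
        CH_glue_snd hL1.nonneg h0 (P2_z hp L G₁) t (Y := L) (fun w => w) (fun _ _ _ _ h => h)
      rw [h1]
      refine hfull.trans ?_
      rw [← h2]
      exact CH_mono_cond hL2.nonneg fun w w' _ _ hz => (Prod.ext_iff.mp hz).2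
    · refine hD2.trans (CH_mono_cond hL3.nonneg fun w w' _ _ hz => ?_)
      try dsimp only at hz ⊢
      rw [hz]
    · refine hD2' _ fun w w' _ _ hz => ?_
      try dsimp only at hz
      rw [hz]
      exact ⟨rfl, rfl⟩
  -- the first time
  have f1 : l - (e + e + e) ≤ CH (P3 p L G₁ G₂) (fun w => t w.1.1.1)
      (fun w => (D (L w.2), (D (L w.1.1.2), L w.1.1.1))) := by
    refine swap_full hL3.nonneg (fun w : ((Ω × Ω) × Ω) × Ω => t w.1.1.1)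
      (fun w : ((Ω × Ω) × Ω) × Ω => D (L w.2))
      (fun w : ((Ω × Ω) × Ω) × Ω => (D (L w.1.1.2), L w.1.1.1)) (h := h) ?_ ?_ ?_
    · have h1 : CH (P3 p L G₁ G₂) (fun w => t w.1.1.1) (fun w => (D (L w.1.1.2), L w.1.1.1)) =
          CH (P1 p G₁) (fun w => t w.1) (fun w => (D (L w.2), L w.1)) :=
        ((P3_f hp L G₁ G₂).comp (P2_f hp L G₁)).CH (fun w => t w.1) (fun w => (D (L w.2), L w.1))
      rw [h1]
      exact full_one hp L t G₁ C D N₁ hG₁ hfull hI₁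
    · refine hD2.trans (CH_mono_cond hL3.nonneg fun w w' _ _ hz => ?_)
      try dsimp only at hz ⊢
      rw [hz]
    · refine hD2' _ fun w w' hw hw' hz => ?_
      obtain ⟨a1, a2, a3, a4, a5, a6, a7⟩ := P3_sup hp L G₁ G₂ hw
      obtain ⟨b1, b2, b3, b4, b5, b6, b7⟩ := P3_sup hp L G₁ G₂ hw'
      try dsimp only at hz
      have z1 : D (L w.1.1.2) = D (L w'.1.1.2) := (Prod.ext_iff.mp hz).1
      have z2 : L w.1.1.1 = L w'.1.1.1 := (Prod.ext_iff.mp hz).2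
      refine ⟨hN₂ _ _ a2 b2 z1, ?_⟩
      rw [← (hG₁ _ _ a1 a2 a5).1, ← (hG₁ _ _ b1 b2 b5).1, z2]
  -- together
  have f3 : 2 * l - 5 * e ≤ CH (P3 p L G₁ G₂) (fun w => (t w.1.1.1, t w.1.2))
      (fun w => (D (L w.2), (D (L w.1.1.2), L w.1.1.1))) := by
    rw [CH_chain2 hL3.nonneg (fun w : ((Ω × Ω) × Ω) × Ω => t w.1.1.1) (fun w => t w.1.2)
      (fun w => (D (L w.2), (D (L w.1.1.2), L w.1.1.1)))]
    have h1 : CH (P3 p L G₁ G₂) (fun w => t w.1.2) (fun w => (D (L w.2), w.1.1)) ≤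
        CH (P3 p L G₁ G₂) (fun w => t w.1.2)
          (fun w => (t w.1.1.1, (D (L w.2), (D (L w.1.1.2), L w.1.1.1)))) := by
      refine CH_mono_cond hL3.nonneg fun w w' _ _ hz => ?_
      try dsimp only at hz ⊢
      have z1 : D (L w.2) = D (L w'.2) := (Prod.ext_iff.mp hz).1
      have z2 : w.1.1 = w'.1.1 := (Prod.ext_iff.mp hz).2
      rw [z1, z2]
    linarith
  -- the fresh time
  have f4 : l - e ≤ CH (P4 p L G₁ G₂) (fun w => t w.2) (fun w => w.1) := by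
    have h1 : CH (P4 p L G₁ G₂) (fun w => t w.2) (fun w => (L w.2, w.1)) = CH p t L :=
      CH_glue_snd hL3.nonneg h0 (P4_z hp L G₁ G₂) t (Y := L) (fun w => w) (fun _ _ _ _ h => h)
    refine hfull.trans ?_
    rw [← h1]
    exact CH_mono_cond hL4.nonneg fun w w' _ _ hz => (Prod.ext_iff.mp hz).2
  have f5 := swap_full hL4.nonneg (fun w : (((Ω × Ω) × Ω) × Ω) × Ω => (t w.1.1.1.1, t w.1.1.2))
    (fun w : (((Ω × Ω) × Ω) × Ω) × Ω => t w.2)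
    (fun w : (((Ω × Ω) × Ω) × Ω) × Ω => (D (L w.1.2), (D (L w.1.1.1.2), L w.1.1.1.1)))
    (l := 2 * l) (h := l) (e₁ := 5 * e) (e₂ := e) (by
      have h1 : CH (P4 p L G₁ G₂) (fun w => (t w.1.1.1.1, t w.1.1.2))
          (fun w => (D (L w.1.2), (D (L w.1.1.1.2), L w.1.1.1.1))) =
          CH (P3 p L G₁ G₂) (fun w => (t w.1.1.1, t w.1.2))
          (fun w => (D (L w.2), (D (L w.1.1.2), L w.1.1.1))) :=
        (P4_f hp L G₁ G₂).CH (fun w => (t w.1.1.1, t w.1.2))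
          (fun w => (D (L w.2), (D (L w.1.1.2), L w.1.1.1)))
      rw [h1]
      exact f3) (by
      refine f4.trans (CH_mono_cond hL4.nonneg fun w w' _ _ hz => ?_)
      try dsimp only at hz ⊢
      rw [hz]) (by
      exact hbox hL4 (fun w => w.2) _ fun w hw => (P4_pos hp L G₁ G₂ hw).2.1)
  refine le_trans (le_of_eq ?_) f5
  ring

/-- The data of two hops. -/
abbrev Zt (Λ 𝒟 : Type) : Type := ℤ × (𝒟 × (𝒟 × Λ))

/-- The data of a sample. -/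
def zt {Ω Λ 𝒟 : Type} (L : Ω → Λ) (t : Ω → ℤ) (D : Λ → 𝒟) (w : (((Ω × Ω) × Ω) × Ω) × Ω) :
    Zt Λ 𝒟 := (t w.2, (D (L w.1.2), (D (L w.1.1.1.2), L w.1.1.1.1)))

open Classical in
/-- **Two hops, one cell.** -/
theorem two_cell {Ω Λ Γ₁ Γ₂ 𝒞 𝒟 𝒩₁ 𝒩₂ : Type} [Fintype Ω] {p : Ω → ℝ} (hp : IsLaw p)
    {M K m : ℕ} (hM : 1 ≤ M) (L : Ω → Λ) (t : Ω → ℤ) (G₁ : Ω → Γ₁) (G₂ : Ω → Γ₂) (C : Λ → 𝒞)
    (D : Λ → 𝒟) (N₁ : Λ → 𝒩₁) (N₂ : Λ → 𝒩₂) (u n : Λ → ℤ → ℤ) (x₁ x₂ y₁ y₂ a b : Zt Λ 𝒟 → ℝ)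
    {V R e U : ℝ} (hV : 1 ≤ V) (hR : 0 < R) (he : 0 ≤ e)
    (ht : ∀ ω, 0 < p ω → |t ω| ≤ (M : ℤ))
    (hG₁ : ∀ ω ω', 0 < p ω → 0 < p ω' → G₁ ω = G₁ ω' → C (L ω) = C (L ω') ∧ N₁ (L ω) = N₁ (L ω'))
    (hG₂ : ∀ ω ω', 0 < p ω → 0 < p ω' → G₂ ω = G₂ ω' → C (L ω) = C (L ω') ∧ N₂ (L ω) = N₂ (L ω'))
    (hN₂ : ∀ ω ω', 0 < p ω → 0 < p ω' → D (L ω) = D (L ω') → N₂ (L ω) = N₂ (L ω'))
    (hfull : Real.log (2 * M + 1) - e ≤ CH p t L)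
    (hI₁ : CH p (fun ω => D (L ω)) (fun ω => (N₁ (L ω), C (L ω))) - e ≤
      CH p (fun ω => D (L ω)) G₁)
    (hI₂ : CH p (fun ω => D (L ω)) (fun ω => (N₂ (L ω), C (L ω))) - e ≤
      CH p (fun ω => D (L ω)) G₂)
    (hdis : ∀ ω₀ ω₁ ω₁' ω₂, 0 < p ω₀ → 0 < p ω₁ → 0 < p ω₁' → 0 < p ω₂ → G₁ ω₀ = G₁ ω₁ →
      L ω₁ = L ω₁' → G₂ ω₁' = G₂ ω₂ → ∀ τ : ℤ, |τ| ≤ (M : ℤ) → ∀ z : Zt Λ 𝒟,
      z = (τ, (D (L ω₂), (D (L ω₁), L ω₀))) →
      |x₁ z| ≤ M ∧ |x₂ z| ≤ M ∧ |y₁ z| ≤ M ∧ |y₂ z| ≤ M ∧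
      |(u (L ω₂) τ : ℝ) - (a z - (x₁ z * t ω₀ + x₂ z * t ω₁') / M)| ≤ K ∧
      |(n (L ω₂) τ : ℝ) - (b z - (y₁ z * t ω₀ + y₂ z * t ω₁') / M)| ≤ K)
    (hNF : ∀ q : Ω → ℝ, IsLaw q → (∀ ω, q ω ≤ R * p ω) →
      CH q (fun ω => n (L ω) (t ω)) (fun ω => ((n (L ω) (t ω) / m, u (L ω) (t ω)),
        (t ω, (C (L ω), D (L ω))))) ≤ U)
    (hbig : U + 6 * R * e + Real.log (cst K) < Real.log V) :
    ∑ w, (if V ≤ frq (x₁ (zt L t D w)) (x₂ (zt L t D w)) (y₁ (zt L t D w)) (y₂ (zt L t D w)) ∧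
      frq (x₁ (zt L t D w)) (x₂ (zt L t D w)) (y₁ (zt L t D w)) (y₂ (zt L t D w)) ≤ m
      then P4 p L G₁ G₂ w else 0) < 1 / R := by
  have h0 := hp.nonneg
  have hMr : (1 : ℝ) ≤ M := by exact_mod_cast hM
  have hL4 := P4_law hp L G₁ G₂
  obtain ⟨P, hP⟩ : ∃ P, P = P4 p L G₁ G₂ := ⟨_, rfl⟩
  obtain ⟨φ, hφ⟩ : ∃ φ : Zt Λ 𝒟 → ℝ, φ = fun z => frq (x₁ z) (x₂ z) (y₁ z) (y₂ z) := ⟨_, rfl⟩
  obtain ⟨Z, hZ⟩ : ∃ Z, Z = zt L t D := ⟨_, rfl⟩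
  obtain ⟨E, hE⟩ : ∃ E : (((Ω × Ω) × Ω) × Ω) × Ω → Prop, E = fun w => V ≤ φ (Z w) ∧ φ (Z w) ≤ m :=
    ⟨_, rfl⟩
  have el1 : ∑ w, (if V ≤ frq (x₁ (zt L t D w)) (x₂ (zt L t D w)) (y₁ (zt L t D w))
      (y₂ (zt L t D w)) ∧ frq (x₁ (zt L t D w)) (x₂ (zt L t D w)) (y₁ (zt L t D w))
      (y₂ (zt L t D w)) ≤ m then P4 p L G₁ G₂ w else 0) = law P E True := by
    unfold law
    refine Finset.sum_congr rfl fun w _ => ?_
    simp only [hE, hφ, hZ, hP, eq_iff_iff, iff_true]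
  rw [el1]
  by_contra hcon
  push Not at hcon
  rw [← hP] at hL4
  have hR' : 0 < 1 / R := by positivity
  have hE0 : 0 < law P E True := hR'.trans_le hcon
  obtain ⟨Q, hQ⟩ : ∃ Q, Q = cond P E True := ⟨_, rfl⟩
  have hQlaw : IsLaw Q := by
    rw [hQ]
    exact ⟨cond_nonneg hL4.nonneg E True, sum_cond P E hE0.ne'⟩
  have hsup : ∀ w, 0 < Q w → 0 < P4 p L G₁ G₂ w ∧ V ≤ φ (Z w) ∧ φ (Z w) ≤ m := by
    intro w hw
    rw [hQ] at hw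
    obtain ⟨h1, h2⟩ := (cond_pos_iff hL4.nonneg E True w).mp hw
    rw [hP] at h1
    have h3 : E w := of_eq_true h2
    rw [hE] at h3
    exact ⟨h1, h3⟩
  -- fullness
  have hT1 : ∀ w, 0 < P4 p L G₁ G₂ w → |t w.1.1.1.1| ≤ (M : ℤ) := fun w hw =>
    ht _ (P3_sup hp L G₁ G₂ (P4_pos hp L G₁ G₂ hw).1).1
  have hT2 : ∀ w, 0 < P4 p L G₁ G₂ w → |t w.1.1.2| ≤ (M : ℤ) := fun w hw =>
    ht _ (P3_sup hp L G₁ G₂ (P4_pos hp L G₁ G₂ hw).1).2.2.1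
  have hτ : ∀ w, 0 < P4 p L G₁ G₂ w → |t w.2| ≤ (M : ℤ) := fun w hw =>
    ht _ (P4_pos hp L G₁ G₂ hw).2.1
  have hF : 2 * Real.log (2 * M + 1) - 6 * e ≤
      CH P (fun w => (t w.1.1.1.1, t w.1.1.2)) Z := by
    rw [hP, hZ]
    exact full_two hp L t G₁ G₂ C D N₁ N₂ hG₁ hG₂ hN₂
      (fun {A T} _ {q} hq pr Z' hpr => CH_le_box hq (fun a => t (pr a)) Z' fun a ha =>
        ht _ (hpr a ha)) hfull hI₁ hI₂
  have hFQ : 2 * Real.log (2 * M + 1) - 6 * e / (1 / R) ≤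
      CH Q (fun w => (t w.1.1.1.1, t w.1.1.2)) Z := by
    rw [hQ]
    refine deficit_ev hL4 (fun w => (t w.1.1.1.1, t w.1.1.2)) Z (L := 2 * Real.log (2 * M + 1))
      (e := 6 * e) hR' (by linarith) (fun q hq hqp => ?_) hF E (fun w w' hz => ?_) hcon
    · rw [CH_chain2 hq.nonneg (fun w : (((Ω × Ω) × Ω) × Ω) × Ω => t w.1.1.1.1)
        (fun w => t w.1.1.2) Z]
      have g1 := CH_le_box hq (fun w => t w.1.1.1.1) Z fun w hw => hT1 w (by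
        rw [← hP]
        exact hqp w hw)
      have g2 := CH_le_box hq (fun w => t w.1.1.2) (fun w => (t w.1.1.1.1, Z w)) fun w hw =>
        hT2 w (by
          rw [← hP]
          exact hqp w hw)
      linarith
    · rw [hE]
      try dsimp only
      rw [hz]
  have hRe : 6 * e / (1 / R) = 6 * R * e := by
    field_simp
  rw [hRe] at hFQ
  -- the core
  have hcore := wdg_core hQlaw (K := K) (m := m) hM (fun w => t w.1.1.1.1) (fun w => t w.1.1.2)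
    (fun w => u (L w.1.2) (t w.2)) (fun w => n (L w.1.2) (t w.2)) Z x₁ x₂ y₁ y₂ a b hV
    (fun w hw => hT1 w (hsup w hw).1) (fun w hw => hT2 w (hsup w hw).1)
    (fun w hw => by
      obtain ⟨a1, a2, a3, a4, a5, a6, a7⟩ := P3_sup hp L G₁ G₂ (P4_pos hp L G₁ G₂ (hsup w hw).1).1
      exact (hdis _ _ _ _ a1 a2 a3 a4 a5 a6 a7 (t w.2) (hτ w (hsup w hw).1) (Z w)
        (by rw [hZ]; rfl)).1)
    (fun w hw => by
      obtain ⟨a1, a2, a3, a4, a5, a6, a7⟩ := P3_sup hp L G₁ G₂ (P4_pos hp L G₁ G₂ (hsup w hw).1).1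
      exact (hdis _ _ _ _ a1 a2 a3 a4 a5 a6 a7 (t w.2) (hτ w (hsup w hw).1) (Z w)
        (by rw [hZ]; rfl)).2.1)
    (fun w hw => by
      obtain ⟨a1, a2, a3, a4, a5, a6, a7⟩ := P3_sup hp L G₁ G₂ (P4_pos hp L G₁ G₂ (hsup w hw).1).1
      exact (hdis _ _ _ _ a1 a2 a3 a4 a5 a6 a7 (t w.2) (hτ w (hsup w hw).1) (Z w)
        (by rw [hZ]; rfl)).2.2.1)
    (fun w hw => by
      obtain ⟨a1, a2, a3, a4, a5, a6, a7⟩ := P3_sup hp L G₁ G₂ (P4_pos hp L G₁ G₂ (hsup w hw).1).1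
      exact (hdis _ _ _ _ a1 a2 a3 a4 a5 a6 a7 (t w.2) (hτ w (hsup w hw).1) (Z w)
        (by rw [hZ]; rfl)).2.2.2.1)
    (fun w hw => by
      obtain ⟨a1, a2, a3, a4, a5, a6, a7⟩ := P3_sup hp L G₁ G₂ (P4_pos hp L G₁ G₂ (hsup w hw).1).1
      exact (hdis _ _ _ _ a1 a2 a3 a4 a5 a6 a7 (t w.2) (hτ w (hsup w hw).1) (Z w)
        (by rw [hZ]; rfl)).2.2.2.2.1)
    (fun w hw => by
      obtain ⟨a1, a2, a3, a4, a5, a6, a7⟩ := P3_sup hp L G₁ G₂ (P4_pos hp L G₁ G₂ (hsup w hw).1).1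
      exact (hdis _ _ _ _ a1 a2 a3 a4 a5 a6 a7 (t w.2) (hτ w (hsup w hw).1) (Z w)
        (by rw [hZ]; rfl)).2.2.2.2.2)
    (fun w hw => by
      have := (hsup w hw).2.1
      rw [hφ] at this
      exact this)
    (fun w hw => by
      have := (hsup w hw).2.2
      rw [hφ] at this
      exact this)
  -- the nonfull coordinate
  have hd : CH Q (fun w => n (L w.1.2) (t w.2)) (fun w => (n (L w.1.2) (t w.2) / (m : ℤ),
      (u (L w.1.2) (t w.2), Z w))) ≤ U := by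
    have e1 : ∀ w, 0 < Q w → L w.1.2 = L w.2 := fun w hw => (P4_pos hp L G₁ G₂ (hsup w hw).1).2.2
    have e2 : ∀ w, 0 < Q w → C (L w.1.1.1.1) = C (L w.2) := fun w hw => by
      obtain ⟨a1, a2, a3, a4, a5, a6, a7⟩ := P3_sup hp L G₁ G₂ (P4_pos hp L G₁ G₂ (hsup w hw).1).1
      rw [(hG₁ _ _ a1 a2 a5).1, a6, (hG₂ _ _ a3 a4 a7).1, e1 w hw]
    have h1 : CH Q (fun w => n (L w.1.2) (t w.2)) (fun w => (n (L w.1.2) (t w.2) / (m : ℤ),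
        (u (L w.1.2) (t w.2), Z w))) ≤ CH Q (fun w => n (L w.2) (t w.2))
        (fun w => ((n (L w.2) (t w.2) / (m : ℤ), u (L w.2) (t w.2)),
          (t w.2, (C (L w.2), D (L w.2))))) := by
      have h2 : CH Q (fun w => n (L w.1.2) (t w.2)) (fun w => (n (L w.1.2) (t w.2) / (m : ℤ),
          (u (L w.1.2) (t w.2), Z w))) = CH Q (fun w => n (L w.2) (t w.2))
          (fun w => (n (L w.1.2) (t w.2) / (m : ℤ), (u (L w.1.2) (t w.2), Z w))) := by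
        refine CH_congr hQlaw.nonneg ?_ ?_ (fun _ _ _ _ h => h) (fun _ _ _ _ h => h)
        · intro w w' hw hw' hz
          have h3 := (Prod.ext_iff.mp hz).1
          try dsimp only at h3 ⊢
          rw [← e1 w hw, ← e1 w' hw', h3]
        · intro w w' hw hw' hz
          have h3 := (Prod.ext_iff.mp hz).1
          try dsimp only at h3 ⊢
          rw [e1 w hw, e1 w' hw', h3]
      rw [h2]
      refine CH_mono_cond hQlaw.nonneg fun w w' hw hw' hz => ?_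
      try dsimp only at hz ⊢
      have z1 : n (L w.1.2) (t w.2) / (m : ℤ) = n (L w'.1.2) (t w'.2) / (m : ℤ) :=
        (Prod.ext_iff.mp hz).1
      have z2 : u (L w.1.2) (t w.2) = u (L w'.1.2) (t w'.2) :=
        (Prod.ext_iff.mp (Prod.ext_iff.mp hz).2).1
      have z3 : Z w = Z w' := (Prod.ext_iff.mp (Prod.ext_iff.mp hz).2).2
      rw [hZ] at z3
      unfold zt at z3
      have z4 : t w.2 = t w'.2 := (Prod.ext_iff.mp z3).1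
      have z5 : D (L w.1.2) = D (L w'.1.2) := (Prod.ext_iff.mp (Prod.ext_iff.mp z3).2).1
      have z6 : L w.1.1.1.1 = L w'.1.1.1.1 :=
        (Prod.ext_iff.mp (Prod.ext_iff.mp (Prod.ext_iff.mp z3).2).2).2
      rw [← e2 w hw, ← e2 w' hw', ← e1 w hw, ← e1 w' hw', z1, z2, z4, z5, z6]
    refine h1.trans ?_
    have h3 : CH Q (fun w => n (L w.2) (t w.2)) (fun w => ((n (L w.2) (t w.2) / (m : ℤ),
        u (L w.2) (t w.2)), (t w.2, (C (L w.2), D (L w.2))))) =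
        CH (fun ω => law Q (fun w => w.2) ω) (fun ω => n (L ω) (t ω))
          (fun ω => ((n (L ω) (t ω) / (m : ℤ), u (L ω) (t ω)), (t ω, (C (L ω), D (L ω))))) := by
      unfold CH
      rw [← H_eq_of_marginal (q := Q) (p := fun ω => law Q (fun w => w.2) ω) (fun w => w.2)
        (fun ω => rfl) (fun ω => (n (L ω) (t ω), ((n (L ω) (t ω) / (m : ℤ), u (L ω) (t ω)),
          (t ω, (C (L ω), D (L ω)))))),
        ← H_eq_of_marginal (q := Q) (p := fun ω => law Q (fun w => w.2) ω) (fun w => w.2)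
        (fun ω => rfl) (fun ω => ((n (L ω) (t ω) / (m : ℤ), u (L ω) (t ω)),
          (t ω, (C (L ω), D (L ω)))))]
    rw [h3]
    refine hNF _ ⟨fun ω => law_nonneg hQlaw.nonneg _ _, ?_⟩ fun ω => ?_
    · have h4 : ∑ ω, law Q (fun w => w.2) ω = ∑ w, Q w := by
        unfold law
        rw [Finset.sum_comm]
        refine Finset.sum_congr rfl fun w _ => ?_
        rw [Finset.sum_ite_eq]
        simp
      rw [h4, hQlaw.sum_one]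
    · have h4 : law Q (fun w => w.2) ω ≤ R * law P (fun w => w.2) ω := by
        unfold law
        rw [Finset.mul_sum]
        refine Finset.sum_le_sum fun w _ => ?_
        by_cases hu : w.2 = ω
        · rw [if_pos hu, if_pos hu, hQ]
          unfold Pool.Agent.H49.Ent.cond
          split_ifs
          · rw [div_le_iff₀ hE0]
            have h5 : 1 ≤ R * law P E True := by
              have := mul_le_mul_of_nonneg_left hcon hR.le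
              rwa [mul_one_div_cancel hR.ne'] at this
            have h6 := hL4.nonneg w
            nlinarith
          · exact mul_nonneg hR.le (hL4.nonneg w)
        · rw [if_neg hu, if_neg hu, mul_zero]
      have h5 : law P (fun w => w.2) ω = p ω := by
        rw [hP]
        exact (P4_s hp L G₁ G₂) ω
      rwa [h5] at h4
  have hlog : Real.log M ≤ Real.log (2 * M + 1) := Real.log_le_log (by linarith) (by linarith)
  linarith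

end Pool.PR46
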