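import Pool.Agent.H46.PR.Two

/-!
# Two copies of an alive variable are far from each other
-/

set_option autoImplicit false

namespace Pool.PR46

open Finset Real
open Pool.Agent.H49.Ent Pool.Agent.H32.Dense Pool.STK Pool.OWN68

/-- The floors of near numbers. -/
theorem floor_near {a b : ℝ} (h : |a - b| < 1) : ⌊a⌋ ∈ Finset.Icc (⌊b⌋ - 1) (⌊b⌋ + 1) := by
  obtain ⟨h1, h2⟩ := abs_lt.mp h
  have g1 := Int.floor_le a
  have g2 := Int.lt_floor_add_one a
  have g3 := Int.floor_le b
  have g4 := Int.lt_floor_add_one b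
  rw [Finset.mem_Icc]
  constructor
  · have : ((⌊b⌋ - 1 : ℤ) : ℝ) < (⌊a⌋ : ℝ) + 1 := by
      push_cast
      linarith
    have h5 : ⌊b⌋ - 1 < ⌊a⌋ + 1 := by exact_mod_cast this
    omega
  · have : (⌊a⌋ : ℝ) < (⌊b⌋ : ℝ) + 1 + 1 := by linarith
    have h5 : ⌊a⌋ < ⌊b⌋ + 1 + 1 := by exact_mod_cast this
    omega

open Classical in
/-- **Copies of an alive variable.** -/
theorem alive_pairs {Ω Γ : Type} [Fintype Ω] {p : Ω → ℝ} (hp : IsLaw p) (G : Ω → Γ) (x : Ω → ℝ)
    {B δ : ℝ} (hB : 0 < B) (hδ : 0 < δ)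
    (hal : ∀ E : Ω → Prop, δ / 2 ≤ law p E True →
      Real.log (6 / δ) < CH (cond p E True) (fun ω => ⌊x ω / B⌋) G) :
    ∑ w, (if |x w.2 - x w.1| < B then glue p p G G w else 0) < δ := by
  have h0 := hp.nonneg
  by_contra hcon
  push Not at hcon
  obtain ⟨s, hs⟩ : ∃ s : Ω → ℝ, ∀ ω, s ω = ∑ ω', if G ω' = G ω ∧ |x ω' - x ω| < B then p ω' else 0 :=
    ⟨_, fun _ => rfl⟩
  have hs0 : ∀ ω, 0 ≤ s ω := fun ω => by
    rw [hs]
    exact Finset.sum_nonneg fun ω' _ => by split_ifs; exacts [h0 ω', le_rfl]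
  have hsl : ∀ ω, s ω ≤ law p G (G ω) := fun ω => by
    rw [hs]
    unfold law
    refine Finset.sum_le_sum fun ω' _ => ?_
    by_cases h1 : G ω' = G ω
    · rw [if_pos h1]
      split_ifs
      exacts [le_rfl, h0 ω']
    · rw [if_neg (fun h => h1 h.1), if_neg h1]
  have hcop : ∑ w, (if |x w.2 - x w.1| < B then glue p p G G w else 0) =
      ∑ ω, p ω * s ω / law p G (G ω) := by
    rw [Fintype.sum_prod_type]
    refine Finset.sum_congr rfl fun ω _ => ?_
    rw [hs, Finset.mul_sum, Finset.sum_div]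
    refine Finset.sum_congr rfl fun ω' _ => ?_
    unfold glue
    by_cases h1 : G ω' = G ω
    · by_cases h2 : |x ω' - x ω| < B
      · rw [if_pos h2, if_pos h1.symm, if_pos ⟨h1, h2⟩]
      · rw [if_neg h2, if_neg (fun h => h2 h.2), mul_zero, zero_div]
    · rw [if_neg (show ¬ (G ω' = G ω ∧ |x ω' - x ω| < B) from fun h => h1 h.1), mul_zero, zero_div]
      split_ifs with h2 h3
      · exact absurd h3.symm h1
      · rfl
      · rfl
  obtain ⟨E, hE⟩ : ∃ E : Ω → Prop, E = fun ω => δ / 2 * law p G (G ω) ≤ s ω := ⟨_, rfl⟩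
  have hEc : δ / 2 ≤ law p E True := by
    have h1 : ∑ ω, p ω * s ω / law p G (G ω) ≤ law p E True + δ / 2 := by
      have h2 : ∑ ω, p ω * s ω / law p G (G ω) ≤
          ∑ ω, ((if E ω = True then p ω else 0) + p ω * (δ / 2)) := by
        refine Finset.sum_le_sum fun ω _ => ?_
        rcases (h0 ω).eq_or_lt with hz | hz
        · rw [← hz]
          simp
        · have hl : 0 < law p G (G ω) := law_pos h0 G hz
          by_cases hh : E ω
          · rw [if_pos (eq_true hh)]
            have g1 : p ω * s ω / law p G (G ω) ≤ p ω := by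
              rw [div_le_iff₀ hl]
              exact mul_le_mul_of_nonneg_left (hsl ω) hz.le
            have g2 : 0 ≤ p ω * (δ / 2) := by positivity
            linarith
          · rw [if_neg (fun h => hh (of_eq_true h)), zero_add]
            rw [hE] at hh
            push Not at hh
            rw [div_le_iff₀ hl, mul_assoc]
            exact mul_le_mul_of_nonneg_left hh.le hz.le
      refine h2.trans (le_of_eq ?_)
      rw [Finset.sum_add_distrib, ← Finset.sum_mul, hp.sum_one, one_mul]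
      congr 1
      unfold law
      exact Finset.sum_congr rfl fun ω _ => by congr
    rw [← hcop] at h1
    linarith
  have hE0 : 0 < law p E True := by linarith
  have hQ : IsLaw (cond p E True) := ⟨cond_nonneg h0 E True, sum_cond p E hE0.ne'⟩
  refine absurd (hal E hEc) (not_lt.mpr ?_)
  -- counting
  obtain ⟨F, hF⟩ : ∃ F : Γ → Finset ℤ, ∀ g, F g = (Finset.univ.filter fun ω =>
      0 < p ω ∧ E ω ∧ G ω = g).image fun ω => ⌊x ω / B⌋ := ⟨_, fun _ => rfl⟩
  have hmem : ∀ ω, 0 < p ω → E ω → ⌊x ω / B⌋ ∈ F (G ω) := fun ω hω hh => by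
    rw [hF]
    exact Finset.mem_image_of_mem _ (Finset.mem_filter.mpr ⟨Finset.mem_univ _, hω, hh, rfl⟩)
  refine (CH_le_card hQ.nonneg hQ.sum_one _ G F fun ω hω => ?_).trans ?_
  · obtain ⟨h1, h2⟩ := (cond_pos_iff h0 E True ω).mp hω
    exact hmem ω h1 (of_eq_true h2)
  · rw [← Ex_const hQ.sum_one (Real.log (6 / δ))]
    refine Ex_mono hQ.nonneg fun ω hω => ?_
    obtain ⟨h1, h2⟩ := (cond_pos_iff h0 E True ω).mp hω
    have hEω : E ω := of_eq_true h2
    have hc : 0 < (F (G ω)).card := Finset.card_pos.mpr ⟨_, hmem ω h1 hEω⟩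
    refine Real.log_le_log (by exact_mod_cast hc) ?_
    obtain ⟨g, hg⟩ : ∃ g, g = G ω := ⟨_, rfl⟩
    rw [← hg]
    have hl : 0 < law p G g := by rw [hg]; exact law_pos h0 G h1
    -- representatives
    have hrep : ∀ k ∈ F g, ∃ ω', 0 < p ω' ∧ E ω' ∧ G ω' = g ∧ ⌊x ω' / B⌋ = k := by
      intro k hk
      rw [hF] at hk
      obtain ⟨ω', hω', rfl⟩ := Finset.mem_image.mp hk
      obtain ⟨-, a1, a2, a3⟩ := Finset.mem_filter.mp hω'
      exact ⟨ω', a1, a2, a3, rfl⟩
    obtain ⟨r, hr⟩ : ∃ r : ℤ → Ω, ∀ k ∈ F g, 0 < p (r k) ∧ E (r k) ∧ G (r k) = g ∧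
        ⌊x (r k) / B⌋ = k := by
      refine ⟨fun k => if h : k ∈ F g then (hrep k h).choose else ω, fun k hk => ?_⟩
      have e : (if h : k ∈ F g then (hrep k h).choose else ω) = (hrep k hk).choose := dif_pos hk
      show 0 < p (if h : k ∈ F g then (hrep k h).choose else ω) ∧ _
      simp only [e]
      exact (hrep k hk).choose_spec
    have low : (F g).card * (δ / 2 * law p G g) ≤ ∑ k ∈ F g, s (r k) := by
      rw [← nsmul_eq_mul, ← Finset.sum_const]
      refine Finset.sum_le_sum fun k hk => ?_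
      obtain ⟨a1, a2, a3, a4⟩ := hr k hk
      rw [hE] at a2
      rw [← a3]
      exact a2
    have upp : ∑ k ∈ F g, s (r k) ≤ 3 * law p G g := by
      have e1 : ∑ k ∈ F g, s (r k) = ∑ ω', ∑ k ∈ F g,
          (if G ω' = G (r k) ∧ |x ω' - x (r k)| < B then p ω' else 0) := by
        rw [Finset.sum_comm]
        exact Finset.sum_congr rfl fun k _ => hs (r k)
      rw [e1]
      unfold law
      rw [Finset.mul_sum]
      refine Finset.sum_le_sum fun ω' _ => ?_
      by_cases hG : G ω' = g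
      · rw [if_pos hG, ← Finset.sum_filter, Finset.sum_const, nsmul_eq_mul]
        refine mul_le_mul_of_nonneg_right ?_ (h0 ω')
        have hsub : (F g).filter (fun k => G ω' = G (r k) ∧ |x ω' - x (r k)| < B) ⊆
            Finset.Icc (⌊x ω' / B⌋ - 1) (⌊x ω' / B⌋ + 1) := by
          intro k hk
          obtain ⟨hk1, -, hk2⟩ := Finset.mem_filter.mp hk
          obtain ⟨a1, a2, a3, a4⟩ := hr k hk1
          rw [← a4]
          refine floor_near ?_
          rw [← sub_div, abs_div, abs_of_pos hB, div_lt_one hB, abs_sub_comm]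
          exact hk2
        have := Finset.card_le_card hsub
        rw [Int.card_Icc] at this
        have e2 : (⌊x ω' / B⌋ + 1 + 1 - (⌊x ω' / B⌋ - 1)).toNat = 3 := by
          have : ⌊x ω' / B⌋ + 1 + 1 - (⌊x ω' / B⌋ - 1) = 3 := by ring
          rw [this]
          rfl
        rw [e2] at this
        exact_mod_cast this
      · rw [if_neg hG, mul_zero]
        refine le_of_eq (Finset.sum_eq_zero fun k hk => ?_)
        obtain ⟨a1, a2, a3, a4⟩ := hr k hk
        rw [if_neg (fun h => hG (h.1.trans a3))]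
    have hfin := low.trans upp
    rw [le_div_iff₀ hδ]
    have h3 : ((F g).card * δ) * law p G g ≤ 6 * law p G g := by linarith
    exact le_of_mul_le_mul_right h3 hl

end Pool.PR46
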