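import Pool.Agent.H46.PR.Eps

/-!
# From the cells to all values
-/

set_option autoImplicit false

namespace Pool.PR46

open Finset Real
open Pool.BFL (Pb)

/-- **From the cells to all values.** -/
theorem cells_all {A : Type} [Fintype A] {q : A → ℝ} (h0 : ∀ a, 0 ≤ q a) (f : A → ℝ) {V X r : ℝ}
    {J : ℕ} (Vs ms : ℕ → ℝ) (hcov : ∀ x : ℝ, V ≤ x → x ≤ X → ∃ j < J, Vs j ≤ x ∧ x ≤ ms j)
    (hX : ∀ a, 0 < q a → f a ≤ X)
    (hc : ∀ j < J, Pb q (fun a => Vs j ≤ f a ∧ f a ≤ ms j) ≤ r) :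
    Pb q (fun a => V ≤ f a) ≤ J * r := by
  classical
  have h1 : Pb q (fun a => V ≤ f a) ≤ ∑ j ∈ Finset.range J, Pb q (fun a => Vs j ≤ f a ∧ f a ≤ ms j) := by
    have e : ∀ j ∈ Finset.range J, Pb q (fun a => Vs j ≤ f a ∧ f a ≤ ms j) =
        ∑ a, (if Vs j ≤ f a ∧ f a ≤ ms j then q a else 0) := fun j _ => (Pb_sum q _).symm
    rw [Finset.sum_congr rfl e, Finset.sum_comm, ← Pb_sum]
    refine Finset.sum_le_sum fun a _ => ?_
    have hnn : ∀ j ∈ Finset.range J, 0 ≤ (if Vs j ≤ f a ∧ f a ≤ ms j then q a else 0) := by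
      intro j _
      split_ifs
      exacts [h0 a, le_rfl]
    by_cases hv : V ≤ f a
    · rw [if_pos hv]
      rcases (h0 a).eq_or_lt with hz | hz
      · rw [← hz]
        rw [← hz] at hnn
        exact Finset.sum_nonneg hnn
      · obtain ⟨j, hj, hj1, hj2⟩ := hcov _ hv (hX a hz)
        have h2 := Finset.single_le_sum hnn (Finset.mem_range.mpr hj)
        rw [if_pos ⟨hj1, hj2⟩] at h2
        exact h2
    · rw [if_neg hv]
      exact Finset.sum_nonneg hnn
  refine h1.trans ((Finset.sum_le_sum fun j hj => hc j (Finset.mem_range.mp hj)).trans ?_)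
  rw [Finset.sum_const, Finset.card_range, nsmul_eq_mul]

end Pool.PR46
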