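import Pool.Agent.H68.OWN.Hop4

/-!
# Two hops: counting

`cnt_two`: the number of pairs of integers in a box for which two linear forms are near given
numbers, in terms of the determinant and of the coefficients of the second form.
-/

set_option autoImplicit false

namespace Pool.PR46

open Finset Real

/-- Integers which are near each other. -/
theorem card_near (s : Finset ℤ) {B : ℝ} (hB : 0 ≤ B)
    (h : ∀ a ∈ s, ∀ b ∈ s, |(a : ℝ) - b| ≤ B) : (s.card : ℝ) ≤ B + 1 := by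
  rcases s.eq_empty_or_nonempty with rfl | hs
  · simp only [Finset.card_empty, Nat.cast_zero]
    linarith
  · obtain ⟨m, hm⟩ : ∃ m, m = s.min' hs := ⟨_, rfl⟩
    have hms : m ∈ s := by
      rw [hm]
      exact s.min'_mem hs
    have hsub : s ⊆ Finset.Icc m (m + ⌊B⌋) := by
      intro a ha
      rw [Finset.mem_Icc]
      have h1 : m ≤ a := by
        rw [hm]
        exact s.min'_le a ha
      refine ⟨h1, ?_⟩
      have h2 := h a ha m hms
      have h3 : ((a - m : ℤ) : ℝ) ≤ B := by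
        push_cast
        exact (le_abs_self _).trans h2
      have h4 := Int.le_floor.mpr h3
      linarith
    have h5 := Finset.card_le_card hsub
    rw [Int.card_Icc] at h5
    have h6 : 0 ≤ ⌊B⌋ := Int.floor_nonneg.mpr hB
    have h7 : ((m + ⌊B⌋ + 1 - m).toNat : ℤ) = ⌊B⌋ + 1 := by
      rw [Int.toNat_of_nonneg (by linarith)]
      ring
    have h8 : ((m + ⌊B⌋ + 1 - m).toNat : ℝ) = (⌊B⌋ : ℝ) + 1 := by
      exact_mod_cast h7
    have h9 : (s.card : ℝ) ≤ ((m + ⌊B⌋ + 1 - m).toNat : ℝ) := by exact_mod_cast h5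
    rw [h8] at h9
    have := Int.floor_le B
    linarith

/-- Pairs of integers: rows. -/
theorem card_rows (s : Finset (ℤ × ℤ)) {B₁ B₂ : ℝ} (h1 : 0 ≤ B₁) (h2 : 0 ≤ B₂)
    (hr : ∀ a ∈ s, ∀ b ∈ s, |(a.2 : ℝ) - b.2| ≤ B₂)
    (hc : ∀ a ∈ s, ∀ b ∈ s, a.2 = b.2 → |(a.1 : ℝ) - b.1| ≤ B₁) :
    (s.card : ℝ) ≤ (B₂ + 1) * (B₁ + 1) := by
  classical
  have h3 : ((s.image Prod.snd).card : ℝ) ≤ B₂ + 1 := by
    refine card_near _ h2 fun a ha b hb => ?_
    obtain ⟨a', ha', rfl⟩ := Finset.mem_image.mp ha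
    obtain ⟨b', hb', rfl⟩ := Finset.mem_image.mp hb
    exact hr a' ha' b' hb'
  have h4 : (s.card : ℝ) = ∑ j ∈ s.image Prod.snd, ((s.filter fun a => a.2 = j).card : ℝ) := by
    have := Finset.card_eq_sum_card_image (Prod.snd : ℤ × ℤ → ℤ) s
    exact_mod_cast this
  have h5 : ∀ j ∈ s.image Prod.snd, ((s.filter fun a => a.2 = j).card : ℝ) ≤ B₁ + 1 := by
    intro j _
    have h6 : (s.filter fun a => a.2 = j).card =
        ((s.filter fun a => a.2 = j).image Prod.fst).card := by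
      rw [Finset.card_image_of_injOn]
      intro a ha b hb hab
      rw [Finset.mem_coe, Finset.mem_filter] at ha hb
      exact Prod.ext hab (ha.2.trans hb.2.symm)
    rw [h6]
    refine card_near _ h1 fun a ha b hb => ?_
    obtain ⟨a', ha', rfl⟩ := Finset.mem_image.mp ha
    obtain ⟨b', hb', rfl⟩ := Finset.mem_image.mp hb
    obtain ⟨ha1, ha2⟩ := Finset.mem_filter.mp ha'
    obtain ⟨hb1, hb2⟩ := Finset.mem_filter.mp hb'
    exact hc a' ha1 b' hb1 (ha2.trans hb2.symm)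
  rw [h4]
  refine (Finset.sum_le_sum h5).trans ?_
  rw [Finset.sum_const, nsmul_eq_mul]
  exact mul_le_mul_of_nonneg_right h3 (by linarith)

/-- The count, `x₁` is the largest entry. -/
theorem cnt_piv {M : ℕ} (hM : 1 ≤ M) {K x₁ x₂ y₁ y₂ α β : ℝ} (hK : 0 ≤ K) (hx : |x₁| ≤ M)
    (h2 : |x₂| ≤ |x₁|) (h3 : |y₁| ≤ |x₁|) (h4 : |y₂| ≤ |x₁|) (hW : 0 < |x₁ * y₂ - x₂ * y₁|)
    (s : Finset (ℤ × ℤ)) (hs : ∀ a ∈ s, |x₁ * a.1 + x₂ * a.2 - α| ≤ K * M ∧
      |y₁ * a.1 + y₂ * a.2 - β| ≤ K * M) :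
    (s.card : ℝ) ≤ (2 + 8 * K + 8 * K ^ 2) * M ^ 2 / |x₁ * y₂ - x₂ * y₁| := by
  obtain ⟨W, hWd⟩ : ∃ W, W = |x₁ * y₂ - x₂ * y₁| := ⟨_, rfl⟩
  rw [← hWd] at hW ⊢
  have hMr : (1 : ℝ) ≤ M := by exact_mod_cast hM
  obtain ⟨X, hX⟩ : ∃ X, X = |x₁| := ⟨_, rfl⟩
  rw [← hX] at hx h2 h3 h4
  have hX0 : 0 ≤ X := by rw [hX]; exact abs_nonneg _
  have hWX : W ≤ 2 * X ^ 2 := by
    rw [hWd]
    refine (abs_sub _ _).trans ?_
    rw [abs_mul, abs_mul, ← hX]
    nlinarith [abs_nonneg x₂, abs_nonneg y₁, abs_nonneg y₂]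
  have hXp : 0 < X := by
    rcases hX0.eq_or_lt with h | h
    · rw [← h] at hWX
      norm_num at hWX
      linarith
    · exact h
  have hKM : 0 ≤ K * M := by positivity
  have key := card_rows s (B₁ := 2 * (K * M) / X) (B₂ := 4 * (K * M) * X / W) (by positivity)
    (by positivity) (by
      intro a ha b hb
      obtain ⟨a1, a2⟩ := hs a ha
      obtain ⟨b1, b2⟩ := hs b hb
      have d1 : |x₁ * ((a.1 : ℝ) - b.1) + x₂ * ((a.2 : ℝ) - b.2)| ≤ 2 * (K * M) := by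
        have e : x₁ * ((a.1 : ℝ) - b.1) + x₂ * ((a.2 : ℝ) - b.2) =
            (x₁ * a.1 + x₂ * a.2 - α) - (x₁ * b.1 + x₂ * b.2 - α) := by ring
        rw [e]
        refine (abs_sub _ _).trans ?_
        linarith
      have d2 : |y₁ * ((a.1 : ℝ) - b.1) + y₂ * ((a.2 : ℝ) - b.2)| ≤ 2 * (K * M) := by
        have e : y₁ * ((a.1 : ℝ) - b.1) + y₂ * ((a.2 : ℝ) - b.2) =
            (y₁ * a.1 + y₂ * a.2 - β) - (y₁ * b.1 + y₂ * b.2 - β) := by ring
        rw [e]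
        refine (abs_sub _ _).trans ?_
        linarith
      have d3 : W * |(a.2 : ℝ) - b.2| ≤ 4 * (K * M) * X := by
        have e : (x₁ * y₂ - x₂ * y₁) * ((a.2 : ℝ) - b.2) =
            x₁ * (y₁ * ((a.1 : ℝ) - b.1) + y₂ * ((a.2 : ℝ) - b.2)) -
            y₁ * (x₁ * ((a.1 : ℝ) - b.1) + x₂ * ((a.2 : ℝ) - b.2)) := by ring
        rw [hWd, ← abs_mul, e]
        refine (abs_sub _ _).trans ?_
        rw [abs_mul, abs_mul, ← hX]
        have g1 := mul_le_mul_of_nonneg_left d2 hX0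
        have g2 : |y₁| * |x₁ * ((a.1 : ℝ) - b.1) + x₂ * ((a.2 : ℝ) - b.2)| ≤ X * (2 * (K * M)) :=
          mul_le_mul h3 d1 (abs_nonneg _) hX0
        linarith
      rw [le_div_iff₀ hW]
      linarith) (by
      intro a ha b hb hab
      obtain ⟨a1, -⟩ := hs a ha
      obtain ⟨b1, -⟩ := hs b hb
      have d1 : |x₁ * ((a.1 : ℝ) - b.1)| ≤ 2 * (K * M) := by
        have e : x₁ * ((a.1 : ℝ) - b.1) =
            (x₁ * a.1 + x₂ * a.2 - α) - (x₁ * b.1 + x₂ * b.2 - α) := by rw [hab]; ring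
        rw [e]
        refine (abs_sub _ _).trans ?_
        linarith
      rw [abs_mul, ← hX] at d1
      rw [le_div_iff₀ hXp]
      linarith)
  refine key.trans ?_
  have g1 : 2 * (K * M) / X ≤ 4 * K * M ^ 2 / W := by
    rw [div_le_div_iff₀ hXp hW]
    have : 2 * (K * M) * W ≤ 2 * (K * M) * (2 * X ^ 2) := mul_le_mul_of_nonneg_left hWX (by positivity)
    have e : 4 * K * (M : ℝ) ^ 2 * X = 2 * (K * M) * (2 * (M * X)) := by ring
    rw [e]
    refine this.trans (mul_le_mul_of_nonneg_left ?_ (by positivity))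
    nlinarith
  have g2 : 4 * (K * M) * X / W ≤ 4 * K * M ^ 2 / W := by
    refine div_le_div_of_nonneg_right ?_ hW.le
    have : 4 * (K * M) * X ≤ 4 * (K * M) * M := mul_le_mul_of_nonneg_left hx (by positivity)
    linarith
  have g3 : (1 : ℝ) ≤ 2 * M ^ 2 / W := by
    rw [le_div_iff₀ hW, one_mul]
    nlinarith
  have g4 : 4 * (K * M) * X / W * (2 * (K * M) / X) = 8 * K ^ 2 * M ^ 2 / W := by
    field_simp
    ring
  have g5 : (2 + 8 * K + 8 * K ^ 2) * (M : ℝ) ^ 2 / W = 2 * M ^ 2 / W + 4 * K * M ^ 2 / W +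
      4 * K * M ^ 2 / W + 8 * K ^ 2 * M ^ 2 / W := by ring
  rw [g5]
  have g6 : (4 * (K * M) * X / W + 1) * (2 * (K * M) / X + 1) =
      4 * (K * M) * X / W * (2 * (K * M) / X) + 4 * (K * M) * X / W + 2 * (K * M) / X + 1 := by
    ring
  rw [g6, g4]
  linarith

/-- The count with the determinant. -/
theorem cnt_det {M : ℕ} (hM : 1 ≤ M) {K x₁ x₂ y₁ y₂ α β : ℝ} (hK : 0 ≤ K) (h1 : |x₁| ≤ M)
    (h2 : |x₂| ≤ M) (h3 : |y₁| ≤ M) (h4 : |y₂| ≤ M) (hW : 0 < |x₁ * y₂ - x₂ * y₁|)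
    (s : Finset (ℤ × ℤ)) (hs : ∀ a ∈ s, |x₁ * a.1 + x₂ * a.2 - α| ≤ K * M ∧
      |y₁ * a.1 + y₂ * a.2 - β| ≤ K * M) :
    (s.card : ℝ) ≤ (2 + 8 * K + 8 * K ^ 2) * M ^ 2 / |x₁ * y₂ - x₂ * y₁| := by
  classical
  -- swapping the two times
  have sw : ∀ {x₁ x₂ y₁ y₂ α β : ℝ}, |x₂| ≤ M → |x₁| ≤ |x₂| → |y₁| ≤ |x₂| → |y₂| ≤ |x₂| →
      0 < |x₁ * y₂ - x₂ * y₁| → ∀ s : Finset (ℤ × ℤ), (∀ a ∈ s,
        |x₁ * a.1 + x₂ * a.2 - α| ≤ K * M ∧ |y₁ * a.1 + y₂ * a.2 - β| ≤ K * M) →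
      (s.card : ℝ) ≤ (2 + 8 * K + 8 * K ^ 2) * M ^ 2 / |x₁ * y₂ - x₂ * y₁| := by
    intro x₁ x₂ y₁ y₂ α β g1 g2 g3 g4 hW s hs
    have e : |x₂ * y₁ - x₁ * y₂| = |x₁ * y₂ - x₂ * y₁| := abs_sub_comm _ _
    have key := cnt_piv hM (α := α) (β := β) hK g1 g2 g4 g3 (by rw [e]; exact hW)
      (s.image Prod.swap) (by
        intro a ha
        obtain ⟨b, hb, rfl⟩ := Finset.mem_image.mp ha
        obtain ⟨c1, c2⟩ := hs b hb
        refine ⟨?_, ?_⟩
        · have e1 : x₂ * ((b.swap.1 : ℤ) : ℝ) + x₁ * ((b.swap.2 : ℤ) : ℝ) - α =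
              x₁ * b.1 + x₂ * b.2 - α := by
            show x₂ * (b.2 : ℝ) + x₁ * (b.1 : ℝ) - α = _
            ring
          rw [e1]
          exact c1
        · have e1 : y₂ * ((b.swap.1 : ℤ) : ℝ) + y₁ * ((b.swap.2 : ℤ) : ℝ) - β =
              y₁ * b.1 + y₂ * b.2 - β := by
            show y₂ * (b.2 : ℝ) + y₁ * (b.1 : ℝ) - β = _
            ring
          rw [e1]
          exact c2)
    rw [e, Finset.card_image_of_injective s Prod.swap_injective] at key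
    exact key
  have e' : |y₁ * x₂ - y₂ * x₁| = |x₁ * y₂ - x₂ * y₁| := by
    rw [abs_sub_comm]
    congr 1
    ring
  rcases le_total (max |x₁| |x₂|) (max |y₁| |y₂|) with hxy | hxy
  · have q1 : |x₁| ≤ max |y₁| |y₂| := (le_max_left _ _).trans hxy
    have q2 : |x₂| ≤ max |y₁| |y₂| := (le_max_right _ _).trans hxy
    have hs' : ∀ a ∈ s, |y₁ * a.1 + y₂ * a.2 - β| ≤ K * M ∧
        |x₁ * a.1 + x₂ * a.2 - α| ≤ K * M := fun a ha => ⟨(hs a ha).2, (hs a ha).1⟩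
    rw [← e'] at hW ⊢
    rcases le_total |y₁| |y₂| with hy | hy
    · rw [max_eq_right hy] at q1 q2
      exact sw h4 hy q1 q2 hW s hs'
    · rw [max_eq_left hy] at q1 q2
      exact cnt_piv hM hK h3 hy q1 q2 hW s hs'
  · have q1 : |y₁| ≤ max |x₁| |x₂| := (le_max_left _ _).trans hxy
    have q2 : |y₂| ≤ max |x₁| |x₂| := (le_max_right _ _).trans hxy
    rcases le_total |x₁| |x₂| with hy | hy
    · rw [max_eq_right hy] at q1 q2
      exact sw h2 hy q1 q2 hW s hs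
    · rw [max_eq_left hy] at q1 q2
      exact cnt_piv hM hK h1 hy q1 q2 hW s hs

/-- The count with one form. -/
theorem cnt_one {M : ℕ} (hM : 1 ≤ M) {K y₁ y₂ β : ℝ} (hK : 0 ≤ K) (h3 : |y₁| ≤ M)
    (_h : |y₂| ≤ |y₁|) (hy : 0 < |y₁|) (s : Finset (ℤ × ℤ))
    (hs : ∀ a ∈ s, |(a.2 : ℝ)| ≤ M ∧ |y₁ * a.1 + y₂ * a.2 - β| ≤ K * M) :
    (s.card : ℝ) ≤ (3 + 6 * K) * M ^ 2 / |y₁| := by
  have hMr : (1 : ℝ) ≤ M := by exact_mod_cast hM
  have hKM : 0 ≤ K * M := by positivity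
  have key := card_rows s (B₁ := 2 * (K * M) / |y₁|) (B₂ := 2 * M) (by positivity)
    (by positivity) (by
      intro a ha b hb
      have a1 := (hs a ha).1
      have b1 := (hs b hb).1
      refine (abs_sub _ _).trans ?_
      linarith) (by
      intro a ha b hb hab
      have a1 := (hs a ha).2
      have b1 := (hs b hb).2
      have d1 : |y₁ * ((a.1 : ℝ) - b.1)| ≤ 2 * (K * M) := by
        have e : y₁ * ((a.1 : ℝ) - b.1) =
            (y₁ * a.1 + y₂ * a.2 - β) - (y₁ * b.1 + y₂ * b.2 - β) := by rw [hab]; ring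
        rw [e]
        refine (abs_sub _ _).trans ?_
        linarith
      rw [abs_mul] at d1
      rw [le_div_iff₀ hy]
      linarith)
  refine key.trans ?_
  rw [le_div_iff₀ hy]
  have e : (2 * (M : ℝ) + 1) * (2 * (K * M) / |y₁| + 1) * |y₁| =
      (2 * M + 1) * (2 * (K * M) + |y₁|) := by
    field_simp
  rw [e]
  have h5 : 2 * (K * M) + |y₁| ≤ (2 * K + 1) * M := by linarith
  have h6 : (2 * (M : ℝ) + 1) * (2 * (K * M) + |y₁|) ≤ 3 * M * ((2 * K + 1) * M) := by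
    refine mul_le_mul (by linarith) h5 (by positivity) (by positivity)
  refine h6.trans (le_of_eq ?_)
  ring

/-- The size of the freedom of the second form. -/
noncomputable def frd (x₁ x₂ y₁ y₂ : ℝ) : ℝ := max |x₁ * y₂ - x₂ * y₁| (max |y₁| |y₂|)

/-- **The number of pairs.** -/
theorem cnt_two {M : ℕ} (hM : 1 ≤ M) {K x₁ x₂ y₁ y₂ α β : ℝ} (hK : 0 ≤ K) (h1 : |x₁| ≤ M)
    (h2 : |x₂| ≤ M) (h3 : |y₁| ≤ M) (h4 : |y₂| ≤ M) (hV : 0 < frd x₁ x₂ y₁ y₂)
    (s : Finset (ℤ × ℤ)) (hb : ∀ a ∈ s, |(a.1 : ℝ)| ≤ M ∧ |(a.2 : ℝ)| ≤ M)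
    (hs : ∀ a ∈ s, |x₁ * a.1 + x₂ * a.2 - α| ≤ K * M ∧ |y₁ * a.1 + y₂ * a.2 - β| ≤ K * M) :
    (s.card : ℝ) ≤ (3 + 8 * K + 8 * K ^ 2) * M ^ 2 / frd x₁ x₂ y₁ y₂ := by
  classical
  have hMr : (1 : ℝ) ≤ M := by exact_mod_cast hM
  have hy12 : (s.card : ℝ) ≤ (3 + 8 * K + 8 * K ^ 2) * M ^ 2 / max |y₁| |y₂| ∨
      max |y₁| |y₂| = 0 := by
    by_cases hz : max |y₁| |y₂| = 0
    · exact Or.inr hz
    · left
      have hpos : 0 < max |y₁| |y₂| := lt_of_le_of_ne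
        ((abs_nonneg _).trans (le_max_left _ _)) (Ne.symm hz)
      have hmono : (3 + 6 * K) * (M : ℝ) ^ 2 / max |y₁| |y₂| ≤
          (3 + 8 * K + 8 * K ^ 2) * M ^ 2 / max |y₁| |y₂| := by
        refine div_le_div_of_nonneg_right ?_ hpos.le
        refine mul_le_mul_of_nonneg_right ?_ (by positivity)
        nlinarith
      refine le_trans ?_ hmono
      rcases le_total |y₁| |y₂| with hy | hy
      · rw [max_eq_right hy] at hpos ⊢
        have key := cnt_one hM (β := β) hK h4 hy hpos (s.image Prod.swap) (by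
          intro a ha
          obtain ⟨b, hb', rfl⟩ := Finset.mem_image.mp ha
          refine ⟨(hb b hb').1, ?_⟩
          have e1 : y₂ * ((b.swap.1 : ℤ) : ℝ) + y₁ * ((b.swap.2 : ℤ) : ℝ) - β =
              y₁ * b.1 + y₂ * b.2 - β := by
            show y₂ * (b.2 : ℝ) + y₁ * (b.1 : ℝ) - β = _
            ring
          rw [e1]
          exact (hs b hb').2)
        rw [Finset.card_image_of_injective s Prod.swap_injective] at key
        exact key
      · rw [max_eq_left hy] at hpos ⊢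
        exact cnt_one hM hK h3 hy hpos s fun a ha => ⟨(hb a ha).2, (hs a ha).2⟩
  unfold frd at hV ⊢
  rcases le_total |x₁ * y₂ - x₂ * y₁| (max |y₁| |y₂|) with hle | hle
  · rw [max_eq_right hle] at hV ⊢
    rcases hy12 with h | h
    · exact h
    · rw [h] at hV
      exact absurd hV (lt_irrefl _)
  · rw [max_eq_left hle] at hV ⊢
    refine (cnt_det hM hK h1 h2 h3 h4 hV s hs).trans ?_
    refine div_le_div_of_nonneg_right ?_ hV.le
    refine mul_le_mul_of_nonneg_right ?_ (by positivity)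
    linarith

end Pool.PR46
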