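import Pool.Agent.H46.PR.Few

/-!
# Two hops: the constants

`pair_eps`: the hypotheses on one law up to `δ Q`, the height `n` nonfull given the height `u` on all
events of mass at least `c₀`; then the slope `γ` and the velocity `dn - γ (du - dg)` are few given
`G₁`, up to `ε Q`.
-/

set_option autoImplicit false

namespace Pool.PR46

open Finset Real
open Pool.Agent.H49.Ent Pool.Agent.H32.Dense Pool.STK Pool.OWN68
open Pool.BFL (Pb)

/-- The hypotheses for one law. -/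
structure PairH {Ω Λ Γ₁ Γ₂ 𝒞 𝒟 𝒩₁ 𝒩₂ : Type} [Fintype Ω] (p : Ω → ℝ) (M K Q : ℕ)
    (δ c₀ h α B₁ B₂ : ℝ) (L : Ω → Λ) (t : Ω → ℤ) (G₁ : Ω → Γ₁) (G₂ : Ω → Γ₂) (C : Λ → 𝒞) (D : Λ → 𝒟)
    (N₁ : Λ → 𝒩₁) (N₂ : Λ → 𝒩₂) (u n : Λ → ℤ → ℤ) (du dn γ : 𝒟 → ℝ) (dg : Γ₁ → ℝ) : Prop where
  rcs : Recs p M (δ * Q) L t G₁ G₂ C D N₁ N₂
  d1 : Disp p M K L t G₁ D u n du dn
  d2 : Disp p M K L t G₂ D u n du dn
  /-- the copies over `G₂` are along the slope of the line -/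
  bl : ∀ ω ω', 0 < p ω → 0 < p ω' → G₂ ω = G₂ ω' →
      |(dn (D (L ω')) - dn (D (L ω))) - γ (D (L ω)) * (du (D (L ω')) - du (D (L ω)))| ≤
        (2 : ℝ) ^ (δ * Q)
  al1 : ∀ E : Ω → Prop, c₀ ≤ Pb p E →
      α * Q ≤ CH (cond p E True) (fun ω => ⌊du (D (L ω)) / B₁⌋) G₁
  al2 : ∀ E : Ω → Prop, c₀ ≤ Pb p E →
      α * Q ≤ CH (cond p E True) (fun ω => ⌊du (D (L ω)) / B₂⌋) G₂
  nf : ∀ k ≤ Q + 1, ∀ E : Ω → Prop, c₀ ≤ Pb p E →
      CH (cond p E True) (fun ω => n (L ω) (t ω)) (fun ω => ((n (L ω) (t ω) / 2 ^ k,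
        u (L ω) (t ω)), (t ω, (C (L ω), D (L ω))))) ≤ (1 - h) * k * Real.log 2 + δ * Q
  dgb : ∀ ω, 0 < p ω → |du (D (L ω)) - dg (G₁ ω)| ≤ M
  gab : ∀ ω, 0 < p ω → |γ (D (L ω))| ≤ K

/-- Integers with the same quotient. -/
theorem CH_quot {Ω T : Type} [Fintype Ω] {r : Ω → ℝ} (hr : IsLaw r) (x : Ω → ℤ) (Z : Ω → T) {k : ℕ}
    (hz : ∀ ω ω', 0 < r ω → 0 < r ω' → Z ω = Z ω' → x ω / 2 ^ k = x ω' / 2 ^ k) :
    CH r x Z ≤ (k + 2) * Real.log 2 := by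
  have h1 := CH_le_int hr.nonneg hr.sum_one x Z (fun _ => 2 ^ k) (fun ω ω' hω hω' hh => by
    have h2 := hz ω ω' hω hω' hh
    have hk : (0 : ℤ) < 2 ^ k := by positivity
    have a1 := Int.emod_add_mul_ediv (x ω) (2 ^ k)
    have a2 := Int.emod_add_mul_ediv (x ω') (2 ^ k)
    have b1 := Int.emod_nonneg (x ω) hk.ne'
    have b2 := Int.emod_nonneg (x ω') hk.ne'
    have c1 := Int.emod_lt_of_pos (x ω) hk
    have c2 := Int.emod_lt_of_pos (x ω') hk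
    rw [h2] at a1
    have e : x ω - x ω' = x ω % 2 ^ k - x ω' % 2 ^ k := by linarith
    have g : |x ω - x ω'| ≤ 2 ^ k := by
      rw [e, abs_le]
      constructor <;> linarith
    have g2 : ((|x ω - x ω'| : ℤ) : ℝ) ≤ ((2 ^ k : ℤ) : ℝ) := Int.cast_le.mpr g
    rw [Int.cast_abs] at g2
    push_cast at g2 ⊢
    exact g2)
  refine h1.trans ?_
  rw [Ex_const hr.sum_one]
  have h2 : (2 : ℝ) * 2 ^ k + 1 ≤ 2 ^ (k + 2) := by
    rw [pow_add]
    have : (1 : ℝ) ≤ 2 ^ k := one_le_pow₀ (by norm_num)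
    linarith
  refine (Real.log_le_log (by positivity) h2).trans (le_of_eq ?_)
  rw [Real.log_pow]
  push_cast
  ring

/-- The cells. -/
theorem cells_cov {k₀ s J Q : ℕ} (hJ : Q + 1 ≤ k₀ + J * s) (hJ0 : 0 < J) {x : ℝ}
    (h1 : (2 : ℝ) ^ k₀ ≤ x) (h2 : x ≤ 2 ^ (Q + 1)) :
    ∃ j < J, (2 : ℝ) ^ (k₀ + j * s) ≤ x ∧ x ≤ 2 ^ (min (k₀ + (j + 1) * s) (Q + 1)) := by
  have hmin : ∀ m : ℕ, x ≤ 2 ^ m → x ≤ 2 ^ (min m (Q + 1)) := by
    intro m hm
    rcases le_total m (Q + 1) with h | h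
    · rwa [min_eq_left h]
    · rwa [min_eq_right h]
  obtain ⟨j, hj, hj1, hj2⟩ : ∃ j < J, (2 : ℝ) ^ (k₀ + j * s) ≤ x ∧ x ≤ 2 ^ (k₀ + (j + 1) * s) := by
    by_contra hcon
    push Not at hcon
    have key : ∀ j ≤ J, (2 : ℝ) ^ (k₀ + j * s) ≤ x ∧ (0 < j → (2 : ℝ) ^ (k₀ + j * s) < x) := by
      intro j
      induction j with
      | zero => exact fun _ => ⟨by simpa using h1, fun h => absurd h (lt_irrefl _)⟩
      | succ i ih =>
        intro hi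
        have h3 := hcon i (by omega) (ih (by omega)).1
        exact ⟨h3.le, fun _ => h3⟩
    have h3 := (key J le_rfl).2 hJ0
    have h4 : (2 : ℝ) ^ (Q + 1) ≤ 2 ^ (k₀ + J * s) := pow_le_pow_right₀ (by norm_num) hJ
    linarith
  exact ⟨j, hj, hj1, hmin _ hj2⟩

/-- **The pair lemma: constants.** -/
theorem pair_eps (K : ℕ) {h α ε : ℝ} (hh : 0 < h) (hh1 : h ≤ 1) (hα : 0 < α) (hε : 0 < ε) :
    ∃ δ > 0, ∃ c₀ > 0, ∃ Q₀ : ℕ, ∀ Q ≥ Q₀, ∀ M : ℕ, 1 ≤ M → M ≤ 2 ^ Q → ∀ B₁ B₂ : ℝ, 1 ≤ B₁ →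
      B₁ ≤ M → 1 ≤ B₂ → B₂ ≤ M → ∀ {Ω Λ Γ₁ Γ₂ 𝒞 𝒟 𝒩₁ 𝒩₂ : Type} [Fintype Ω] {p : Ω → ℝ},
      IsLaw p → ∀ {L : Ω → Λ} {t : Ω → ℤ} {G₁ : Ω → Γ₁} {G₂ : Ω → Γ₂} {C : Λ → 𝒞} {D : Λ → 𝒟}
      {N₁ : Λ → 𝒩₁} {N₂ : Λ → 𝒩₂} {u n : Λ → ℤ → ℤ} {du dn γ : 𝒟 → ℝ} {dg : Γ₁ → ℝ},
      PairH p M K Q δ c₀ h α B₁ B₂ L t G₁ G₂ C D N₁ N₂ u n du dn γ dg →
      CH p (fun ω => ⌊γ (D (L ω)) / ((2 : ℝ) ^ (ε * Q) * M / (B₁ * B₂))⌋) G₁ ≤ ε * Q ∧
      CH p (fun ω => ⌊(dn (D (L ω)) - γ (D (L ω)) * (du (D (L ω)) - dg (G₁ ω))) /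
        ((2 : ℝ) ^ (ε * Q) * M ^ 2 / (B₁ * B₂))⌋) G₁ ≤ ε * Q := by
  have hl2 : 0 < Real.log 2 := Real.log_pos (by norm_num)
  -- constants
  obtain ⟨η₁, hη₁⟩ : ∃ η₁ : ℝ, η₁ = min ε 1 / 40 := ⟨_, rfl⟩
  have hη₁0 : 0 < η₁ := by rw [hη₁]; have := lt_min hε one_pos; positivity
  have hη₁1 : η₁ ≤ 1 := by rw [hη₁]; have := min_le_right ε 1; linarith
  have hη₁ε : η₁ ≤ ε / 40 := by rw [hη₁]; have := min_le_left ε 1; linarith
  obtain ⟨ε₂, hε₂⟩ : ∃ ε₂ : ℝ, ε₂ = ε / 4 := ⟨_, rfl⟩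
  have hε₂0 : 0 < ε₂ := by rw [hε₂]; positivity
  obtain ⟨J, hJ⟩ : ∃ J : ℕ, J = ⌈16 / (h * ε₂)⌉₊ := ⟨_, rfl⟩
  have hJr : 16 / (h * ε₂) ≤ J := by rw [hJ]; exact Nat.le_ceil _
  have hJ0 : 0 < J := by
    have : (0 : ℝ) < J := lt_of_lt_of_le (by positivity) hJr
    exact_mod_cast this
  have hJ1 : (1 : ℝ) ≤ J := by exact_mod_cast hJ0
  obtain ⟨R, hR⟩ : ∃ R : ℝ, R = J / η₁ := ⟨_, rfl⟩
  have hR1 : 1 ≤ R := by rw [hR, le_div_iff₀ hη₁0]; linarith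
  have hR0 : 0 < R := by linarith
  obtain ⟨θ, hθ⟩ : ∃ θ : ℝ, θ = h * ε₂ / 64 := ⟨_, rfl⟩
  have hθ0 : 0 < θ := by rw [hθ]; positivity
  obtain ⟨N, hN⟩ : ∃ N : ℕ, R / (1 + h / 2) ^ N ≤ θ := by
    obtain ⟨N, hN⟩ := pow_unbounded_of_one_lt (R / θ) (by linarith : 1 < 1 + h / 2)
    refine ⟨N, ?_⟩
    rw [div_le_iff₀ (by positivity)]
    rw [div_lt_iff₀ hθ0] at hN
    linarith
  obtain ⟨c₀, hc₀⟩ : ∃ c₀ : ℝ, c₀ = min (η₁ / 2) (θ * (h / 2) / (R * (1 + h / 2))) := ⟨_, rfl⟩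
  have hc₀0 : 0 < c₀ := by rw [hc₀]; exact lt_min (by positivity) (by positivity)
  have hc₀1 : c₀ ≤ η₁ / 2 := by rw [hc₀]; exact min_le_left _ _
  have hc₀2 : R * c₀ * (1 + h / 2) / (h / 2) ≤ θ := by
    have g : c₀ ≤ θ * (h / 2) / (R * (1 + h / 2)) := by rw [hc₀]; exact min_le_right _ _
    rw [le_div_iff₀ (by positivity)] at g
    rw [div_le_iff₀ (by positivity)]
    linarith
  obtain ⟨δ, hδ⟩ : ∃ δ : ℝ, δ = min ε₂ (h * ε₂ / 16 * Real.log 2 / (2 + 6 * R)) := ⟨_, rfl⟩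
  have hδ0 : 0 < δ := by rw [hδ]; exact lt_min hε₂0 (by positivity)
  have hδ1 : δ ≤ ε₂ := by rw [hδ]; exact min_le_left _ _
  have hδ2 : (2 + 6 * R) * δ ≤ h * ε₂ / 16 * Real.log 2 := by
    have g : δ ≤ h * ε₂ / 16 * Real.log 2 / (2 + 6 * R) := by rw [hδ]; exact min_le_right _ _
    rw [le_div_iff₀ (by positivity)] at g
    linarith
  obtain ⟨c₁, hc₁⟩ : ∃ c₁ : ℝ, c₁ = |Real.log (N + 1)| + |Real.log (cst (2 * K))| := ⟨_, rfl⟩
  have hc₁0 : 0 ≤ c₁ := by rw [hc₁]; positivity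
  refine ⟨δ, hδ0, c₀, hc₀0, ⌈(16 * c₁ / (h * ε₂ * Real.log 2) + 8 / (h * ε₂) + 6 / ε +
    Real.log (5 + 4 * K) + (|Real.log (6 / η₁)| + 1) / α + 2 * Real.log 10 / ε + 4)⌉₊, ?_⟩
  intro Q hQ M hM hMQ B₁ B₂ hB₁ hB₁M hB₂ hB₂M Ω Λ Γ₁ Γ₂ 𝒞 𝒟 𝒩₁ 𝒩₂ _ p hp L t G₁ G₂ C D N₁ N₂ u n
    du dn γ dg H
  have hQr : 16 * c₁ / (h * ε₂ * Real.log 2) + 8 / (h * ε₂) + 6 / ε +
    Real.log (5 + 4 * K) + (|Real.log (6 / η₁)| + 1) / α + 2 * Real.log 10 / ε + 4 ≤ Q :=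
    (Nat.le_ceil _).trans (by exact_mod_cast hQ)
  have q1 : 0 ≤ 16 * c₁ / (h * ε₂ * Real.log 2) := by positivity
  have q2 : 0 ≤ 8 / (h * ε₂) := by positivity
  have q3 : 0 ≤ 6 / ε := by positivity
  have q4 : 0 ≤ Real.log (5 + 4 * K) := Real.log_nonneg (by
    have : (0 : ℝ) ≤ K := Nat.cast_nonneg K
    linarith)
  have q5 : 0 ≤ (|Real.log (6 / η₁)| + 1) / α := by positivity
  have q6 : 0 ≤ 2 * Real.log 10 / ε := by
    have := Real.log_nonneg (by norm_num : (1 : ℝ) ≤ 10)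
    positivity
  have Q1 : 16 * c₁ / (h * ε₂ * Real.log 2) ≤ Q := by linarith
  have Q2 : 8 / (h * ε₂) ≤ Q := by linarith
  have Q3 : 6 / ε ≤ Q := by linarith
  have Q4 : Real.log (5 + 4 * K) ≤ Q := by linarith
  have Q5 : (|Real.log (6 / η₁)| + 1) / α ≤ Q := by linarith
  have Q6 : 2 * Real.log 10 / ε ≤ Q := by linarith
  have Q7 : (4 : ℝ) ≤ Q := by linarith
  rw [div_le_iff₀ (by positivity)] at Q1 Q2 Q3 Q5 Q6
  have hQ0 : (0 : ℝ) < Q := by linarith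
  have hMr : (1 : ℝ) ≤ M := by exact_mod_cast hM
  have hM0 : (0 : ℝ) < M := by linarith
  have hMQr : (M : ℝ) ≤ 2 ^ Q := by exact_mod_cast hMQ
  have hK0 : (0 : ℝ) ≤ K := Nat.cast_nonneg K
  have hB₁0 : 0 < B₁ := by linarith
  have hB₂0 : 0 < B₂ := by linarith
  -- the cells
  obtain ⟨k₀, hk₀⟩ : ∃ k₀ : ℕ, k₀ = ⌈ε₂ * Q⌉₊ := ⟨_, rfl⟩
  have hk1 : ε₂ * Q ≤ k₀ := by rw [hk₀]; exact Nat.le_ceil _
  have hk2 : (k₀ : ℝ) ≤ ε₂ * Q + 1 := by
    rw [hk₀]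
    exact (Nat.ceil_lt_add_one (by positivity)).le
  obtain ⟨s, hs⟩ : ∃ s : ℕ, s = ⌊h * k₀ / 4⌋₊ := ⟨_, rfl⟩
  have hs1 : (s : ℝ) ≤ h * k₀ / 4 := by rw [hs]; exact Nat.floor_le (by positivity)
  have hs2 : h * ε₂ * Q / 8 ≤ s := by
    have g1 : h * k₀ / 4 < s + 1 := by rw [hs]; exact Nat.lt_floor_add_one _
    have g2 : h * (ε₂ * Q) ≤ h * k₀ := mul_le_mul_of_nonneg_left hk1 hh.le
    have g3 : 8 ≤ h * ε₂ * Q := by linarith
    linarith
  have hJs : Q + 1 ≤ k₀ + J * s := by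
    have g1 : (2 : ℝ) * Q ≤ J * s := by
      have g2 : 16 / (h * ε₂) * (h * ε₂ * Q / 8) ≤ J * s :=
        mul_le_mul hJr hs2 (by positivity) (by linarith)
      have g3 : 16 / (h * ε₂) * (h * ε₂ * Q / 8) = 2 * Q := by
        field_simp
        ring
      linarith
    have g4 : ((Q + 1 : ℕ) : ℝ) ≤ ((k₀ + J * s : ℕ) : ℝ) := by
      push_cast
      have : (0 : ℝ) ≤ k₀ := Nat.cast_nonneg _
      linarith
    exact_mod_cast g4
  obtain ⟨kk, hkk⟩ : ∃ kk : ℕ → ℕ, ∀ j, kk j = min (k₀ + (j + 1) * s) (Q + 1) := ⟨_, fun _ => rfl⟩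
  have hkk1 : ∀ j, (kk j : ℝ) ≤ k₀ + (j + 1) * s := fun j => by
    have : kk j ≤ k₀ + (j + 1) * s := by rw [hkk]; exact min_le_left _ _
    exact_mod_cast this
  have hkk2 : ∀ j, kk j ≤ Q + 1 := fun j => by rw [hkk]; exact min_le_right _ _
  have hcel : Cells p M K (2 ^ k₀) R (δ * Q) L t C D u n J (fun j => (2 : ℝ) ^ (k₀ + j * s))
      (fun j => (1 + h / 2) * ((1 - h) * kk j * Real.log 2 + δ * Q) +
        (R * c₀ * (1 + h / 2) / (h / 2) + R / (1 + h / 2) ^ N) * ((Q + 3) * Real.log 2) +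
          Real.log (N + 1)) (fun j => 2 ^ kk j) := by
    refine ⟨fun j _ => one_le_pow₀ (by norm_num), fun x hx1 hx2 => ?_, fun j _ q hq hqd => ?_,
      fun j _ => ?_⟩
    · obtain ⟨j, hj, hj1, hj2⟩ := cells_cov hJs hJ0 hx1 (hx2.trans (by
        rw [pow_succ]
        linarith))
      refine ⟨j, hj, hj1, hj2.trans (le_of_eq ?_)⟩
      rw [← hkk]
      push_cast
      rfl
    · have hcast : ∀ ω, n (L ω) (t ω) / (((2 ^ kk j : ℕ) : ℤ)) = n (L ω) (t ω) / 2 ^ kk j :=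
        fun ω => by push_cast; rfl
      have hcast2 : (fun ω => ((n (L ω) (t ω) / (((2 ^ kk j : ℕ) : ℤ)), u (L ω) (t ω)),
          (t ω, (C (L ω), D (L ω))))) = (fun ω => ((n (L ω) (t ω) / 2 ^ kk j, u (L ω) (t ω)),
          (t ω, (C (L ω), D (L ω))))) := by
        funext ω
        rw [hcast]
      rw [hcast2]
      refine Pool.NFD.nf_dens hp hq hR1 hqd hc₀0 (by positivity : 0 < h / 2)
        (fun ω => n (L ω) (t ω)) (fun ω => ((n (L ω) (t ω) / 2 ^ kk j, u (L ω) (t ω)),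
          (t ω, (C (L ω), D (L ω))))) (L := N) ?_ ?_ (fun A hA => H.nf (kk j) (hkk2 j) A hA) ?_
      · have : 0 ≤ (1 - h) * kk j * Real.log 2 := by
          have : 0 ≤ 1 - h := by linarith
          positivity
        have := mul_pos hδ0 hQ0
        linarith
      · positivity
      · intro r hr _
        refine (CH_quot hr (fun ω => n (L ω) (t ω)) _ (k := kk j) fun ω ω' _ _ hz => ?_).trans ?_
        · have := (Prod.ext_iff.mp (Prod.ext_iff.mp hz).1).1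
          exact this
        · refine mul_le_mul_of_nonneg_right ?_ hl2.le
          have : (kk j : ℝ) ≤ Q + 1 := by exact_mod_cast hkk2 j
          linarith
    · rw [Real.log_pow]
      have g1 : (1 + h / 2) * ((1 - h) * kk j * Real.log 2) ≤
          (1 - h / 2) * (k₀ + (j + 1) * s) * Real.log 2 := by
        have e1 : (1 + h / 2) * ((1 - h) * kk j * Real.log 2) =
            ((1 + h / 2) * (1 - h) * kk j) * Real.log 2 := by ring
        rw [e1]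
        refine mul_le_mul_of_nonneg_right ?_ hl2.le
        have e2 : (1 + h / 2) * (1 - h) ≤ 1 - h / 2 := by nlinarith
        have hkn : (0 : ℝ) ≤ kk j := Nat.cast_nonneg _
        exact (mul_le_mul_of_nonneg_right e2 hkn).trans
          (mul_le_mul_of_nonneg_left (hkk1 j) (by linarith))
      have g2 : (R * c₀ * (1 + h / 2) / (h / 2) + R / (1 + h / 2) ^ N) * ((Q + 3) * Real.log 2) ≤
          h * ε₂ / 16 * Q * Real.log 2 := by
        have e1 : R * c₀ * (1 + h / 2) / (h / 2) + R / (1 + h / 2) ^ N ≤ 2 * θ := by linarith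
        have e2 : ((Q : ℝ) + 3) * Real.log 2 ≤ 2 * Q * Real.log 2 :=
          mul_le_mul_of_nonneg_right (by linarith) hl2.le
        refine (mul_le_mul e1 e2 (by positivity) (by positivity)).trans (le_of_eq ?_)
        rw [hθ]
        ring
      have g3 : (1 + h / 2) * (δ * Q) + 6 * R * (δ * Q) ≤ h * ε₂ / 16 * Real.log 2 * Q := by
        have e1 : (1 + h / 2) * (δ * Q) + 6 * R * (δ * Q) ≤ (2 + 6 * R) * δ * Q := by
          have : (1 + h / 2) * (δ * Q) ≤ 2 * (δ * Q) :=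
            mul_le_mul_of_nonneg_right (by linarith) (by positivity)
          linarith
        exact e1.trans (mul_le_mul_of_nonneg_right hδ2 hQ0.le)
      have g4 : Real.log (N + 1) + Real.log (cst (2 * K)) ≤ h * ε₂ / 16 * Q * Real.log 2 := by
        have e1 : Real.log (N + 1) + Real.log (cst (2 * K)) ≤ c₁ := by
          rw [hc₁]
          exact add_le_add (le_abs_self _) (le_abs_self _)
        linarith
      have g5 : (s : ℝ) * Real.log 2 ≤ h * k₀ / 4 * Real.log 2 :=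
        mul_le_mul_of_nonneg_right hs1 hl2.le
      have g6 : h * (ε₂ * Q) * Real.log 2 ≤ h * k₀ * Real.log 2 :=
        mul_le_mul_of_nonneg_right (mul_le_mul_of_nonneg_left hk1 hh.le) hl2.le
      have g7 : 0 < h * (ε₂ * Q) * Real.log 2 := by positivity
      have g8 : 0 ≤ h / 2 * (j * s) * Real.log 2 := by positivity
      have g9 : 0 ≤ h / 2 * s * Real.log 2 := by positivity
      push_cast
      have e3 : (1 - h / 2) * (k₀ + ((j : ℝ) + 1) * s) * Real.log 2 =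
          (k₀ + j * s) * Real.log 2 + s * Real.log 2 - h / 2 * k₀ * Real.log 2 -
            h / 2 * (j * s) * Real.log 2 - h / 2 * s * Real.log 2 := by ring
      rw [e3] at g1
      have e4 : (1 + h / 2) * ((1 - h) * kk j * Real.log 2 + δ * Q) =
        (1 + h / 2) * ((1 - h) * kk j * Real.log 2) + (1 + h / 2) * (δ * Q) := by ring
      rw [e4]
      linarith
  -- alive
  have hlive : ∀ {Γ : Type} (G : Ω → Γ) (B : ℝ), 0 < B → (∀ E : Ω → Prop, c₀ ≤ Pb p E →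
      α * Q ≤ CH (cond p E True) (fun ω => ⌊du (D (L ω)) / B⌋) G) →
      Pb (glue p p G G) (fun w => |du (D (L w.2)) - du (D (L w.1))| < B) ≤ η₁ := by
    intro Γ G B hB hal
    refine alive_Pb hp G (fun ω => du (D (L ω))) hB hη₁0 fun E hE => ?_
    refine lt_of_lt_of_le ?_ (hal E (hc₀1.trans hE))
    have := le_abs_self (Real.log (6 / η₁))
    linarith
  have hal₁ := hlive G₁ B₁ hB₁0 H.al1
  have hal₂ := hlive G₂ B₂ hB₂0 H.al2
  have hδQ : (0 : ℝ) ≤ δ * Q := by positivity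
  obtain ⟨X, hX⟩ : ∃ X : ℝ, X = (2 : ℝ) ^ (ε₂ * Q) := ⟨_, rfl⟩
  have hX0 : 0 < X := by rw [hX]; positivity
  have hV2 : (2 : ℝ) ^ k₀ ≤ 2 * X := by
    rw [hX, ← Real.rpow_natCast, ← Real.rpow_one_add' (by positivity) (by positivity)]
    exact Real.rpow_le_rpow_of_exponent_le (by norm_num) (by linarith)
  have hW2 : (2 : ℝ) ^ (δ * Q) ≤ X := by
    rw [hX]
    exact Real.rpow_le_rpow_of_exponent_le (by norm_num)
      (mul_le_mul_of_nonneg_right hδ1 hQ0.le)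
  have hXX : 9 * X < (2 : ℝ) ^ (ε * Q) := by
    have e1 : (2 : ℝ) ^ (ε * Q) = (2 : ℝ) ^ (3 * ε * Q / 4) * X := by
      rw [hX, ← Real.rpow_add (by norm_num), hε₂]
      congr 1
      ring
    rw [e1]
    refine mul_lt_mul_of_pos_right ?_ hX0
    have e2 : (2 : ℝ) ^ (4 : ℝ) ≤ (2 : ℝ) ^ (3 * ε * Q / 4) := by
      refine Real.rpow_le_rpow_of_exponent_le (by norm_num) ?_
      linarith
    have e3 : (2 : ℝ) ^ (4 : ℝ) = 16 := by
      rw [show (4 : ℝ) = ((4 : ℕ) : ℝ) by norm_num, Real.rpow_natCast]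
      norm_num
    linarith
  have hVW : (0 : ℝ) ≤ 2 ^ k₀ + (2 : ℝ) ^ (δ * Q) := by positivity
  obtain ⟨Wt, hWt⟩ : ∃ Wt : ℝ, Wt = 2 ^ k₀ + (2 : ℝ) ^ (δ * Q) := ⟨_, rfl⟩
  have hWt1 : Wt ≤ 3 * X := by rw [hWt]; linarith
  obtain ⟨r1, r2⟩ := par_two hp hM hR0 hδQ H.rcs H.d1 H.d2 hB₁0 hB₂0 H.bl hal₁ hal₂ hcel hVW dg H.dgb
  rw [← hWt] at r1 r2 hVW
  have hdd : 2 * (J / R + η₁) + η₁ = 5 * η₁ := by
    rw [hR]
    field_simp
    ring
  rw [hdd] at r1 r2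
  have h10 : 0 ≤ Real.log 10 := Real.log_nonneg (by norm_num)
  have hBB : 0 < B₁ * B₂ := by positivity
  have hBM : B₁ * B₂ ≤ M * M := mul_le_mul hB₁M hB₂M (by linarith) (by linarith)
  have h2ε : (1 : ℝ) ≤ (2 : ℝ) ^ (ε * Q) := Real.one_le_rpow (by norm_num) (by positivity)
  -- the size of the logarithm
  have hlogA : ∀ A : ℝ, 0 ≤ A → A ≤ (1 + 2 * K) * 2 ^ Q → 2 * (5 * η₁) * Real.log (2 * A + 3) ≤
      ε / 2 * Q := by
    intro A hA0 hA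
    have g1 : 2 * A + 3 ≤ (5 + 4 * K) * 2 ^ Q := by
      have : (1 : ℝ) ≤ 2 ^ Q := one_le_pow₀ (by norm_num)
      nlinarith
    have g2 : Real.log (2 * A + 3) ≤ 2 * Q := by
      refine (Real.log_le_log (by linarith) g1).trans ?_
      rw [Real.log_mul (by positivity) (by positivity), Real.log_pow]
      have : Real.log 2 ≤ 1 := by
        have := Real.log_two_lt_d9
        linarith
      nlinarith
    have g3 : 0 ≤ Real.log (2 * A + 3) := Real.log_nonneg (by linarith)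
    have g4 : 2 * (5 * η₁) * Real.log (2 * A + 3) ≤ 2 * (5 * (ε / 40)) * (2 * Q) :=
      mul_le_mul (by linarith) g2 g3 (by positivity)
    linarith
  constructor
  · -- the slope
    have hm0 : 0 < (2 : ℝ) ^ (ε * Q) * M / (B₁ * B₂) := by positivity
    refine (few_ent hp G₁ (fun ω => γ (D (L ω))) (A := (1 + 2 * K) * 2 ^ Q) hm0 ?_ (by positivity)
      r1 ?_).trans ?_
    · have e1 : 2 * (Wt * M / B₂) / B₁ = 2 * Wt * M / (B₁ * B₂) := by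
        field_simp
      rw [e1]
      refine div_lt_div_of_pos_right ?_ hBB
      refine mul_lt_mul_of_pos_right ?_ hM0
      linarith
    · intro ω ω' hω hω' hG
      have a1 := H.gab ω hω
      have a2 := H.gab ω' hω'
      have a3 := abs_sub (γ (D (L ω))) (γ (D (L ω')))
      have a4 : 1 ≤ 2 ^ Q * ((2 : ℝ) ^ (ε * Q) * M / (B₁ * B₂)) := by
        rw [mul_div_assoc', le_div_iff₀ hBB, one_mul]
        refine hBM.trans ?_
        have : (M : ℝ) * M ≤ 2 ^ Q * (1 * M) := by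
          rw [one_mul]
          exact mul_le_mul_of_nonneg_right hMQr hM0.le
        refine this.trans (mul_le_mul_of_nonneg_left ?_ (by positivity))
        exact mul_le_mul_of_nonneg_right h2ε hM0.le
      have a5 : (1 + 2 * (K : ℝ)) * 1 ≤ (1 + 2 * K) * (2 ^ Q * ((2 : ℝ) ^ (ε * Q) * M /
          (B₁ * B₂))) := mul_le_mul_of_nonneg_left a4 (by positivity)
      rw [← mul_assoc] at a5
      linarith
    · have := hlogA ((1 + 2 * K) * 2 ^ Q) (by positivity) le_rfl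
      linarith
  · -- the velocity
    have hm0 : 0 < (2 : ℝ) ^ (ε * Q) * M ^ 2 / (B₁ * B₂) := by positivity
    refine (few_ent hp G₁ (fun ω => dn (D (L ω)) - γ (D (L ω)) * (du (D (L ω)) - dg (G₁ ω)))
      (A := (1 + 2 * K) * 2 ^ Q) hm0 ?_ (by positivity) r2 ?_).trans ?_
    · have e1 : Wt * M / B₂ + 2 * (Wt * M / B₂) / B₁ * M = (Wt * M * B₁ + 2 * Wt * M * M) /
          (B₁ * B₂) := by
        field_simp
      rw [e1]
      refine div_lt_div_of_pos_right ?_ hBB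
      have g1 : Wt * M * B₁ ≤ Wt * M * M := mul_le_mul_of_nonneg_left hB₁M (by positivity)
      have g2 : Wt * M * M + 2 * Wt * M * M = 3 * Wt * M ^ 2 := by ring
      have g3 : 3 * Wt * (M : ℝ) ^ 2 < (2 : ℝ) ^ (ε * Q) * M ^ 2 :=
        mul_lt_mul_of_pos_right (by linarith) (by positivity)
      linarith
    · intro ω ω' hω hω' hG
      have a1 := H.gab ω hω
      have a2 := H.gab ω' hω'
      have b1 := H.dgb ω hω
      have b2 := H.dgb ω' hω'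
      obtain ⟨-, a3, -⟩ := H.d1.dis ω ω' hω hω' hG
      rw [abs_sub_comm] at a3
      have e1 : dn (D (L ω)) - γ (D (L ω)) * (du (D (L ω)) - dg (G₁ ω)) -
          (dn (D (L ω')) - γ (D (L ω')) * (du (D (L ω')) - dg (G₁ ω'))) =
          (dn (D (L ω)) - dn (D (L ω'))) - (γ (D (L ω)) * (du (D (L ω)) - dg (G₁ ω)) -
            γ (D (L ω')) * (du (D (L ω')) - dg (G₁ ω'))) := by ring
      have a4 : |dn (D (L ω)) - γ (D (L ω)) * (du (D (L ω)) - dg (G₁ ω)) -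
          (dn (D (L ω')) - γ (D (L ω')) * (du (D (L ω')) - dg (G₁ ω')))| ≤ (1 + 2 * K) * M := by
        rw [e1]
        refine (abs_sub _ _).trans ?_
        have c1 := abs_sub (γ (D (L ω)) * (du (D (L ω)) - dg (G₁ ω)))
          (γ (D (L ω')) * (du (D (L ω')) - dg (G₁ ω')))
        rw [abs_mul, abs_mul] at c1
        have c2 := mul_le_mul a1 b1 (abs_nonneg _) hK0
        have c3 := mul_le_mul a2 b2 (abs_nonneg _) hK0
        linarith
      refine a4.trans ?_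
      have a5 : (M : ℝ) ≤ 2 ^ Q * ((2 : ℝ) ^ (ε * Q) * M ^ 2 / (B₁ * B₂)) := by
        rw [mul_div_assoc', le_div_iff₀ hBB]
        have c1 : (M : ℝ) * (B₁ * B₂) ≤ 2 ^ Q * (M * M) :=
          mul_le_mul hMQr hBM (by positivity) (by positivity)
        refine c1.trans (mul_le_mul_of_nonneg_left ?_ (by positivity))
        nlinarith
      have a6 : (1 + 2 * (K : ℝ)) * M ≤ (1 + 2 * K) * (2 ^ Q * ((2 : ℝ) ^ (ε * Q) * M ^ 2 /
          (B₁ * B₂))) := mul_le_mul_of_nonneg_left a5 (by positivity)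
      rw [← mul_assoc] at a6
      exact a6
    · have := hlogA ((1 + 2 * K) * 2 ^ Q) (by positivity) le_rfl
      linarith

end Pool.PR46
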