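import Pool.Agent.H46.PR.Par

/-!
# Two hops: the slope and the velocity are few

`par_two`: the slopes `γ` of two copies over `G₁` are near, and so are their velocities
`dn - γ (du - dg)`. `par_few`: so they are few given `G₁`.
-/

set_option autoImplicit false

namespace Pool.PR46

open Finset Real
open Pool.Agent.H49.Ent Pool.Agent.H32.Dense Pool.STK Pool.OWN68
open Pool.BFL (Pb)

/-- Displacement, for the pairs over one record. -/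
structure Disp {Ω Λ Γ 𝒟 : Type} (p : Ω → ℝ) (M K : ℕ) (L : Ω → Λ) (t : Ω → ℤ)
    (G : Ω → Γ) (D : Λ → 𝒟) (u n : Λ → ℤ → ℤ) (du dn : 𝒟 → ℝ) : Prop where
  dis : ∀ ω ω', 0 < p ω → 0 < p ω' → G ω = G ω' →
      |du (D (L ω')) - du (D (L ω))| ≤ M ∧ |dn (D (L ω')) - dn (D (L ω))| ≤ M ∧
      ∀ τ : ℤ, |τ| ≤ (M : ℤ) → |((u (L ω') τ : ℝ) - u (L ω) τ) -
        (du (D (L ω')) - du (D (L ω))) * (((τ : ℝ) - t ω) / M)| ≤ K ∧
        |((n (L ω') τ : ℝ) - n (L ω) τ) -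
        (dn (D (L ω')) - dn (D (L ω))) * (((τ : ℝ) - t ω) / M)| ≤ K

/-- The records, the context, the natural digits. -/
structure Recs {Ω Λ Γ₁ Γ₂ 𝒞 𝒟 𝒩₁ 𝒩₂ : Type} [Fintype Ω] (p : Ω → ℝ) (M : ℕ) (e : ℝ) (L : Ω → Λ)
    (t : Ω → ℤ) (G₁ : Ω → Γ₁) (G₂ : Ω → Γ₂) (C : Λ → 𝒞) (D : Λ → 𝒟) (N₁ : Λ → 𝒩₁)
    (N₂ : Λ → 𝒩₂) : Prop where
  tb : ∀ ω, 0 < p ω → |t ω| ≤ (M : ℤ)
  g1 : ∀ ω ω', 0 < p ω → 0 < p ω' → G₁ ω = G₁ ω' → C (L ω) = C (L ω') ∧ N₁ (L ω) = N₁ (L ω')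
  g2 : ∀ ω ω', 0 < p ω → 0 < p ω' → G₂ ω = G₂ ω' → C (L ω) = C (L ω') ∧ N₂ (L ω) = N₂ (L ω')
  nd : ∀ ω ω', 0 < p ω → 0 < p ω' → D (L ω) = D (L ω') → N₂ (L ω) = N₂ (L ω')
  full : Real.log (2 * M + 1) - e ≤ CH p t L
  i1 : CH p (fun ω => D (L ω)) (fun ω => (N₁ (L ω), C (L ω))) - e ≤
      CH p (fun ω => D (L ω)) G₁
  i2 : CH p (fun ω => D (L ω)) (fun ω => (N₂ (L ω), C (L ω))) - e ≤
      CH p (fun ω => D (L ω)) G₂

/-- The height `n` is nonfull given the height `u`, on the cells. -/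
structure Cells {Ω Λ 𝒞 𝒟 : Type} [Fintype Ω] (p : Ω → ℝ) (M K : ℕ) (V R e : ℝ) (L : Ω → Λ)
    (t : Ω → ℤ) (C : Λ → 𝒞) (D : Λ → 𝒟) (u n : Λ → ℤ → ℤ) (J : ℕ) (Vs Us : ℕ → ℝ)
    (ms : ℕ → ℕ) : Prop where
  one : ∀ j < J, 1 ≤ Vs j
  cov : ∀ x : ℝ, V ≤ x → x ≤ 2 * M → ∃ j < J, Vs j ≤ x ∧ x ≤ ms j
  nf : ∀ j < J, ∀ q : Ω → ℝ, IsLaw q → (∀ ω, q ω ≤ R * p ω) →
      CH q (fun ω => n (L ω) (t ω)) (fun ω => ((n (L ω) (t ω) / ms j, u (L ω) (t ω)),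
        (t ω, (C (L ω), D (L ω))))) ≤ Us j
  big : ∀ j < J, Us j + 6 * R * e + Real.log (cst (2 * K)) < Real.log (Vs j)

/-- **Two hops: the slopes of the copies are near, and so are the velocities.** -/
theorem par_two {Ω Λ Γ₁ Γ₂ 𝒞 𝒟 𝒩₁ 𝒩₂ : Type} [Fintype Ω] {p : Ω → ℝ} (hp : IsLaw p)
    {M K : ℕ} (hM : 1 ≤ M) {L : Ω → Λ} {t : Ω → ℤ} {G₁ : Ω → Γ₁} {G₂ : Ω → Γ₂} {C : Λ → 𝒞}
    {D : Λ → 𝒟} {N₁ : Λ → 𝒩₁} {N₂ : Λ → 𝒩₂} {u n : Λ → ℤ → ℤ} {du dn γ : 𝒟 → ℝ}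
    {V R e : ℝ} (hR : 0 < R) (he : 0 ≤ e) (hrec : Recs p M e L t G₁ G₂ C D N₁ N₂)
    (hd₁ : Disp p M K L t G₁ D u n du dn) (hd₂ : Disp p M K L t G₂ D u n du dn)
    {W₂ B₁ B₂ δ₁ δ₂ : ℝ} (hB₁ : 0 < B₁) (hB₂ : 0 < B₂)
    (hbl₂ : ∀ ω ω', 0 < p ω → 0 < p ω' → G₂ ω = G₂ ω' →
      |(dn (D (L ω')) - dn (D (L ω))) - γ (D (L ω)) * (du (D (L ω')) - du (D (L ω)))| ≤ W₂)
    (hal₁ : Pb (glue p p G₁ G₁) (fun w => |du (D (L w.2)) - du (D (L w.1))| < B₁) ≤ δ₁)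
    (hal₂ : Pb (glue p p G₂ G₂) (fun w => |du (D (L w.2)) - du (D (L w.1))| < B₂) ≤ δ₂)
    {J : ℕ} {Vs Us : ℕ → ℝ} {ms : ℕ → ℕ} (hcel : Cells p M K V R e L t C D u n J Vs Us ms)
    (hVW : 0 ≤ V + W₂) (dg : Γ₁ → ℝ) (hdg : ∀ ω, 0 < p ω → |du (D (L ω)) - dg (G₁ ω)| ≤ M) :
    Pb (glue p p G₁ G₁) (fun w => 2 * ((V + W₂) * M / B₂) / B₁ <
      |γ (D (L w.2)) - γ (D (L w.1))|) ≤ 2 * (J / R + δ₂) + δ₁ ∧
    Pb (glue p p G₁ G₁) (fun w => (V + W₂) * M / B₂ + 2 * ((V + W₂) * M / B₂) / B₁ * M <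
      |(dn (D (L w.2)) - γ (D (L w.2)) * (du (D (L w.2)) - dg (G₁ w.2))) -
        (dn (D (L w.1)) - γ (D (L w.1)) * (du (D (L w.1)) - dg (G₁ w.1)))|) ≤
          2 * (J / R + δ₂) + δ₁ := by
  have h0 := hp.nonneg
  have hPn : ∀ w, 0 ≤ glue p p G₁ G₁ w := (P1_law hp G₁).nonneg
  obtain ⟨W₁, hW₁⟩ : ∃ W₁, W₁ = (V + W₂) * M / B₂ := ⟨_, rfl⟩
  have hW₁0 : 0 ≤ W₁ := by rw [hW₁]; positivity
  have h1 := par_one hp hM L t G₁ G₂ C D N₁ N₂ u n du dn γ (V := V) hR he hrec.tb hrec.g1 hrec.g2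
    hrec.nd hrec.full hrec.i1 hrec.i2 hd₁.dis hd₂.dis hB₂ hbl₂ hal₂ Vs Us ms hcel.one hcel.cov
    hcel.nf hcel.big
  rw [← hW₁] at h1 ⊢
  -- the other side
  have h2 : Pb (glue p p G₁ G₁) (fun w => W₁ < |(dn (D (L w.2)) - dn (D (L w.1))) -
      γ (D (L w.1)) * (du (D (L w.2)) - du (D (L w.1)))|) ≤ J / R + δ₂ := by
    rw [Pb_sym]
    refine (Pb_imp hPn fun w _ hw => ?_).trans h1
    have e : |(dn (D (L w.swap.2)) - dn (D (L w.swap.1))) -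
        γ (D (L w.swap.1)) * (du (D (L w.swap.2)) - du (D (L w.swap.1)))| =
        |(dn (D (L w.2)) - dn (D (L w.1))) - γ (D (L w.2)) * (du (D (L w.2)) - du (D (L w.1)))| := by
      show |(dn (D (L w.1)) - dn (D (L w.2))) - γ (D (L w.2)) * (du (D (L w.1)) - du (D (L w.2)))| = _
      rw [← abs_neg]
      congr 1
      ring
    rw [e] at hw
    exact hw
  -- the bad pairs
  obtain ⟨Bad, hBad⟩ : ∃ Bad : Ω × Ω → Prop, Bad = fun w =>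
      (W₁ < |(dn (D (L w.2)) - dn (D (L w.1))) -
      γ (D (L w.2)) * (du (D (L w.2)) - du (D (L w.1)))| ∨
      W₁ < |(dn (D (L w.2)) - dn (D (L w.1))) -
      γ (D (L w.1)) * (du (D (L w.2)) - du (D (L w.1)))|) ∨
      |du (D (L w.2)) - du (D (L w.1))| < B₁ := ⟨_, rfl⟩
  have hB : Pb (glue p p G₁ G₁) Bad ≤ 2 * (J / R + δ₂) + δ₁ := by
    have g1 := Pb_imp2 hPn (E := Bad) (F := fun w => W₁ < |(dn (D (L w.2)) - dn (D (L w.1))) -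
      γ (D (L w.2)) * (du (D (L w.2)) - du (D (L w.1)))| ∨
      W₁ < |(dn (D (L w.2)) - dn (D (L w.1))) -
      γ (D (L w.1)) * (du (D (L w.2)) - du (D (L w.1)))|)
      (H := fun w => |du (D (L w.2)) - du (D (L w.1))| < B₁) fun w _ hw => by
        rw [hBad] at hw
        exact hw
    have g2 := Pb_imp2 hPn (E := fun w => W₁ < |(dn (D (L w.2)) - dn (D (L w.1))) -
      γ (D (L w.2)) * (du (D (L w.2)) - du (D (L w.1)))| ∨
      W₁ < |(dn (D (L w.2)) - dn (D (L w.1))) -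
      γ (D (L w.1)) * (du (D (L w.2)) - du (D (L w.1)))|)
      (F := fun w => W₁ < |(dn (D (L w.2)) - dn (D (L w.1))) -
      γ (D (L w.2)) * (du (D (L w.2)) - du (D (L w.1)))|)
      (H := fun w => W₁ < |(dn (D (L w.2)) - dn (D (L w.1))) -
      γ (D (L w.1)) * (du (D (L w.2)) - du (D (L w.1)))|) fun w _ hw => hw
    linarith
  have hslope : ∀ w : Ω × Ω, ¬ Bad w → |γ (D (L w.2)) - γ (D (L w.1))| ≤ 2 * W₁ / B₁ ∧
      |(dn (D (L w.2)) - dn (D (L w.1))) -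
      γ (D (L w.1)) * (du (D (L w.2)) - du (D (L w.1)))| ≤ W₁ := by
    intro w hw
    rw [hBad] at hw
    push Not at hw
    obtain ⟨⟨a1, a2⟩, a3⟩ := hw
    refine ⟨?_, a2⟩
    rw [le_div_iff₀ hB₁]
    have e : (γ (D (L w.2)) - γ (D (L w.1))) * (du (D (L w.2)) - du (D (L w.1))) =
        ((dn (D (L w.2)) - dn (D (L w.1))) -
          γ (D (L w.1)) * (du (D (L w.2)) - du (D (L w.1)))) -
        ((dn (D (L w.2)) - dn (D (L w.1))) -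
          γ (D (L w.2)) * (du (D (L w.2)) - du (D (L w.1)))) := by ring
    have g1 : |γ (D (L w.2)) - γ (D (L w.1))| * |du (D (L w.2)) - du (D (L w.1))| ≤ 2 * W₁ := by
      rw [← abs_mul, e]
      refine (abs_sub _ _).trans ?_
      linarith
    exact (mul_le_mul_of_nonneg_left a3 (abs_nonneg _)).trans g1
  refine ⟨(Pb_imp hPn fun w _ hw => ?_).trans hB, (Pb_imp hPn fun w hw0 hw => ?_).trans hB⟩
  · by_contra hcon
    exact absurd (hslope w hcon).1 (not_le.mpr hw)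
  · by_contra hcon
    obtain ⟨hs, hs2⟩ := hslope w hcon
    obtain ⟨p1, p2, p3⟩ := P1_pos hp G₁ hw0
    have hg := hdg w.2 p2
    rw [← p3] at hw hg
    have e : (dn (D (L w.2)) - γ (D (L w.2)) * (du (D (L w.2)) - dg (G₁ w.1))) -
        (dn (D (L w.1)) - γ (D (L w.1)) * (du (D (L w.1)) - dg (G₁ w.1))) =
        ((dn (D (L w.2)) - dn (D (L w.1))) -
          γ (D (L w.1)) * (du (D (L w.2)) - du (D (L w.1)))) -
        (γ (D (L w.2)) - γ (D (L w.1))) * (du (D (L w.2)) - dg (G₁ w.1)) := by ring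
    rw [e] at hw
    refine absurd ((abs_sub _ _).trans (add_le_add hs2 ?_)) (not_le.mpr hw)
    rw [abs_mul]
    exact mul_le_mul hs hg (abs_nonneg _) (by positivity)

/-- **Few bits.** -/
theorem few_ent {Ω Γ : Type} [Fintype Ω] {p : Ω → ℝ} (hp : IsLaw p) (G : Ω → Γ) (x : Ω → ℝ)
    {w₀ m₀ δ A : ℝ} (hm₀ : 0 < m₀) (hwm : w₀ < m₀) (hA : 0 ≤ A)
    (hcop : Pb (glue p p G G) (fun w => w₀ < |x w.2 - x w.1|) ≤ δ)
    (hb : ∀ ω ω', 0 < p ω → 0 < p ω' → G ω = G ω' → |x ω - x ω'| ≤ A * m₀) :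
    CH p (fun ω => ⌊x ω / m₀⌋) G ≤ Real.log 10 + 2 * δ * Real.log (2 * A + 3) := by
  classical
  have h0 := hp.nonneg
  have h1 : ∑ w, (if m₀ ≤ |x w.2 - x w.1| then glue p p G G w else 0) ≤ δ := by
    rw [Pb_sum (glue p p G G) (fun w => m₀ ≤ |x w.2 - x w.1|)]
    exact (Pb_imp (P1_law hp G).nonneg fun w _ hw => hwm.trans_le hw).trans hcop
  have h2 := hop_ent hp G x (V := Real.log (2 * A + 3)) hm₀ (Real.log_nonneg (by linarith)) (by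
      refine le_trans (le_of_eq (Finset.sum_congr rfl fun w _ => ?_)) h1
      congr) (fun q hq hqp => by
    refine (CH_le_int hq.nonneg hq.sum_one _ G (fun _ => A + 1) ?_).trans (le_of_eq ?_)
    · intro ω ω' hω hω' hz
      have g := hb ω ω' (hqp ω hω) (hqp ω' hω') hz
      have g1 : |x ω / m₀ - x ω' / m₀| ≤ A := by
        rw [← sub_div, abs_div, abs_of_pos hm₀, div_le_iff₀ hm₀]
        exact g
      obtain ⟨g2, g3⟩ := abs_le.mp g1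
      have f1 := Int.floor_le (x ω / m₀)
      have f2 := Int.lt_floor_add_one (x ω / m₀)
      have f3 := Int.floor_le (x ω' / m₀)
      have f4 := Int.lt_floor_add_one (x ω' / m₀)
      push_cast
      rw [abs_le]
      constructor <;> linarith
    · rw [Ex_const hq.sum_one]
      congr 1
      ring)
  refine h2.trans (le_of_eq ?_)
  rw [← Real.log_mul (by norm_num) (by norm_num)]
  norm_num

/-- **Copies of an alive variable.** -/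
theorem alive_Pb {Ω Γ : Type} [Fintype Ω] {p : Ω → ℝ} (hp : IsLaw p) (G : Ω → Γ) (x : Ω → ℝ)
    {B δ : ℝ} (hB : 0 < B) (hδ : 0 < δ)
    (hal : ∀ E : Ω → Prop, δ / 2 ≤ Pb p E →
      Real.log (6 / δ) < CH (cond p E True) (fun ω => ⌊x ω / B⌋) G) :
    Pb (glue p p G G) (fun w => |x w.2 - x w.1| < B) ≤ δ := by
  classical
  rw [← Pb_sum]
  refine le_trans (le_of_eq (Finset.sum_congr rfl fun w _ => ?_)) (alive_pairs hp G x hB hδ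
    fun E hE => hal E (by rwa [Pool.NFD.Pb_law] at hE)).le
  congr

end Pool.PR46
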