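import Pool.Agent.H46.PR.Pks

/-!
# Constants: from events to densities, and the cells
-/

set_option autoImplicit false

namespace Pool.PR46

open Finset Real
open Pool.Agent.H49.Ent Pool.Agent.H32.Dense Pool.STK Pool.OWN68
open Pool.BFL (Pb)

/-- **From events to laws of bounded density.** -/
theorem dens_up {X₀ R ε : ℝ} (hX : 0 ≤ X₀) (hR : 1 ≤ R) (hε : 0 < ε) :
    ∃ c₀ > 0, ∃ δ > 0, ∃ Q₀ : ℕ, ∀ Q ≥ Q₀, ∀ {Ω S T : Type} [Fintype Ω] {p q : Ω → ℝ}, IsLaw p →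
      IsLaw q → (∀ w, q w ≤ R * p w) → ∀ (X : Ω → S) (Y : Ω → T) {U : ℝ}, 0 ≤ U → U ≤ X₀ * Q →
      (∀ E : Ω → Prop, c₀ ≤ Pb p E → CH (cond p E True) X Y ≤ U + δ * Q) →
      (∀ r : Ω → ℝ, IsLaw r → (∀ w, 0 < r w → 0 < p w) → CH r X Y ≤ X₀ * Q) →
      CH q X Y ≤ U + ε * Q := by
  obtain ⟨η, hη⟩ : ∃ η : ℝ, η = min 1 (ε / (8 * (X₀ + 1))) := ⟨_, rfl⟩
  have hη0 : 0 < η := by rw [hη]; exact lt_min one_pos (by positivity)
  have hη1 : η ≤ 1 := by rw [hη]; exact min_le_left _ _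
  have hη2 : η * X₀ ≤ ε / 8 := by
    have g : η ≤ ε / (8 * (X₀ + 1)) := by rw [hη]; exact min_le_right _ _
    rw [le_div_iff₀ (by positivity)] at g
    nlinarith
  obtain ⟨N, hN⟩ : ∃ N : ℕ, R / (1 + η) ^ N * (X₀ + 1) ≤ ε / 8 := by
    obtain ⟨N, hN⟩ := pow_unbounded_of_one_lt (R * (X₀ + 1) / (ε / 8)) (by linarith : 1 < 1 + η)
    refine ⟨N, ?_⟩
    rw [div_lt_iff₀ (by positivity)] at hN
    rw [div_mul_eq_mul_div, div_le_iff₀ (by positivity)]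
    linarith
  obtain ⟨c₀, hc₀⟩ : ∃ c₀ : ℝ, c₀ = ε / 8 * η / (R * (1 + η) * (X₀ + 1)) := ⟨_, rfl⟩
  have hc0 : 0 < c₀ := by rw [hc₀]; positivity
  refine ⟨c₀, hc0, ε / 16, by positivity, ⌈8 * |Real.log (N + 1)| / ε⌉₊, ?_⟩
  intro Q hQ Ω S T _ p q hp hq hd X Y U hU0 hUX hev hall
  have hQr : 8 * |Real.log (N + 1)| / ε ≤ Q := (Nat.le_ceil _).trans (by exact_mod_cast hQ)
  rw [div_le_iff₀ hε] at hQr
  have hQ0 : (0 : ℝ) ≤ Q := Nat.cast_nonneg Q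
  have h1 := Pool.NFD.nf_dens hp hq hR hd hc0 hη0 X Y (U := U + ε / 16 * Q) (V := X₀ * Q) (L := N)
    (by positivity) (by positivity) hev hall
  have h2 : (1 + η) * (U + ε / 16 * Q) ≤ U + ε / 8 * Q + ε / 8 * Q := by
    have g1 : η * U ≤ ε / 8 * Q := by
      have := mul_le_mul_of_nonneg_left hUX hη0.le
      nlinarith
    have g2 : (1 + η) * (ε / 16 * Q) ≤ 2 * (ε / 16 * Q) :=
      mul_le_mul_of_nonneg_right (by linarith) (by positivity)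
    nlinarith
  have h3 : R * c₀ * (1 + η) / η * (X₀ * Q) ≤ ε / 8 * Q := by
    have e : R * c₀ * (1 + η) / η = ε / 8 / (X₀ + 1) := by
      rw [hc₀]
      field_simp
    rw [e]
    have : ε / 8 / (X₀ + 1) * X₀ ≤ ε / 8 := by
      rw [div_mul_eq_mul_div, div_le_iff₀ (by positivity)]
      nlinarith
    nlinarith
  have h4 : R / (1 + η) ^ N * (X₀ * Q) ≤ ε / 8 * Q := by
    have g1 : R / (1 + η) ^ N * X₀ ≤ ε / 8 := by
      have : 0 ≤ R / (1 + η) ^ N := by positivity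
      nlinarith
    nlinarith
  have h5 : Real.log (N + 1) ≤ ε / 8 * Q := by
    have := le_abs_self (Real.log ((N : ℝ) + 1))
    linarith
  have h6 : (R * c₀ * (1 + η) / η + R / (1 + η) ^ N) * (X₀ * Q) ≤ ε / 8 * Q + ε / 8 * Q := by
    rw [add_mul]
    linarith
  have h7 : 0 ≤ ε * Q := by positivity
  linarith

/-- **The cells.** -/
theorem cells_mk {h ε₂ : ℝ} (hh : 0 < h) (hh1 : h ≤ 1) (hε : 0 < ε₂) (hε1 : ε₂ ≤ 1) :
    ∃ J : ℕ, 0 < J ∧ ∃ Q₀ : ℕ, ∀ Q : ℕ, Q₀ ≤ Q → ∃ (k₀ : ℕ) (a b : ℕ → ℕ), ε₂ * Q ≤ k₀ ∧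
      (k₀ : ℝ) ≤ ε₂ * Q + 1 ∧
      (∀ j < J, k₀ ≤ a j ∧ k₀ ≤ b j ∧ b j ≤ 2 * Q ∧
        (1 - h) * b j * Real.log 2 + h * ε₂ / 2 * Real.log 2 * Q ≤ a j * Real.log 2) ∧
      (∀ x : ℝ, (2 : ℝ) ^ k₀ ≤ x → x ≤ 2 ^ (2 * Q) → ∃ j < J, (2 : ℝ) ^ (a j) ≤ x ∧
        x ≤ 2 ^ (b j)) := by
  have hl2 : 0 < Real.log 2 := Real.log_pos (by norm_num)
  obtain ⟨J, hJ⟩ : ∃ J : ℕ, J = ⌈16 / (h * ε₂)⌉₊ := ⟨_, rfl⟩
  have hJr : 16 / (h * ε₂) ≤ J := by rw [hJ]; exact Nat.le_ceil _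
  have hJ0 : 0 < J := by
    have : (0 : ℝ) < J := lt_of_lt_of_le (by positivity) hJr
    exact_mod_cast this
  refine ⟨J, hJ0, ⌈8 / (h * ε₂) + 1⌉₊, fun Q hQ => ?_⟩
  have hQr : 8 / (h * ε₂) + 1 ≤ Q := (Nat.le_ceil _).trans (by exact_mod_cast hQ)
  have hQ1 : 8 / (h * ε₂) ≤ Q := by linarith
  have hQ1' : (1 : ℝ) ≤ Q := by
    have : 0 < 8 / (h * ε₂) := by positivity
    linarith
  have hQ1n : 1 ≤ Q := by exact_mod_cast hQ1'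
  rw [div_le_iff₀ (by positivity)] at hQ1
  obtain ⟨k₀, hk₀⟩ : ∃ k₀ : ℕ, k₀ = ⌈ε₂ * Q⌉₊ := ⟨_, rfl⟩
  have hk1 : ε₂ * Q ≤ k₀ := by rw [hk₀]; exact Nat.le_ceil _
  have hk2 : (k₀ : ℝ) ≤ ε₂ * Q + 1 := by
    rw [hk₀]
    exact (Nat.ceil_lt_add_one (by positivity)).le
  have hk3 : k₀ ≤ 2 * Q := by
    have : (k₀ : ℝ) ≤ ((2 * Q : ℕ) : ℝ) := by
      push_cast
      nlinarith
    exact_mod_cast this
  obtain ⟨s, hs⟩ : ∃ s : ℕ, s = ⌊h * k₀ / 4⌋₊ := ⟨_, rfl⟩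
  have hs1 : (s : ℝ) ≤ h * k₀ / 4 := by rw [hs]; exact Nat.floor_le (by positivity)
  have hs2 : h * ε₂ * Q / 8 ≤ s := by
    have g1 : h * k₀ / 4 < s + 1 := by rw [hs]; exact Nat.lt_floor_add_one _
    have g2 : h * (ε₂ * Q) ≤ h * k₀ := mul_le_mul_of_nonneg_left hk1 hh.le
    have g3 : 8 ≤ h * ε₂ * Q := by linarith
    linarith
  have hJs : 2 * Q ≤ k₀ + J * s := by
    have g1 : (2 : ℝ) * Q ≤ J * s := by
      have g2 : 16 / (h * ε₂) * (h * ε₂ * Q / 8) ≤ J * s :=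
        mul_le_mul hJr hs2 (by positivity) (by positivity)
      have g3 : 16 / (h * ε₂) * (h * ε₂ * Q / 8) = 2 * Q := by
        field_simp
        ring
      linarith
    have g4 : ((2 * Q : ℕ) : ℝ) ≤ ((k₀ + J * s : ℕ) : ℝ) := by
      push_cast
      have : (0 : ℝ) ≤ k₀ := Nat.cast_nonneg _
      linarith
    exact_mod_cast g4
  refine ⟨k₀, fun j => k₀ + j * s, fun j => min (k₀ + (j + 1) * s) (2 * Q), hk1, hk2,
    fun j _ => ⟨Nat.le_add_right _ _, le_min (Nat.le_add_right _ _) hk3, min_le_right _ _, ?_⟩,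
    fun x hx1 hx2 => ?_⟩
  · have hb : ((min (k₀ + (j + 1) * s) (2 * Q) : ℕ) : ℝ) ≤ k₀ + (j + 1) * s := by
      have : min (k₀ + (j + 1) * s) (2 * Q) ≤ k₀ + (j + 1) * s := min_le_left _ _
      exact_mod_cast this
    have g1 : (1 - h) * ((min (k₀ + (j + 1) * s) (2 * Q) : ℕ) : ℝ) ≤
        (1 - h) * (k₀ + (j + 1) * s) := mul_le_mul_of_nonneg_left hb (by linarith)
    have g2 : (1 - h) * ((min (k₀ + (j + 1) * s) (2 * Q) : ℕ) : ℝ) + h * ε₂ / 2 * Q ≤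
        k₀ + j * s := by
      have g3 : h * (ε₂ * Q) ≤ h * k₀ := mul_le_mul_of_nonneg_left hk1 hh.le
      have g4 : 0 ≤ h * (((j : ℝ) + 1) * s) := by positivity
      nlinarith
    have g5 := mul_le_mul_of_nonneg_right g2 hl2.le
    push_cast
    push_cast at g5
    linarith
  · obtain ⟨j, hj, hj1, hj2⟩ := cells_cov (Q := 2 * Q - 1) (k₀ := k₀) (s := s) (J := J)
      (by omega) hJ0 hx1 (by
        have : 2 * Q - 1 + 1 = 2 * Q := by omega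
        rw [this]
        exact hx2)
    have h3 : 2 * Q - 1 + 1 = 2 * Q := by omega
    rw [h3] at hj2
    exact ⟨j, hj, hj1, hj2⟩

/-- The height is nonfull on events. -/
def NfE {Ω Λ 𝒞 : Type} [Fintype Ω] (p : Ω → ℝ) (Q : ℕ) (δ c₀ h : ℝ) (L : Ω → Λ) (t : Ω → ℤ)
    (C : Λ → 𝒞) (u n : Λ → ℤ → ℤ) : Prop :=
  ∀ k ≤ 2 * Q, ∀ S : Ω → Prop, c₀ ≤ Pb p S →
    CH (cond p S True) (fun ω => n (L ω) (t ω)) (fun ω => ((n (L ω) (t ω) / 2 ^ k,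
      u (L ω) (t ω)), (t ω, C (L ω)))) ≤ (1 - h) * k * Real.log 2 + δ * Q

/-- **Nonfull on events, so nonfull for the laws of bounded density.** -/
theorem nf_up {h R ε : ℝ} (hh0 : 0 ≤ h) (hh1 : h ≤ 1) (hR : 1 ≤ R) (hε : 0 < ε) :
    ∃ c₀ > 0, ∃ δ > 0, ∃ Q₀ : ℕ, ∀ Q ≥ Q₀, ∀ {Ω Λ 𝒞 : Type} [Fintype Ω] {p : Ω → ℝ}, IsLaw p →
      ∀ {L : Ω → Λ} {t : Ω → ℤ} {C : Λ → 𝒞} {u n : Λ → ℤ → ℤ} {δ' c' : ℝ}, δ' ≤ δ → c' ≤ c₀ →
      NfE p Q δ' c' h L t C u n → ∀ k ≤ 2 * Q, ∀ q : Ω → ℝ, IsLaw q → (∀ ω, q ω ≤ R * p ω) →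
      CH q (fun ω => n (L ω) (t ω)) (fun ω => ((n (L ω) (t ω) / ((2 ^ k : ℕ) : ℤ),
        u (L ω) (t ω)), (t ω, C (L ω)))) ≤ (1 - h) * k * Real.log 2 + ε * Q := by
  obtain ⟨c₀, hc₀, δ, hδ, Q₀, H⟩ := dens_up (X₀ := 4) (R := R) (ε := ε) (by norm_num) hR hε
  refine ⟨c₀, hc₀, δ, hδ, max Q₀ 2, ?_⟩
  intro Q hQ Ω Λ 𝒞 _ p hp L t C u n δ' c' hδ' hc' hnf k hk q hq hqd
  have hl2 : 0 < Real.log 2 := Real.log_pos (by norm_num)
  have hl21 : Real.log 2 ≤ 1 := by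
    have := Real.log_two_lt_d9
    linarith
  have hQ2 : (2 : ℝ) ≤ Q := by exact_mod_cast (le_max_right _ _).trans hQ
  have hkr : (k : ℝ) ≤ 2 * Q := by exact_mod_cast hk
  have hk0 : (0 : ℝ) ≤ k := Nat.cast_nonneg k
  have hcast2 : (fun ω => ((n (L ω) (t ω) / (((2 ^ k : ℕ) : ℤ)), u (L ω) (t ω)),
      (t ω, C (L ω)))) = (fun ω => ((n (L ω) (t ω) / 2 ^ k, u (L ω) (t ω)),
      (t ω, C (L ω)))) := by
    funext ω
    push_cast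
    rfl
  rw [hcast2]
  refine H Q ((le_max_left _ _).trans hQ) hp hq hqd _ _ ?_ ?_ (fun S hS => ?_) fun r hr _ => ?_
  · have : 0 ≤ 1 - h := by linarith
    positivity
  · have h1 : (1 - h) * k * Real.log 2 ≤ 1 * k * 1 := by
      refine mul_le_mul ?_ hl21 hl2.le (by positivity)
      exact mul_le_mul_of_nonneg_right (by linarith) hk0
    linarith
  · refine (hnf k hk S (hc'.trans hS)).trans ?_
    have : δ' * Q ≤ δ * Q := mul_le_mul_of_nonneg_right hδ' (by linarith)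
    linarith
  · refine (CH_quot hr (fun ω => n (L ω) (t ω)) _ (k := k) fun ω ω' _ _ hz => ?_).trans ?_
    · exact (Prod.ext_iff.mp (Prod.ext_iff.mp hz).1).1
    · have h1 : ((k : ℝ) + 2) * Real.log 2 ≤ (k + 2) * 1 :=
        mul_le_mul_of_nonneg_left hl21 (by positivity)
      linarith

end Pool.PR46
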