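import Pool.Agent.H46.PR.Two
import Pool.Agent.H71.HOPK.Hop

/-!
# A datum of the line which is few given the records does not see the position

`mm`: `A` is a function of the line which is few given the record `G` of a point of the line, the
velocity `E` is full given the record. Then `A` is independent of the position `X` given `E`.
-/

set_option autoImplicit false

namespace Pool.PR46

open Finset Real
open Pool.Agent.H49.Ent Pool.Agent.H32.Dense Pool.STK Pool.OWN68

section tools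

variable {Ω R S T U : Type} [Fintype Ω] {q : Ω → ℝ}

theorem mi_sym (h0 : ∀ ω, 0 ≤ q ω) (A : Ω → R) (B : Ω → S) (Z : Ω → T) :
    CH q A Z - CH q A (fun ω => (B ω, Z ω)) = CH q B Z - CH q B (fun ω => (A ω, Z ω)) := by
  have c1 := CH_chain2 h0 A B Z
  have c2 := CH_chain2 h0 B A Z
  have c3 := CH_swap2 h0 A B Z
  linarith

theorem CH_eq_on (h0 : ∀ ω, 0 ≤ q ω) {A A' : Ω → R} {Z Z' : Ω → S}
    (hA : ∀ ω, 0 < q ω → A ω = A' ω) (hZ : ∀ ω, 0 < q ω → Z ω = Z' ω) :
    CH q A Z = CH q A' Z' := by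
  refine CH_congr h0 ?_ ?_ ?_ ?_
  · intro ω ω' h1 h2 h
    have h3 := Prod.ext_iff.mp h
    have h4 : A ω = A ω' := h3.1
    rwa [hA ω h1, hA ω' h2] at h4
  · intro ω ω' h1 h2 h
    have h3 := Prod.ext_iff.mp h
    have h4 : A' ω = A' ω' := h3.1
    rwa [← hA ω h1, ← hA ω' h2] at h4
  · intro ω ω' h1 h2 h
    rwa [hZ ω h1, hZ ω' h2] at h
  · intro ω ω' h1 h2 h
    rwa [← hZ ω h1, ← hZ ω' h2] at h

end tools

/-- The position at the time `τ`. -/
noncomputable def yy {Λ : Type} {d : ℕ} (M : ℕ) (X E : Λ → Fin d → ℤ) (l : Λ) (τ : ℤ) :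
    Fin d → ℤ := fun i => ⌊(X l i : ℝ) + τ * E l i / M⌋

theorem yy_det {Λ : Type} {d M : ℕ} {X E : Λ → Fin d → ℤ} {l l' : Λ} {τ : ℤ} (hE : E l = E l')
    (h : yy M X E l τ = yy M X E l' τ) : X l = X l' := by
  funext i
  have h1 := congrFun h i
  unfold yy at h1
  rw [hE] at h1
  rw [Int.floor_intCast_add, Int.floor_intCast_add] at h1
  linarith

/-- The hypotheses of `mm`. -/
structure MmH {Ω Λ Γ 𝒞 𝒜 : Type} [Fintype Ω] (p : Ω → ℝ) (M K d : ℕ) (e F F' : ℝ) (L : Ω → Λ)
    (t : Ω → ℤ) (G : Ω → Γ) (C : Λ → 𝒞) (A : Λ → 𝒜) (X E : Λ → Fin d → ℤ) : Prop where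
  tb : ∀ ω, 0 < p ω → |t ω| ≤ (M : ℤ)
  gt : ∀ ω ω', 0 < p ω → 0 < p ω' → G ω = G ω' → t ω = t ω' ∧ C (L ω) = C (L ω') ∧
    ∀ i, |((X (L ω) i : ℝ) + t ω * E (L ω) i / M) - ((X (L ω') i : ℝ) + t ω * E (L ω') i / M)| ≤ K
  eb : ∀ ω ω', 0 < p ω → 0 < p ω' → C (L ω) = C (L ω') → ∀ i,
    |((E (L ω) i : ℝ) - E (L ω') i)| ≤ K * M
  full : Real.log (2 * M + 1) - e ≤ CH p t L
  few : CH p (fun ω => A (L ω)) G ≤ e
  free : F - e ≤ CH p (fun ω => E (L ω)) G
  free1 : CH p (fun ω => E (L ω)) (fun ω => C (L ω)) ≤ F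
  pos : CH p (fun ω => yy M X E (L ω) (t ω)) (fun ω => (t ω, C (L ω))) ≤ F'

section main

variable {Ω Λ Γ 𝒞 𝒜 : Type} [Fintype Ω] {p : Ω → ℝ} {M K d : ℕ} {e F F' : ℝ} {L : Ω → Λ}
    {t : Ω → ℤ} {G : Ω → Γ} {C : Λ → 𝒞} {A : Λ → 𝒜} {X E : Λ → Fin d → ℤ}

/-- The position is few given the record. -/
theorem MmH.yG (hp : IsLaw p) (H : MmH p M K d e F F' L t G C A X E) :
    CH p (fun ω => yy M X E (L ω) (t ω)) G ≤ d * Real.log (2 * K + 3) := by
  refine (CH_le_vec hp.nonneg hp.sum_one _ G (fun _ => K + 1) fun ω ω' hω hω' hg i => ?_).trans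
    (le_of_eq ?_)
  · obtain ⟨a1, a2, a3⟩ := H.gt ω ω' hω hω' hg
    have a4 := a3 i
    unfold yy
    rw [← a1]
    have g1 := Int.floor_le ((X (L ω) i : ℝ) + t ω * E (L ω) i / M)
    have g2 := Int.lt_floor_add_one ((X (L ω) i : ℝ) + t ω * E (L ω) i / M)
    have g3 := Int.floor_le ((X (L ω') i : ℝ) + t ω * E (L ω') i / M)
    have g4 := Int.lt_floor_add_one ((X (L ω') i : ℝ) + t ω * E (L ω') i / M)
    rw [abs_le] at a4
    push_cast
    rw [abs_le]
    constructor <;> linarith [a4.1, a4.2]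
  · rw [Ex_const hp.sum_one]
    congr 2
    ring

theorem MmH.tle (hp : IsLaw p) (H : MmH p M K d e F F' L t G C A X E) {T : Type} (Z : Ω → T) :
    CH p t Z ≤ Real.log (2 * M + 1) := CH_le_box hp t Z H.tb

/-- One time. -/
theorem MmH.one (hp : IsLaw p) (H : MmH p M K d e F F' L t G C A X E) :
    (CH p (fun ω => A (L ω)) (fun ω => (E (L ω), C (L ω))) -
      CH p (fun ω => A (L ω)) (fun ω => (X (L ω), (E (L ω), C (L ω))))) -
      (3 * e + d * Real.log (2 * K + 3)) ≤
    CH p (fun ω => A (L ω)) (fun ω => (t ω, C (L ω))) -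
      CH p (fun ω => A (L ω)) (fun ω => (yy M X E (L ω) (t ω), (t ω, C (L ω)))) := by
  have h0 := hp.nonneg
  -- the time is nearly independent of the line
  have a1 : CH p (fun ω => A (L ω)) (fun ω => (E (L ω), C (L ω))) - e ≤
      CH p (fun ω => A (L ω)) (fun ω => (t ω, (E (L ω), C (L ω)))) := by
    have g1 := mi_sym h0 (fun ω => A (L ω)) t (fun ω => (E (L ω), C (L ω)))
    have g2 := H.tle hp (fun ω => (E (L ω), C (L ω)))
    have g3 : CH p t L ≤ CH p t (fun ω => (A (L ω), (E (L ω), C (L ω)))) :=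
      CH_mono_cond h0 fun ω ω' _ _ hz => by
        have hz' : L ω = L ω' := hz
        show (A (L ω), (E (L ω), C (L ω))) = (A (L ω'), (E (L ω'), C (L ω')))
        rw [hz']
    have g4 := H.full
    linarith
  -- the position
  have a2 : CH p (fun ω => A (L ω)) (fun ω => (yy M X E (L ω) (t ω), (t ω, (E (L ω), C (L ω))))) ≤
      CH p (fun ω => A (L ω)) (fun ω => (X (L ω), (E (L ω), C (L ω)))) :=
    CH_mono_cond h0 fun ω ω' _ _ hz => by
      have z1 : yy M X E (L ω) (t ω) = yy M X E (L ω') (t ω') := (Prod.ext_iff.mp hz).1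
      have z2 : t ω = t ω' := (Prod.ext_iff.mp (Prod.ext_iff.mp hz).2).1
      have z3 : E (L ω) = E (L ω') := (Prod.ext_iff.mp (Prod.ext_iff.mp (Prod.ext_iff.mp hz).2).2).1
      have z4 : C (L ω) = C (L ω') := (Prod.ext_iff.mp (Prod.ext_iff.mp (Prod.ext_iff.mp hz).2).2).2
      rw [← z2] at z1
      show (X (L ω), (E (L ω), C (L ω))) = (X (L ω'), (E (L ω'), C (L ω')))
      rw [yy_det z3 z1, z3, z4]
  have b1 := mi_sym h0 (fun ω => A (L ω)) (fun ω => yy M X E (L ω) (t ω))
    (fun ω => (t ω, (E (L ω), C (L ω))))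
  have b2 : CH p (fun ω => yy M X E (L ω) (t ω)) (fun ω => (t ω, (E (L ω), C (L ω)))) ≤
      CH p (fun ω => yy M X E (L ω) (t ω)) (fun ω => (t ω, C (L ω))) :=
    CH_mono_cond h0 fun ω ω' _ _ hz => by
      have z2 : t ω = t ω' := (Prod.ext_iff.mp hz).1
      have z4 : C (L ω) = C (L ω') := (Prod.ext_iff.mp (Prod.ext_iff.mp hz).2).2
      show (t ω, C (L ω)) = (t ω', C (L ω'))
      rw [z2, z4]
  have b3 := mi_sym h0 (fun ω => yy M X E (L ω) (t ω)) (fun ω => E (L ω))
    (fun ω => (A (L ω), (t ω, C (L ω))))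
  have b4 : CH p (fun ω => yy M X E (L ω) (t ω)) (fun ω => (E (L ω), (A (L ω), (t ω, C (L ω))))) =
      CH p (fun ω => yy M X E (L ω) (t ω)) (fun ω => (A (L ω), (t ω, (E (L ω), C (L ω))))) := by
    refine CH_congr h0 (fun _ _ _ _ h => ?_) (fun _ _ _ _ h => ?_) (fun _ _ _ _ h => ?_)
      (fun _ _ _ _ h => ?_) <;>
    · simp only [Prod.mk.injEq] at h ⊢
      tauto
  have b5 : CH p (fun ω => E (L ω)) (fun ω => (A (L ω), (t ω, C (L ω)))) ≤ F := by
    refine le_trans (CH_mono_cond h0 fun ω ω' _ _ hz => ?_) H.free1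
    exact (Prod.ext_iff.mp (Prod.ext_iff.mp hz).2).2
  have b6 : F - 2 * e - d * Real.log (2 * K + 3) ≤ CH p (fun ω => E (L ω))
      (fun ω => (yy M X E (L ω) (t ω), (A (L ω), (t ω, C (L ω))))) := by
    have g1 := CH_cond_add h0 (fun ω => E (L ω)) (fun ω => (yy M X E (L ω) (t ω), A (L ω))) G
    have g2 := CH_subadd h0 (fun ω => yy M X E (L ω) (t ω)) (fun ω => A (L ω)) G
    have g3 : CH p (fun ω => E (L ω)) (fun ω => ((yy M X E (L ω) (t ω), A (L ω)), G ω)) ≤
        CH p (fun ω => E (L ω)) (fun ω => (yy M X E (L ω) (t ω), (A (L ω), (t ω, C (L ω))))) := by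
      refine CH_mono_cond h0 fun ω ω' hω hω' hz => ?_
      have z1 := (Prod.ext_iff.mp hz).1
      have z2 : G ω = G ω' := (Prod.ext_iff.mp hz).2
      have z3 : yy M X E (L ω) (t ω) = yy M X E (L ω') (t ω') := (Prod.ext_iff.mp z1).1
      have z4 : A (L ω) = A (L ω') := (Prod.ext_iff.mp z1).2
      obtain ⟨z5, z6, -⟩ := H.gt ω ω' hω hω' z2
      show (yy M X E (L ω) (t ω), (A (L ω), (t ω, C (L ω)))) =
        (yy M X E (L ω') (t ω'), (A (L ω'), (t ω', C (L ω'))))
      rw [z3, z4, z5, z6]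
    have g4 := H.yG hp
    have g5 := H.few
    have g6 := H.free
    linarith
  have b7 := mi_sym h0 (fun ω => A (L ω)) (fun ω => yy M X E (L ω) (t ω))
    (fun ω => (t ω, C (L ω)))
  linarith

/-- The law of two times. -/
noncomputable def BB (p : Ω → ℝ) (L : Ω → Λ) : Ω × Ω → ℝ := glue p p L L

theorem BB_law (hp : IsLaw p) : IsLaw (BB p L) := glueLaw hp hp fun _ => rfl

theorem BB_f (hp : IsLaw p) : Marg (BB p L) p (fun w => w.1) := marg_fst hp.nonneg fun _ => rfl

theorem BB_s (hp : IsLaw p) : Marg (BB p L) p (fun w => w.2) := marg_snd hp.nonneg fun _ => rfl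

theorem BB_pos (hp : IsLaw p) {w : Ω × Ω} (h : 0 < BB p L w) : 0 < p w.1 ∧ 0 < p w.2 ∧
    L w.1 = L w.2 := (glue_pos_iff hp.nonneg hp.nonneg w).mp h

theorem MmH.fresh (hp : IsLaw p) (H : MmH p M K d e F F' L t G C A X E) :
    Real.log (2 * M + 1) - e ≤ CH (BB p L) (fun w => t w.2) (fun w => w.1) := by
  have h1 : CH (BB p L) (fun w => t w.2) (fun w => (L w.2, w.1)) = CH p t L :=
    CH_glue_snd hp.nonneg hp.nonneg (fun _ => rfl) t (Y := L) (fun w => w) (fun _ _ _ _ h => h)
  refine H.full.trans ?_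
  rw [← h1]
  exact CH_mono_cond (BB_law hp).nonneg fun w w' _ _ hz => (Prod.ext_iff.mp hz).2

theorem MmH.fresh1 (hp : IsLaw p) (H : MmH p M K d e F F' L t G C A X E) :
    Real.log (2 * M + 1) - e ≤ CH (BB p L) (fun w => t w.1) (fun w => w.2) := by
  have h1 : CH (BB p L) (fun w => t w.1) (fun w => (L w.1, w.2)) = CH p t L :=
    CH_glue_fst hp.nonneg hp.nonneg (fun _ => rfl) t (Y := L) (fun w => w) (fun _ _ _ _ h => h)
  refine H.full.trans ?_
  rw [← h1]
  exact CH_mono_cond (BB_law hp).nonneg fun w w' _ _ hz => (Prod.ext_iff.mp hz).2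

theorem MmH.t1le (hp : IsLaw p) (H : MmH p M K d e F F' L t G C A X E) {T : Type}
    (Z : Ω × Ω → T) : CH (BB p L) (fun w => t w.1) Z ≤ Real.log (2 * M + 1) :=
  CH_le_box (BB_law hp) _ Z fun _ hw => H.tb _ (BB_pos hp hw).1

theorem MmH.t2le (hp : IsLaw p) (H : MmH p M K d e F F' L t G C A X E) {T : Type}
    (Z : Ω × Ω → T) : CH (BB p L) (fun w => t w.2) Z ≤ Real.log (2 * M + 1) :=
  CH_le_box (BB_law hp) _ Z fun _ hw => H.tb _ (BB_pos hp hw).2.1

/-- **The velocity is full given the record, the other time and the other position, up to few.** -/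
theorem MmH.vel (hp : IsLaw p) (hM : 1 ≤ M) (H : MmH p M K d e F F' L t G C A X E) :
    CH (BB p L) (fun w => E (L w.1)) (fun w => (yy M X E (L w.1) (t w.2), (G w.1, t w.2))) ≤
      d * (Real.log (2 * K + 3) + e + Real.log (2 * (1 + Real.log (2 * M + 1)))) := by
  have hB := BB_law (L := L) hp
  have h0 := hB.nonneg
  have hMr : (1 : ℝ) ≤ M := by exact_mod_cast hM
  have hM0 : (0 : ℝ) < M := by linarith
  have hK0 : (0 : ℝ) ≤ K := Nat.cast_nonneg K
  have hs : ∀ w : Ω × Ω, (0 : ℝ) < |(t w.2 : ℝ) - t w.1| + 1 := fun w => by positivity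
  have h1 := CH_le_vec h0 hB.sum_one (fun w => E (L w.1))
    (fun w => (yy M X E (L w.1) (t w.2), (G w.1, t w.2)))
    (fun w => 2 * (K + 1) * M / (|(t w.2 : ℝ) - t w.1| + 1)) (by
      intro w w' hw hw' hz i
      obtain ⟨p1, p2, p3⟩ := BB_pos hp hw
      obtain ⟨p1', p2', p3'⟩ := BB_pos hp hw'
      have z1 : yy M X E (L w.1) (t w.2) = yy M X E (L w'.1) (t w'.2) := (Prod.ext_iff.mp hz).1
      have z2 : G w.1 = G w'.1 := (Prod.ext_iff.mp (Prod.ext_iff.mp hz).2).1
      have z3 : t w.2 = t w'.2 := (Prod.ext_iff.mp (Prod.ext_iff.mp hz).2).2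
      obtain ⟨z4, z5, z6⟩ := H.gt _ _ p1 p1' z2
      have z7 := z6 i
      have z8 := congrFun z1 i
      unfold yy at z8
      rw [← z3] at z8
      push_cast
      rw [le_div_iff₀ (hs w)]
      rcases eq_or_ne (t w.2) (t w.1) with ht | ht
      · rw [ht, sub_self, abs_zero, zero_add, mul_one]
        have := H.eb _ _ p1 p1' z5 i
        nlinarith
      · have hd1 : (1 : ℝ) ≤ |(t w.2 : ℝ) - t w.1| := by
          have : 1 ≤ |t w.2 - t w.1| := Int.one_le_abs (sub_ne_zero.mpr ht)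
          exact_mod_cast this
        have g1 := Int.floor_le ((X (L w.1) i : ℝ) + t w.2 * E (L w.1) i / M)
        have g2 := Int.lt_floor_add_one ((X (L w.1) i : ℝ) + t w.2 * E (L w.1) i / M)
        have g3 := Int.floor_le ((X (L w'.1) i : ℝ) + t w.2 * E (L w'.1) i / M)
        have g4 := Int.lt_floor_add_one ((X (L w'.1) i : ℝ) + t w.2 * E (L w'.1) i / M)
        have z9 : |((X (L w.1) i : ℝ) + t w.2 * E (L w.1) i / M) -
            ((X (L w'.1) i : ℝ) + t w.2 * E (L w'.1) i / M)| ≤ 1 := by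
          rw [← z8] at g3 g4
          rw [abs_le]
          constructor <;> linarith
        have e1 : ((E (L w.1) i : ℝ) - E (L w'.1) i) * ((t w.2 : ℝ) - t w.1) =
            ((((X (L w.1) i : ℝ) + t w.2 * E (L w.1) i / M) -
              ((X (L w'.1) i : ℝ) + t w.2 * E (L w'.1) i / M)) -
            (((X (L w.1) i : ℝ) + t w.1 * E (L w.1) i / M) -
              ((X (L w'.1) i : ℝ) + t w.1 * E (L w'.1) i / M))) * M := by
          field_simp
          ring
        have g5 : |((E (L w.1) i : ℝ) - E (L w'.1) i)| * |(t w.2 : ℝ) - t w.1| ≤ (K + 1) * M := by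
          rw [← abs_mul, e1, abs_mul, abs_of_pos hM0]
          refine mul_le_mul_of_nonneg_right ?_ hM0.le
          refine (abs_sub _ _).trans ?_
          linarith
        nlinarith [abs_nonneg ((E (L w.1) i : ℝ) - E (L w'.1) i)])
  refine h1.trans (mul_le_mul_of_nonneg_left ?_ (Nat.cast_nonneg d))
  have h2 : Ex (BB p L) (fun w => Real.log (2 * (2 * (K + 1) * M / (|(t w.2 : ℝ) - t w.1| + 1)) + 1))
      ≤ Ex (BB p L) (fun w => (Real.log (2 * K + 3) + Real.log (2 * M + 1)) -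
        Real.log (|(t w.2 : ℝ) - t w.1| + 1)) := by
    refine Ex_mono h0 fun w hw => ?_
    obtain ⟨p1, p2, p3⟩ := BB_pos hp hw
    have q1 : |(t w.2 : ℝ)| ≤ M := by exact_mod_cast H.tb _ p2
    have q2 : |(t w.1 : ℝ)| ≤ M := by exact_mod_cast H.tb _ p1
    have q3 := abs_sub (t w.2 : ℝ) (t w.1)
    rw [← Real.log_mul (by positivity) (by positivity), ← Real.log_div (by positivity)
      (hs w).ne']
    refine Real.log_le_log (by have := hs w; positivity) ?_
    rw [le_div_iff₀ (hs w)]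
    have e1 : (2 * (2 * ((K : ℝ) + 1) * M / (|(t w.2 : ℝ) - t w.1| + 1)) + 1) *
        (|(t w.2 : ℝ) - t w.1| + 1) = 4 * (K + 1) * M + (|(t w.2 : ℝ) - t w.1| + 1) := by
      have := (hs w).ne'
      field_simp
      ring
    rw [e1]
    nlinarith
  refine h2.trans ?_
  rw [Ex_sub, Ex_const hB.sum_one]
  have h3 := Pool.HOPK.near_log hB (fun w => t w.2) (fun w => w.1) (fun ω => t ω) (M := M)
    fun w hw => H.tb _ (BB_pos hp hw).2.1
  have h4 := H.fresh hp
  try dsimp only at h3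
  linarith

/-- **A datum which is few given the records does not see the position.** -/
theorem MmH.mm (hp : IsLaw p) (hM : 1 ≤ M) (H : MmH p M K d e F F' L t G C A X E) :
    CH p (fun ω => A (L ω)) (fun ω => (E (L ω), C (L ω))) -
      CH p (fun ω => A (L ω)) (fun ω => (X (L ω), (E (L ω), C (L ω)))) ≤
    (14 + d) * e + (F' - F) + 4 * (d * Real.log (2 * K + 3)) +
      d * Real.log (2 * (1 + Real.log (2 * M + 1))) := by
  have h0p := hp.nonneg
  have hB := BB_law (L := L) hp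
  have h0 := hB.nonneg
  have hone := H.one hp
  obtain ⟨l, hl⟩ : ∃ l, l = Real.log (2 * M + 1) := ⟨_, rfl⟩
  obtain ⟨ι, hι⟩ : ∃ ι, ι = CH p (fun ω => A (L ω)) (fun ω => (E (L ω), C (L ω))) -
      CH p (fun ω => A (L ω)) (fun ω => (X (L ω), (E (L ω), C (L ω)))) := ⟨_, rfl⟩
  obtain ⟨ιT, hιT⟩ : ∃ ιT, ιT = CH p (fun ω => A (L ω)) (fun ω => (t ω, C (L ω))) -
      CH p (fun ω => A (L ω)) (fun ω => (yy M X E (L ω) (t ω), (t ω, C (L ω)))) := ⟨_, rfl⟩
  rw [← hι, ← hιT] at hone
  rw [← hι]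
  -- names on the law of two times
  obtain ⟨a, ha⟩ : ∃ a : Ω × Ω → 𝒜, a = fun w => A (L w.1) := ⟨_, rfl⟩
  obtain ⟨c, hc⟩ : ∃ c : Ω × Ω → 𝒞, c = fun w => C (L w.1) := ⟨_, rfl⟩
  obtain ⟨x, hx⟩ : ∃ x : Ω × Ω → Fin d → ℤ, x = fun w => X (L w.1) := ⟨_, rfl⟩
  obtain ⟨v, hv⟩ : ∃ v : Ω × Ω → Fin d → ℤ, v = fun w => E (L w.1) := ⟨_, rfl⟩
  obtain ⟨T, hT⟩ : ∃ T : Ω × Ω → ℤ, T = fun w => t w.1 := ⟨_, rfl⟩
  obtain ⟨T', hT'⟩ : ∃ T' : Ω × Ω → ℤ, T' = fun w => t w.2 := ⟨_, rfl⟩
  obtain ⟨y, hy⟩ : ∃ y : Ω × Ω → Fin d → ℤ, y = fun w => yy M X E (L w.1) (t w.1) := ⟨_, rfl⟩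
  obtain ⟨y', hy'⟩ : ∃ y' : Ω × Ω → Fin d → ℤ, y' = fun w => yy M X E (L w.1) (t w.2) := ⟨_, rfl⟩
  have tl : ∀ {S : Type} (Z : Ω × Ω → S), CH (BB p L) T Z ≤ l := fun Z => by
    rw [hT, hl]; exact H.t1le hp Z
  have tl' : ∀ {S : Type} (Z : Ω × Ω → S), CH (BB p L) T' Z ≤ l := fun Z => by
    rw [hT', hl]; exact H.t2le hp Z
  have fr' : ∀ {S : Type} (Z : Ω × Ω → S), Det (BB p L) (fun w => w.1) Z → l - e ≤ CH (BB p L) T' Z :=
    fun Z hZ => by
      rw [hT', hl]
      exact (H.fresh hp).trans (CH_mono_cond h0 hZ)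
  have fr : ∀ {S : Type} (Z : Ω × Ω → S), Det (BB p L) (fun w => w.2) Z → l - e ≤ CH (BB p L) T Z :=
    fun Z hZ => by
      rw [hT, hl]
      exact (H.fresh1 hp).trans (CH_mono_cond h0 hZ)
  -- (S2): the information of both positions
  have S2 : CH (BB p L) a (fun w => (T w, (T' w, c w))) -
      CH (BB p L) a (fun w => ((y w, y' w), (T w, (T' w, c w)))) ≤ ι + 4 * e := by
    have g1 : CH (BB p L) a (fun w => (T w, (T' w, c w))) ≤ CH (BB p L) a c :=
      CH_mono_cond h0 fun w w' _ _ hz => (Prod.ext_iff.mp (Prod.ext_iff.mp hz).2).2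
    have g2 : CH (BB p L) a (fun w => ((T w, T' w), ((x w, v w), c w))) ≤
        CH (BB p L) a (fun w => ((y w, y' w), (T w, (T' w, c w)))) := by
      refine CH_mono_cond h0 fun w w' _ _ hz => ?_
      simp only [Prod.mk.injEq] at hz
      obtain ⟨⟨z1, z2⟩, ⟨z3, z4⟩, z5⟩ := hz
      have z6 : y w = y w' := by
        rw [hy]
        unfold yy
        funext i
        rw [hx] at z3
        rw [hv] at z4
        rw [hT] at z1
        dsimp only at z1 z3 z4 ⊢
        rw [z1, z3, z4]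
      have z7 : y' w = y' w' := by
        rw [hy']
        unfold yy
        funext i
        rw [hx] at z3
        rw [hv] at z4
        rw [hT'] at z2
        dsimp only at z2 z3 z4 ⊢
        rw [z2, z3, z4]
      show ((y w, y' w), (T w, (T' w, c w))) = ((y w', y' w'), (T w', (T' w', c w')))
      rw [z6, z7, z1, z2, z5]
    have g3 := mi_sym h0 a (fun w => (T w, T' w)) (fun w => ((x w, v w), c w))
    have g4 : CH (BB p L) (fun w => (T w, T' w)) (fun w => ((x w, v w), c w)) ≤ 2 * l := by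
      rw [CH_chain2 h0 T T' (fun w => ((x w, v w), c w))]
      have := tl (fun w => ((x w, v w), c w))
      have := tl' (fun w => (T w, ((x w, v w), c w)))
      linarith
    have g5 : 2 * l - 2 * e ≤
        CH (BB p L) (fun w => (T w, T' w)) (fun w => (a w, ((x w, v w), c w))) := by
      rw [CH_chain2 h0 T T' (fun w => (a w, ((x w, v w), c w)))]
      have q1 := fr (fun w => (a w, ((x w, v w), c w))) (fun w w' hw hw' hz => by
        have e1 := (BB_pos hp hw).2.2
        have e2 := (BB_pos hp hw').2.2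
        have e3 : w.2 = w'.2 := hz
        have e4 : L w.1 = L w'.1 := by rw [e1, e2, e3]
        show (a w, ((x w, v w), c w)) = (a w', ((x w', v w'), c w'))
        rw [ha, hx, hv, hc]
        dsimp only
        rw [e4])
      have q2 := fr' (fun w => (T w, (a w, ((x w, v w), c w)))) (fun w w' hw hw' hz => by
        have e3 : w.1 = w'.1 := hz
        show (T w, (a w, ((x w, v w), c w))) = (T w', (a w', ((x w', v w'), c w')))
        rw [hT, ha, hx, hv, hc]
        dsimp only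
        rw [e3])
      linarith
    have g6 : CH (BB p L) a c = CH p (fun ω => A (L ω)) (fun ω => C (L ω)) := by
      rw [ha, hc]
      exact (BB_f hp).CH (fun ω => A (L ω)) (fun ω => C (L ω))
    have g7 : CH (BB p L) a (fun w => ((x w, v w), c w)) =
        CH p (fun ω => A (L ω)) (fun ω => (X (L ω), (E (L ω), C (L ω)))) := by
      rw [ha, hx, hv, hc]
      rw [(BB_f hp).CH (fun ω => A (L ω)) (fun ω => ((X (L ω), E (L ω)), C (L ω)))]
      refine CH_congr h0p (fun _ _ _ _ h => ?_) (fun _ _ _ _ h => ?_) (fun _ _ _ _ h => ?_)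
        (fun _ _ _ _ h => ?_) <;>
      · simp only [Prod.mk.injEq] at h ⊢
        tauto
    have g8 := mi_sym h0p (fun ω => A (L ω)) (fun ω => E (L ω)) (fun ω => C (L ω))
    have g9 : F - 2 * e ≤ CH p (fun ω => E (L ω)) (fun ω => (A (L ω), C (L ω))) := by
      have q1 := CH_cond_add h0p (fun ω => E (L ω)) (fun ω => A (L ω)) G
      have q2 : CH p (fun ω => E (L ω)) (fun ω => (A (L ω), G ω)) ≤
          CH p (fun ω => E (L ω)) (fun ω => (A (L ω), C (L ω))) :=
        CH_mono_cond h0p fun ω ω' hω hω' hz => by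
          have z1 : A (L ω) = A (L ω') := (Prod.ext_iff.mp hz).1
          have z2 := (H.gt ω ω' hω hω' (Prod.ext_iff.mp hz).2).2.1
          show (A (L ω), C (L ω)) = (A (L ω'), C (L ω'))
          rw [z1, z2]
      have q3 := H.few
      have q4 := H.free
      linarith
    have g10 := H.free1
    linarith
  -- (S3): the first position
  have S3 : ιT - e ≤ CH (BB p L) a (fun w => (T w, (T' w, c w))) -
      CH (BB p L) a (fun w => (y w, (T w, (T' w, c w)))) := by
    have g1 := mi_sym h0 a T' (fun w => (T w, c w))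
    have g2 := tl' (fun w => (T w, c w))
    have g3 := fr' (fun w => (a w, (T w, c w))) (fun w w' _ _ hz => by
      have e3 : w.1 = w'.1 := hz
      show (a w, (T w, c w)) = (a w', (T w', c w'))
      rw [hT, ha, hc]
      dsimp only
      rw [e3])
    have g4 : CH (BB p L) a (fun w => (T' w, (T w, c w))) =
        CH (BB p L) a (fun w => (T w, (T' w, c w))) := by
      refine CH_congr h0 (fun _ _ _ _ h => ?_) (fun _ _ _ _ h => ?_) (fun _ _ _ _ h => ?_)
        (fun _ _ _ _ h => ?_) <;>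
      · simp only [Prod.mk.injEq] at h ⊢
        tauto
    have g5 : CH (BB p L) a (fun w => (y w, (T w, (T' w, c w)))) ≤
        CH (BB p L) a (fun w => (y w, (T w, c w))) := by
      refine CH_mono_cond h0 fun w w' _ _ hz => ?_
      simp only [Prod.mk.injEq] at hz ⊢
      tauto
    have g6 : CH (BB p L) a (fun w => (T w, c w)) - CH (BB p L) a (fun w => (y w, (T w, c w))) =
        ιT := by
      rw [ha, hc, hT, hy, hιT]
      rw [(BB_f hp).CH (fun ω => A (L ω)) (fun ω => (t ω, C (L ω))),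
        (BB_f hp).CH (fun ω => A (L ω)) (fun ω => (yy M X E (L ω) (t ω), (t ω, C (L ω))))]
    linarith
  -- (S4): the second position
  have S4 : ιT - e ≤ CH (BB p L) a (fun w => (T w, (T' w, c w))) -
      CH (BB p L) a (fun w => (y' w, (T w, (T' w, c w)))) := by
    have g1 := mi_sym h0 a T (fun w => (T' w, c w))
    have g2 := tl (fun w => (T' w, c w))
    have g3 := fr (fun w => (a w, (T' w, c w))) (fun w w' hw hw' hz => by
      have e1 := (BB_pos hp hw).2.2
      have e2 := (BB_pos hp hw').2.2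
      have e3 : w.2 = w'.2 := hz
      have e4 : L w.1 = L w'.1 := by rw [e1, e2, e3]
      show (a w, (T' w, c w)) = (a w', (T' w', c w'))
      rw [hT', ha, hc]
      dsimp only
      rw [e4, e3])
    have g5 : CH (BB p L) a (fun w => (y' w, (T w, (T' w, c w)))) ≤
        CH (BB p L) a (fun w => (y' w, (T' w, c w))) := by
      refine CH_mono_cond h0 fun w w' _ _ hz => ?_
      simp only [Prod.mk.injEq] at hz ⊢
      tauto
    have g6 : CH (BB p L) a (fun w => (T' w, c w)) - CH (BB p L) a (fun w => (y' w, (T' w, c w))) =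
        ιT := by
      have e1 : CH (BB p L) a (fun w => (T' w, c w)) =
          CH (BB p L) (fun w => A (L w.2)) (fun w => (t w.2, C (L w.2))) := by
        refine CH_eq_on h0 (fun w hw => ?_) (fun w hw => ?_)
        · rw [ha]
          dsimp only
          rw [(BB_pos hp hw).2.2]
        · rw [hT', hc]
          dsimp only
          rw [(BB_pos hp hw).2.2]
      have e2 : CH (BB p L) a (fun w => (y' w, (T' w, c w))) =
          CH (BB p L) (fun w => A (L w.2))
            (fun w => (yy M X E (L w.2) (t w.2), (t w.2, C (L w.2)))) := by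
        refine CH_eq_on h0 (fun w hw => ?_) (fun w hw => ?_)
        · rw [ha]
          dsimp only
          rw [(BB_pos hp hw).2.2]
        · rw [hT', hc, hy']
          dsimp only
          rw [(BB_pos hp hw).2.2]
      rw [e1, e2, hιT]
      rw [(BB_s hp).CH (fun ω => A (L ω)) (fun ω => (t ω, C (L ω))),
        (BB_s hp).CH (fun ω => A (L ω)) (fun ω => (yy M X E (L ω) (t ω), (t ω, C (L ω))))]
    linarith
  -- (S5): the two positions are nearly independent
  have S5 : CH (BB p L) y' (fun w => (T w, (T' w, c w))) -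
      CH (BB p L) y' (fun w => (y w, (T w, (T' w, c w)))) ≤
      F' - F + 2 * e + d * Real.log (2 * K + 3) + d * (Real.log (2 * K + 3) + e +
        Real.log (2 * (1 + Real.log (2 * M + 1)))) := by
    have g1 : CH (BB p L) y' (fun w => (T w, (T' w, c w))) ≤ F' := by
      have q1 : CH (BB p L) y' (fun w => (T w, (T' w, c w))) ≤
          CH (BB p L) y' (fun w => (T' w, c w)) :=
        CH_mono_cond h0 fun w w' _ _ hz => (Prod.ext_iff.mp hz).2
      have e1 : CH (BB p L) y' (fun w => (T' w, c w)) =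
          CH (BB p L) (fun w => yy M X E (L w.2) (t w.2)) (fun w => (t w.2, C (L w.2))) := by
        refine CH_eq_on h0 (fun w hw => ?_) (fun w hw => ?_)
        · rw [hy']
          dsimp only
          rw [(BB_pos hp hw).2.2]
        · rw [hT', hc]
          dsimp only
          rw [(BB_pos hp hw).2.2]
      rw [e1, (BB_s hp).CH (fun ω => yy M X E (L ω) (t ω)) (fun ω => (t ω, C (L ω)))] at q1
      exact q1.trans H.pos
    have g2 : CH (BB p L) y' (fun w => (y w, (G w.1, T' w))) ≤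
        CH (BB p L) y' (fun w => (y w, (T w, (T' w, c w)))) := by
      refine CH_mono_cond h0 fun w w' hw hw' hz => ?_
      have z1 : y w = y w' := (Prod.ext_iff.mp hz).1
      have z2 : G w.1 = G w'.1 := (Prod.ext_iff.mp (Prod.ext_iff.mp hz).2).1
      have z3 : T' w = T' w' := (Prod.ext_iff.mp (Prod.ext_iff.mp hz).2).2
      obtain ⟨z4, z5, -⟩ := H.gt _ _ (BB_pos hp hw).1 (BB_pos hp hw').1 z2
      show (y w, (T w, (T' w, c w))) = (y w', (T w', (T' w', c w')))
      have z4' : T w = T w' := by rw [hT]; exact z4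
      have z5' : c w = c w' := by rw [hc]; exact z5
      rw [z1, z3, z4', z5']
    have g3 := CH_cond_add h0 y' y (fun w => (G w.1, T' w))
    have g4 : CH (BB p L) y (fun w => (G w.1, T' w)) ≤ d * Real.log (2 * K + 3) := by
      have q1 : CH (BB p L) y (fun w => (G w.1, T' w)) ≤ CH (BB p L) y (fun w => G w.1) :=
        CH_mono_cond h0 fun w w' _ _ hz => (Prod.ext_iff.mp hz).1
      rw [hy, (BB_f hp).CH (fun ω => yy M X E (L ω) (t ω)) G] at q1
      rw [hy]
      exact q1.trans (H.yG hp)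
    have g5 := CH_le_add h0 v y' (fun w => (G w.1, T' w))
    have g6 := H.vel hp hM
    have g7 := mi_sym h0 v T' (fun w => G w.1)
    have g8 := tl' (fun w => G w.1)
    have g9 := fr' (fun w => (v w, G w.1)) (fun w w' _ _ hz => by
      have e3 : w.1 = w'.1 := hz
      show (v w, G w.1) = (v w', G w'.1)
      rw [hv]
      dsimp only
      rw [e3])
    have g10 : CH (BB p L) v (fun w => G w.1) = CH p (fun ω => E (L ω)) G := by
      rw [hv]
      exact (BB_f hp).CH (fun ω => E (L ω)) G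
    have g11 := H.free
    have g12 : CH (BB p L) v (fun w => (T' w, G w.1)) = CH (BB p L) v (fun w => (G w.1, T' w)) := by
      refine CH_congr h0 (fun _ _ _ _ h => ?_) (fun _ _ _ _ h => ?_) (fun _ _ _ _ h => ?_)
        (fun _ _ _ _ h => ?_) <;>
      · simp only [Prod.mk.injEq] at h ⊢
        tauto
    have g13 : CH (BB p L) v (fun w => (y' w, (G w.1, T' w))) ≤
        d * (Real.log (2 * K + 3) + e + Real.log (2 * (1 + Real.log (2 * M + 1)))) := by
      rw [hv, hy', hT']
      exact g6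
    linarith
  -- the chain rule
  have S6 : CH (BB p L) a (fun w => ((y w, y' w), (T w, (T' w, c w)))) =
      CH (BB p L) a (fun w => (y' w, (y w, (T w, (T' w, c w))))) := by
    refine CH_congr h0 (fun _ _ _ _ h => ?_) (fun _ _ _ _ h => ?_) (fun _ _ _ _ h => ?_)
      (fun _ _ _ _ h => ?_) <;>
    · simp only [Prod.mk.injEq] at h ⊢
      tauto
  have S7 := mi_sym h0 a y' (fun w => (y w, (T w, (T' w, c w))))
  have S8 := mi_sym h0 a y' (fun w => (T w, (T' w, c w)))
  have S9 : CH (BB p L) y' (fun w => (a w, (y w, (T w, (T' w, c w))))) ≤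
      CH (BB p L) y' (fun w => (a w, (T w, (T' w, c w)))) := by
    refine CH_mono_cond h0 fun w w' _ _ hz => ?_
    simp only [Prod.mk.injEq] at hz ⊢
    tauto
  have hd0 : (0 : ℝ) ≤ d := Nat.cast_nonneg d
  have efin : (d : ℝ) * (Real.log (2 * K + 3) + e + Real.log (2 * (1 + Real.log (2 * M + 1)))) =
      d * Real.log (2 * K + 3) + d * e + d * Real.log (2 * (1 + Real.log (2 * M + 1))) := by ring
  rw [efin] at S5
  linarith

/-- The same, for the position. -/
theorem MmH.mm' (hp : IsLaw p) (hM : 1 ≤ M) (H : MmH p M K d e F F' L t G C A X E) :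
    CH p (fun ω => X (L ω)) (fun ω => (E (L ω), C (L ω))) -
      CH p (fun ω => X (L ω)) (fun ω => (A (L ω), (E (L ω), C (L ω)))) ≤
    (14 + d) * e + (F' - F) + 4 * (d * Real.log (2 * K + 3)) +
      d * Real.log (2 * (1 + Real.log (2 * M + 1))) := by
  have h1 := H.mm hp hM
  have h2 := mi_sym hp.nonneg (fun ω => A (L ω)) (fun ω => X (L ω))
    (fun ω => (E (L ω), C (L ω)))
  linarith

end main

end Pool.PR46
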