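import Pool.Agent.H46.PR.Tie
import Pool.Agent.H46.PR.Mm
import Pool.Agent.H68.OWN.Hop4

/-!
# Copies over a record: the height `u` is full on its leaf

`leaf_full`: the displacements of the copies over `G` are along the direction `(1, ks)`; then `u` is
full given the leaf of the point.
-/

set_option autoImplicit false

namespace Pool.PR46

open Finset Real
open Pool.Agent.H49.Ent Pool.Agent.H32.Dense Pool.STK Pool.OWN68
open Pool.BFL (Pb)

section tools

variable {Ω W : Type} [Fintype Ω] [Fintype W]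

omit [Fintype Ω] in
/-- An event. -/
theorem CH_ev_le {S T : Type} {P : W → ℝ} (hP : IsLaw P) (A : W → S) (Z : W → T) (E : W → Prop) :
    Pb P E * CH (cond P E True) A Z ≤ CH P A Z := by
  classical
  have h0 := hP.nonneg
  have h1 : CH P A (fun w => (Z w, E w)) ≤ CH P A Z :=
    CH_mono_cond h0 fun _ _ _ _ h => (Prod.ext_iff.mp h).1
  rw [CH_split h0 A Z E] at h1
  refine le_trans ?_ h1
  have hnn : ∀ j ∈ univ.image E, 0 ≤ law P E j * CH (cond P E j) A Z := fun j _ =>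
    mul_nonneg (law_nonneg h0 E j) (CH_nonneg (cond_nonneg h0 E j) A Z)
  rw [← Pool.NFD.Pb_law]
  by_cases hT : True ∈ univ.image E
  · exact Finset.single_le_sum hnn hT
  · rw [law_eq_zero_of_notMem P E hT, zero_mul]
    exact Finset.sum_nonneg hnn

/-- The law `P` with the marginal `p` of `pr` changed to `q`. -/
noncomputable def tilt (P : W → ℝ) (pr : W → Ω) (p q : Ω → ℝ) (w : W) : ℝ :=
  P w * (q (pr w) / p (pr w))

theorem tilt_marg {P : W → ℝ} {pr : W → Ω} {p q : Ω → ℝ} (hm : Marg P p pr) (hp : IsLaw p)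
    (hq : IsLaw q) {R : ℝ} (hd : ∀ ω, q ω ≤ R * p ω) : Marg (tilt P pr p q) q pr := by
  classical
  intro ω
  have h1 := hm ω
  have e1 : ∑ w, (if pr w = ω then tilt P pr p q w else 0) =
      (∑ w, (if pr w = ω then P w else 0)) * (q ω / p ω) := by
    rw [Finset.sum_mul]
    refine Finset.sum_congr rfl fun w _ => ?_
    split_ifs with h
    · unfold tilt
      rw [h]
    · rw [zero_mul]
  have e2 : ∑ w, (if pr w = ω then P w else 0) = p ω := by
    rw [← h1]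
  have e3 : ∑ w, (if pr w = ω then tilt P pr p q w else 0) = q ω := by
    rw [e1, e2]
    rcases (hp.nonneg ω).eq_or_lt with hz | hz
    · rw [← hz, zero_mul]
      have h3 := hd ω
      rw [← hz, mul_zero] at h3
      exact le_antisymm (hq.nonneg ω) h3
    · rw [mul_div_assoc', mul_comm, mul_div_assoc, div_self hz.ne', mul_one]
  rw [← e3]

theorem tilt_law {P : W → ℝ} (hP : IsLaw P) {pr : W → Ω} {p q : Ω → ℝ} (hm : Marg P p pr)
    (hp : IsLaw p) (hq : IsLaw q) {R : ℝ} (hd : ∀ ω, q ω ≤ R * p ω) :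
    IsLaw (tilt P pr p q) := by
  classical
  refine ⟨fun w => mul_nonneg (hP.nonneg w) (div_nonneg (hq.nonneg _) (hp.nonneg _)), ?_⟩
  rw [← hq.sum_one]
  have h1 := tilt_marg hm hp hq hd
  have e1 : ∑ ω, q ω = ∑ ω, ∑ w, (if pr w = ω then tilt P pr p q w else 0) := by
    refine Finset.sum_congr rfl fun ω _ => ?_
    rw [← h1 ω]
  rw [e1, Finset.sum_comm]
  refine Finset.sum_congr rfl fun w _ => ?_
  rw [Finset.sum_ite_eq]
  simp

omit [Fintype Ω] [Fintype W] in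
theorem tilt_le {P : W → ℝ} (hP : ∀ w, 0 ≤ P w) {pr : W → Ω} {p q : Ω → ℝ}
    (hp : ∀ ω, 0 ≤ p ω) {R : ℝ} (hR : 0 ≤ R) (hd : ∀ ω, q ω ≤ R * p ω) (w : W) :
    tilt P pr p q w ≤ R * P w := by
  unfold tilt
  have h1 : q (pr w) / p (pr w) ≤ R := by
    rcases (hp (pr w)).eq_or_lt with hz | hz
    · rw [← hz, div_zero]
      exact hR
    · rw [div_le_iff₀ hz]
      exact hd _
  rw [mul_comm]
  exact mul_le_mul_of_nonneg_right h1 (hP w)

omit [Fintype Ω] in
theorem Pb_dens {P Q : W → ℝ} {R : ℝ} (hd : ∀ w, Q w ≤ R * P w) (E : W → Prop) :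
    Pb Q E ≤ R * Pb P E := by
  classical
  rw [← Pb_sum, ← Pb_sum, Finset.mul_sum]
  refine Finset.sum_le_sum fun w _ => ?_
  split_ifs
  · exact hd w
  · rw [mul_zero]

omit [Fintype Ω] in
theorem Pb_compl {P : W → ℝ} (hP : IsLaw P) (E : W → Prop) : Pb P E = 1 - Pb P (fun w => ¬ E w) := by
  classical
  rw [← Pb_sum, ← Pb_sum, eq_sub_iff_add_eq, ← Finset.sum_add_distrib, ← hP.sum_one]
  refine Finset.sum_congr rfl fun w _ => ?_
  by_cases h : E w
  · rw [if_pos h, if_neg (fun h' => h' h), add_zero]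
  · rw [if_neg h, if_pos h, zero_add]

omit [Fintype Ω] in
theorem Pb_nonneg {P : W → ℝ} (hP : ∀ w, 0 ≤ P w) (E : W → Prop) : 0 ≤ Pb P E := by
  classical
  rw [← Pb_sum]
  exact Finset.sum_nonneg fun w _ => by split_ifs; exacts [hP w, le_rfl]

/-- The floors of two real numbers. -/
theorem floor_diff {x y B : ℝ} (h : |x - y| ≤ B) : |((⌊x⌋ - ⌊y⌋ : ℤ) : ℝ)| ≤ B + 1 := by
  obtain ⟨g2, g3⟩ := abs_le.mp h
  have f1 := Int.floor_le x
  have f2 := Int.lt_floor_add_one x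
  have f3 := Int.floor_le y
  have f4 := Int.lt_floor_add_one y
  push_cast
  rw [abs_le]
  constructor <;> linarith

/-- Integers near each other. -/
theorem CH_int_const {T : Type} {q : W → ℝ} (hq : IsLaw q) (X : W → ℤ) (Z : W → T) {B c : ℝ}
    (h : ∀ w w', 0 < q w → 0 < q w' → Z w = Z w' → |((X w - X w' : ℤ) : ℝ)| ≤ B)
    (hc : 2 * B + 1 ≤ c) (hB : 0 ≤ B) : CH q X Z ≤ Real.log c := by
  refine (CH_le_int hq.nonneg hq.sum_one X Z (fun _ => B) h).trans ?_
  rw [Ex_const hq.sum_one]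
  exact Real.log_le_log (by linarith) hc

end tools

/-- The code of a slope. -/
noncomputable def kq (M r : ℕ) (x : ℝ) : ℤ := ⌊x * M / r⌋

/-- The slope of a code. -/
noncomputable def kr (M r : ℕ) (k : ℤ) : ℝ := k * r / M

/-- The position of the leaf. -/
noncomputable def lc (M r : ℕ) (k u n : ℤ) : ℤ :=
  ⌊((n : ℝ) - kr M r k * ((u % (M : ℤ) : ℤ) : ℝ)) / r⌋

theorem kq_near {M r : ℕ} (hM : 1 ≤ M) (hr : 1 ≤ r) (x : ℝ) : |x - kr M r (kq M r x)| ≤ r / M := by
  have hM0 : (0 : ℝ) < M := by exact_mod_cast hM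
  have hr0 : (0 : ℝ) < r := by exact_mod_cast hr
  unfold kr kq
  have h1 := Int.floor_le (x * M / r)
  have h2 := Int.lt_floor_add_one (x * M / r)
  have e : x - (⌊x * M / r⌋ : ℝ) * r / M = (x * M / r - ⌊x * M / r⌋) * (r / M) := by
    field_simp
  rw [e, abs_mul, abs_of_pos (by positivity : (0 : ℝ) < r / M)]
  have h3 : |x * M / r - (⌊x * M / r⌋ : ℝ)| ≤ 1 := by
    rw [abs_le]
    constructor <;> linarith
  exact (mul_le_mul_of_nonneg_right h3 (by positivity)).trans (le_of_eq (one_mul _))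

/-- The residue. -/
theorem mod_eq (M : ℕ) (u : ℤ) : ((u % (M : ℤ) : ℤ) : ℝ) = (u : ℝ) - M * ((u / (M : ℤ) : ℤ) : ℝ) := by
  have h := Int.emod_add_mul_ediv u M
  have h2 : u % (M : ℤ) = u - M * (u / (M : ℤ)) := by linarith
  rw [h2]
  push_cast
  ring

/-- The copies over `G` are along the slope. -/
def Alg {Ω Λ 𝒟 : Type} (M r : ℕ) (B : ℝ) (L : Ω → Λ) (D : Λ → 𝒟) (du dn : 𝒟 → ℝ) (ks : Λ → ℝ)
    (w : Ω × Ω) : Prop :=
  B ≤ |du (D (L w.2)) - du (D (L w.1))| ∧
  |(dn (D (L w.2)) - dn (D (L w.1))) - ks (L w.2) * (du (D (L w.2)) - du (D (L w.1)))| ≤ r ∧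
  |ks (L w.2) - ks (L w.1)| * M ≤ r

/-- The code of the leaf. -/
noncomputable def leaf {Ω Λ : Type} (M r : ℕ) (L : Ω → Λ) (t : Ω → ℤ) (u n : Λ → ℤ → ℤ)
    (ks : Λ → ℝ) (ω : Ω) : ℤ × ℤ :=
  (kq M r (ks (L ω)), lc M r (kq M r (ks (L ω))) (u (L ω) (t ω)) (n (L ω) (t ω)))

end Pool.PR46
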