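import Pool.Agent.H46.PR.Thr1

/-!
# Mutual information under a change of the law

`mi_dens`: the mutual information of `X` and `Y` given `Z` (a function of `Y`) under a law of density
at most `R` is at most `R` times the one of the law, plus `R log 2`.
-/

set_option autoImplicit false

namespace Pool.PR46

open Finset Real
open Pool.Agent.H49.Ent Pool.Agent.H32.Dense Pool.STK Pool.OWN68
open Pool.BFL (Pb)

/-- **Mutual information under a law of bounded density.** -/
theorem mi_dens {Ω T U V : Type} [Fintype Ω] {p q : Ω → ℝ} (hp : IsLaw p) (hq : IsLaw q) {R : ℝ}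
    (hR : 0 < R) (hd : ∀ w, q w ≤ R * p w) (X : Ω → T) (Y : Ω → U) (Z : Ω → V)
    (hYZ : ∀ w w', 0 < p w → 0 < p w' → Y w = Y w' → Z w = Z w') :
    CH q X Z - CH q X Y ≤ R * (CH p X Z - CH p X Y + Real.log 2) := by
  classical
  obtain ⟨P, hP⟩ : ∃ P : Ω × Bool → ℝ, P = fun w => if w.2 then q w.1 / R else
    p w.1 - q w.1 / R := ⟨_, rfl⟩
  have hPt : ∀ ω, P (ω, true) = q ω / R := fun ω => by rw [hP]; simp
  have hPf : ∀ ω, P (ω, false) = p ω - q ω / R := fun ω => by rw [hP]; simp
  have hqR : ∀ ω, q ω / R ≤ p ω := fun ω => by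
    rw [div_le_iff₀ hR]
    linarith [hd ω]
  have hq0 : ∀ ω, 0 ≤ q ω / R := fun ω => div_nonneg (hq.nonneg ω) hR.le
  have hP0 : ∀ w, 0 ≤ P w := by
    rintro ⟨ω, b⟩
    cases b
    · rw [hPf]
      linarith [hqR ω]
    · rw [hPt]
      exact hq0 ω
  have hPl : IsLaw P := by
    refine ⟨hP0, ?_⟩
    rw [Fintype.sum_prod_type]
    have e : ∀ ω, ∑ b : Bool, P (ω, b) = p ω := fun ω => by
      rw [Fintype.sum_bool, hPt, hPf]
      ring
    rw [Finset.sum_congr rfl fun ω _ => e ω]
    exact hp.sum_one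
  have hPp : ∀ w, 0 < P w → 0 < p w.1 := by
    rintro ⟨ω, b⟩ h
    show 0 < p ω
    cases b
    · rw [hPf] at h
      linarith [hq0 ω]
    · rw [hPt] at h
      linarith [hqR ω]
  have hm : Marg P p (fun w => w.1) := by
    intro ω
    have e : law P (fun w => w.1) ω = ∑ b : Bool, P (ω, b) := by
      unfold law
      rw [Fintype.sum_prod_type]
      rw [Finset.sum_eq_single ω]
      · refine Finset.sum_congr rfl fun b _ => ?_
        rw [if_pos rfl]
      · intro ω' _ hne
        refine Finset.sum_eq_zero fun b _ => ?_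
        rw [if_neg hne]
      · intro h
        exact absurd (Finset.mem_univ _) h
    have e2 : ∑ b : Bool, P (ω, b) = p ω := by
      rw [Fintype.sum_bool, hPt, hPf]
      ring
    rw [← e2, ← e]
    unfold law
    exact Finset.sum_congr rfl fun w _ => by congr
  obtain ⟨S, hS⟩ : ∃ S : Ω × Bool → Prop, S = fun w => w.2 = true := ⟨_, rfl⟩
  have hlS : law P S True = 1 / R := by
    rw [Pool.NFD.Pb_law, ← Pb_sum, Fintype.sum_prod_type]
    have e : ∀ ω, ∑ b : Bool, (if S (ω, b) then P (ω, b) else 0) = q ω / R := fun ω => by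
      rw [Fintype.sum_bool, hS]
      simp only [if_true, Bool.false_eq_true, if_false, add_zero]
      exact hPt ω
    rw [Finset.sum_congr rfl fun ω _ => e ω, ← Finset.sum_div, hq.sum_one]
  have hl0 : 0 < law P S True := by rw [hlS]; positivity
  have hmq : Marg (cond P S True) q (fun w => w.1) := by
    intro ω
    have e : law (cond P S True) (fun w => w.1) ω = ∑ b : Bool, cond P S True (ω, b) := by
      unfold law
      rw [Fintype.sum_prod_type]
      rw [Finset.sum_eq_single ω]
      · refine Finset.sum_congr rfl fun b _ => ?_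
        rw [if_pos rfl]
      · intro ω' _ hne
        refine Finset.sum_eq_zero fun b _ => ?_
        rw [if_neg hne]
      · intro h
        exact absurd (Finset.mem_univ _) h
    have e2 : ∑ b : Bool, cond P S True (ω, b) = q ω := by
      rw [Fintype.sum_bool]
      unfold Pool.Agent.H49.Ent.cond
      rw [if_pos (by rw [hS]; simp), if_neg (by rw [hS]; simp), hPt, hlS]
      field_simp
      ring
    rw [← e2, ← e]
    unfold law
    exact Finset.sum_congr rfl fun w _ => by congr
  -- the entropies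
  have a1 := hm.CH X Z
  have a2 := hm.CH X Y
  have b1 := hmq.CH X Z
  have b2 := hmq.CH X Y
  obtain ⟨X', hX'⟩ : ∃ X' : Ω × Bool → T, X' = fun w => X w.1 := ⟨_, rfl⟩
  obtain ⟨Y', hY'⟩ : ∃ Y' : Ω × Bool → U, Y' = fun w => Y w.1 := ⟨_, rfl⟩
  obtain ⟨Z', hZ'⟩ : ∃ Z' : Ω × Bool → V, Z' = fun w => Z w.1 := ⟨_, rfl⟩
  have a1' : CH P X' Z' = CH p X Z := by rw [hX', hZ']; exact a1
  have a2' : CH P X' Y' = CH p X Y := by rw [hX', hY']; exact a2
  have b1' : CH (cond P S True) X' Z' = CH q X Z := by rw [hX', hZ']; exact b1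
  have b2' : CH (cond P S True) X' Y' = CH q X Y := by rw [hX', hY']; exact b2
  have hYZ' : ∀ w w', 0 < P w → 0 < P w' → Y' w = Y' w' → Z' w = Z' w' := by
    intro w w' hw hw' e
    rw [hY'] at e
    rw [hZ']
    exact hYZ _ _ (hPp w hw) (hPp w' hw') e
  have hSe : CH P S Y' ≤ Real.log 2 := by
    have h3 := CH_le_card hP0 hPl.sum_one S Y' (fun _ => {True, False}) (fun ω _ => by
      by_cases hh : S ω
      · simp [hh]
      · simp [hh])
    refine h3.trans (le_of_eq ?_)
    rw [← Ex_const hPl.sum_one (Real.log 2)]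
    have e1 : (({True, False} : Finset Prop).card : ℝ) = 2 := by
      rw [Finset.card_pair (by simp)]
      norm_num
    unfold Ex
    refine Finset.sum_congr rfl fun ω _ => ?_
    show P ω * Real.log _ = P ω * Real.log _
    rw [e1]
  have h1 : CH P X' Y' ≤ CH P X' (fun w => (Y' w, S w)) + Real.log 2 := by
    have h2 := CH_le_add hP0 X' S Y'
    have h3 : CH P X' (fun w => (S w, Y' w)) ≤ CH P X' (fun w => (Y' w, S w)) :=
      CH_mono_cond hP0 fun w w' _ _ hz => Prod.ext (Prod.ext_iff.mp hz).2 (Prod.ext_iff.mp hz).1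
    linarith
  have h2 : CH P X' (fun w => (Z' w, S w)) ≤ CH P X' Z' :=
    CH_mono_cond hP0 fun w w' _ _ hz => (Prod.ext_iff.mp hz).1
  rw [CH_split hP0 X' Y' S] at h1
  rw [CH_split hP0 X' Z' S] at h2
  have h3 : ∑ j ∈ univ.image S, law P S j * (CH (cond P S j) X' Z' - CH (cond P S j) X' Y') ≤
      CH p X Z - CH p X Y + Real.log 2 := by
    have e : ∑ j ∈ univ.image S, law P S j * (CH (cond P S j) X' Z' - CH (cond P S j) X' Y') =
        ∑ j ∈ univ.image S, law P S j * CH (cond P S j) X' Z' -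
        ∑ j ∈ univ.image S, law P S j * CH (cond P S j) X' Y' := by
      rw [← Finset.sum_sub_distrib]
      exact Finset.sum_congr rfl fun j _ => by ring
    rw [e, ← a1', ← a2']
    linarith
  have hnn : ∀ j ∈ univ.image S, 0 ≤ law P S j *
      (CH (cond P S j) X' Z' - CH (cond P S j) X' Y') := by
    intro j _
    refine mul_nonneg (law_nonneg hP0 S j) ?_
    rw [sub_nonneg]
    refine CH_mono_cond (cond_nonneg hP0 S j) fun w w' hw hw' e => ?_
    exact hYZ' w w' ((cond_pos_iff hP0 S j w).mp hw).1 ((cond_pos_iff hP0 S j w').mp hw').1 e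
  have hmem : True ∈ univ.image S := by
    by_contra hcon
    have : law P S True = 0 := by
      unfold law
      refine Finset.sum_eq_zero fun w _ => ?_
      rw [if_neg]
      intro hw
      exact hcon (Finset.mem_image.mpr ⟨w, Finset.mem_univ _, hw⟩)
    rw [this] at hl0
    exact lt_irrefl _ hl0
  have h4 := (Finset.single_le_sum hnn hmem).trans h3
  rw [hlS, b1', b2'] at h4
  have h5 : CH q X Z - CH q X Y = R * (1 / R * (CH q X Z - CH q X Y)) := by
    field_simp
  rw [h5]
  exact mul_le_mul_of_nonneg_left h4 hR.le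

/-- The event form. -/
theorem mi_ev {Ω T U V : Type} [Fintype Ω] {p : Ω → ℝ} (hp : IsLaw p) {R : ℝ}
    (hR : 0 < R) {S : Ω → Prop} (hS : 1 / R ≤ Pb p S) (X : Ω → T) (Y : Ω → U) (Z : Ω → V)
    (hYZ : ∀ w w', 0 < p w → 0 < p w' → Y w = Y w' → Z w = Z w') :
    CH (cond p S True) X Z - CH (cond p S True) X Y ≤
      R * (CH p X Z - CH p X Y + Real.log 2) := by
  classical
  have h0 := hp.nonneg
  have hl : 1 / R ≤ law p S True := by rw [Pool.NFD.Pb_law]; exact hS
  have hl0 : 0 < law p S True := lt_of_lt_of_le (by positivity) hl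
  refine mi_dens hp ⟨cond_nonneg h0 S True, sum_cond p S hl0.ne'⟩ hR (fun ω => ?_) X Y Z hYZ
  unfold Pool.Agent.H49.Ent.cond
  split_ifs
  · rw [div_le_iff₀ hl0]
    have h5 : 1 ≤ R * law p S True := by
      have := mul_le_mul_of_nonneg_left hl hR.le
      rwa [mul_one_div_cancel hR.ne'] at this
    have h6 := h0 ω
    nlinarith
  · exact mul_nonneg hR.le (h0 ω)

end Pool.PR46
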