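import Pool.Agent.H46.PR.Alv

/-!
# Two hops: the conclusions

`two_hops`: the freedom of the height `n` given the height `u` is less than `V` for typical pairs of
hops. `par_one`: if the copies over `G₂` are far from each other in `u` (alive) and near the slope `γ`
of the line (blind), then the `n`-part of the first hop is `γ` times its `u`-part. `par_few`: then the
slope `γ` and the `z`-velocity are few given `G₁`.
-/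

set_option autoImplicit false

namespace Pool.PR46

open Finset Real
open Pool.Agent.H49.Ent Pool.Agent.H32.Dense Pool.STK Pool.OWN68
open Pool.BFL (Pb)

/-! ### Events -/

theorem Pb_sum {A : Type} [Fintype A] (q : A → ℝ) (E : A → Prop) [DecidablePred E] :
    ∑ a, (if E a then q a else 0) = Pb q E := by
  classical
  unfold Pb
  exact Finset.sum_congr rfl fun a _ => by congr

theorem Pb_imp2 {A : Type} [Fintype A] {q : A → ℝ} (h0 : ∀ a, 0 ≤ q a) {E F H : A → Prop}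
    (h : ∀ a, 0 < q a → E a → F a ∨ H a) : Pb q E ≤ Pb q F + Pb q H := by
  classical
  rw [← Pb_sum, ← Pb_sum, ← Pb_sum, ← Finset.sum_add_distrib]
  refine Finset.sum_le_sum fun a _ => ?_
  have hF : 0 ≤ (if F a then q a else 0) := by split_ifs; exacts [h0 a, le_rfl]
  have hH : 0 ≤ (if H a then q a else 0) := by split_ifs; exacts [h0 a, le_rfl]
  by_cases hE : E a
  · rw [if_pos hE]
    rcases (h0 a).eq_or_lt with hz | hz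
    · rw [← hz] at hF hH ⊢
      linarith
    · rcases h a hz hE with h1 | h1
      · rw [if_pos h1]
        linarith
      · rw [if_pos h1]
        linarith
  · rw [if_neg hE]
    linarith

theorem Pb_imp {A : Type} [Fintype A] {q : A → ℝ} (h0 : ∀ a, 0 ≤ q a) {E F : A → Prop}
    (h : ∀ a, 0 < q a → E a → F a) : Pb q E ≤ Pb q F := by
  classical
  rw [← Pb_sum, ← Pb_sum]
  refine Finset.sum_le_sum fun a _ => ?_
  have hF : 0 ≤ (if F a then q a else 0) := by split_ifs; exacts [h0 a, le_rfl]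
  by_cases hE : E a
  · rw [if_pos hE]
    rcases (h0 a).eq_or_lt with hz | hz
    · rw [← hz] at hF ⊢
      exact hF
    · rw [if_pos (h a hz hE)]
  · rw [if_neg hE]
    exact hF

theorem Pb_marg {A B : Type} [Fintype A] [Fintype B] {q : A → ℝ} {r : B → ℝ} {pr : A → B}
    (h : Marg q r pr) (E : B → Prop) : Pb q (fun a => E (pr a)) = Pb r E := by
  classical
  rw [← Pb_sum, ← Pb_sum]
  have h1 := h.ex (fun b => if E b then 1 else 0)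
  unfold Ex at h1
  have e1 : ∀ a, q a * (if E (pr a) then (1 : ℝ) else 0) = if E (pr a) then q a else 0 := by
    intro a; split_ifs <;> simp
  have e2 : ∀ b, r b * (if E b then (1 : ℝ) else 0) = if E b then r b else 0 := by
    intro b; split_ifs <;> simp
  simp_rw [e1, e2] at h1
  exact h1

/-- The two copies may be exchanged. -/
theorem Pb_sym {Ω Γ : Type} [Fintype Ω] {p : Ω → ℝ} (G : Ω → Γ) (E : Ω × Ω → Prop) :
    Pb (glue p p G G) E = Pb (glue p p G G) (fun w => E w.swap) := by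
  classical
  rw [← Pb_sum, ← Pb_sum,
    ← (Equiv.prodComm Ω Ω).sum_comp (fun w => if E w then glue p p G G w else 0)]
  refine Finset.sum_congr rfl fun w _ => ?_
  have e : glue p p G G ((Equiv.prodComm Ω Ω) w) = glue p p G G w := by
    unfold glue
    show (if G w.2 = G w.1 then p w.2 * p w.1 / law p G (G w.2) else 0) =
      if G w.1 = G w.2 then p w.1 * p w.2 / law p G (G w.1) else 0
    by_cases h : G w.1 = G w.2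
    · rw [if_pos h, if_pos h.symm, h]
      ring
    · rw [if_neg h, if_neg (fun h' => h h'.symm)]
  rw [e]
  rfl

theorem frq_nonneg (x₁ x₂ y₁ y₂ : ℝ) : 0 ≤ frq x₁ x₂ y₁ y₂ :=
  div_nonneg ((abs_nonneg _).trans (le_max_left _ _)) (zero_le_one.trans (le_max_left _ _))

theorem frq_le {M x₁ x₂ y₁ y₂ : ℝ} (h3 : |y₁| ≤ M) (h4 : |y₂| ≤ M) : frq x₁ x₂ y₁ y₂ ≤ 2 * M := by
  have hM : 0 ≤ M := (abs_nonneg _).trans h3
  have hm : 0 < max 1 (max |x₁| |x₂|) := zero_lt_one.trans_le (le_max_left _ _)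
  unfold frq frd
  rw [div_le_iff₀ hm]
  have e1 : (1 : ℝ) ≤ max 1 (max |x₁| |x₂|) := le_max_left _ _
  have e2 : |x₁| ≤ max 1 (max |x₁| |x₂|) := (le_max_left _ _).trans (le_max_right _ _)
  have e3 : |x₂| ≤ max 1 (max |x₁| |x₂|) := (le_max_right _ _).trans (le_max_right _ _)
  obtain ⟨X, hX⟩ : ∃ X, X = max 1 (max |x₁| |x₂|) := ⟨_, rfl⟩
  rw [← hX] at hm e1 e2 e3 ⊢
  refine max_le ?_ (max_le ?_ ?_)
  · refine (abs_sub _ _).trans ?_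
    rw [abs_mul, abs_mul]
    have g1 := mul_le_mul e2 h4 (abs_nonneg _) hm.le
    have g2 := mul_le_mul e3 h3 (abs_nonneg _) hm.le
    linarith
  · nlinarith
  · nlinarith

/-- **Two hops: the freedom is small.** -/
theorem two_hops {Ω Λ Γ₁ Γ₂ 𝒞 𝒟 𝒩₁ 𝒩₂ : Type} [Fintype Ω] {p : Ω → ℝ} (hp : IsLaw p)
    {M K : ℕ} (hM : 1 ≤ M) (L : Ω → Λ) (t : Ω → ℤ) (G₁ : Ω → Γ₁) (G₂ : Ω → Γ₂) (C : Λ → 𝒞)
    (D : Λ → 𝒟) (N₁ : Λ → 𝒩₁) (N₂ : Λ → 𝒩₂) (u n : Λ → ℤ → ℤ) (x₁ x₂ y₁ y₂ a b : Zt Λ 𝒟 → ℝ)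
    {V R e : ℝ} (hR : 0 < R) (he : 0 ≤ e)
    (ht : ∀ ω, 0 < p ω → |t ω| ≤ (M : ℤ))
    (hG₁ : ∀ ω ω', 0 < p ω → 0 < p ω' → G₁ ω = G₁ ω' → C (L ω) = C (L ω') ∧ N₁ (L ω) = N₁ (L ω'))
    (hG₂ : ∀ ω ω', 0 < p ω → 0 < p ω' → G₂ ω = G₂ ω' → C (L ω) = C (L ω') ∧ N₂ (L ω) = N₂ (L ω'))
    (hN₂ : ∀ ω ω', 0 < p ω → 0 < p ω' → D (L ω) = D (L ω') → N₂ (L ω) = N₂ (L ω'))
    (hfull : Real.log (2 * M + 1) - e ≤ CH p t L)
    (hI₁ : CH p (fun ω => D (L ω)) (fun ω => (N₁ (L ω), C (L ω))) - e ≤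
      CH p (fun ω => D (L ω)) G₁)
    (hI₂ : CH p (fun ω => D (L ω)) (fun ω => (N₂ (L ω), C (L ω))) - e ≤
      CH p (fun ω => D (L ω)) G₂)
    (hdis : ∀ ω₀ ω₁ ω₁' ω₂, 0 < p ω₀ → 0 < p ω₁ → 0 < p ω₁' → 0 < p ω₂ → G₁ ω₀ = G₁ ω₁ →
      L ω₁ = L ω₁' → G₂ ω₁' = G₂ ω₂ → ∀ τ : ℤ, |τ| ≤ (M : ℤ) → ∀ z : Zt Λ 𝒟,
      z = (τ, (D (L ω₂), (D (L ω₁), L ω₀))) →
      |x₁ z| ≤ M ∧ |x₂ z| ≤ M ∧ |y₁ z| ≤ M ∧ |y₂ z| ≤ M ∧
      |(u (L ω₂) τ : ℝ) - (a z - (x₁ z * t ω₀ + x₂ z * t ω₁') / M)| ≤ K ∧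
      |(n (L ω₂) τ : ℝ) - (b z - (y₁ z * t ω₀ + y₂ z * t ω₁') / M)| ≤ K)
    {J : ℕ} (Vs Us : ℕ → ℝ) (ms : ℕ → ℕ) (hV : ∀ j < J, 1 ≤ Vs j)
    (hcov : ∀ x : ℝ, V ≤ x → x ≤ 2 * M → ∃ j < J, Vs j ≤ x ∧ x ≤ ms j)
    (hNF : ∀ j < J, ∀ q : Ω → ℝ, IsLaw q → (∀ ω, q ω ≤ R * p ω) →
      CH q (fun ω => n (L ω) (t ω)) (fun ω => ((n (L ω) (t ω) / ms j, u (L ω) (t ω)),
        (t ω, (C (L ω), D (L ω))))) ≤ Us j)
    (hbig : ∀ j < J, Us j + 6 * R * e + Real.log (cst K) < Real.log (Vs j)) :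
    Pb (P4 p L G₁ G₂) (fun w => V ≤ frq (x₁ (zt L t D w)) (x₂ (zt L t D w)) (y₁ (zt L t D w))
      (y₂ (zt L t D w))) ≤ J / R := by
  classical
  have hL4 := P4_law hp L G₁ G₂
  rw [← Pb_sum]
  have h1 : ∑ w, (if V ≤ frq (x₁ (zt L t D w)) (x₂ (zt L t D w)) (y₁ (zt L t D w))
      (y₂ (zt L t D w)) then P4 p L G₁ G₂ w else 0) ≤
      ∑ w, ∑ j ∈ Finset.range J, (if Vs j ≤ frq (x₁ (zt L t D w)) (x₂ (zt L t D w))
        (y₁ (zt L t D w)) (y₂ (zt L t D w)) ∧ frq (x₁ (zt L t D w)) (x₂ (zt L t D w))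
        (y₁ (zt L t D w)) (y₂ (zt L t D w)) ≤ ms j then P4 p L G₁ G₂ w else 0) := by
    refine Finset.sum_le_sum fun w _ => ?_
    have hnn : ∀ j ∈ Finset.range J, 0 ≤ (if Vs j ≤ frq (x₁ (zt L t D w)) (x₂ (zt L t D w))
        (y₁ (zt L t D w)) (y₂ (zt L t D w)) ∧ frq (x₁ (zt L t D w)) (x₂ (zt L t D w))
        (y₁ (zt L t D w)) (y₂ (zt L t D w)) ≤ ms j then P4 p L G₁ G₂ w else 0) := by
      intro j _
      split_ifs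
      exacts [hL4.nonneg w, le_rfl]
    by_cases hv : V ≤ frq (x₁ (zt L t D w)) (x₂ (zt L t D w)) (y₁ (zt L t D w)) (y₂ (zt L t D w))
    · rw [if_pos hv]
      rcases (hL4.nonneg w).eq_or_lt with hz | hz
      · rw [← hz]
        rw [← hz] at hnn
        exact Finset.sum_nonneg hnn
      · obtain ⟨q1, q2, q3⟩ := P4_pos hp L G₁ G₂ hz
        obtain ⟨a1, a2, a3, a4, a5, a6, a7⟩ := P3_sup hp L G₁ G₂ q1
        obtain ⟨-, -, b3, b4, -, -⟩ := hdis _ _ _ _ a1 a2 a3 a4 a5 a6 a7 (t w.2) (ht _ q2)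
          (zt L t D w) rfl
        obtain ⟨j, hj, hj1, hj2⟩ := hcov _ hv (frq_le b3 b4)
        have h2 := Finset.single_le_sum hnn (Finset.mem_range.mpr hj)
        rw [if_pos ⟨hj1, hj2⟩] at h2
        exact h2
    · rw [if_neg hv]
      exact Finset.sum_nonneg hnn
  refine h1.trans ?_
  rw [Finset.sum_comm]
  have h2 : ∀ j ∈ Finset.range J, ∑ w, (if Vs j ≤ frq (x₁ (zt L t D w)) (x₂ (zt L t D w))
        (y₁ (zt L t D w)) (y₂ (zt L t D w)) ∧ frq (x₁ (zt L t D w)) (x₂ (zt L t D w))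
        (y₁ (zt L t D w)) (y₂ (zt L t D w)) ≤ ms j then P4 p L G₁ G₂ w else 0) ≤ 1 / R := by
    intro j hj
    rw [Finset.mem_range] at hj
    refine le_trans (le_of_eq (Finset.sum_congr rfl fun w _ => ?_))
      (two_cell hp hM L t G₁ G₂ C D N₁ N₂ u n x₁ x₂ y₁ y₂ a b (hV j hj) hR he ht hG₁ hG₂ hN₂
      hfull hI₁ hI₂ hdis (hNF j hj) (hbig j hj)).le
    congr
  refine (Finset.sum_le_sum h2).trans (le_of_eq ?_)
  rw [Finset.sum_const, Finset.card_range, nsmul_eq_mul]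
  ring

/-- The pair of the second hop. -/
theorem P4_pair {Ω Λ Γ₁ Γ₂ : Type} [Fintype Ω] {p : Ω → ℝ} (hp : IsLaw p) (L : Ω → Λ)
    (G₁ : Ω → Γ₁) (G₂ : Ω → Γ₂) :
    Marg (P4 p L G₁ G₂) (glue p p G₂ G₂) (fun w => (w.1.1.2, w.1.2)) := by
  have h1 : Marg (P3 p L G₁ G₂) (glue p p G₂ G₂) (fun w => (w.1.2, w.2)) :=
    (P2_s hp L G₁).glue (Z₁ := G₂) (Z₂ := G₂) (Marg.id p)
  exact (P4_f hp L G₁ G₂).comp h1

/-- The pair of the first hop. -/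
theorem P4_pair1 {Ω Λ Γ₁ Γ₂ : Type} [Fintype Ω] {p : Ω → ℝ} (hp : IsLaw p) (L : Ω → Λ)
    (G₁ : Ω → Γ₁) (G₂ : Ω → Γ₂) :
    Marg (P4 p L G₁ G₂) (glue p p G₁ G₁) (fun w => w.1.1.1) :=
  (P4_f hp L G₁ G₂).comp ((P3_f hp L G₁ G₂).comp (P2_f hp L G₁))

/-- The algebra. -/
theorem alg {M V W B x₁ x₂ y₁ y₂ γ : ℝ} (hM : 1 ≤ M) (hB : 0 < B) (h1 : |x₁| ≤ M)
    (h2 : |x₂| ≤ M) (hf : frq x₁ x₂ y₁ y₂ < V) (hx : B ≤ |x₂|) (hb : |y₂ - γ * x₂| ≤ W) :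
    |y₁ - γ * x₁| ≤ (V + W) * M / B := by
  have hX : 0 < |x₂| := hB.trans_le hx
  have hV : 0 ≤ V := (frq_nonneg _ _ _ _).trans hf.le
  have hm : 0 < max 1 (max |x₁| |x₂|) := zero_lt_one.trans_le (le_max_left _ _)
  have hd : |x₁ * y₂ - x₂ * y₁| ≤ V * M := by
    have g1 : frd x₁ x₂ y₁ y₂ < V * max 1 (max |x₁| |x₂|) := by
      unfold frq at hf
      rwa [div_lt_iff₀ hm] at hf
    have g2 : |x₁ * y₂ - x₂ * y₁| ≤ frd x₁ x₂ y₁ y₂ := le_max_left _ _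
    have g3 : max 1 (max |x₁| |x₂|) ≤ M := max_le hM (max_le h1 h2)
    exact g2.trans (g1.le.trans (mul_le_mul_of_nonneg_left g3 hV))
  have e : (y₁ - γ * x₁) * x₂ = -(x₁ * y₂ - x₂ * y₁) + x₁ * (y₂ - γ * x₂) := by ring
  have g : |y₁ - γ * x₁| * |x₂| ≤ (V + W) * M := by
    rw [← abs_mul, e]
    refine (abs_add_le _ _).trans ?_
    rw [abs_neg, abs_mul]
    have g4 := mul_le_mul h1 hb (abs_nonneg _) (by linarith : (0 : ℝ) ≤ M)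
    linarith
  rw [le_div_iff₀ hB]
  refine le_trans ?_ g
  exact mul_le_mul_of_nonneg_left hx (abs_nonneg _)

/-- **The first hop is along the slope of the line `L1`.** -/
theorem par_one {Ω Λ Γ₁ Γ₂ 𝒞 𝒟 𝒩₁ 𝒩₂ : Type} [Fintype Ω] {p : Ω → ℝ} (hp : IsLaw p)
    {M K : ℕ} (hM : 1 ≤ M) (L : Ω → Λ) (t : Ω → ℤ) (G₁ : Ω → Γ₁) (G₂ : Ω → Γ₂) (C : Λ → 𝒞)
    (D : Λ → 𝒟) (N₁ : Λ → 𝒩₁) (N₂ : Λ → 𝒩₂) (u n : Λ → ℤ → ℤ) (du dn γ : 𝒟 → ℝ)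
    {V R e : ℝ} (hR : 0 < R) (he : 0 ≤ e)
    (ht : ∀ ω, 0 < p ω → |t ω| ≤ (M : ℤ))
    (hG₁ : ∀ ω ω', 0 < p ω → 0 < p ω' → G₁ ω = G₁ ω' → C (L ω) = C (L ω') ∧ N₁ (L ω) = N₁ (L ω'))
    (hG₂ : ∀ ω ω', 0 < p ω → 0 < p ω' → G₂ ω = G₂ ω' → C (L ω) = C (L ω') ∧ N₂ (L ω) = N₂ (L ω'))
    (hN₂ : ∀ ω ω', 0 < p ω → 0 < p ω' → D (L ω) = D (L ω') → N₂ (L ω) = N₂ (L ω'))
    (hfull : Real.log (2 * M + 1) - e ≤ CH p t L)
    (hI₁ : CH p (fun ω => D (L ω)) (fun ω => (N₁ (L ω), C (L ω))) - e ≤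
      CH p (fun ω => D (L ω)) G₁)
    (hI₂ : CH p (fun ω => D (L ω)) (fun ω => (N₂ (L ω), C (L ω))) - e ≤
      CH p (fun ω => D (L ω)) G₂)
    (hd₁ : ∀ ω ω', 0 < p ω → 0 < p ω' → G₁ ω = G₁ ω' →
      |du (D (L ω')) - du (D (L ω))| ≤ M ∧ |dn (D (L ω')) - dn (D (L ω))| ≤ M ∧
      ∀ τ : ℤ, |τ| ≤ (M : ℤ) → |((u (L ω') τ : ℝ) - u (L ω) τ) -
        (du (D (L ω')) - du (D (L ω))) * (((τ : ℝ) - t ω) / M)| ≤ K ∧
        |((n (L ω') τ : ℝ) - n (L ω) τ) -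
        (dn (D (L ω')) - dn (D (L ω))) * (((τ : ℝ) - t ω) / M)| ≤ K)
    (hd₂ : ∀ ω ω', 0 < p ω → 0 < p ω' → G₂ ω = G₂ ω' →
      |du (D (L ω')) - du (D (L ω))| ≤ M ∧ |dn (D (L ω')) - dn (D (L ω))| ≤ M ∧
      ∀ τ : ℤ, |τ| ≤ (M : ℤ) → |((u (L ω') τ : ℝ) - u (L ω) τ) -
        (du (D (L ω')) - du (D (L ω))) * (((τ : ℝ) - t ω) / M)| ≤ K ∧
        |((n (L ω') τ : ℝ) - n (L ω) τ) -
        (dn (D (L ω')) - dn (D (L ω))) * (((τ : ℝ) - t ω) / M)| ≤ K)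
    {W₂ B₂ δ : ℝ} (hB₂ : 0 < B₂)
    (hbl₂ : ∀ ω ω', 0 < p ω → 0 < p ω' → G₂ ω = G₂ ω' →
      |(dn (D (L ω')) - dn (D (L ω))) - γ (D (L ω)) * (du (D (L ω')) - du (D (L ω)))| ≤ W₂)
    (hal₂ : Pb (glue p p G₂ G₂) (fun w => |du (D (L w.2)) - du (D (L w.1))| < B₂) ≤ δ)
    {J : ℕ} (Vs Us : ℕ → ℝ) (ms : ℕ → ℕ) (hV : ∀ j < J, 1 ≤ Vs j)
    (hcov : ∀ x : ℝ, V ≤ x → x ≤ 2 * M → ∃ j < J, Vs j ≤ x ∧ x ≤ ms j)
    (hNF : ∀ j < J, ∀ q : Ω → ℝ, IsLaw q → (∀ ω, q ω ≤ R * p ω) →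
      CH q (fun ω => n (L ω) (t ω)) (fun ω => ((n (L ω) (t ω) / ms j, u (L ω) (t ω)),
        (t ω, (C (L ω), D (L ω))))) ≤ Us j)
    (hbig : ∀ j < J, Us j + 6 * R * e + Real.log (cst (2 * K)) < Real.log (Vs j)) :
    Pb (glue p p G₁ G₁) (fun w => (V + W₂) * M / B₂ < |(dn (D (L w.2)) - dn (D (L w.1))) -
      γ (D (L w.2)) * (du (D (L w.2)) - du (D (L w.1)))|) ≤ J / R + δ := by
  have h0 := hp.nonneg
  have hMr : (1 : ℝ) ≤ M := by exact_mod_cast hM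
  have hM0 : (0 : ℝ) < M := by linarith
  have hL4 := P4_law hp L G₁ G₂
  have key := two_hops hp (K := 2 * K) hM L t G₁ G₂ C D N₁ N₂ u n
    (fun z => du z.2.2.1 - du (D z.2.2.2)) (fun z => du z.2.1 - du z.2.2.1)
    (fun z => dn z.2.2.1 - dn (D z.2.2.2)) (fun z => dn z.2.1 - dn z.2.2.1)
    (fun z => u z.2.2.2 z.1 + ((du z.2.2.1 - du (D z.2.2.2)) * z.1 +
      (du z.2.1 - du z.2.2.1) * z.1) / M)
    (fun z => n z.2.2.2 z.1 + ((dn z.2.2.1 - dn (D z.2.2.2)) * z.1 +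
      (dn z.2.1 - dn z.2.2.1) * z.1) / M)
    (V := V) hR he ht hG₁ hG₂ hN₂ hfull hI₁ hI₂ (by
      intro ω₀ ω₁ ω₁' ω₂ p0 p1 p1' p2 e1 e2 e3 τ hτ z hz
      subst hz
      obtain ⟨b1, b2, b3⟩ := hd₁ ω₀ ω₁ p0 p1 e1
      obtain ⟨c1, c2, c3⟩ := hd₂ ω₁' ω₂ p1' p2 e3
      obtain ⟨b4, b5⟩ := b3 τ hτ
      obtain ⟨c4, c5⟩ := c3 τ hτ
      rw [← e2] at c1 c2 c4 c5
      refine ⟨b1, c1, b2, c2, ?_, ?_⟩
      · show |(u (L ω₂) τ : ℝ) - ((u (L ω₀) τ + ((du (D (L ω₁)) - du (D (L ω₀))) * τ +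
          (du (D (L ω₂)) - du (D (L ω₁))) * τ) / M) - ((du (D (L ω₁)) - du (D (L ω₀))) * t ω₀ +
          (du (D (L ω₂)) - du (D (L ω₁))) * t ω₁') / M)| ≤ ((2 * K : ℕ) : ℝ)
        have e : (u (L ω₂) τ : ℝ) - ((u (L ω₀) τ + ((du (D (L ω₁)) - du (D (L ω₀))) * τ +
          (du (D (L ω₂)) - du (D (L ω₁))) * τ) / M) - ((du (D (L ω₁)) - du (D (L ω₀))) * t ω₀ +
          (du (D (L ω₂)) - du (D (L ω₁))) * t ω₁') / M) =
          (((u (L ω₁) τ : ℝ) - u (L ω₀) τ) -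
            (du (D (L ω₁)) - du (D (L ω₀))) * (((τ : ℝ) - t ω₀) / M)) +
          (((u (L ω₂) τ : ℝ) - u (L ω₁) τ) -
            (du (D (L ω₂)) - du (D (L ω₁))) * (((τ : ℝ) - t ω₁') / M)) := by
          field_simp
          ring
        rw [e]
        refine (abs_add_le _ _).trans ?_
        push_cast
        linarith
      · show |(n (L ω₂) τ : ℝ) - ((n (L ω₀) τ + ((dn (D (L ω₁)) - dn (D (L ω₀))) * τ +
          (dn (D (L ω₂)) - dn (D (L ω₁))) * τ) / M) - ((dn (D (L ω₁)) - dn (D (L ω₀))) * t ω₀ +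
          (dn (D (L ω₂)) - dn (D (L ω₁))) * t ω₁') / M)| ≤ ((2 * K : ℕ) : ℝ)
        have e : (n (L ω₂) τ : ℝ) - ((n (L ω₀) τ + ((dn (D (L ω₁)) - dn (D (L ω₀))) * τ +
          (dn (D (L ω₂)) - dn (D (L ω₁))) * τ) / M) - ((dn (D (L ω₁)) - dn (D (L ω₀))) * t ω₀ +
          (dn (D (L ω₂)) - dn (D (L ω₁))) * t ω₁') / M) =
          (((n (L ω₁) τ : ℝ) - n (L ω₀) τ) -
            (dn (D (L ω₁)) - dn (D (L ω₀))) * (((τ : ℝ) - t ω₀) / M)) +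
          (((n (L ω₂) τ : ℝ) - n (L ω₁) τ) -
            (dn (D (L ω₂)) - dn (D (L ω₁))) * (((τ : ℝ) - t ω₁') / M)) := by
          field_simp
          ring
        rw [e]
        refine (abs_add_le _ _).trans ?_
        push_cast
        linarith) Vs Us ms hV hcov hNF hbig
  have hpair := Pb_marg (P4_pair hp L G₁ G₂) (fun w => |du (D (L w.2)) - du (D (L w.1))| < B₂)
  have hpair1 := Pb_marg (P4_pair1 hp L G₁ G₂) (fun w => (V + W₂) * M / B₂ <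
    |(dn (D (L w.2)) - dn (D (L w.1))) - γ (D (L w.2)) * (du (D (L w.2)) - du (D (L w.1)))|)
  rw [← hpair1]
  refine le_trans ?_ (add_le_add key (hpair.le.trans hal₂))
  refine Pb_imp2 hL4.nonneg fun w hz hbad => ?_
  obtain ⟨q1, q2, q3⟩ := P4_pos hp L G₁ G₂ hz
  obtain ⟨a1, a2, a3, a4, a5, a6, a7⟩ := P3_sup hp L G₁ G₂ q1
  by_cases hal : |du (D (L w.1.2)) - du (D (L w.1.1.2))| < B₂
  · exact Or.inr hal
  · left
    push Not at hal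
    by_contra hfr
    push Not at hfr
    obtain ⟨b1, b2, -⟩ := hd₁ _ _ a1 a2 a5
    obtain ⟨c1, c2, -⟩ := hd₂ _ _ a3 a4 a7
    have hbl := hbl₂ _ _ a3 a4 a7
    rw [← a6] at hbl c1 c2 hal
    have hfr' : frq (du (D (L w.1.1.1.2)) - du (D (L w.1.1.1.1)))
        (du (D (L w.1.2)) - du (D (L w.1.1.1.2)))
        (dn (D (L w.1.1.1.2)) - dn (D (L w.1.1.1.1)))
        (dn (D (L w.1.2)) - dn (D (L w.1.1.1.2))) < V := hfr
    exact absurd (alg hMr hB₂ b1 c1 hfr' hal hbl) (not_le.mpr hbad)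

end Pool.PR46
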