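import Pool.Agent.H46.PR.Thr4

/-!
# The copies over the record are along the slope of the line

`alg_tie`: from `tie_two`. `par_ks`: the copies over a second record are along the same slope.
`rate_tie`: the position of the leaf is nonfull.
-/

set_option autoImplicit false

namespace Pool.PR46

open Finset Real
open Pool.Agent.H49.Ent Pool.Agent.H32.Dense Pool.STK Pool.OWN68
open Pool.BFL (Pb)

/-- **The copies are along the slope of the line.** -/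
theorem alg_tie {Ω Λ Γ 𝒞 𝒟 𝒩 : Type} [Fintype Ω] {p : Ω → ℝ} (hp : IsLaw p)
    {M K : ℕ} (hM : 1 ≤ M) {L : Ω → Λ} {t : Ω → ℤ} {G : Ω → Γ} {C : Λ → 𝒞}
    {D : Λ → 𝒟} {N : Λ → 𝒩} {u n : Λ → ℤ → ℤ} {du dn : 𝒟 → ℝ}
    {V R e : ℝ} (hR : 0 < R) (he : 0 ≤ e) (hrec : Recs p M e L t G G C D N N)
    (hd : Disp p M K L t G D u n du dn) {B δ : ℝ} (hB : 0 < B)
    (hal : Pb (glue p p G G) (fun w => |du (D (L w.2)) - du (D (L w.1))| < B) ≤ δ)
    {J : ℕ} {Vs Us : ℕ → ℝ} {ms : ℕ → ℕ} (hcel : Cells p M K V R e L t C D u n J Vs Us ms)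
    {r : ℕ} (hV : 0 ≤ V) (hr : 5 * (V * M / B ^ 2) * M ≤ r) :
    ∃ ks : Λ → ℝ, (∀ ω, 0 < p ω → |ks (L ω)| ≤ M / B) ∧
      Pb (glue p p G G) (fun w => ¬ Alg M r B L D du dn ks w) ≤ 7 * (J / R + 2 * δ) + 2 * δ := by
  have hMr : (1 : ℝ) ≤ M := by exact_mod_cast hM
  have hM0 : (0 : ℝ) < M := by linarith
  obtain ⟨ks, kg, h1, h2, h3⟩ := tie_two hp hM hR he hrec hd hB hal hcel
  refine ⟨ks, fun ω hω => (h1 ω hω).1, ?_⟩
  obtain ⟨W, hW⟩ : ∃ W, W = V * M / B ^ 2 := ⟨_, rfl⟩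
  have hW0 : 0 ≤ W := by rw [hW]; positivity
  rw [← hW] at h2 h3 hr
  have hP1 := P1_law hp G
  have hPn : ∀ w, 0 ≤ glue p p G G w := hP1.nonneg
  have m1 : Pb (glue p p G G) (fun w => 2 * W < |kg (G w.1) - ks (L w.1)|) ≤
      2 * (J / R + 2 * δ) :=
    (Pb_marg (P1_f hp G) (fun ω => 2 * W < |kg (G ω) - ks (L ω)|)).le.trans h2
  have m2 : Pb (glue p p G G) (fun w => 2 * W < |kg (G w.2) - ks (L w.2)|) ≤
      2 * (J / R + 2 * δ) :=
    (Pb_marg (P1_s hp G) (fun ω => 2 * W < |kg (G ω) - ks (L ω)|)).le.trans h2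
  have g1 := Pb_imp2 hPn (E := fun w => ¬ Alg M r B L D du dn ks w)
    (F := fun w => |du (D (L w.2)) - du (D (L w.1))| < B)
    (H := fun w => 3 * W * M < |(dn (D (L w.2)) - dn (D (L w.1))) -
      kg (G w.1) * (du (D (L w.2)) - du (D (L w.1)))| ∨
      (2 * W < |kg (G w.1) - ks (L w.1)| ∨ 2 * W < |kg (G w.2) - ks (L w.2)|)) fun w hw hbad => by
      by_contra hcon
      push Not at hcon
      obtain ⟨c1, c2, c3, c4⟩ := hcon
      apply hbad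
      obtain ⟨a1, a2, a3⟩ := P1_pos hp G hw
      obtain ⟨b1, -, -⟩ := hd.dis _ _ a1 a2 a3
      rw [← a3] at c4
      refine ⟨c1, ?_, ?_⟩
      · have e : (dn (D (L w.2)) - dn (D (L w.1))) - ks (L w.2) *
            (du (D (L w.2)) - du (D (L w.1))) = ((dn (D (L w.2)) - dn (D (L w.1))) -
            kg (G w.1) * (du (D (L w.2)) - du (D (L w.1)))) +
            (kg (G w.1) - ks (L w.2)) * (du (D (L w.2)) - du (D (L w.1))) := by ring
        rw [e]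
        refine (abs_add_le _ _).trans ?_
        rw [abs_mul]
        have := mul_le_mul c4 b1 (abs_nonneg _) (by positivity)
        linarith
      · have e : ks (L w.2) - ks (L w.1) = (kg (G w.1) - ks (L w.1)) -
          (kg (G w.1) - ks (L w.2)) := by ring
        rw [e]
        have := abs_sub (kg (G w.1) - ks (L w.1)) (kg (G w.1) - ks (L w.2))
        have h4 : |kg (G w.1) - ks (L w.1) - (kg (G w.1) - ks (L w.2))| ≤ 4 * W := by linarith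
        have := mul_le_mul_of_nonneg_right h4 hM0.le
        nlinarith
  have g2 := Pb_imp2 hPn (E := fun w => 3 * W * M < |(dn (D (L w.2)) - dn (D (L w.1))) -
      kg (G w.1) * (du (D (L w.2)) - du (D (L w.1)))| ∨
      (2 * W < |kg (G w.1) - ks (L w.1)| ∨ 2 * W < |kg (G w.2) - ks (L w.2)|))
    (F := fun w => 3 * W * M < |(dn (D (L w.2)) - dn (D (L w.1))) -
      kg (G w.1) * (du (D (L w.2)) - du (D (L w.1)))|)
    (H := fun w => 2 * W < |kg (G w.1) - ks (L w.1)| ∨ 2 * W < |kg (G w.2) - ks (L w.2)|)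
    fun w _ hw => hw
  have g3 := Pb_imp2 hPn
    (E := fun w => 2 * W < |kg (G w.1) - ks (L w.1)| ∨ 2 * W < |kg (G w.2) - ks (L w.2)|)
    (F := fun w => 2 * W < |kg (G w.1) - ks (L w.1)|)
    (H := fun w => 2 * W < |kg (G w.2) - ks (L w.2)|) fun w _ hw => hw
  linarith

/-- **The copies over `G₁` are along the slope which is known from `G₂`.** -/
theorem par_ks {Ω Λ Γ₁ Γ₂ 𝒞 𝒟 𝒩₁ 𝒩₂ : Type} [Fintype Ω] {p : Ω → ℝ} (hp : IsLaw p)
    {M K : ℕ} (hM : 1 ≤ M) {L : Ω → Λ} {t : Ω → ℤ} {G₁ : Ω → Γ₁} {G₂ : Ω → Γ₂} {C : Λ → 𝒞}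
    {D : Λ → 𝒟} {N₁ : Λ → 𝒩₁} {N₂ : Λ → 𝒩₂} {u n : Λ → ℤ → ℤ} {du dn : 𝒟 → ℝ} {ks : Λ → ℝ}
    {V R e : ℝ} (hR : 0 < R) (he : 0 ≤ e) (hrec : Recs p M e L t G₁ G₂ C D N₁ N₂)
    (hd₁ : Disp p M K L t G₁ D u n du dn) (hd₂ : Disp p M K L t G₂ D u n du dn)
    {r : ℕ} {B δ : ℝ} (hB : 0 < B)
    (hbl : Pb (glue p p G₂ G₂) (fun w => ¬ Alg M r B L D du dn ks w) ≤ δ)
    {J : ℕ} {Vs Us : ℕ → ℝ} {ms : ℕ → ℕ} (hcel : Cells p M K V R e L t C D u n J Vs Us ms) :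
    Pb (glue p p G₁ G₁) (fun w => (V + 2 * r) * M / B < |(dn (D (L w.2)) - dn (D (L w.1))) -
      ks (L w.2) * (du (D (L w.2)) - du (D (L w.1)))|) ≤ J / R + δ := by
  have h0 := hp.nonneg
  have hMr : (1 : ℝ) ≤ M := by exact_mod_cast hM
  have hM0 : (0 : ℝ) < M := by linarith
  have hL4 := P4_law hp L G₁ G₂
  have key := two_hops hp (K := 2 * K) hM L t G₁ G₂ C D N₁ N₂ u n
    (fun z => du z.2.2.1 - du (D z.2.2.2)) (fun z => du z.2.1 - du z.2.2.1)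
    (fun z => dn z.2.2.1 - dn (D z.2.2.2)) (fun z => dn z.2.1 - dn z.2.2.1)
    (fun z => u z.2.2.2 z.1 + ((du z.2.2.1 - du (D z.2.2.2)) * z.1 +
      (du z.2.1 - du z.2.2.1) * z.1) / M)
    (fun z => n z.2.2.2 z.1 + ((dn z.2.2.1 - dn (D z.2.2.2)) * z.1 +
      (dn z.2.1 - dn z.2.2.1) * z.1) / M)
    (V := V) hR he hrec.tb hrec.g1 hrec.g2 hrec.nd hrec.full hrec.i1 hrec.i2 (by
      intro ω₀ ω₁ ω₁' ω₂ p0 p1 p1' p2 e1 e2 e3 τ hτ z hz
      subst hz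
      obtain ⟨b1, b2, b3⟩ := hd₁.dis ω₀ ω₁ p0 p1 e1
      obtain ⟨c1, c2, c3⟩ := hd₂.dis ω₁' ω₂ p1' p2 e3
      obtain ⟨b4, b5⟩ := b3 τ hτ
      obtain ⟨c4, c5⟩ := c3 τ hτ
      rw [← e2] at c1 c2 c4 c5
      refine ⟨b1, c1, b2, c2, ?_, ?_⟩
      · show |(u (L ω₂) τ : ℝ) - ((u (L ω₀) τ + ((du (D (L ω₁)) - du (D (L ω₀))) * τ +
          (du (D (L ω₂)) - du (D (L ω₁))) * τ) / M) - ((du (D (L ω₁)) - du (D (L ω₀))) * t ω₀ +
          (du (D (L ω₂)) - du (D (L ω₁))) * t ω₁') / M)| ≤ ((2 * K : ℕ) : ℝ)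
        have e : (u (L ω₂) τ : ℝ) - ((u (L ω₀) τ + ((du (D (L ω₁)) - du (D (L ω₀))) * τ +
          (du (D (L ω₂)) - du (D (L ω₁))) * τ) / M) - ((du (D (L ω₁)) - du (D (L ω₀))) * t ω₀ +
          (du (D (L ω₂)) - du (D (L ω₁))) * t ω₁') / M) =
          (((u (L ω₁) τ : ℝ) - u (L ω₀) τ) -
            (du (D (L ω₁)) - du (D (L ω₀))) * (((τ : ℝ) - t ω₀) / M)) +
          (((u (L ω₂) τ : ℝ) - u (L ω₁) τ) -
            (du (D (L ω₂)) - du (D (L ω₁))) * (((τ : ℝ) - t ω₁') / M)) := by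
          field_simp
          ring
        rw [e]
        refine (abs_add_le _ _).trans ?_
        push_cast
        linarith
      · show |(n (L ω₂) τ : ℝ) - ((n (L ω₀) τ + ((dn (D (L ω₁)) - dn (D (L ω₀))) * τ +
          (dn (D (L ω₂)) - dn (D (L ω₁))) * τ) / M) - ((dn (D (L ω₁)) - dn (D (L ω₀))) * t ω₀ +
          (dn (D (L ω₂)) - dn (D (L ω₁))) * t ω₁') / M)| ≤ ((2 * K : ℕ) : ℝ)
        have e : (n (L ω₂) τ : ℝ) - ((n (L ω₀) τ + ((dn (D (L ω₁)) - dn (D (L ω₀))) * τ +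
          (dn (D (L ω₂)) - dn (D (L ω₁))) * τ) / M) - ((dn (D (L ω₁)) - dn (D (L ω₀))) * t ω₀ +
          (dn (D (L ω₂)) - dn (D (L ω₁))) * t ω₁') / M) =
          (((n (L ω₁) τ : ℝ) - n (L ω₀) τ) -
            (dn (D (L ω₁)) - dn (D (L ω₀))) * (((τ : ℝ) - t ω₀) / M)) +
          (((n (L ω₂) τ : ℝ) - n (L ω₁) τ) -
            (dn (D (L ω₂)) - dn (D (L ω₁))) * (((τ : ℝ) - t ω₁') / M)) := by
          field_simp
          ring
        rw [e]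
        refine (abs_add_le _ _).trans ?_
        push_cast
        linarith) Vs Us ms hcel.one hcel.cov hcel.nf hcel.big
  have hpair := Pb_marg (P4_pair hp L G₁ G₂) (fun w => ¬ Alg M r B L D du dn ks w)
  have hpair1 := Pb_marg (P4_pair1 hp L G₁ G₂) (fun w => (V + 2 * r) * M / B <
    |(dn (D (L w.2)) - dn (D (L w.1))) - ks (L w.2) * (du (D (L w.2)) - du (D (L w.1)))|)
  rw [← hpair1]
  refine le_trans ?_ (add_le_add key (hpair.le.trans hbl))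
  refine Pb_imp2 hL4.nonneg fun w hz hbad => ?_
  obtain ⟨q1, q2, q3⟩ := P4_pos hp L G₁ G₂ hz
  obtain ⟨a1, a2, a3, a4, a5, a6, a7⟩ := P3_sup hp L G₁ G₂ q1
  by_cases hal : Alg M r B L D du dn ks (w.1.1.2, w.1.2)
  · left
    obtain ⟨g1, g2, g3⟩ := hal
    by_contra hfr
    push Not at hfr
    obtain ⟨b1, b2, -⟩ := hd₁.dis _ _ a1 a2 a5
    obtain ⟨c1, c2, -⟩ := hd₂.dis _ _ a3 a4 a7
    dsimp only at g1 g2 g3
    rw [← a6] at c1 c2 g1 g2 g3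
    have hbl' : |(dn (D (L w.1.2)) - dn (D (L w.1.1.1.2))) - ks (L w.1.1.1.2) *
        (du (D (L w.1.2)) - du (D (L w.1.1.1.2)))| ≤ 2 * r := by
      have e : (dn (D (L w.1.2)) - dn (D (L w.1.1.1.2))) - ks (L w.1.1.1.2) *
          (du (D (L w.1.2)) - du (D (L w.1.1.1.2))) =
          ((dn (D (L w.1.2)) - dn (D (L w.1.1.1.2))) - ks (L w.1.2) *
            (du (D (L w.1.2)) - du (D (L w.1.1.1.2)))) +
          (ks (L w.1.2) - ks (L w.1.1.1.2)) * (du (D (L w.1.2)) - du (D (L w.1.1.1.2))) := by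
        ring
      rw [e]
      refine (abs_add_le _ _).trans ?_
      rw [abs_mul]
      have := mul_le_mul_of_nonneg_left c1 (abs_nonneg (ks (L w.1.2) - ks (L w.1.1.1.2)))
      linarith
    have hfr' : frq (du (D (L w.1.1.1.2)) - du (D (L w.1.1.1.1)))
        (du (D (L w.1.2)) - du (D (L w.1.1.1.2)))
        (dn (D (L w.1.1.1.2)) - dn (D (L w.1.1.1.1)))
        (dn (D (L w.1.2)) - dn (D (L w.1.1.1.2))) < V := hfr
    exact absurd (alg hMr hB b1 c1 hfr' g1 hbl') (not_le.mpr hbad)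
  · exact Or.inr hal

section rate

variable {Ω Λ 𝒜 ℰ 𝒞 𝒩 : Type} [Fintype Ω] {q : Ω → ℝ} {M r : ℕ}
    {L : Ω → Λ} {t : Ω → ℤ} {A : Ω → 𝒜} {E : Ω → ℰ} {C : Λ → 𝒞} {N : Λ → 𝒩}
    {u n : Λ → ℤ → ℤ} {ks : Λ → ℝ}

/-- **The position of the leaf is nonfull.** -/
theorem rate_tie (hq : IsLaw q) (hM : 1 ≤ M) (hr : 1 ≤ r) (hrM : r ≤ M)
    (ac : ∀ ω ω', 0 < q ω → 0 < q ω' → A ω = A ω' → E ω = E ω' →
      t ω = t ω' ∧ C (L ω) = C (L ω') ∧ N (L ω) = N (L ω'))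
    {e₁ e₂ FE Um κ : ℝ} (lf : Real.log (2 * M + 1) - e₁ ≤
      CH q (fun ω => u (L ω) (t ω)) (VV M r L t C N u n ks))
    (ca : ∀ ω ω', 0 < q ω → 0 < q ω' → t ω = t ω' → C (L ω) = C (L ω') → N (L ω) = N (L ω') →
      A ω = A ω' ∧ E ω = E ω')
    (fe : CH q E A ≤ FE + e₂) (fr : FE - e₂ ≤ CH q E (FF L t A u n))
    (hkb : ∀ ω, 0 < q ω → |ks (L ω)| ≤ κ) (kz : 𝒜 × (ℤ × ℤ) → ℤ)
    (hkz : ∀ ω, 0 < q ω → kq M r (ks (L ω)) = kz (FF L t A u n ω))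
    (hnf : CH q (fun ω => n (L ω) (t ω)) (fun ω => ((n (L ω) (t ω) / (M : ℤ), u (L ω) (t ω)),
      (t ω, C (L ω)))) ≤ Um) :
    CH q (fun ω => (leaf M r L t u n ks ω).2) (fun ω => ((u (L ω) (t ω) / (M : ℤ),
      n (L ω) (t ω) / (M : ℤ)), (kq M r (ks (L ω)), A ω))) ≤
      Um + e₁ + 2 * e₂ + Real.log (4 * κ + 15) := by
  have h0 := hq.nonneg
  have hMr : (1 : ℝ) ≤ M := by exact_mod_cast hM
  have hM0 : (0 : ℝ) < M := by linarith
  have hrr : (1 : ℝ) ≤ r := by exact_mod_cast hr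
  have hr0 : (0 : ℝ) < r := by linarith
  have hrM' : (r : ℝ) ≤ M := by exact_mod_cast hrM
  obtain ⟨U, hU⟩ : ∃ U : Ω → ℤ, U = fun ω => u (L ω) (t ω) := ⟨_, rfl⟩
  obtain ⟨Nn, hNn⟩ : ∃ Nn : Ω → ℤ, Nn = fun ω => n (L ω) (t ω) := ⟨_, rfl⟩
  obtain ⟨k, hk⟩ : ∃ k : Ω → ℤ, k = fun ω => kq M r (ks (L ω)) := ⟨_, rfl⟩
  obtain ⟨c, hc⟩ : ∃ c : Ω → ℤ, c = fun ω => (leaf M r L t u n ks ω).2 := ⟨_, rfl⟩
  obtain ⟨Um', hUm⟩ : ∃ Um' : Ω → ℤ, Um' = fun ω => u (L ω) (t ω) / (M : ℤ) := ⟨_, rfl⟩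
  obtain ⟨Nm, hNm⟩ : ∃ Nm : Ω → ℤ, Nm = fun ω => n (L ω) (t ω) / (M : ℤ) := ⟨_, rfl⟩
  have hcl : ∀ ω, c ω = lc M r (k ω) (U ω) (Nn ω) := fun ω => by
    rw [hc, hk, hU, hNn]
    rfl
  have hkne : (∃ ω, 0 < q ω) := by
    by_contra hcon
    push Not at hcon
    have : ∑ ω, q ω ≤ 0 := Finset.sum_nonpos fun ω _ => hcon ω
    rw [hq.sum_one] at this
    linarith
  have hκ0 : 0 ≤ κ := by
    obtain ⟨ω, hω⟩ := hkne
    exact (abs_nonneg _).trans (hkb ω hω)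
  -- the coarse height `n`
  have s1 : CH q Nm (VV M r L t C N u n ks) ≤ Real.log (4 * κ + 15) := by
    refine CH_int_const hq _ _ (B := 2 * κ + 7) ?_ (by linarith) (by linarith)
    intro ω ω' hω hω' hz
    have z1 := Prod.ext_iff.mp hz
    have z2 := Prod.ext_iff.mp z1.2
    have y1 : leaf M r L t u n ks ω = leaf M r L t u n ks ω' := z2.1
    have yk : k ω = k ω' := by
      rw [hk]
      exact (Prod.ext_iff.mp y1).1
    have yc : c ω = c ω' := by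
      rw [hc]
      dsimp only
      rw [y1]
    obtain ⟨a1, a2⟩ := lc_bd (M := M) hr (k ω) (U ω) (Nn ω)
    obtain ⟨b1, b2⟩ := lc_bd (M := M) hr (k ω') (U ω') (Nn ω')
    rw [← hcl] at a1 a2 b1 b2
    rw [← yc, ← yk] at b1 b2
    have x1 := mod_abs hM (U ω)
    have x2 := mod_abs hM (U ω')
    have k0 := kq_near hM hr (ks (L ω))
    have k1 := hkb ω hω
    have hkω : k ω = kq M r (ks (L ω)) := by rw [hk]
    rw [← hkω] at k0
    obtain ⟨x, hx⟩ : ∃ x, x = kr M r (k ω) := ⟨_, rfl⟩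
    rw [← hx] at k0 a1 a2 b1 b2
    have k2 : |x| ≤ κ + 1 := by
      have e : x = ks (L ω) - (ks (L ω) - x) := by ring
      rw [e]
      refine (abs_sub _ _).trans ?_
      have : (r : ℝ) / M ≤ 1 := by
        rw [div_le_one hM0]
        exact hrM'
      linarith
    obtain ⟨a, ha⟩ : ∃ a, a = ((U ω % (M : ℤ) : ℤ) : ℝ) := ⟨_, rfl⟩
    obtain ⟨a', ha'⟩ : ∃ a', a' = ((U ω' % (M : ℤ) : ℤ) : ℝ) := ⟨_, rfl⟩
    rw [← ha] at a1 a2 x1
    rw [← ha'] at b1 b2 x2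
    have f1 : |x * a| ≤ (κ + 1) * M := by
      rw [abs_mul]
      exact mul_le_mul k2 x1 (abs_nonneg _) (by linarith)
    have f2 : |x * a'| ≤ (κ + 1) * M := by
      rw [abs_mul]
      exact mul_le_mul k2 x2 (abs_nonneg _) (by linarith)
    obtain ⟨f3, f4⟩ := abs_le.mp f1
    obtain ⟨f5, f6⟩ := abs_le.mp f2
    have f7 : |(Nn ω : ℝ) - Nn ω'| ≤ (2 * κ + 3) * M := by
      rw [abs_le]
      constructor <;> nlinarith
    have e1 : Nm ω = Nn ω / (M : ℤ) := by rw [hNm, hNn]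
    have e2 : Nm ω' = Nn ω' / (M : ℤ) := by rw [hNm, hNn]
    rw [e1, e2]
    refine (ediv_diff hM (Nn ω) (Nn ω')).trans ?_
    have f8 : |(Nn ω : ℝ) - Nn ω'| / M ≤ 2 * κ + 3 := by
      rw [div_le_iff₀ hM0]
      exact f7
    linarith
  -- the main count
  obtain ⟨Z, hZ⟩ : ∃ Z : Ω → (ℤ × ℤ) × (ℤ × (𝒜 × ℰ)), Z = fun ω => ((Um' ω, Nm ω),
    (k ω, (A ω, E ω))) := ⟨_, rfl⟩
  have hlf : Real.log (2 * M + 1) - e₁ - Real.log (4 * κ + 15) ≤ CH q U (fun ω => (c ω, Z ω)) := by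
    have g1 : CH q U (fun ω => (Nm ω, VV M r L t C N u n ks ω)) ≤ CH q U (fun ω => (c ω, Z ω)) := by
      refine CH_mono_cond h0 fun ω ω' hω hω' hz => ?_
      have z := Prod.ext_iff.mp hz
      have z1 := Prod.ext_iff.mp z.2
      have z2 := Prod.ext_iff.mp z1.2
      have z3 := Prod.ext_iff.mp z2.2
      have y0 : Nm ω = Nm ω' := z.1
      have y1 : Um' ω = Um' ω' := by
        rw [hUm]
        exact z1.1
      have y2 : leaf M r L t u n ks ω = leaf M r L t u n ks ω' := z2.1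
      have yk : k ω = k ω' := by
        rw [hk]
        exact (Prod.ext_iff.mp y2).1
      have yc : c ω = c ω' := by
        rw [hc]
        dsimp only
        rw [y2]
      have y3 : t ω = t ω' := z3.1
      have y4 : C (L ω) = C (L ω') := (Prod.ext_iff.mp z3.2).1
      have y5 : N (L ω) = N (L ω') := (Prod.ext_iff.mp z3.2).2
      obtain ⟨d1, d2⟩ := ca ω ω' hω hω' y3 y4 y5
      refine Prod.ext yc ?_
      show Z ω = Z ω'
      rw [hZ]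
      exact Prod.ext (Prod.ext y1 y0) (Prod.ext yk (Prod.ext d1 d2))
    have g2 := mi_sym h0 U Nm (VV M r L t C N u n ks)
    have g3 := CH_nonneg h0 Nm (fun ω => (U ω, VV M r L t C N u n ks ω))
    have g4 : CH q (fun ω => u (L ω) (t ω)) (VV M r L t C N u n ks) =
        CH q U (VV M r L t C N u n ks) := by
      rw [hU]
    rw [g4] at lf
    linarith
  have hn : CH q Nn (fun ω => (U ω, Z ω)) ≤ Um := by
    refine le_trans (CH_mono_cond h0 (W := fun ω : Ω => ((n (L ω) (t ω) / (M : ℤ),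
      u (L ω) (t ω)), (t ω, C (L ω)))) fun ω ω' hω hω' hz => ?_) ?_
    · have z := Prod.ext_iff.mp hz
      have y1 : U ω = U ω' := z.1
      have y2 : Z ω = Z ω' := z.2
      rw [hZ] at y2
      have z1 := Prod.ext_iff.mp y2
      have z2 := Prod.ext_iff.mp z1.1
      have z3 := Prod.ext_iff.mp (Prod.ext_iff.mp z1.2).2
      have y3 : Nm ω = Nm ω' := z2.2
      rw [hNm] at y3
      rw [hU] at y1
      obtain ⟨d1, d2, -⟩ := ac ω ω' hω hω' z3.1 z3.2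
      exact Prod.ext (Prod.ext y3 y1) (Prod.ext d1 d2)
    · rw [hNn]
      exact hnf
  have hUup : CH q U Z ≤ Real.log (2 * M + 1) := by
    refine CH_int_const hq _ _ (B := M) ?_ le_rfl hM0.le
    intro ω ω' hω hω' hz
    rw [hZ] at hz
    have y1 : Um' ω = Um' ω' := (Prod.ext_iff.mp (Prod.ext_iff.mp hz).1).1
    rw [hUm] at y1
    have h1 : ((U ω % (M : ℤ) : ℤ) : ℝ) - ((U ω' % (M : ℤ) : ℤ) : ℝ) = (U ω : ℝ) - U ω' := by
      rw [hU]
      dsimp only at y1 ⊢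
      rw [mod_eq, mod_eq, y1]
      ring
    push_cast
    rw [← h1]
    have hM0' : (0 : ℤ) < M := by exact_mod_cast hM
    have b1 : (0 : ℝ) ≤ ((U ω % (M : ℤ) : ℤ) : ℝ) := by
      exact_mod_cast Int.emod_nonneg (U ω) hM0'.ne'
    have b2 : (0 : ℝ) ≤ ((U ω' % (M : ℤ) : ℤ) : ℝ) := by
      exact_mod_cast Int.emod_nonneg (U ω') hM0'.ne'
    have b3 := (abs_le.mp (mod_abs hM (U ω))).2
    have b4 := (abs_le.mp (mod_abs hM (U ω'))).2
    rw [abs_le]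
    constructor <;> linarith
  have t1 := CH_chain h0 U c Z
  have t2 : CH q (fun ω => (U ω, c ω)) Z ≤ CH q (fun ω => (U ω, Nn ω)) Z := by
    have g := CH_chain h0 (fun ω => (U ω, c ω)) (fun ω => (U ω, Nn ω)) Z
    have g0 : CH q (fun ω => (U ω, c ω)) (fun ω => ((U ω, Nn ω), Z ω)) = 0 := by
      refine CH_eq_zero h0 fun ω ω' _ _ hz => ?_
      have z := Prod.ext_iff.mp hz
      have z1 := Prod.ext_iff.mp z.1
      have y1 : U ω = U ω' := z1.1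
      have y2 : Nn ω = Nn ω' := z1.2
      have y3 : Z ω = Z ω' := z.2
      rw [hZ] at y3
      have y4 : k ω = k ω' := (Prod.ext_iff.mp (Prod.ext_iff.mp y3).2).1
      refine Prod.ext y1 ?_
      show c ω = c ω'
      rw [hcl, hcl, y1, y2, y4]
    have g1 : CH q (fun ω => (U ω, c ω)) Z ≤
        CH q (fun ω => ((U ω, c ω), (U ω, Nn ω))) Z :=
      CH_mono_left h0 fun ω ω' _ _ hz => (Prod.ext_iff.mp (Prod.ext_iff.mp hz).1).1
    linarith
  have t3 := CH_chain2 h0 U Nn Z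
  have hcZ : CH q c Z ≤ Um + e₁ + Real.log (4 * κ + 15) := by linarith
  -- remove `E`
  obtain ⟨Z', hZ'⟩ : ∃ Z' : Ω → (ℤ × ℤ) × (ℤ × 𝒜), Z' = fun ω => ((Um' ω, Nm ω),
    (k ω, A ω)) := ⟨_, rfl⟩
  have r1 := mi_sym h0 c E Z'
  have r2 : CH q c (fun ω => (E ω, Z' ω)) ≤ CH q c Z := by
    refine CH_mono_cond h0 fun ω ω' _ _ hz => ?_
    have z := Prod.ext_iff.mp hz
    have y1 : E ω = E ω' := z.1
    have y2 : Z' ω = Z' ω' := z.2
    rw [hZ'] at y2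
    have z1 := Prod.ext_iff.mp y2
    have z2 := Prod.ext_iff.mp z1.2
    show Z ω = Z ω'
    rw [hZ]
    exact Prod.ext z1.1 (Prod.ext z2.1 (Prod.ext z2.2 y1))
  have r3 : CH q E Z' ≤ FE + e₂ := by
    refine le_trans (CH_mono_cond h0 fun ω ω' _ _ hz => ?_) fe
    rw [hZ'] at hz
    exact (Prod.ext_iff.mp (Prod.ext_iff.mp hz).2).2
  have r4 : FE - e₂ ≤ CH q E (fun ω => (c ω, Z' ω)) := by
    refine fr.trans (CH_mono_cond h0 fun ω ω' hω hω' hz => ?_)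
    have z := Prod.ext_iff.mp hz
    have z1 := Prod.ext_iff.mp z.2
    have y1 : A ω = A ω' := z.1
    have y2 : U ω = U ω' := by
      rw [hU]
      exact z1.1
    have y3 : Nn ω = Nn ω' := by
      rw [hNn]
      exact z1.2
    have y4 : k ω = k ω' := by
      rw [hk]
      dsimp only
      rw [hkz ω hω, hkz ω' hω', hz]
    refine Prod.ext ?_ ?_
    · show c ω = c ω'
      rw [hcl, hcl, y2, y3, y4]
    · show Z' ω = Z' ω'
      rw [hZ']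
      refine Prod.ext (Prod.ext ?_ ?_) (Prod.ext y4 y1)
      · show Um' ω = Um' ω'
        rw [hUm]
        rw [hU] at y2
        dsimp only at y2 ⊢
        rw [y2]
      · show Nm ω = Nm ω'
        rw [hNm]
        rw [hNn] at y3
        dsimp only at y3 ⊢
        rw [y3]
  have hfin : CH q (fun ω => (leaf M r L t u n ks ω).2) (fun ω => ((u (L ω) (t ω) / (M : ℤ),
      n (L ω) (t ω) / (M : ℤ)), (kq M r (ks (L ω)), A ω))) = CH q c Z' := by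
    rw [hc, hZ', hUm, hNm, hk]
  rw [hfin]
  linarith

end rate

end Pool.PR46
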