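import Pool.Agent.H46.PR.Kon

/-!
# The slope of a tie: the constants

`tie_slope`: the hypotheses for one law, on the window of the record `G₂`; the copies over `G₂` and
over `G₁` are along one slope of the line, and this slope is near a function of the record without
the data `E`.
-/

set_option autoImplicit false

namespace Pool.PR46

open Finset Real
open Pool.Agent.H49.Ent Pool.Agent.H32.Dense Pool.STK Pool.OWN68
open Pool.BFL (Pb)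

/-- The hypotheses for one law. The variable `f` (for instance the exact time) is almost independent
of the line, given the time `t` and the context. -/
structure TieH {Ω Λ Φ Γ₁ Γ₂ 𝒜 ℰ 𝒞 𝒟 𝒩₁ 𝒩₂ : Type} [Fintype Ω] (p : Ω → ℝ) (M K Q : ℕ)
    (δ c₀ h α B : ℝ) (L : Ω → Λ) (t : Ω → ℤ) (f : Ω → Φ) (G₁ : Ω → Γ₁) (G₂ : Ω → Γ₂) (A : Ω → 𝒜)
    (E : Ω → ℰ) (C : Λ → 𝒞) (D : Λ → 𝒟) (N₁ : Λ → 𝒩₁) (N₂ : Λ → 𝒩₂) (u n : Λ → ℤ → ℤ)
    (du dn : 𝒟 → ℝ) : Prop where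
  rcs : Recs p M (δ * Q) L t G₁ G₂ C D N₁ N₂
  d1 : Disp p M K L t G₁ D u n du dn
  d2 : Disp p M K L t G₂ D u n du dn
  al : ∀ S : Ω → Prop, c₀ ≤ Pb p S →
      α * Q ≤ CH (cond p S True) (fun ω => ⌊du (D (L ω)) / B⌋) G₂
  nf : NfE p Q δ c₀ h L t C u n
  ac : ∀ ω ω', 0 < p ω → 0 < p ω' → A ω = A ω' → E ω = E ω' →
    t ω = t ω' ∧ f ω = f ω' ∧ C (L ω) = C (L ω') ∧ N₂ (L ω) = N₂ (L ω')
  ca : ∀ ω ω', 0 < p ω → 0 < p ω' → t ω = t ω' → f ω = f ω' → C (L ω) = C (L ω') →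
    N₂ (L ω) = N₂ (L ω') → A ω = A ω' ∧ E ω = E ω'
  fm : CH p E A ≤ CH p E (FF L t A u n) + δ * Q
  fi : CH p f (fun ω => (t ω, C (L ω))) ≤ CH p f (fun ω => (t ω, L ω)) + δ * Q
  gf : CH p G₂ (fun ω => (FF L t A u n ω, E ω)) ≤ δ * Q

/-- The pairs are not along the slope of the second line. -/
def Off {Ω Λ 𝒟 : Type} (W : ℝ) (L : Ω → Λ) (D : Λ → 𝒟) (du dn : 𝒟 → ℝ) (ks : Λ → ℝ)
    (w : Ω × Ω) : Prop :=
  W < |(dn (D (L w.2)) - dn (D (L w.1))) - ks (L w.2) * (du (D (L w.2)) - du (D (L w.1)))|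

/-- The code of the slope given the record. -/
theorem code_few {Ω Λ Γ 𝒟 T : Type} [Fintype Ω] {p : Ω → ℝ} (hp : IsLaw p) {M r Q : ℕ}
    (hM : 1 ≤ M) (hMQ : M ≤ 2 ^ Q) (hr : 1 ≤ r) (hQ : 3 ≤ Q) {L : Ω → Λ} {G : Ω → Γ} {D : Λ → 𝒟}
    {du dn : 𝒟 → ℝ} {ks : Λ → ℝ} {κ B η g : ℝ} (hκ : κ ≤ 2 ^ Q)
    (hkb : ∀ ω, 0 < p ω → |ks (L ω)| ≤ κ)
    (hgd : Pb (glue p p G G) (fun w => ¬ Alg M r B L D du dn ks w) ≤ η) (hη : 0 ≤ η) (F : Ω → T)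
    (hg : CH p G F ≤ g) :
    CH p (fun ω => kq M r (ks (L ω))) F ≤ g + (Real.log 10 + 6 * η * Q + Real.log 7) := by
  have h0 := hp.nonneg
  have hMr : (1 : ℝ) ≤ M := by exact_mod_cast hM
  have hM0 : (0 : ℝ) < M := by linarith
  have hrr : (1 : ℝ) ≤ r := by exact_mod_cast hr
  have hr0 : (0 : ℝ) < r := by linarith
  have hMQr : (M : ℝ) ≤ 2 ^ Q := by exact_mod_cast hMQ
  have hQr : (3 : ℝ) ≤ Q := by exact_mod_cast hQ
  obtain ⟨x, hx⟩ : ∃ x : Ω → ℝ, x = fun ω => ks (L ω) * M / r := ⟨_, rfl⟩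
  have hP1 := P1_law hp G
  have h1 : Pb (glue p p G G) (fun w => 1 < |x w.2 - x w.1|) ≤ η := by
    refine (Pb_imp hP1.nonneg fun w _ hw hA => ?_).trans hgd
    obtain ⟨-, -, a3⟩ := hA
    rw [hx] at hw
    have e : ks (L w.2) * M / r - ks (L w.1) * M / r = (ks (L w.2) - ks (L w.1)) * M / r := by ring
    dsimp only at hw
    rw [e, abs_div, abs_mul, abs_of_pos hM0, abs_of_pos hr0, lt_div_iff₀ hr0, one_mul] at hw
    linarith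
  have h2 := few_ent hp G x (w₀ := 1) (m₀ := 2) (δ := η) (A := 2 ^ (2 * Q)) (by norm_num)
    (by norm_num) (by positivity) h1 (fun ω ω' hω hω' _ => by
      have hb : ∀ ω, 0 < p ω → |x ω| ≤ 2 ^ (2 * Q) := by
        intro ω hω
        rw [hx]
        dsimp only
        rw [abs_div, abs_mul, abs_of_pos hM0, abs_of_pos hr0, div_le_iff₀ hr0]
        have g1 := hkb ω hω
        have g2 : |ks (L ω)| * M ≤ 2 ^ Q * 2 ^ Q :=
          mul_le_mul (g1.trans hκ) hMQr hM0.le (by positivity)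
        rw [← pow_add, ← two_mul] at g2
        have g3 : (2 : ℝ) ^ (2 * Q) * 1 ≤ 2 ^ (2 * Q) * r :=
          mul_le_mul_of_nonneg_left hrr (by positivity)
        linarith
      have := abs_sub (x ω) (x ω')
      have a1 := hb ω hω
      have a2 := hb ω' hω'
      linarith)
  have h3 : Real.log (2 * 2 ^ (2 * Q) + 3) ≤ 3 * Q := by
    have g1 : (2 : ℝ) * 2 ^ (2 * Q) + 3 ≤ 2 ^ (2 * Q + 3) := by
      rw [pow_add]
      have : (1 : ℝ) ≤ 2 ^ (2 * Q) := one_le_pow₀ (by norm_num)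
      linarith
    refine (Real.log_le_log (by positivity) g1).trans ?_
    rw [Real.log_pow]
    push_cast
    have hl : Real.log 2 ≤ 1 := by
      have := Real.log_two_lt_d9
      linarith
    have : (2 * (Q : ℝ) + 3) * Real.log 2 ≤ (2 * Q + 3) * 1 :=
      mul_le_mul_of_nonneg_left hl (by positivity)
    linarith
  have h4 : CH p (fun ω => ⌊x ω / 2⌋) G ≤ Real.log 10 + 6 * η * Q := by
    have : 2 * η * Real.log (2 * 2 ^ (2 * Q) + 3) ≤ 2 * η * (3 * Q) :=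
      mul_le_mul_of_nonneg_left h3 (by positivity)
    linarith
  have h5 : CH p (fun ω => kq M r (ks (L ω))) (fun ω => (⌊x ω / 2⌋, F ω)) ≤ Real.log 7 := by
    refine CH_int_const hp _ _ (B := 3) ?_ (by norm_num) (by norm_num)
    intro ω ω' hω hω' hz
    have z : ⌊x ω / 2⌋ = ⌊x ω' / 2⌋ := (Prod.ext_iff.mp hz).1
    have g : |x ω - x ω'| ≤ 2 := by
      have f1 := Int.floor_le (x ω / 2)
      have f2 := Int.lt_floor_add_one (x ω / 2)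
      have f3 := Int.floor_le (x ω' / 2)
      have f4 := Int.lt_floor_add_one (x ω' / 2)
      rw [z] at f1 f2
      rw [abs_le]
      constructor <;> linarith
    have e : ∀ ω, kq M r (ks (L ω)) = ⌊x ω⌋ := fun ω => by
      rw [hx]
      rfl
    rw [e, e]
    have := floor_diff g
    linarith
  have h6 := CH_le_add h0 (fun ω => kq M r (ks (L ω))) (fun ω => ⌊x ω / 2⌋) F
  have h7 := CH_le_add h0 (fun ω => ⌊x ω / 2⌋) G F
  have h8 : CH p (fun ω => ⌊x ω / 2⌋) (fun ω => (G ω, F ω)) ≤ CH p (fun ω => ⌊x ω / 2⌋) G :=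
    CH_mono_cond h0 fun _ _ _ _ hz => (Prod.ext_iff.mp hz).1
  linarith

/-- The loss of the leaf. -/
noncomputable def lsE (M K : ℕ) (B R η e : ℝ) : ℝ :=
  R * η * Real.log (2 * M + 1) + 2 * R * (3 * e + Real.log 2) + Real.log (4 * K * M / B + 1) +
    Real.log (7 + 4 * K) + Real.log 105

/-- The loss of the leaf, with the variable `f`. -/
noncomputable def lsF (M K : ℕ) (B R η e : ℝ) : ℝ := lsE M K B R η e + R * (e + Real.log 2)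

/-- **The height is full on the leaf, given `f` too.** -/
theorem leaf_f {Ω Λ Φ 𝒞 𝒩 : Type} [Fintype Ω] {p : Ω → ℝ} (hp : IsLaw p) {M r : ℕ}
    {L : Ω → Λ} {t : Ω → ℤ} {f : Ω → Φ} {C : Λ → 𝒞} {N : Λ → 𝒩} {u n : Λ → ℤ → ℤ} {ks : Λ → ℝ}
    {e e₁ R : ℝ} (hR : 0 < R)
    (fi : CH p f (fun ω => (t ω, C (L ω))) ≤ CH p f (fun ω => (t ω, L ω)) + e)
    {q : Ω → ℝ} (hq : IsLaw q) (hqd : ∀ ω, q ω ≤ R * p ω)
    (hlf : Real.log (2 * M + 1) - e₁ ≤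
      CH q (fun ω => u (L ω) (t ω)) (VV M r L t C N u n ks)) :
    Real.log (2 * M + 1) - (e₁ + R * (e + Real.log 2)) ≤
      CH q (fun ω => u (L ω) (t ω)) (VV M r (fun ω => (L ω, f ω)) t
        (fun l : Λ × Φ => (C l.1, l.2)) (fun l => N l.1) (fun l => u l.1) (fun l => n l.1)
        (fun l => ks l.1)) := by
  have h0 := hq.nonneg
  have h1 := mi_dens hp hq hR hqd f (fun ω => (t ω, L ω)) (fun ω => (t ω, C (L ω)))
    (fun ω ω' _ _ z => by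
      have z1 := Prod.ext_iff.mp z
      have y1 : t ω = t ω' := z1.1
      have y2 : L ω = L ω' := z1.2
      show (t ω, C (L ω)) = (t ω', C (L ω'))
      rw [y1, y2])
  have h2 : R * (CH p f (fun ω => (t ω, C (L ω))) - CH p f (fun ω => (t ω, L ω)) +
      Real.log 2) ≤ R * (e + Real.log 2) := mul_le_mul_of_nonneg_left (by linarith) hR.le
  obtain ⟨U, hU⟩ : ∃ U : Ω → ℤ, U = fun ω => u (L ω) (t ω) := ⟨_, rfl⟩
  obtain ⟨Z, hZ⟩ : ∃ Z, Z = VV M r L t C N u n ks := ⟨_, rfl⟩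
  rw [← hU, ← hZ] at hlf
  have h3 := mi_sym h0 U f Z
  have h4 : CH q f Z ≤ CH q f (fun ω => (t ω, C (L ω))) :=
    CH_mono_cond h0 fun ω ω' _ _ z => by
      rw [hZ] at z
      have z3 := Prod.ext_iff.mp (Prod.ext_iff.mp (Prod.ext_iff.mp z).2).2
      exact Prod.ext z3.1 (Prod.ext_iff.mp z3.2).1
  have h5 : CH q f (fun ω => (t ω, L ω)) ≤ CH q f (fun ω => (U ω, Z ω)) :=
    CH_mono_cond h0 fun ω ω' _ _ z => by
      have z1 := Prod.ext_iff.mp z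
      have y1 : t ω = t ω' := z1.1
      have y2 : L ω = L ω' := z1.2
      rw [hU, hZ]
      refine Prod.ext ?_ ?_
      · show u (L ω) (t ω) = u (L ω') (t ω')
        rw [y1, y2]
      · show VV M r L t C N u n ks ω = VV M r L t C N u n ks ω'
        unfold VV leaf
        rw [y1, y2]
  have h6 : CH q U (fun ω => (f ω, Z ω)) ≤
      CH q (fun ω => u (L ω) (t ω)) (VV M r (fun ω => (L ω, f ω)) t
        (fun l : Λ × Φ => (C l.1, l.2)) (fun l => N l.1) (fun l => u l.1) (fun l => n l.1)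
        (fun l => ks l.1)) := by
    have e : CH q U (fun ω => (f ω, Z ω)) = CH q (fun ω => u (L ω) (t ω)) (fun ω => (f ω, Z ω)) := by
      rw [hU]
    rw [e]
    refine CH_mono_cond h0 fun ω ω' _ _ z => ?_
    have z1 := Prod.ext_iff.mp z
    have y0 : f ω = f ω' := z1.1
    have w : VV M r L t C N u n ks ω = VV M r L t C N u n ks ω' := by
      rw [← hZ]
      exact z1.2
    have w1 := Prod.ext_iff.mp w
    have w2 := Prod.ext_iff.mp w1.2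
    have w3 := Prod.ext_iff.mp w2.2
    have w4 := Prod.ext_iff.mp w3.2
    exact Prod.ext w1.1 (Prod.ext w2.1 (Prod.ext w3.1 (Prod.ext (Prod.ext w4.1 y0) w4.2)))
  linarith

/-- **The slope of a tie**, at explicit constants. -/
theorem tie_core {Ω Λ Φ Γ₁ Γ₂ 𝒜 ℰ 𝒞 𝒟 𝒩₁ 𝒩₂ : Type} [Fintype Ω] {p : Ω → ℝ} (hp : IsLaw p)
    {M K Q r : ℕ} (hM : 1 ≤ M) (hMQ : M ≤ 2 ^ Q) (hr : 1 ≤ r) (hrM : r ≤ M) (hQ : 3 ≤ Q)
    {L : Ω → Λ} {t : Ω → ℤ} {f : Ω → Φ} {G₁ : Ω → Γ₁} {G₂ : Ω → Γ₂} {A : Ω → 𝒜} {E : Ω → ℰ}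
    {C : Λ → 𝒞} {D : Λ → 𝒟} {N₁ : Λ → 𝒩₁} {N₂ : Λ → 𝒩₂} {u n : Λ → ℤ → ℤ} {du dn : 𝒟 → ℝ}
    {V R e : ℝ} (hR : 0 < R) (he : 0 ≤ e) (hrec : Recs p M e L t G₁ G₂ C D N₁ N₂)
    (hd₁ : Disp p M K L t G₁ D u n du dn) (hd₂ : Disp p M K L t G₂ D u n du dn)
    {B η₁ η : ℝ} (hB : 0 < B)
    (hal : Pb (glue p p G₂ G₂) (fun w => |du (D (L w.2)) - du (D (L w.1))| < B) ≤ η₁)
    {J₁ : ℕ} {Va Ua : ℕ → ℝ} {ma : ℕ → ℕ} (hcel : Cells p M K V R e L t C D u n J₁ Va Ua ma)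
    (hV : 0 ≤ V) (hr5 : 5 * (V * M / B ^ 2) * M ≤ r) (hη0 : 0 ≤ η)
    (hη : 7 * (J₁ / R + 2 * η₁) + 2 * η₁ ≤ η) (hrK : (K : ℝ) * (2 + M / B) ≤ r)
    {R' R₁ e₂ g : ℝ} (hR' : 1 ≤ R') (hRη : R' * η ≤ 1 / 2) (hR₁ : 0 < R₁) (hR₁R : R₁ ≤ R')
    (ac : ∀ ω ω', 0 < p ω → 0 < p ω' → A ω = A ω' → E ω = E ω' →
      t ω = t ω' ∧ f ω = f ω' ∧ C (L ω) = C (L ω') ∧ N₂ (L ω) = N₂ (L ω'))
    (ca : ∀ ω ω', 0 < p ω → 0 < p ω' → t ω = t ω' → f ω = f ω' → C (L ω) = C (L ω') →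
      N₂ (L ω) = N₂ (L ω') → A ω = A ω' ∧ E ω = E ω')
    (fm : CH p E A ≤ CH p E (FF L t A u n) + e₂)
    (fi : CH p f (fun ω => (t ω, C (L ω))) ≤ CH p f (fun ω => (t ω, L ω)) + e)
    (gf : CH p G₂ (fun ω => (FF L t A u n ω, E ω)) ≤ g)
    (hκ : 2 * (M / B) ≤ 8 * r) (hκQ : M / B ≤ 2 ^ Q)
    {J₂ : ℕ} {V₂ : ℝ} (Vs Us : ℕ → ℝ) (ms : ℕ → ℕ) (hms : ∀ j < J₂, r ≤ ms j)
    (hVs : ∀ j < J₂, 4 * r ≤ Vs j)
    (hcov : ∀ x : ℝ, V₂ ≤ x → x ≤ 2 * (M / B) * M → ∃ j < J₂, Vs j ≤ x ∧ x ≤ ms j)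
    (hnf : ∀ j < J₂, ∀ q : Ω → ℝ, IsLaw q → (∀ ω, q ω ≤ R' * p ω) →
      CH q (fun ω => n (L ω) (t ω)) (fun ω => ((n (L ω) (t ω) / (ms j : ℤ), u (L ω) (t ω)),
        (t ω, C (L ω)))) ≤ Us j)
    (hbig : ∀ j < J₂, Us j + 2 * (lsF M K B R' η e + i2 R₁ e₂) +
      R₁ * (g + (Real.log 10 + 6 * η * Q + Real.log 7)) + Real.log 2565 +
      Real.log (16 * r) < Real.log (Vs j)) :
    ∃ (ks : Λ → ℝ) (kf : 𝒜 × (ℤ × ℤ) → ℝ), (∀ ω, 0 < p ω → |ks (L ω)| ≤ M / B) ∧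
      (∀ ω, 0 < p ω → |kf (FF L t A u n ω)| ≤ M / B) ∧
      Pb p (fun ω => V₂ ≤ |kf (FF L t A u n ω) - ks (L ω)| * M) ≤ J₂ * (1 / R₁) ∧
      Pb (glue p p G₂ G₂) (fun w => ¬ Alg M r B L D du dn ks w) ≤ η ∧
      Pb (glue p p G₁ G₁) (Off ((V + 2 * r) * M / B) L D du dn ks) ≤ J₁ / R + η := by
  have hrec2 : Recs p M e L t G₂ G₂ C D N₂ N₂ :=
    ⟨hrec.tb, hrec.g2, hrec.g2, hrec.nd, hrec.full, hrec.i2, hrec.i2⟩
  obtain ⟨ks, hkb, hgd⟩ := alg_tie hp hM hR he hrec2 hd₂ hB hal hcel hV hr5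
  have hgd' : Pb (glue p p G₂ G₂) (fun w => ¬ Alg M r B L D du dn ks w) ≤ η := hgd.trans hη
  have hlf : ∀ q : Ω → ℝ, IsLaw q → (∀ ω, q ω ≤ R' * p ω) → Real.log (2 * M + 1) -
      lsF M K B R' η e ≤ CH q (fun ω => u (L ω) (t ω)) (VV M r (fun ω => (L ω, f ω)) t
        (fun l : Λ × Φ => (C l.1, l.2)) (fun l => N₂ l.1) (fun l => u l.1) (fun l => n l.1)
        (fun l => ks l.1)) :=
    fun q hq hqd => leaf_f hp (by linarith : 0 < R') fi hq hqd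
      (leaf_full hp hM hr hrM he hrec2 hd₂ hB hkb hrK hgd' hR' hRη hq hqd)
  have hthr : ThrH p M r R' (lsF M K B R' η e) e₂ (g + (Real.log 10 + 6 * η * Q + Real.log 7))
      (fun ω => (L ω, f ω)) t A E (fun l : Λ × Φ => (C l.1, l.2)) (fun l => N₂ l.1)
      (fun l => u l.1) (fun l => n l.1) (fun l => ks l.1) := by
    refine ⟨fun ω ω' hω hω' a b => ?_, fun ω ω' hω hω' a b c => ?_, hlf, fm,
      code_few hp hM hMQ hr hQ hκQ hkb hgd' hη0 _ gf⟩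
    · obtain ⟨y1, y2, y3, y4⟩ := ac ω ω' hω hω' a b
      exact ⟨y1, Prod.ext y3 y2, y4⟩
    · have z := Prod.ext_iff.mp b
      exact ca ω ω' hω hω' a z.2 z.1 c
  have hall := thr_all hp hM hr hthr hR₁ hR₁R hkb hκ Vs Us ms hms hVs
    hcov (fun j hj q hq hqd => le_trans (CH_mono_cond hq.nonneg fun ω ω' _ _ z => by
      have z1 := Prod.ext_iff.mp z
      have z2 := Prod.ext_iff.mp z1.2
      have z3 := Prod.ext_iff.mp z2.2
      exact Prod.ext z1.1 (Prod.ext z2.1 z3.1)) (hnf j hj q hq hqd)) hbig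
  obtain ⟨kf, hf1, hf2⟩ := thr_fun hp (FF L t A u n) ks hkb hall
  exact ⟨ks, kf, hkb, hf1, hf2, hgd', par_ks hp hM hR he hrec hd₁ hd₂ hB hgd' hcel⟩

end Pool.PR46
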