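import Pool.Agent.H46.PR.Tep

/-!
# The slope of a tie: the constants
-/

set_option autoImplicit false

namespace Pool.PR46

open Finset Real
open Pool.Agent.H49.Ent Pool.Agent.H32.Dense Pool.STK Pool.OWN68
open Pool.BFL (Pb)

/-- Powers. -/
theorem pow_ceil {x : ℝ} {k : ℕ} (h : (k : ℝ) ≤ x + 1) : (2 : ℝ) ^ k ≤ 2 * 2 ^ x := by
  have e : (2 : ℝ) * 2 ^ x = 2 ^ (x + 1) := by
    rw [Real.rpow_add (by norm_num), Real.rpow_one, mul_comm]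
  rw [← Real.rpow_natCast, e]
  exact Real.rpow_le_rpow_of_exponent_le (by norm_num) h

/-- The constant. -/
noncomputable def cnC (K : ℕ) (R' R₁ : ℝ) : ℝ :=
  2 + 2 * (3 * R' * Real.log 2 + Real.log (4 * K + 1) + Real.log (7 + 4 * K) + Real.log 105) +
    2 * (R₁ * Real.log 2) + R₁ * (Real.log 10 + Real.log 7) + Real.log 2565 + 9

theorem cnC_nonneg (K : ℕ) {R' R₁ : ℝ} (h1 : 0 ≤ R') (h2 : 0 ≤ R₁) : 0 ≤ cnC K R' R₁ := by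
  have hK0 : (0 : ℝ) ≤ K := Nat.cast_nonneg K
  have g0 := Real.log_nonneg (by norm_num : (1 : ℝ) ≤ 2)
  have g1 := Real.log_nonneg (by linarith : (1 : ℝ) ≤ 4 * K + 1)
  have g2 := Real.log_nonneg (by linarith : (1 : ℝ) ≤ 7 + 4 * K)
  have g3 := Real.log_nonneg (by norm_num : (1 : ℝ) ≤ 105)
  have g4 := Real.log_nonneg (by norm_num : (1 : ℝ) ≤ 10)
  have g5 := Real.log_nonneg (by norm_num : (1 : ℝ) ≤ 7)
  have g6 := Real.log_nonneg (by norm_num : (1 : ℝ) ≤ 2565)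
  unfold cnC
  positivity

/-- The loss of the leaf. -/
theorem lsE_le {M K Q : ℕ} {s B R' η δ ε₀ : ℝ} (hM : 1 ≤ M) (hMQ : M ≤ 2 ^ Q) (hB : 0 < B)
    (hε₀ : ε₀ = s / 100) (hs0 : 0 < s) (hs1 : s ≤ 1) (hBM : (M : ℝ) ≤ B * 2 ^ (ε₀ * Q))
    (hηR : R' * η = s / 600) (hδf : R' * δ ≤ s / 12000) :
    lsF M K B R' η (δ * Q) ≤ s * Q / 100 + 1 + (3 * R' * Real.log 2 + Real.log (4 * K + 1) +
      Real.log (7 + 4 * K) + Real.log 105) := by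
  have hl2 : 0 < Real.log 2 := Real.log_pos (by norm_num)
  have hl21 : Real.log 2 ≤ 0.7 := by
    have := Real.log_two_lt_d9
    linarith
  have hQ0 : (0 : ℝ) ≤ Q := Nat.cast_nonneg Q
  have hK0 : (0 : ℝ) ≤ K := Nat.cast_nonneg K
  have hMr : (1 : ℝ) ≤ M := by exact_mod_cast hM
  have hMQr : (M : ℝ) ≤ 2 ^ Q := by exact_mod_cast hMQ
  have hY0 : (0 : ℝ) < 2 ^ (ε₀ * Q) := by positivity
  have hY1 : (1 : ℝ) ≤ (2 : ℝ) ^ (ε₀ * Q) := Real.one_le_rpow (by norm_num) (by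
    rw [hε₀]; positivity)
  have a1 : Real.log (2 * M + 1) ≤ 0.7 * Q + 1.4 := by
    have h1 : (2 : ℝ) * M + 1 ≤ 2 ^ (Q + 2) := by
      rw [pow_add]
      have : (1 : ℝ) ≤ 2 ^ Q := one_le_pow₀ (by norm_num)
      linarith
    refine (Real.log_le_log (by positivity) h1).trans ?_
    rw [Real.log_pow]
    push_cast
    have : ((Q : ℝ) + 2) * Real.log 2 ≤ (Q + 2) * 0.7 :=
      mul_le_mul_of_nonneg_left hl21 (by positivity)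
    linarith
  have a2 : R' * η * Real.log (2 * M + 1) ≤ s / 600 * (0.7 * Q + 1.4) := by
    rw [hηR]
    exact mul_le_mul_of_nonneg_left a1 (by positivity)
  have a3 : 2 * R' * (3 * (δ * Q) + Real.log 2) ≤ s / 2000 * Q + 2 * R' * Real.log 2 := by
    have := mul_le_mul_of_nonneg_right hδf hQ0
    linarith
  have a4 : Real.log (4 * K * M / B + 1) ≤ Real.log (4 * K + 1) + 0.7 * (s / 100) * Q := by
    have h1 : 4 * (K : ℝ) * M / B + 1 ≤ (4 * K + 1) * 2 ^ (ε₀ * Q) := by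
      have h2 : (M : ℝ) / B ≤ 2 ^ (ε₀ * Q) := by
        rw [div_le_iff₀ hB]
        linarith
      have h3 : 4 * (K : ℝ) * M / B = 4 * K * (M / B) := by ring
      rw [h3]
      have h4 := mul_le_mul_of_nonneg_left h2 (show (0 : ℝ) ≤ 4 * K by positivity)
      linarith
    refine (Real.log_le_log (by positivity) h1).trans ?_
    rw [Real.log_mul (by positivity) hY0.ne', Real.log_rpow (by norm_num), hε₀]
    have : s / 100 * Q * Real.log 2 ≤ s / 100 * Q * 0.7 :=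
      mul_le_mul_of_nonneg_left hl21 (by positivity)
    linarith
  have a5 : s / 600 * 1.4 ≤ 1 := by linarith
  have a6 : 0 ≤ s * Q := by positivity
  have a7 : R' * (δ * Q + Real.log 2) ≤ s / 12000 * Q + R' * Real.log 2 := by
    have := mul_le_mul_of_nonneg_right hδf hQ0
    linarith
  have a8 : s / 600 * (0.7 * Q + 1.4) ≤ s * Q / 800 + 1 := by nlinarith
  unfold lsF lsE
  linarith

/-- **The inequality of a cell.** -/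
theorem tie_num {M K Q r₀ : ℕ} {h s B R' R₁ η δ δ₂ ε₀ : ℝ} {a b : ℕ} (hM : 1 ≤ M)
    (hMQ : M ≤ 2 ^ Q) (hB : 0 < B) (hε₀ : ε₀ = s / 100) (hs0 : 0 < s) (hs1 : s ≤ 1)
    (hBM : (M : ℝ) ≤ B * 2 ^ (ε₀ * Q)) (hR₁0 : 0 < R₁) (hR'0 : R₁ ≤ R')
    (hηR : R' * η = s / 600) (hη0 : 0 ≤ η) (hδ0 : 0 ≤ δ)
    (hδf : R' * δ ≤ s / 12000) (hδ₂R : R₁ * δ₂ = s / 600) (hδ₂1 : δ₂ ≤ s / 600)
    (hr₀ : (r₀ : ℝ) ≤ 3 * ε₀ * Q + 5)
    (hQ : 10 * (cnC K R' R₁ + 1) ≤ Q * s)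
    (hab : (1 - h) * b * Real.log 2 + s / 2 * Real.log 2 * Q ≤ a * Real.log 2) :
    ((1 - h) * b * Real.log 2 + δ₂ * Q) + 2 * (lsF M K B R' η (δ * Q) +
      i2 R₁ (δ * Q)) + R₁ * (δ * Q + (Real.log 10 + 6 * η * Q + Real.log 7)) +
      Real.log 2565 + Real.log (16 * ((2 ^ r₀ : ℕ) : ℝ)) < Real.log ((2 : ℝ) ^ a) := by
  have hl2 : 0 < Real.log 2 := Real.log_pos (by norm_num)
  have hl21 : Real.log 2 ≤ 0.7 := by
    have := Real.log_two_lt_d9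
    linarith
  have hl22 : 0.69 ≤ Real.log 2 := by
    have := Real.log_two_gt_d9
    linarith
  have hQ0 : (0 : ℝ) ≤ Q := Nat.cast_nonneg Q
  have hR'00 : 0 < R' := hR₁0.trans_le hR'0
  have b1 := lsE_le (K := K) hM hMQ hB hε₀ hs0 hs1 hBM hηR hδf
  have b2 : i2 R₁ (δ * Q) ≤ s / 12000 * Q + R₁ * Real.log 2 := by
    unfold i2
    have g1 : R₁ * δ ≤ R' * δ := mul_le_mul_of_nonneg_right hR'0 hδ0
    have g3 := mul_le_mul_of_nonneg_right (g1.trans hδf) hQ0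
    linarith
  have b3 : R₁ * (δ * Q + (Real.log 10 + 6 * η * Q + Real.log 7)) ≤ s / 12000 * Q +
      (s / 100 * Q + R₁ * (Real.log 10 + Real.log 7)) := by
    have g1 : R₁ * δ ≤ R' * δ := mul_le_mul_of_nonneg_right hR'0 hδ0
    have g2 : R₁ * η ≤ R' * η := mul_le_mul_of_nonneg_right hR'0 hη0
    have g3 := mul_le_mul_of_nonneg_right (g1.trans hδf) hQ0
    rw [hηR] at g2
    have g4 := mul_le_mul_of_nonneg_right g2 hQ0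
    linarith
  have b4 : Real.log (16 * ((2 ^ r₀ : ℕ) : ℝ)) ≤ 0.021 * s * Q + 7 := by
    have e : (16 : ℝ) * ((2 ^ r₀ : ℕ) : ℝ) = 2 ^ (r₀ + 4) := by
      push_cast
      rw [pow_add]
      norm_num
      ring
    rw [e, Real.log_pow]
    push_cast
    have g1 : ((r₀ : ℝ) + 4) * Real.log 2 ≤ (r₀ + 4) * 0.7 :=
      mul_le_mul_of_nonneg_left hl21 (by positivity)
    rw [hε₀] at hr₀
    linarith
  have b5 := mul_le_mul_of_nonneg_right hδ₂1 hQ0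
  have b6 : s / 2 * 0.69 * Q ≤ s / 2 * Real.log 2 * Q :=
    mul_le_mul_of_nonneg_right (mul_le_mul_of_nonneg_left hl22 (by positivity)) hQ0
  have b7 : 0 ≤ s * Q := by positivity
  rw [Real.log_pow]
  unfold cnC at hQ
  linarith

/-- **The digits of the leaf.** -/
theorem tie_r {M K Q k₀ : ℕ} {ε₀ B : ℝ} (hM : 1 ≤ M) (hMM : 2 ^ Q ≤ M * M) (hB : 0 < B)
    (hε₀0 : 0 < ε₀) (hε₀1 : ε₀ ≤ 1 / 200) (hQ : 200 ≤ Q) (hKQ : 3 * (K : ℝ) + 200 ≤ Q * ε₀)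
    (hBM : (M : ℝ) ≤ B * 2 ^ (ε₀ * Q)) (hk : (k₀ : ℝ) ≤ ε₀ * Q + 1) :
    ∃ r₀ : ℕ, (r₀ : ℝ) ≤ 3 * ε₀ * Q + 5 ∧ 2 ^ r₀ ≤ M ∧
      5 * (2 ^ k₀ * M / B ^ 2) * M ≤ ((2 ^ r₀ : ℕ) : ℝ) ∧
      (K : ℝ) * (2 + M / B) ≤ ((2 ^ r₀ : ℕ) : ℝ) ∧ 2 * (M / B) ≤ 8 * ((2 ^ r₀ : ℕ) : ℝ) ∧
      ((2 ^ r₀ : ℕ) : ℝ) ≤ 32 * 2 ^ (3 * ε₀ * Q) := by
  have hQr : (200 : ℝ) ≤ Q := by exact_mod_cast hQ
  have hQ0 : (0 : ℝ) < Q := by linarith
  have hMr : (1 : ℝ) ≤ M := by exact_mod_cast hM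
  have hM0 : (0 : ℝ) < M := by linarith
  obtain ⟨Y, hY⟩ : ∃ Y : ℝ, Y = (2 : ℝ) ^ (ε₀ * Q) := ⟨_, rfl⟩
  have hY0 : 0 < Y := by rw [hY]; positivity
  have hY1 : 1 ≤ Y := by rw [hY]; exact Real.one_le_rpow (by norm_num) (by positivity)
  have h3ε : (2 : ℝ) ^ (3 * ε₀ * Q) = Y * (Y * Y) := by
    rw [hY, ← Real.rpow_add (by norm_num), ← Real.rpow_add (by norm_num)]
    congr 1
    ring
  obtain ⟨κ, hκ⟩ : ∃ κ : ℝ, κ = M / B := ⟨_, rfl⟩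
  have hκ0 : 0 < κ := by rw [hκ]; positivity
  have hκY : κ ≤ Y := by
    rw [hκ, div_le_iff₀ hB, hY]
    linarith
  obtain ⟨r₀, hr₀⟩ : ∃ r₀ : ℕ, r₀ = ⌈3 * ε₀ * Q⌉₊ + 4 := ⟨_, rfl⟩
  have hr1 : 3 * ε₀ * Q + 4 ≤ r₀ := by
    rw [hr₀]
    push_cast
    have := Nat.le_ceil (3 * ε₀ * (Q : ℝ))
    linarith
  have hr2 : (r₀ : ℝ) ≤ 3 * ε₀ * Q + 5 := by
    rw [hr₀]
    push_cast
    have := (Nat.ceil_lt_add_one (show 0 ≤ 3 * ε₀ * (Q : ℝ) by positivity)).le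
    linarith
  obtain ⟨r, hr⟩ : ∃ r : ℝ, r = ((2 ^ r₀ : ℕ) : ℝ) := ⟨_, rfl⟩
  have hrr : r = (2 : ℝ) ^ r₀ := by rw [hr]; push_cast; rfl
  have hrl : 16 * (Y * (Y * Y)) ≤ r := by
    have e : (2 : ℝ) ^ (3 * ε₀ * Q + 4) = 16 * (Y * (Y * Y)) := by
      rw [Real.rpow_add (by norm_num), h3ε]
      norm_num
      ring
    rw [← e, hrr, ← Real.rpow_natCast]
    exact Real.rpow_le_rpow_of_exponent_le (by norm_num) hr1
  have hrh : r ≤ 32 * (Y * (Y * Y)) := by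
    have e : (2 : ℝ) ^ (3 * ε₀ * Q + 5) = 32 * (Y * (Y * Y)) := by
      rw [Real.rpow_add (by norm_num), h3ε]
      norm_num
      ring
    rw [← e, hrr, ← Real.rpow_natCast]
    exact Real.rpow_le_rpow_of_exponent_le (by norm_num) hr2
  have hYY : 1 ≤ Y * Y := by nlinarith
  have hY3 : Y ≤ Y * (Y * Y) := by nlinarith
  have hKY : (K : ℝ) ≤ Y := by
    have g1 : (ε₀ * Q) * Real.log 2 + 1 ≤ Y := by
      rw [hY, Real.rpow_def_of_pos (by norm_num), mul_comm (ε₀ * (Q : ℝ))]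
      exact Real.add_one_le_exp _
    have g2 : ε₀ * Q * 0.69 ≤ ε₀ * Q * Real.log 2 := by
      refine mul_le_mul_of_nonneg_left ?_ (by positivity)
      have := Real.log_two_gt_d9
      linarith
    have hK0 : (0 : ℝ) ≤ K := Nat.cast_nonneg K
    linarith
  refine ⟨r₀, hr2, ?_, ?_, ?_, ?_, ?_⟩
  · rw [← Nat.mul_self_le_mul_self_iff]
    refine le_trans ?_ hMM
    rw [← pow_add]
    refine Nat.pow_le_pow_right (by norm_num) ?_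
    have : ((r₀ + r₀ : ℕ) : ℝ) ≤ (Q : ℕ) := by
      push_cast
      nlinarith
    exact_mod_cast this
  · rw [← hr]
    have hV1 : (2 : ℝ) ^ k₀ ≤ 2 * Y := by
      rw [hY]
      exact pow_ceil hk
    have e : 5 * (2 ^ k₀ * M / B ^ 2) * M = 5 * (2 ^ k₀ * (κ * κ)) := by
      rw [hκ]
      field_simp
    rw [e]
    have g1 : κ * κ ≤ Y * Y := mul_le_mul hκY hκY hκ0.le hY0.le
    have g2 : 2 ^ k₀ * (κ * κ) ≤ (2 * Y) * (Y * Y) :=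
      mul_le_mul hV1 g1 (by positivity) (by positivity)
    have g3 : 0 < Y * (Y * Y) := by positivity
    linarith
  · rw [← hr, ← hκ]
    have g1 : (K : ℝ) * (2 + κ) ≤ Y * (3 * Y) := by
      refine mul_le_mul hKY (by linarith) (by linarith) hY0.le
    have g2 : Y * Y ≤ Y * (Y * Y) := by nlinarith
    nlinarith
  · rw [← hr, ← hκ]
    linarith
  · rw [← hr, h3ε]
    exact hrh

/-- **The sizes.** -/
theorem tie_sz {M Q k₀ k₂ r₀ : ℕ} {ε ε₃ ε₀ B : ℝ} (hM : 1 ≤ M) (hMQ : M ≤ 2 ^ Q) (hB : 0 < B)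
    (hε1 : ε ≤ 1) (hε₃ : ε₃ = ε / 2)
    (hε₀0 : 0 < ε₀) (hε₀3 : ε₀ ≤ ε₃ / 100) (hQ : 200 ≤ Q) (hKQ : 200 ≤ Q * ε₀)
    (hBM : (M : ℝ) ≤ B * 2 ^ (ε₀ * Q)) (hk : (k₀ : ℝ) ≤ ε₀ * Q + 1)
    (hk1 : ε₃ * Q ≤ (k₂ : ℝ)) (hk2 : (k₂ : ℝ) ≤ ε₃ * Q + 1) (hr₀ : (r₀ : ℝ) ≤ 3 * ε₀ * Q + 5) :
    (M : ℝ) / B ≤ 2 ^ (ε * Q) ∧ (M : ℝ) / B ≤ 2 ^ Q ∧ 2 * ((M : ℝ) / B) * M ≤ 2 ^ (2 * Q) ∧
      4 * ((2 ^ r₀ : ℕ) : ℝ) ≤ 2 ^ k₂ ∧ (2 : ℝ) ^ k₂ ≤ 2 ^ (ε * Q) ∧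
      ((2 ^ r₀ : ℕ) : ℝ) ≤ 2 ^ (ε * Q) ∧
      (2 ^ k₀ + 2 * ((2 ^ r₀ : ℕ) : ℝ)) * M / B ≤ (2 : ℝ) ^ (ε * Q) := by
  have hQr : (200 : ℝ) ≤ Q := by exact_mod_cast hQ
  have hMr : (1 : ℝ) ≤ M := by exact_mod_cast hM
  have hMQr : (M : ℝ) ≤ 2 ^ Q := by exact_mod_cast hMQ
  have hM0 : (0 : ℝ) < M := by linarith
  have hQ0 : (0 : ℝ) < Q := by linarith
  have hκY : (M : ℝ) / B ≤ 2 ^ (ε₀ * Q) := by
    rw [div_le_iff₀ hB]
    linarith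
  have hκ0 : 0 < (M : ℝ) / B := by positivity
  have hle : ∀ x y : ℝ, x ≤ y → (2 : ℝ) ^ x ≤ 2 ^ y := fun x y h =>
    Real.rpow_le_rpow_of_exponent_le (by norm_num) h
  have hx : 0 < ε₀ * Q := by positivity
  have hx3 : 100 * (ε₀ * Q) ≤ ε₃ * Q := by
    have := mul_le_mul_of_nonneg_right hε₀3 hQ0.le
    linarith
  have hε₃Q : ε₃ * Q = ε * Q / 2 := by rw [hε₃]; ring
  have hεQ : ε * Q ≤ Q := by nlinarith
  have hr : ((2 ^ r₀ : ℕ) : ℝ) = (2 : ℝ) ^ (r₀ : ℝ) := by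
    push_cast
    rw [Real.rpow_natCast]
  have hk2' : (2 : ℝ) ^ k₂ = (2 : ℝ) ^ (k₂ : ℝ) := (Real.rpow_natCast _ _).symm
  have hk0' : (2 : ℝ) ^ k₀ = (2 : ℝ) ^ (k₀ : ℝ) := (Real.rpow_natCast _ _).symm
  have h4 : (4 : ℝ) = (2 : ℝ) ^ (2 : ℝ) := by norm_num
  refine ⟨hκY.trans (hle _ _ (by linarith)), ?_, ?_, ?_, ?_, ?_, ?_⟩
  · refine hκY.trans ?_
    rw [← Real.rpow_natCast]
    exact hle _ _ (by linarith)
  · have g1 : 2 * ((M : ℝ) / B) * M ≤ 2 * 2 ^ (ε₀ * Q) * 2 ^ Q :=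
      mul_le_mul (by linarith) hMQr hM0.le (by positivity)
    have g2 : (2 : ℝ) * 2 ^ (ε₀ * Q) * 2 ^ Q = 2 ^ (1 + ε₀ * Q + Q) := by
      rw [Real.rpow_add (by norm_num), Real.rpow_add (by norm_num), Real.rpow_one,
        Real.rpow_natCast]
    rw [g2] at g1
    refine g1.trans ?_
    rw [← Real.rpow_natCast]
    push_cast
    exact hle _ _ (by linarith)
  · rw [hr, hk2', h4, ← Real.rpow_add (by norm_num)]
    exact hle _ _ (by linarith)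
  · rw [hk2']
    exact hle _ _ (by linarith)
  · rw [hr]
    exact hle _ _ (by linarith)
  · have g0 : (2 : ℝ) ^ k₀ ≤ 2 ^ (3 * ε₀ * Q + 5) := by
      rw [hk0']
      exact hle _ _ (by linarith)
    have g1 : ((2 ^ r₀ : ℕ) : ℝ) ≤ 2 ^ (3 * ε₀ * Q + 5) := by
      rw [hr]
      exact hle _ _ hr₀
    have g2 : (2 ^ k₀ + 2 * ((2 ^ r₀ : ℕ) : ℝ)) * M / B = (2 ^ k₀ + 2 * ((2 ^ r₀ : ℕ) : ℝ)) *
      (M / B) := by ring
    rw [g2]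
    have g3 : (2 ^ k₀ + 2 * ((2 ^ r₀ : ℕ) : ℝ)) * (M / B) ≤ (4 * 2 ^ (3 * ε₀ * Q + 5)) *
        2 ^ (ε₀ * Q) :=
      mul_le_mul (by linarith) hκY hκ0.le (by positivity)
    refine g3.trans ?_
    rw [h4, ← Real.rpow_add (by norm_num), ← Real.rpow_add (by norm_num)]
    exact hle _ _ (by linarith)

end Pool.PR46
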