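import Pool.Agent.H46.PR.Lf2

/-!
# The third hop: tools

The pair of two copies over the record `F`; the data `E` of the lines is free of the record. On an
event of pairs of mass at least `1 / R₁` the height `u` is full given the leaf of one copy and the
data of both.
-/

set_option autoImplicit false

namespace Pool.PR46

open Finset Real
open Pool.Agent.H49.Ent Pool.Agent.H32.Dense Pool.STK Pool.OWN68
open Pool.BFL (Pb)

section tools

variable {Ω W : Type} [Fintype Ω] [Fintype W]

/-- The marginal of a law on an event. -/
theorem ev_marg {P : W → ℝ} (hP : IsLaw P) {pr : W → Ω} {p : Ω → ℝ} (hm : Marg P p pr)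
    {S : W → Prop} {R : ℝ} (hR : 0 < R) (hS : 1 / R ≤ Pb P S) :
    ∃ q : Ω → ℝ, IsLaw q ∧ (∀ ω, q ω ≤ R * p ω) ∧ Marg (cond P S True) q pr := by
  classical
  have hl : 1 / R ≤ law P S True := by rw [Pool.NFD.Pb_law]; exact hS
  have hl0 : 0 < law P S True := lt_of_lt_of_le (by positivity) hl
  have hQ : IsLaw (cond P S True) := ⟨cond_nonneg hP.nonneg S True, sum_cond P S hl0.ne'⟩
  refine ⟨fun ω => law (cond P S True) pr ω, ⟨fun ω => law_nonneg hQ.nonneg _ _, ?_⟩,
    fun ω => ?_, fun ω => ?_⟩
  · have h4 : ∑ ω, law (cond P S True) pr ω = ∑ w, cond P S True w := by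
      unfold law
      rw [Finset.sum_comm]
      refine Finset.sum_congr rfl fun w _ => ?_
      rw [Finset.sum_ite_eq]
      simp
    rw [h4, hQ.sum_one]
  · have h1 : law (cond P S True) pr ω ≤ R * law P pr ω := by
      unfold law
      rw [Finset.mul_sum]
      refine Finset.sum_le_sum fun w _ => ?_
      by_cases hu : pr w = ω
      · rw [if_pos hu, if_pos hu]
        unfold Pool.Agent.H49.Ent.cond
        split_ifs
        · rw [div_le_iff₀ hl0]
          have h5 : 1 ≤ R * law P S True := by
            have := mul_le_mul_of_nonneg_left hl hR.le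
            rwa [mul_one_div_cancel hR.ne'] at this
          have h6 := hP.nonneg w
          nlinarith
        · exact mul_nonneg hR.le (hP.nonneg w)
      · rw [if_neg hu, if_neg hu, mul_zero]
    have h2 : law P pr ω = p ω := by
      rw [← hm ω]
      unfold law
      exact Finset.sum_congr rfl fun w _ => by congr
    rwa [h2] at h1
  · unfold law
    exact Finset.sum_congr rfl fun w _ => by congr

omit [Fintype Ω] in
/-- The entropy on an event, from below. -/
theorem CH_ev_ge {T U : Type} {P : W → ℝ} (hP : IsLaw P) (X : W → T) (Z : W → U) {F e c X₀ : ℝ}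
    (he : 0 ≤ e) (hFe : 0 ≤ F + e) (h : F - e ≤ CH P X Z) (hc : 0 ≤ c)
    (hX₀ : ∀ q : W → ℝ, IsLaw q → (∀ w, 0 < q w → 0 < P w) → CH q X Z ≤ X₀) (hX0 : 0 ≤ X₀)
    (hbig : ∀ S : W → Prop, c < Pb P S → CH (cond P S True) X Z ≤ F + e) (S : W → Prop)
    {R : ℝ} (hR : 0 < R) (hS : 1 / R ≤ Pb P S) :
    F - (R * (2 * e + Real.log 2) + R * (c * X₀)) ≤ CH (cond P S True) X Z := by
  classical
  have h0 := hP.nonneg
  have hl : 1 / R ≤ law P S True := by rw [Pool.NFD.Pb_law]; exact hS
  have hl0 : 0 < law P S True := lt_of_lt_of_le (by positivity) hl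
  have hl2 : 0 ≤ Real.log 2 := Real.log_nonneg (by norm_num)
  have hcomp : Pb P S = 1 - Pb P (fun w => ¬ S w) := Pb_compl hP S
  have hSe : CH P S Z ≤ Real.log 2 := by
    have h3 := CH_le_card h0 hP.sum_one S Z (fun _ => {True, False}) (fun ω _ => by
      by_cases hh : S ω
      · simp [hh]
      · simp [hh])
    refine h3.trans (le_of_eq ?_)
    rw [← Ex_const hP.sum_one (Real.log 2)]
    have e1 : (({True, False} : Finset Prop).card : ℝ) = 2 := by
      rw [Finset.card_pair (by simp)]
      norm_num
    unfold Ex
    refine Finset.sum_congr rfl fun ω _ => ?_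
    show P ω * Real.log _ = P ω * Real.log _
    rw [e1]
  have h1 : CH P X Z ≤ CH P X (fun w => (Z w, S w)) + Real.log 2 := by
    have h2 := CH_le_add h0 X S Z
    have h3 : CH P X (fun w => (S w, Z w)) ≤ CH P X (fun w => (Z w, S w)) :=
      CH_mono_cond h0 fun w w' _ _ hz => Prod.ext (Prod.ext_iff.mp hz).2 (Prod.ext_iff.mp hz).1
    linarith
  rw [CH_split h0 X Z S] at h1
  have h2 : ∑ j ∈ univ.image S, law P S j * CH (cond P S j) X Z ≤
      law P S True * CH (cond P S True) X Z + (law P S False * (F + e) + c * X₀) := by
    have h3 : ∀ j ∈ univ.image S, law P S j * CH (cond P S j) X Z ≤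
        (if j = True then law P S True * CH (cond P S True) X Z else 0) +
        (if j = False then law P S False * (F + e) + c * X₀ else 0) := by
      intro j _
      by_cases hj : j
      · have hj' : j = True := eq_true hj
        rw [if_pos hj', if_neg (by rw [hj']; simp), add_zero, hj']
      · have hj' : j = False := eq_false hj
        rw [if_neg (by rw [hj']; simp), if_pos hj', zero_add, hj']
        have hF0 := law_nonneg h0 S False
        rcases le_or_gt (law P S False) c with h4 | h4
        · rcases hF0.eq_or_lt with hz | hz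
          · rw [← hz, zero_mul, zero_mul, zero_add]
            positivity
          · have h5 := hX₀ (cond P S False) ⟨cond_nonneg h0 S False, sum_cond P S hz.ne'⟩
              (fun w hw => ((cond_pos_iff h0 S False w).mp hw).1)
            have h6 : law P S False * CH (cond P S False) X Z ≤ c * X₀ :=
              mul_le_mul h4 h5 (CH_nonneg (cond_nonneg h0 S False) _ _) hc
            have h7 : 0 ≤ law P S False * (F + e) := mul_nonneg hF0 hFe
            linarith
        · have hlt : law P S False = Pb P (fun w => ¬ S w) := by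
            rw [← Pool.NFD.Pb_law]
            unfold law
            refine Finset.sum_congr rfl fun w _ => ?_
            by_cases hw : S w
            · simp [hw]
            · simp [hw]
          have hcond : cond P S False = cond P (fun w => ¬ S w) True := by
            funext w
            unfold Pool.Agent.H49.Ent.cond
            rw [hlt, ← Pool.NFD.Pb_law]
            by_cases hw : S w
            · simp [hw]
            · simp [hw]
          have h5 := hbig (fun w => ¬ S w) (by rw [← hlt]; exact h4)
          rw [← hcond] at h5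
          have h6 := mul_le_mul_of_nonneg_left h5 hF0
          have h7 : 0 ≤ c * X₀ := by positivity
          linarith
    refine (Finset.sum_le_sum h3).trans ?_
    rw [Finset.sum_add_distrib]
    have hA : 0 ≤ law P S True * CH (cond P S True) X Z :=
      mul_nonneg hl0.le (CH_nonneg (cond_nonneg h0 S True) _ _)
    have hB : 0 ≤ law P S False * (F + e) + c * X₀ :=
      add_nonneg (mul_nonneg (law_nonneg h0 S False) hFe) (mul_nonneg hc hX0)
    have key : ∀ (a : Prop) (b : ℝ) (dc : ∀ x : Prop, Decidable (x = a)), 0 ≤ b →
        ∑ x ∈ univ.image S, (@ite ℝ (x = a) (dc x) b 0) ≤ b := by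
      intro a b dc hb
      by_cases ha : a ∈ univ.image S
      · rw [Finset.sum_eq_single a (fun x _ hx => if_neg hx) (fun h => absurd ha h), if_pos rfl]
      · rw [Finset.sum_eq_zero (fun x hx => if_neg (fun (h : x = a) => ha (by rw [← h]; exact hx)))]
        exact hb
    exact add_le_add (key True _ _ hA) (key False _ _ hB)
  have hsum : law P S True + law P S False ≤ 1 := by
    have hlt : law P S False = Pb P (fun w => ¬ S w) := by
      rw [← Pool.NFD.Pb_law]
      unfold law
      refine Finset.sum_congr rfl fun w _ => ?_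
      by_cases hw : S w
      · simp [hw]
      · simp [hw]
    rw [hlt, Pool.NFD.Pb_law, hcomp]
    linarith
  obtain ⟨x, hx⟩ : ∃ x, x = CH (cond P S True) X Z := ⟨_, rfl⟩
  rw [← hx] at h2 ⊢
  obtain ⟨a, ha⟩ : ∃ a, a = law P S True := ⟨_, rfl⟩
  rw [← ha] at h2 hsum hl0 hl
  have h4 : law P S False * (F + e) ≤ (1 - a) * (F + e) :=
    mul_le_mul_of_nonneg_right (by linarith) hFe
  have h5 : F - e - Real.log 2 ≤ a * x + ((1 - a) * (F + e) + c * X₀) := by linarith
  -- divide
  have h6 : a * F ≤ a * x + (2 * e + Real.log 2 + c * X₀) := by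
    have : a * e ≥ 0 := mul_nonneg hl0.le he
    nlinarith
  have h7 : a * (F - x) ≤ 2 * e + Real.log 2 + c * X₀ := by linarith
  have h8 : 0 ≤ 2 * e + Real.log 2 + c * X₀ := by positivity
  have h9 : F - x ≤ R * (2 * e + Real.log 2 + c * X₀) := by
    have h10 : 1 ≤ R * a := by
      have := mul_le_mul_of_nonneg_left hl hR.le
      rwa [mul_one_div_cancel hR.ne'] at this
    rcases le_or_gt (F - x) 0 with h11 | h11
    · exact h11.trans (by positivity)
    · have h12 : F - x ≤ R * a * (F - x) := by nlinarith
      have h13 : R * (a * (F - x)) ≤ R * (2 * e + Real.log 2 + c * X₀) :=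
        mul_le_mul_of_nonneg_left h7 hR.le
      linarith
  linarith

end tools

end Pool.PR46
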