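import Pool.Agent.H46.PR.Mid

/-!
# The third hop

`thr_cell`: two copies over the record `F = (A, u, n)`; the data `E` of a line (which with `A`
determines the context) is free of the record; the height `u` is full on the leaf of a line of slope
`ks`. If the height `n` is nonfull given the height `u`, then the slopes of the two lines are near.
-/

set_option autoImplicit false

namespace Pool.PR46

open Finset Real
open Pool.Agent.H49.Ent Pool.Agent.H32.Dense Pool.STK Pool.OWN68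
open Pool.BFL (Pb)

/-- The record without `E`. -/
def FF {Ω Λ 𝒜 : Type} (L : Ω → Λ) (t : Ω → ℤ) (A : Ω → 𝒜) (u n : Λ → ℤ → ℤ) (ω : Ω) :
    𝒜 × (ℤ × ℤ) := (A ω, (u (L ω) (t ω), n (L ω) (t ω)))

/-- The condition: coarse position, leaf, context. -/
noncomputable def VV {Ω Λ 𝒞 𝒩 : Type} (M r : ℕ) (L : Ω → Λ) (t : Ω → ℤ) (C : Λ → 𝒞) (N : Λ → 𝒩)
    (u n : Λ → ℤ → ℤ) (ks : Λ → ℝ) (ω : Ω) : ℤ × ((ℤ × ℤ) × (ℤ × (𝒞 × 𝒩))) :=
  (u (L ω) (t ω) / (M : ℤ), (leaf M r L t u n ks ω, (t ω, (C (L ω), N (L ω)))))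

/-- The hypotheses of the third hop. -/
structure ThrH {Ω Λ 𝒜 ℰ 𝒞 𝒩 : Type} [Fintype Ω] (p : Ω → ℝ) (M r : ℕ) (R e₁ e₂ e₃ : ℝ)
    (L : Ω → Λ) (t : Ω → ℤ) (A : Ω → 𝒜) (E : Ω → ℰ) (C : Λ → 𝒞) (N : Λ → 𝒩)
    (u n : Λ → ℤ → ℤ) (ks : Λ → ℝ) : Prop where
  ac : ∀ ω ω', 0 < p ω → 0 < p ω' → A ω = A ω' → E ω = E ω' →
    t ω = t ω' ∧ C (L ω) = C (L ω') ∧ N (L ω) = N (L ω')
  ca : ∀ ω ω', 0 < p ω → 0 < p ω' → t ω = t ω' → C (L ω) = C (L ω') → N (L ω) = N (L ω') →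
    A ω = A ω' ∧ E ω = E ω'
  lf : ∀ q : Ω → ℝ, IsLaw q → (∀ ω, q ω ≤ R * p ω) → Real.log (2 * M + 1) - e₁ ≤
    CH q (fun ω => u (L ω) (t ω)) (VV M r L t C N u n ks)
  fm : CH p E A ≤ CH p E (FF L t A u n) + e₂
  kf : CH p (fun ω => kq M r (ks (L ω))) (fun ω => (FF L t A u n ω, E ω)) ≤ e₃

section sym

variable {Ω : Type} [Fintype Ω]

theorem glue_swap {Γ : Type} (p : Ω → ℝ) (G : Ω → Γ) (w : Ω × Ω) :
    glue p p G G w.swap = glue p p G G w := by
  classical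
  unfold glue
  show (if G w.2 = G w.1 then p w.2 * p w.1 / law p G (G w.2) else 0) =
    if G w.1 = G w.2 then p w.1 * p w.2 / law p G (G w.1) else 0
  by_cases h : G w.1 = G w.2
  · rw [if_pos h, if_pos h.symm, h]
    ring
  · rw [if_neg h, if_neg (fun h' => h h'.symm)]

theorem cond_swap {P : Ω × Ω → ℝ} (hs : ∀ w : Ω × Ω, P w.swap = P w) (S : Ω × Ω → Prop)
    (w : Ω × Ω) : cond P (fun w => S w.swap) True w.swap = cond P S True w := by
  classical
  have hl : law P (fun w => S w.swap) True = law P S True := by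
    rw [Pool.NFD.Pb_law, Pool.NFD.Pb_law, ← Pb_sum, ← Pb_sum,
      ← (Equiv.prodComm Ω Ω).sum_comp (fun w => if S w then P w else 0)]
    refine Finset.sum_congr rfl fun w _ => ?_
    show (if S w.swap then P w else 0) = if S w.swap then P w.swap else 0
    rw [hs w]
  unfold Pool.Agent.H49.Ent.cond
  rw [hl, hs w]
  rfl

theorem CH_swap_ev {P : Ω × Ω → ℝ} (hs : ∀ w : Ω × Ω, P w.swap = P w) (S : Ω × Ω → Prop)
    {T U : Type} (X : Ω × Ω → T) (Z : Ω × Ω → U) :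
    CH (cond P (fun w => S w.swap) True) X Z =
      CH (cond P S True) (fun w => X w.swap) (fun w => Z w.swap) := by
  have h := marg_of_equiv (q := cond P S True) (r := cond P (fun w => S w.swap) True)
    (Equiv.prodComm Ω Ω) (fun w => (cond_swap hs S w).symm)
  exact (h.CH X Z).symm

end sym

section main

variable {Ω Λ 𝒜 ℰ 𝒞 𝒩 : Type} [Fintype Ω] {p : Ω → ℝ} {M r : ℕ} {R e₁ e₂ e₃ : ℝ}
    {L : Ω → Λ} {t : Ω → ℤ} {A : Ω → 𝒜} {E : Ω → ℰ} {C : Λ → 𝒞} {N : Λ → 𝒩}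
    {u n : Λ → ℤ → ℤ} {ks : Λ → ℝ}

/-- The loss. -/
noncomputable def i2 (R₁ e₂ : ℝ) : ℝ := R₁ * (e₂ + Real.log 2)

/-- **Full on the leaf of the first copy, given the data of both.** -/
theorem leaf_one (hp : IsLaw p)
    (H : ThrH p M r R e₁ e₂ e₃ L t A E C N u n ks) {R₁ : ℝ} (hR₁ : 0 < R₁) (hR₁R : R₁ ≤ R)
    (S : Ω × Ω → Prop) (hS : 1 / R₁ ≤ Pb (glue p p (FF L t A u n) (FF L t A u n)) S) :
    Real.log (2 * M + 1) - e₁ - i2 R₁ e₂ ≤
      CH (cond (glue p p (FF L t A u n) (FF L t A u n)) S True) (fun w => u (L w.1) (t w.1))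
        (fun w => (E w.2, VV M r L t C N u n ks w.1)) := by
  classical
  have h0 := hp.nonneg
  obtain ⟨F, hF⟩ : ∃ F, F = FF L t A u n := ⟨_, rfl⟩
  rw [← hF] at hS ⊢
  obtain ⟨P, hP⟩ : ∃ P, P = glue p p F F := ⟨_, rfl⟩
  have hPl : IsLaw P := by rw [hP]; exact P1_law hp F
  have hP1 : Marg P p (fun w => w.1) := by rw [hP]; exact P1_f hp F
  have hP2 : Marg P p (fun w => w.2) := by rw [hP]; exact P1_s hp F
  rw [← hP] at hS ⊢
  have hpos : ∀ w, 0 < P w → 0 < p w.1 ∧ 0 < p w.2 ∧ F w.1 = F w.2 := by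
    intro w hw
    rw [hP] at hw
    exact P1_pos hp F hw
  have hA : ∀ w, 0 < P w → A w.1 = A w.2 := by
    intro w hw
    have h1 := (hpos w hw).2.2
    rw [hF] at h1
    exact (Prod.ext_iff.mp h1).1
  -- the data of the second copy given the first copy
  have hmi : CH P (fun w => E w.2) (fun w => A w.1) - CH P (fun w => E w.2) (fun w => w.1) ≤
      e₂ := by
    have h1 : CH P (fun w => E w.2) (fun w => (F w.2, w.1)) = CH p E F := by
      rw [hP]
      exact CH_glue_snd h0 h0 (fun _ => rfl) E (Y := F) (fun w => w) (fun _ _ _ _ h => h)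
    have h2 : CH P (fun w => E w.2) (fun w => (F w.2, w.1)) ≤
        CH P (fun w => E w.2) (fun w => w.1) := by
      exact CH_mono_cond hPl.nonneg fun w w' _ _ hz => (Prod.ext_iff.mp hz).2
    have h3 : CH P (fun w => E w.2) (fun w => A w.1) = CH P (fun w => E w.2) (fun w => A w.2) :=
      CH_eq_on hPl.nonneg (fun _ _ => rfl) fun w hw => hA w hw
    have h4 : CH P (fun w => E w.2) (fun w => A w.2) = CH p E A := hP2.CH E A
    have h5 := H.fm
    rw [← hF] at h5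
    linarith
  -- now the height
  have hl0 : 0 < law P S True := by
    rw [Pool.NFD.Pb_law]
    exact lt_of_lt_of_le (by positivity) hS
  have hev := mi_ev hPl hR₁ hS (fun w => E w.2) (fun w => w.1) (fun w => A w.1)
    (fun w w' _ _ e => by
      have e' : w.1 = w'.1 := e
      show A w.1 = A w'.1
      rw [e'])
  obtain ⟨Q, hQ⟩ : ∃ Q, Q = cond P S True := ⟨_, rfl⟩
  have hQl : IsLaw Q := by
    rw [hQ]
    exact ⟨cond_nonneg hPl.nonneg S True, sum_cond P S hl0.ne'⟩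
  have hQP : ∀ w, 0 < Q w → 0 < P w := fun w hw => by
    rw [hQ] at hw
    exact ((cond_pos_iff hPl.nonneg S True w).mp hw).1
  obtain ⟨q₁, hq₁1, hq₁2, hq₁3⟩ := ev_marg hPl hP1 (S := S) hR₁ hS
  rw [← hQ] at hev hq₁3 ⊢
  have hlf := H.lf q₁ hq₁1 fun ω =>
    (hq₁2 ω).trans (mul_le_mul_of_nonneg_right hR₁R (h0 ω))
  rw [← hq₁3.CH (fun ω => u (L ω) (t ω)) (VV M r L t C N u n ks)] at hlf
  have hms := mi_sym hQl.nonneg (fun w => u (L w.1) (t w.1)) (fun w => E w.2)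
    (fun w => VV M r L t C N u n ks w.1)
  have hup : CH Q (fun w => E w.2) (fun w => VV M r L t C N u n ks w.1) ≤
      CH Q (fun w => E w.2) (fun w => A w.1) := by
    refine CH_mono_cond hQl.nonneg fun w w' hw hw' hz => ?_
    have z := (Prod.ext_iff.mp (Prod.ext_iff.mp hz).2).2
    have z1 : t w.1 = t w'.1 := (Prod.ext_iff.mp z).1
    have z2 : C (L w.1) = C (L w'.1) := (Prod.ext_iff.mp (Prod.ext_iff.mp z).2).1
    have z3 : N (L w.1) = N (L w'.1) := (Prod.ext_iff.mp (Prod.ext_iff.mp z).2).2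
    exact (H.ca _ _ (hpos w (hQP w hw)).1 (hpos w' (hQP w' hw')).1 z1 z2 z3).1
  have hlow : CH Q (fun w => E w.2) (fun w => w.1) ≤
      CH Q (fun w => E w.2) (fun w => (u (L w.1) (t w.1), VV M r L t C N u n ks w.1)) :=
    CH_mono_cond hQl.nonneg fun w w' _ _ hz => by
      have hz' : w.1 = w'.1 := hz
      show (u (L w.1) (t w.1), VV M r L t C N u n ks w.1) =
        (u (L w'.1) (t w'.1), VV M r L t C N u n ks w'.1)
      rw [hz']
  have hfin : R₁ * (CH P (fun w => E w.2) (fun w => A w.1) -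
      CH P (fun w => E w.2) (fun w => w.1) + Real.log 2) ≤ R₁ * (e₂ + Real.log 2) :=
    mul_le_mul_of_nonneg_left (by linarith) hR₁.le
  unfold i2
  linarith

/-- The same for the second copy. -/
theorem leaf_two (hp : IsLaw p)
    (H : ThrH p M r R e₁ e₂ e₃ L t A E C N u n ks) {R₁ : ℝ} (hR₁ : 0 < R₁) (hR₁R : R₁ ≤ R)
    (S : Ω × Ω → Prop) (hS : 1 / R₁ ≤ Pb (glue p p (FF L t A u n) (FF L t A u n)) S) :
    Real.log (2 * M + 1) - e₁ - i2 R₁ e₂ ≤
      CH (cond (glue p p (FF L t A u n) (FF L t A u n)) S True) (fun w => u (L w.2) (t w.2))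
        (fun w => (E w.1, VV M r L t C N u n ks w.2)) := by
  have hS' : 1 / R₁ ≤ Pb (glue p p (FF L t A u n) (FF L t A u n)) (fun w => S w.swap) := by
    rw [← Pb_sym]
    exact hS
  have h := leaf_one hp H hR₁ hR₁R (fun w => S w.swap) hS'
  rw [CH_swap_ev (glue_swap p (FF L t A u n)) S] at h
  exact h

end main

end Pool.PR46
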