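import Pool.Agent.H46.PR.Thr2

/-!
# The third hop: one cell
-/

set_option autoImplicit false

namespace Pool.PR46

open Finset Real
open Pool.Agent.H49.Ent Pool.Agent.H32.Dense Pool.STK Pool.OWN68
open Pool.BFL (Pb)

/-- The residue is at most `M`. -/
theorem mod_abs {M : ℕ} (hM : 1 ≤ M) (u : ℤ) : |((u % (M : ℤ) : ℤ) : ℝ)| ≤ M := by
  have hM0 : (0 : ℤ) < M := by exact_mod_cast hM
  have h1 := Int.emod_nonneg u hM0.ne'
  have h2 := Int.emod_lt_of_pos u hM0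
  rw [← Int.cast_abs, abs_of_nonneg h1]
  exact_mod_cast h2.le

/-- The position of the leaf: bounds. -/
theorem lc_bd {M r : ℕ} (hr : 1 ≤ r) (k u n : ℤ) :
    (lc M r k u n : ℝ) * r ≤ (n : ℝ) - kr M r k * ((u % (M : ℤ) : ℤ) : ℝ) ∧
    (n : ℝ) - kr M r k * ((u % (M : ℤ) : ℤ) : ℝ) ≤ (lc M r k u n : ℝ) * r + r := by
  have hr0 : (0 : ℝ) < r := by exact_mod_cast hr
  unfold lc
  obtain ⟨x, hx⟩ : ∃ x, x = (n : ℝ) - kr M r k * ((u % (M : ℤ) : ℤ) : ℝ) := ⟨_, rfl⟩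
  rw [← hx]
  have h1 := Int.floor_le (x / r)
  have h2 := (Int.lt_floor_add_one (x / r)).le
  have e : x = x / r * r := by field_simp
  constructor
  · calc (⌊x / r⌋ : ℝ) * r ≤ x / r * r := mul_le_mul_of_nonneg_right h1 hr0.le
      _ = x := e.symm
  · calc x = x / r * r := e
      _ ≤ ((⌊x / r⌋ : ℝ) + 1) * r := mul_le_mul_of_nonneg_right h2 hr0.le
      _ = (⌊x / r⌋ : ℝ) * r + r := by ring

/-- The coarse slope. -/
noncomputable def kt (M r m : ℕ) (k : ℤ) : ℤ := ⌊kr M r k * M / m⌋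

section main

variable {Ω Λ 𝒜 ℰ 𝒞 𝒩 : Type} [Fintype Ω] {p : Ω → ℝ} {M r : ℕ} {R e₁ e₂ e₃ : ℝ}
    {L : Ω → Λ} {t : Ω → ℤ} {A : Ω → 𝒜} {E : Ω → ℰ} {C : Λ → 𝒞} {N : Λ → 𝒩}
    {u n : Λ → ℤ → ℤ} {ks : Λ → ℝ}

/-- **One cell.** -/
theorem thr_cell (hp : IsLaw p) (hM : 1 ≤ M) (hr : 1 ≤ r)
    (H : ThrH p M r R e₁ e₂ e₃ L t A E C N u n ks) {R₁ : ℝ} (hR₁ : 0 < R₁) (hR₁R : R₁ ≤ R)
    {m : ℕ} (hrm : r ≤ m) {V Um : ℝ} (hV : 4 * r ≤ V) (hVM : V ≤ 8 * r * M)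
    (hnf : ∀ q : Ω → ℝ, IsLaw q → (∀ ω, q ω ≤ R * p ω) →
      CH q (fun ω => n (L ω) (t ω)) (fun ω => ((n (L ω) (t ω) / (m : ℤ), u (L ω) (t ω)),
        (t ω, C (L ω)))) ≤ Um)
    (hbig : Um + 2 * (e₁ + i2 R₁ e₂) + R₁ * e₃ + Real.log 2565 + Real.log (16 * r) <
      Real.log V) :
    Pb (glue p p (FF L t A u n) (FF L t A u n)) (fun w => V ≤ |ks (L w.2) - ks (L w.1)| * M ∧
      |ks (L w.2) - ks (L w.1)| * M ≤ m) < 1 / R₁ := by
  classical
  by_contra hcon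
  push Not at hcon
  have h0 := hp.nonneg
  have hMr : (1 : ℝ) ≤ M := by exact_mod_cast hM
  have hM0 : (0 : ℝ) < M := by linarith
  have hrr : (1 : ℝ) ≤ r := by exact_mod_cast hr
  have hr0 : (0 : ℝ) < r := by linarith
  have hmr : (r : ℝ) ≤ m := by exact_mod_cast hrm
  have hm0 : (0 : ℝ) < m := by linarith
  have hm1 : 1 ≤ m := hr.trans hrm
  have hV0 : 0 < V := by linarith
  obtain ⟨S, hS⟩ : ∃ S : Ω × Ω → Prop, S = fun w => V ≤ |ks (L w.2) - ks (L w.1)| * M ∧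
    |ks (L w.2) - ks (L w.1)| * M ≤ m := ⟨_, rfl⟩
  rw [← hS] at hcon
  have hl1 := leaf_one hp H hR₁ hR₁R S hcon
  have hl2 := leaf_two hp H hR₁ hR₁R S hcon
  obtain ⟨F, hF⟩ : ∃ F, F = FF L t A u n := ⟨_, rfl⟩
  rw [← hF] at hcon hl1 hl2
  obtain ⟨P, hP⟩ : ∃ P, P = glue p p F F := ⟨_, rfl⟩
  have hPl : IsLaw P := by rw [hP]; exact P1_law hp F
  have hP1 : Marg P p (fun w => w.1) := by rw [hP]; exact P1_f hp F
  have hP2 : Marg P p (fun w => w.2) := by rw [hP]; exact P1_s hp F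
  rw [← hP] at hcon hl1 hl2
  have hl0 : 0 < law P S True := by
    rw [Pool.NFD.Pb_law]
    exact lt_of_lt_of_le (by positivity) hcon
  obtain ⟨Q, hQ⟩ : ∃ Q, Q = cond P S True := ⟨_, rfl⟩
  have hQl : IsLaw Q := by
    rw [hQ]
    exact ⟨cond_nonneg hPl.nonneg S True, sum_cond P S hl0.ne'⟩
  obtain ⟨q₂, hq₂1, hq₂2, hq₂3⟩ := ev_marg hPl hP2 (S := S) hR₁ hcon
  rw [← hQ] at hl1 hl2 hq₂3
  have hQ0 := hQl.nonneg
  have hsup : ∀ w, 0 < Q w → 0 < p w.1 ∧ 0 < p w.2 ∧ A w.1 = A w.2 ∧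
      u (L w.1) (t w.1) = u (L w.2) (t w.2) ∧ n (L w.1) (t w.1) = n (L w.2) (t w.2) ∧
      V ≤ |ks (L w.2) - ks (L w.1)| * M ∧ |ks (L w.2) - ks (L w.1)| * M ≤ m := by
    intro w hw
    rw [hQ] at hw
    obtain ⟨h1, h2⟩ := (cond_pos_iff hPl.nonneg S True w).mp hw
    rw [hP] at h1
    have h3 : S w := of_eq_true h2
    rw [hS] at h3
    obtain ⟨a1, a2, a3⟩ := P1_pos hp F h1
    rw [hF] at a3
    have a4 := Prod.ext_iff.mp a3
    have a5 := Prod.ext_iff.mp a4.2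
    exact ⟨a1, a2, a4.1, a5.1, a5.2, h3.1, h3.2⟩
  -- names
  obtain ⟨U, hU⟩ : ∃ U : Ω × Ω → ℤ, U = fun w => u (L w.1) (t w.1) := ⟨_, rfl⟩
  obtain ⟨Nn, hNn⟩ : ∃ Nn : Ω × Ω → ℤ, Nn = fun w => n (L w.1) (t w.1) := ⟨_, rfl⟩
  obtain ⟨um, hum⟩ : ∃ um : Ω × Ω → ℤ, um = fun w => U w / (M : ℤ) := ⟨_, rfl⟩
  obtain ⟨k₁, hk₁⟩ : ∃ k : Ω × Ω → ℤ, k = fun w => kq M r (ks (L w.1)) := ⟨_, rfl⟩
  obtain ⟨k₂, hk₂⟩ : ∃ k : Ω × Ω → ℤ, k = fun w => kq M r (ks (L w.2)) := ⟨_, rfl⟩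
  obtain ⟨c₁, hc₁⟩ : ∃ c : Ω × Ω → ℤ, c = fun w => lc M r (k₁ w) (U w) (Nn w) := ⟨_, rfl⟩
  obtain ⟨c₂, hc₂⟩ : ∃ c : Ω × Ω → ℤ, c = fun w => lc M r (k₂ w) (U w) (Nn w) := ⟨_, rfl⟩
  obtain ⟨tt, htt⟩ : ∃ tt : Ω × Ω → ℤ, tt = fun w => kt M r m (k₂ w) := ⟨_, rfl⟩
  obtain ⟨Y, hY⟩ : ∃ Y : Ω × Ω → ℤ, Y = fun w => (c₂ w * r) / (m : ℤ) := ⟨_, rfl⟩
  obtain ⟨Zc, hZc⟩ : ∃ Zc : Ω × Ω → 𝒜 × (ℰ × ℰ), Zc = fun w => (A w.1, (E w.1, E w.2)) := ⟨_, rfl⟩
  -- real facts of one sample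
  have hone : ∀ w, 0 < Q w →
      V / 2 ≤ |kr M r (k₂ w) - kr M r (k₁ w)| * M ∧ |kr M r (k₂ w) - kr M r (k₁ w)| * M ≤ 3 * m := by
    intro w hw
    obtain ⟨-, -, -, -, -, a1, a2⟩ := hsup w hw
    have b1 := kq_near hM hr (ks (L w.1))
    have b2 := kq_near hM hr (ks (L w.2))
    have e1 : k₁ w = kq M r (ks (L w.1)) := by rw [hk₁]
    have e2 : k₂ w = kq M r (ks (L w.2)) := by rw [hk₂]
    rw [← e1] at b1
    rw [← e2] at b2
    rw [le_div_iff₀ hM0] at b1 b2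
    have g1 : |ks (L w.2) - ks (L w.1)| ≤ |kr M r (k₂ w) - kr M r (k₁ w)| +
        (|ks (L w.1) - kr M r (k₁ w)| + |ks (L w.2) - kr M r (k₂ w)|) := by
      have e : ks (L w.2) - ks (L w.1) = (kr M r (k₂ w) - kr M r (k₁ w)) -
        ((ks (L w.1) - kr M r (k₁ w)) - (ks (L w.2) - kr M r (k₂ w))) := by ring
      rw [e]
      refine (abs_sub _ _).trans (add_le_add_right (abs_sub _ _) _)
    have g2 : |kr M r (k₂ w) - kr M r (k₁ w)| ≤ |ks (L w.2) - ks (L w.1)| +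
        (|ks (L w.1) - kr M r (k₁ w)| + |ks (L w.2) - kr M r (k₂ w)|) := by
      have e : kr M r (k₂ w) - kr M r (k₁ w) = (ks (L w.2) - ks (L w.1)) +
        ((ks (L w.1) - kr M r (k₁ w)) - (ks (L w.2) - kr M r (k₂ w))) := by ring
      rw [e]
      refine (abs_add_le _ _).trans (add_le_add_right (abs_sub _ _) _)
    have g3 := mul_le_mul_of_nonneg_right g1 hM0.le
    have g4 := mul_le_mul_of_nonneg_right g2 hM0.le
    constructor
    · linarith
    · linarith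
  have hlf : ∀ w, 0 < Q w →
      ((c₁ w : ℝ) * r ≤ (Nn w : ℝ) - kr M r (k₁ w) * ((U w % (M : ℤ) : ℤ) : ℝ) ∧
        (Nn w : ℝ) - kr M r (k₁ w) * ((U w % (M : ℤ) : ℤ) : ℝ) ≤ (c₁ w : ℝ) * r + r) ∧
      ((c₂ w : ℝ) * r ≤ (Nn w : ℝ) - kr M r (k₂ w) * ((U w % (M : ℤ) : ℤ) : ℝ) ∧
        (Nn w : ℝ) - kr M r (k₂ w) * ((U w % (M : ℤ) : ℤ) : ℝ) ≤ (c₂ w : ℝ) * r + r) := by
    intro w _
    rw [hc₁, hc₂]
    exact ⟨lc_bd hr _ _ _, lc_bd hr _ _ _⟩
  have hmod : ∀ w w', um w = um w' → ((U w % (M : ℤ) : ℤ) : ℝ) - ((U w' % (M : ℤ) : ℤ) : ℝ) =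
      (U w : ℝ) - U w' := by
    intro w w' h
    rw [hum] at h
    dsimp only at h
    rw [mod_eq, mod_eq, h]
    ring
  have habs : ∀ w, |((U w % (M : ℤ) : ℤ) : ℝ)| ≤ M := fun w => mod_abs hM (U w)
  -- step 1: the position on both leaves
  have s1 : CH Q U (fun w => ((c₂ w, k₂ w), ((c₁ w, k₁ w), (um w, Zc w)))) ≤
      Real.log (8 * r * M / V + 1) := by
    refine CH_int_const hQl _ _ (B := 4 * r * M / V) ?_ (le_of_eq (by ring)) (by positivity)
    intro w w' hw hw' hz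
    have z1 := Prod.ext_iff.mp hz
    have z2 := Prod.ext_iff.mp z1.1
    have z3 := Prod.ext_iff.mp z1.2
    have z4 := Prod.ext_iff.mp z3.1
    have z5 := Prod.ext_iff.mp z3.2
    have y1 : c₂ w = c₂ w' := z2.1
    have y2 : k₂ w = k₂ w' := z2.2
    have y3 : c₁ w = c₁ w' := z4.1
    have y4 : k₁ w = k₁ w' := z4.2
    have y5 : um w = um w' := z5.1
    obtain ⟨⟨a1, a2⟩, a3, a4⟩ := hlf w hw
    obtain ⟨⟨b1, b2⟩, b3, b4⟩ := hlf w' hw'
    rw [← y1, ← y2] at b3 b4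
    rw [← y3, ← y4] at b1 b2
    obtain ⟨g1, -⟩ := hone w hw
    have hm' := hmod w w' y5
    obtain ⟨a, ha⟩ : ∃ a, a = ((U w % (M : ℤ) : ℤ) : ℝ) := ⟨_, rfl⟩
    obtain ⟨a', ha'⟩ : ∃ a', a' = ((U w' % (M : ℤ) : ℤ) : ℝ) := ⟨_, rfl⟩
    rw [← ha] at a1 a2 a3 a4 hm'
    rw [← ha'] at b1 b2 b3 b4 hm'
    have f1 : |(kr M r (k₂ w) - kr M r (k₁ w)) * (a - a')| ≤ 2 * r := by
      rw [abs_le]
      constructor <;> nlinarith
    rw [abs_mul] at f1
    push_cast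
    rw [← hm', le_div_iff₀ hV0]
    have f2 : V / 2 * |a - a'| ≤ |kr M r (k₂ w) - kr M r (k₁ w)| * M * |a - a'| :=
      mul_le_mul_of_nonneg_right g1 (abs_nonneg _)
    have f3 := mul_le_mul_of_nonneg_right f1 hM0.le
    nlinarith
  -- step 2: the strip given the first leaf
  have s2 : CH Q (fun w => (Y w, tt w)) (fun w => ((c₁ w, k₁ w), (um w, Zc w))) ≤
      Real.log 15 + Real.log 19 := by
    have g1 := CH_chain hQ0 Y tt (fun w => ((c₁ w, k₁ w), (um w, Zc w)))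
    have g2 : CH Q tt (fun w => ((c₁ w, k₁ w), (um w, Zc w))) ≤ Real.log 15 := by
      refine CH_int_const hQl _ _ (B := 7) ?_ (by norm_num) (by norm_num)
      intro w w' hw hw' hz
      have y4 : k₁ w = k₁ w' := (Prod.ext_iff.mp (Prod.ext_iff.mp hz).1).2
      obtain ⟨-, a2⟩ := hone w hw
      obtain ⟨-, b2⟩ := hone w' hw'
      rw [← y4] at b2
      rw [htt]
      dsimp only
      unfold kt
      refine (floor_diff (B := 6) ?_).trans (by norm_num)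
      rw [← sub_div, ← sub_mul, abs_div, abs_of_pos hm0, div_le_iff₀ hm0, abs_mul,
        abs_of_pos hM0]
      have e : kr M r (k₂ w) - kr M r (k₂ w') = (kr M r (k₂ w) - kr M r (k₁ w)) -
        (kr M r (k₂ w') - kr M r (k₁ w)) := by ring
      rw [e]
      have := abs_sub (kr M r (k₂ w) - kr M r (k₁ w)) (kr M r (k₂ w') - kr M r (k₁ w))
      nlinarith
    have g3 : CH Q Y (fun w => (tt w, ((c₁ w, k₁ w), (um w, Zc w)))) ≤ Real.log 19 := by
      refine CH_int_const hQl _ _ (B := 9) ?_ (by norm_num) (by norm_num)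
      intro w w' hw hw' hz
      have z := Prod.ext_iff.mp (Prod.ext_iff.mp (Prod.ext_iff.mp hz).2).1
      have y3 : c₁ w = c₁ w' := z.1
      have hcc : ∀ w, 0 < Q w → |(c₂ w : ℝ) * r - (c₁ w : ℝ) * r| ≤ 4 * m := by
        intro w hw
        obtain ⟨⟨a1, a2⟩, a3, a4⟩ := hlf w hw
        obtain ⟨-, g⟩ := hone w hw
        have hx := habs w
        obtain ⟨a, ha⟩ : ∃ a, a = ((U w % (M : ℤ) : ℤ) : ℝ) := ⟨_, rfl⟩
        rw [← ha] at a1 a2 a3 a4 hx
        have f1 : |(kr M r (k₂ w) - kr M r (k₁ w)) * a| ≤ 3 * m := by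
          rw [abs_mul]
          exact (mul_le_mul_of_nonneg_left hx (abs_nonneg _)).trans g
        obtain ⟨f2, f3⟩ := abs_le.mp f1
        rw [abs_le]
        constructor <;> nlinarith
      have a1 := hcc w hw
      have a2 := hcc w' hw'
      rw [← y3] at a2
      rw [hY]
      dsimp only
      refine (ediv_diff hm1 (c₂ w * r) (c₂ w' * r)).trans ?_
      have a3 : |((c₂ w * r : ℤ) : ℝ) - ((c₂ w' * r : ℤ) : ℝ)| ≤ 8 * m := by
        push_cast
        have e : (c₂ w : ℝ) * r - (c₂ w' : ℝ) * r = ((c₂ w : ℝ) * r - (c₁ w : ℝ) * r) -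
          ((c₂ w' : ℝ) * r - (c₁ w : ℝ) * r) := by ring
        rw [e]
        have := abs_sub ((c₂ w : ℝ) * r - (c₁ w : ℝ) * r) ((c₂ w' : ℝ) * r - (c₁ w : ℝ) * r)
        linarith
      have a4 : |((c₂ w * r : ℤ) : ℝ) - ((c₂ w' * r : ℤ) : ℝ)| / m ≤ 8 := by
        rw [div_le_iff₀ hm0]
        exact a3
      linarith
    linarith
  -- the codes of the leaves
  have hL1 : ∀ w, leaf M r L t u n ks w.1 = (k₁ w, c₁ w) := by
    intro w
    rw [hc₁, hk₁, hU, hNn]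
    rfl
  have hL2 : ∀ w, 0 < Q w → leaf M r L t u n ks w.2 = (k₂ w, c₂ w) := by
    intro w hw
    obtain ⟨-, -, -, a4, a5, -, -⟩ := hsup w hw
    unfold leaf
    rw [← a4, ← a5, hc₂, hk₂, hU, hNn]
  -- step 3: the height given the leaves
  have hU1 : Real.log (2 * M + 1) - e₁ - i2 R₁ e₂ ≤
      CH Q U (fun w => ((c₁ w, k₁ w), (um w, Zc w))) := by
    refine hl1.trans ?_
    have hU' : CH Q (fun w => u (L w.1) (t w.1)) (fun w => (E w.2, VV M r L t C N u n ks w.1)) =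
        CH Q U (fun w => (E w.2, VV M r L t C N u n ks w.1)) := by
      rw [hU]
    rw [hU']
    refine CH_mono_cond hQ0 fun w w' hw hw' hz => ?_
    obtain ⟨a1, a2, a3, a4, a5, -, -⟩ := hsup w hw
    obtain ⟨b1, b2, b3, b4, b5, -, -⟩ := hsup w' hw'
    have z := Prod.ext_iff.mp hz
    have z1 := Prod.ext_iff.mp z.2
    have z2 := Prod.ext_iff.mp z1.2
    have z3 := Prod.ext_iff.mp z2.2
    have y0 : E w.2 = E w'.2 := z.1
    have y1 : u (L w.1) (t w.1) / (M : ℤ) = u (L w'.1) (t w'.1) / (M : ℤ) := z1.1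
    have y2 : leaf M r L t u n ks w.1 = leaf M r L t u n ks w'.1 := z2.1
    have y3 : t w.1 = t w'.1 := z3.1
    have y4 : C (L w.1) = C (L w'.1) := (Prod.ext_iff.mp z3.2).1
    have y5 : N (L w.1) = N (L w'.1) := (Prod.ext_iff.mp z3.2).2
    obtain ⟨d1, d2⟩ := H.ca _ _ a1 b1 y3 y4 y5
    rw [hL1, hL1] at y2
    have y6 := Prod.ext_iff.mp y2
    refine Prod.ext (Prod.ext y6.2 y6.1) (Prod.ext ?_ ?_)
    · show um w = um w'
      rw [hum, hU]
      exact y1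
    · show Zc w = Zc w'
      rw [hZc]
      exact Prod.ext d1 (Prod.ext d2 y0)
  have hU2 : Real.log (2 * M + 1) - e₁ - i2 R₁ e₂ ≤
      CH Q U (fun w => ((c₂ w, k₂ w), ((Y w, tt w), (um w, Zc w)))) := by
    refine hl2.trans ?_
    have hU' : CH Q (fun w => u (L w.2) (t w.2)) (fun w => (E w.1, VV M r L t C N u n ks w.2)) =
        CH Q U (fun w => (E w.1, VV M r L t C N u n ks w.2)) := by
      refine CH_eq_on hQ0 (fun w hw => ?_) fun _ _ => rfl
      obtain ⟨-, -, -, a4, -, -, -⟩ := hsup w hw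
      rw [hU]
      exact a4.symm
    rw [hU']
    refine CH_mono_cond hQ0 fun w w' hw hw' hz => ?_
    obtain ⟨a1, a2, a3, a4, a5, -, -⟩ := hsup w hw
    obtain ⟨b1, b2, b3, b4, b5, -, -⟩ := hsup w' hw'
    have z := Prod.ext_iff.mp hz
    have z1 := Prod.ext_iff.mp z.2
    have z2 := Prod.ext_iff.mp z1.2
    have z3 := Prod.ext_iff.mp z2.2
    have y0 : E w.1 = E w'.1 := z.1
    have y1 : u (L w.2) (t w.2) / (M : ℤ) = u (L w'.2) (t w'.2) / (M : ℤ) := z1.1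
    have y2 : leaf M r L t u n ks w.2 = leaf M r L t u n ks w'.2 := z2.1
    have y3 : t w.2 = t w'.2 := z3.1
    have y4 : C (L w.2) = C (L w'.2) := (Prod.ext_iff.mp z3.2).1
    have y5 : N (L w.2) = N (L w'.2) := (Prod.ext_iff.mp z3.2).2
    obtain ⟨d1, d2⟩ := H.ca _ _ a2 b2 y3 y4 y5
    rw [hL2 w hw, hL2 w' hw'] at y2
    have y6 := Prod.ext_iff.mp y2
    have y7 : k₂ w = k₂ w' := y6.1
    have y8 : c₂ w = c₂ w' := y6.2
    refine Prod.ext (Prod.ext y8 y7) (Prod.ext (Prod.ext ?_ ?_) (Prod.ext ?_ ?_))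
    · show Y w = Y w'
      rw [hY]
      dsimp only
      rw [y8]
    · show tt w = tt w'
      rw [htt]
      dsimp only
      rw [y7]
    · show um w = um w'
      rw [hum, hU]
      dsimp only
      rw [a4, b4]
      exact y1
    · show Zc w = Zc w'
      rw [hZc]
      exact Prod.ext (a3.trans (d1.trans b3.symm)) (Prod.ext y0 d2)
  -- step 4: the second leaf given the strip
  have s3 : Real.log (2 * M + 1) - e₁ - i2 R₁ e₂ - Real.log (8 * r * M / V + 1) -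
      (Real.log 15 + Real.log 19) ≤ CH Q (fun w => (c₂ w, k₂ w))
        (fun w => ((Y w, tt w), (um w, Zc w))) := by
    have g1 := CH_le_add hQ0 U (fun w => (c₂ w, k₂ w)) (fun w => ((c₁ w, k₁ w), (um w, Zc w)))
    have g2 := CH_chain hQ0 (fun w => (c₂ w, k₂ w)) (fun w => (Y w, tt w))
      (fun w => ((c₁ w, k₁ w), (um w, Zc w)))
    have g3 : CH Q (fun w => (c₂ w, k₂ w)) (fun w => ((c₁ w, k₁ w), (um w, Zc w))) ≤
        CH Q (fun w => ((c₂ w, k₂ w), (Y w, tt w))) (fun w => ((c₁ w, k₁ w), (um w, Zc w))) :=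
      CH_mono_left hQ0 fun w w' _ _ hz => (Prod.ext_iff.mp (Prod.ext_iff.mp hz).1).1
    have g4 : CH Q (fun w => (c₂ w, k₂ w)) (fun w => ((Y w, tt w), ((c₁ w, k₁ w),
        (um w, Zc w)))) ≤ CH Q (fun w => (c₂ w, k₂ w)) (fun w => ((Y w, tt w), (um w, Zc w))) :=
      CH_mono_cond hQ0 fun w w' _ _ hz => Prod.ext (Prod.ext_iff.mp hz).1
        (Prod.ext_iff.mp (Prod.ext_iff.mp hz).2).2
    linarith
  -- step 5: the slope of the second leaf
  have hden : ∀ ω, q₂ ω ≤ R * p ω := fun ω =>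
    (hq₂2 ω).trans (mul_le_mul_of_nonneg_right hR₁R (h0 ω))
  have s4 : CH Q (fun w => (c₂ w, k₂ w)) (fun w => ((U w, Nn w), ((Y w, tt w), (um w, Zc w)))) ≤
      R₁ * e₃ := by
    have g1 := CH_le_add hQ0 (fun w => (c₂ w, k₂ w)) k₂
      (fun w => ((U w, Nn w), ((Y w, tt w), (um w, Zc w))))
    have g2 : CH Q (fun w => (c₂ w, k₂ w)) (fun w => (k₂ w, ((U w, Nn w), ((Y w, tt w),
        (um w, Zc w))))) = 0 := by
      refine CH_eq_zero hQ0 fun w w' _ _ hz => ?_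
      have z := Prod.ext_iff.mp hz
      have z1 := Prod.ext_iff.mp (Prod.ext_iff.mp z.2).1
      have y1 : k₂ w = k₂ w' := z.1
      have y2 : U w = U w' := z1.1
      have y3 : Nn w = Nn w' := z1.2
      refine Prod.ext ?_ y1
      show c₂ w = c₂ w'
      rw [hc₂]
      dsimp only
      rw [y1, y2, y3]
    have g3 : CH Q k₂ (fun w => ((U w, Nn w), ((Y w, tt w), (um w, Zc w)))) ≤
        CH Q (fun w => kq M r (ks (L w.2))) (fun w => (FF L t A u n w.2, E w.2)) := by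
      rw [hk₂]
      refine CH_mono_cond hQ0 fun w w' hw hw' hz => ?_
      obtain ⟨-, -, a3, a4, a5, -, -⟩ := hsup w hw
      obtain ⟨-, -, b3, b4, b5, -, -⟩ := hsup w' hw'
      have z := Prod.ext_iff.mp hz
      have z1 := Prod.ext_iff.mp z.1
      have z2 := Prod.ext_iff.mp z.2
      have z3 := Prod.ext_iff.mp z2.2
      have y1 : U w = U w' := z1.1
      have y2 : Nn w = Nn w' := z1.2
      have y3 : Zc w = Zc w' := z3.2
      rw [hZc] at y3
      rw [hU] at y1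
      rw [hNn] at y2
      have z4 := Prod.ext_iff.mp y3
      have z5 := Prod.ext_iff.mp z4.2
      have x1 : A w.1 = A w'.1 := z4.1
      have x2 : E w.2 = E w'.2 := z5.2
      dsimp only at y1 y2
      refine Prod.ext (Prod.ext ?_ (Prod.ext ?_ ?_)) x2
      · show A w.2 = A w'.2
        rw [← a3, ← b3, x1]
      · show u (L w.2) (t w.2) = u (L w'.2) (t w'.2)
        rw [← a4, ← b4, y1]
      · show n (L w.2) (t w.2) = n (L w'.2) (t w'.2)
        rw [← a5, ← b5, y2]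
    have g4 : CH Q (fun w => kq M r (ks (L w.2))) (fun w => (FF L t A u n w.2, E w.2)) ≤
        R₁ * e₃ := by
      rw [hq₂3.CH (fun ω => kq M r (ks (L ω))) (fun ω => (FF L t A u n ω, E ω))]
      refine (Pool.NFD.CH_le_mul h0 hq₂1 hq₂2 (fun ω hω => ?_) _ _).trans
        (mul_le_mul_of_nonneg_left H.kf hR₁.le)
      by_contra hc
      have h2 : p ω ≤ 0 := not_lt.mp hc
      have h3 := hq₂2 ω
      nlinarith
    linarith
  -- step 6: the upper bound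
  have s5 : CH Q (fun w => Nn w / (m : ℤ)) (fun w => (U w, ((Y w, tt w), (um w, Zc w)))) ≤
      Real.log 9 := by
    refine CH_int_const hQl _ _ (B := 4) ?_ (by norm_num) (by norm_num)
    intro w w' hw hw' hz
    have z := Prod.ext_iff.mp hz
    have z1 := Prod.ext_iff.mp (Prod.ext_iff.mp z.2).1
    have y1 : U w = U w' := z.1
    have y2 : Y w = Y w' := z1.1
    have y3 : tt w = tt w' := z1.2
    obtain ⟨-, a3, a4⟩ := hlf w hw
    obtain ⟨-, b3, b4⟩ := hlf w' hw'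
    rw [← y1] at b3 b4
    have hx := habs w
    have hx0 : (0 : ℝ) ≤ ((U w % (M : ℤ) : ℤ) : ℝ) := by
      have hM0' : (0 : ℤ) < M := by exact_mod_cast hM
      exact_mod_cast Int.emod_nonneg (U w) hM0'.ne'
    obtain ⟨a, ha⟩ : ∃ a, a = ((U w % (M : ℤ) : ℤ) : ℝ) := ⟨_, rfl⟩
    rw [← ha] at a3 a4 b3 b4 hx hx0
    -- the strips
    have e2 : ∀ w, ((Y w : ℤ) : ℝ) * m ≤ (c₂ w : ℝ) * r ∧ (c₂ w : ℝ) * r ≤ (Y w : ℝ) * m + m := by
      intro w
      have hmz : (0 : ℤ) < m := by exact_mod_cast hm1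
      have h1 := Int.ediv_mul_le (c₂ w * r) hmz.ne'
      have h2 := Int.lt_ediv_add_one_mul_self (c₂ w * r) hmz
      rw [hY]
      dsimp only
      constructor
      · have h3 : (((c₂ w * r) / (m : ℤ) * m : ℤ) : ℝ) ≤ ((c₂ w * r : ℤ) : ℝ) := by exact_mod_cast h1
        push_cast at h3 ⊢
        exact h3
      · have h3 : ((c₂ w * r : ℤ) : ℝ) ≤ (((c₂ w * r / (m : ℤ) + 1) * m : ℤ) : ℝ) := by
          exact_mod_cast h2.le
        push_cast at h3 ⊢
        linarith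
    have e3 : ∀ w, (tt w : ℝ) * m ≤ kr M r (k₂ w) * M ∧ kr M r (k₂ w) * M ≤ (tt w : ℝ) * m + m := by
      intro w
      rw [htt]
      dsimp only
      unfold kt
      have h1 := Int.floor_le (kr M r (k₂ w) * M / m)
      have h2 := (Int.lt_floor_add_one (kr M r (k₂ w) * M / m)).le
      have e : kr M r (k₂ w) * M = kr M r (k₂ w) * M / m * m := by field_simp
      constructor
      · calc _ ≤ kr M r (k₂ w) * M / m * m := mul_le_mul_of_nonneg_right h1 hm0.le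
          _ = _ := e.symm
      · calc _ = kr M r (k₂ w) * M / m * m := e
          _ ≤ ((⌊kr M r (k₂ w) * M / m⌋ : ℝ) + 1) * m := mul_le_mul_of_nonneg_right h2 hm0.le
          _ = _ := by ring
    obtain ⟨f1, f2⟩ := e2 w
    obtain ⟨f3, f4⟩ := e2 w'
    obtain ⟨f5, f6⟩ := e3 w
    obtain ⟨f7, f8⟩ := e3 w'
    rw [← y2] at f3 f4
    rw [← y3] at f7 f8
    have ha1 : a ≤ M := (abs_le.mp hx).2
    -- the slopes times the position
    have f9 : |(kr M r (k₂ w) - kr M r (k₂ w')) * a| ≤ m := by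
      rw [abs_mul]
      have h1 : |kr M r (k₂ w) - kr M r (k₂ w')| * M ≤ m := by
        have h2 : |(kr M r (k₂ w) - kr M r (k₂ w')) * M| ≤ m := by
          rw [abs_le]
          constructor <;> nlinarith
        rwa [abs_mul, abs_of_pos hM0] at h2
      refine le_trans (mul_le_mul_of_nonneg_left hx (abs_nonneg _)) h1
    obtain ⟨f10, f11⟩ := abs_le.mp f9
    refine (ediv_diff hm1 (Nn w) (Nn w')).trans ?_
    have f12 : |(Nn w : ℝ) - Nn w'| ≤ 3 * m := by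
      rw [abs_le]
      constructor <;> nlinarith
    have f13 : |(Nn w : ℝ) - Nn w'| / m ≤ 3 := by
      rw [div_le_iff₀ hm0]
      exact f12
    linarith
  have s6 : CH Q Nn (fun w => (Nn w / (m : ℤ), (U w, ((Y w, tt w), (um w, Zc w))))) ≤ Um := by
    have g1 : CH Q Nn (fun w => (Nn w / (m : ℤ), (U w, ((Y w, tt w), (um w, Zc w))))) =
        CH Q (fun w => n (L w.2) (t w.2)) (fun w => (Nn w / (m : ℤ), (U w, ((Y w, tt w),
          (um w, Zc w))))) := by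
      refine CH_eq_on hQ0 (fun w hw => ?_) fun _ _ => rfl
      obtain ⟨-, -, -, -, a5, -, -⟩ := hsup w hw
      rw [hNn]
      exact a5
    rw [g1]
    refine le_trans (CH_mono_cond hQ0 (W := fun w : Ω × Ω => ((n (L w.2) (t w.2) / (m : ℤ),
      u (L w.2) (t w.2)), (t w.2, C (L w.2)))) fun w w' hw hw' hz => ?_) ?_
    · obtain ⟨-, a2, a3, a4, a5, -, -⟩ := hsup w hw
      obtain ⟨-, b2, b3, b4, b5, -, -⟩ := hsup w' hw'
      have z := Prod.ext_iff.mp hz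
      have z1 := Prod.ext_iff.mp z.2
      have z2 := Prod.ext_iff.mp z1.2
      have z3 := Prod.ext_iff.mp z2.2
      have y0 : Nn w / (m : ℤ) = Nn w' / (m : ℤ) := z.1
      have y1 : U w = U w' := z1.1
      have y3 : Zc w = Zc w' := z3.2
      rw [hZc] at y3
      rw [hU] at y1
      rw [hNn] at y0
      have z4 := Prod.ext_iff.mp y3
      have z5 := Prod.ext_iff.mp z4.2
      have x1 : A w.1 = A w'.1 := z4.1
      have x2 : E w.2 = E w'.2 := z5.2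
      dsimp only at y1 y0
      rw [a5, b5] at y0
      rw [a4, b4] at y1
      obtain ⟨d1, d2, -⟩ := H.ac _ _ a2 b2 (a3.symm.trans (x1.trans b3)) x2
      exact Prod.ext (Prod.ext y0 y1) (Prod.ext d1 d2)
    · rw [hq₂3.CH (fun ω => n (L ω) (t ω)) (fun ω => ((n (L ω) (t ω) / (m : ℤ), u (L ω) (t ω)),
        (t ω, C (L ω))))]
      exact hnf q₂ hq₂1 hden
  have s7 : CH Q U (fun w => ((Y w, tt w), (um w, Zc w))) ≤ Real.log (2 * M + 1) := by
    refine CH_int_const hQl _ _ (B := M) ?_ le_rfl hM0.le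
    intro w w' hw hw' hz
    have z := Prod.ext_iff.mp (Prod.ext_iff.mp hz).2
    have y1 : um w = um w' := z.1
    have h1 := hmod w w' y1
    push_cast
    rw [← h1]
    have hM0' : (0 : ℤ) < M := by exact_mod_cast hM
    have b1 : (0 : ℝ) ≤ ((U w % (M : ℤ) : ℤ) : ℝ) := by
      exact_mod_cast Int.emod_nonneg (U w) hM0'.ne'
    have b2 : (0 : ℝ) ≤ ((U w' % (M : ℤ) : ℤ) : ℝ) := by
      exact_mod_cast Int.emod_nonneg (U w') hM0'.ne'
    have b3 := (abs_le.mp (habs w)).2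
    have b4 := (abs_le.mp (habs w')).2
    rw [abs_le]
    constructor <;> linarith
  -- together
  have t1 := CH_chain hQ0 U (fun w => (c₂ w, k₂ w)) (fun w => ((Y w, tt w), (um w, Zc w)))
  have t2 := CH_chain hQ0 (fun w => (c₂ w, k₂ w)) (fun w => (U w, Nn w))
    (fun w => ((Y w, tt w), (um w, Zc w)))
  have t3 : CH Q (fun w => (U w, (c₂ w, k₂ w))) (fun w => ((Y w, tt w), (um w, Zc w))) ≤
      CH Q (fun w => ((c₂ w, k₂ w), (U w, Nn w))) (fun w => ((Y w, tt w), (um w, Zc w))) :=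
    CH_mono_left hQ0 fun w w' _ _ hz => by
      have z := Prod.ext_iff.mp (Prod.ext_iff.mp hz).1
      exact Prod.ext (Prod.ext_iff.mp z.2).1 z.1
  have t4 := CH_chain2 hQ0 U Nn (fun w => ((Y w, tt w), (um w, Zc w)))
  have t5 := CH_le_add hQ0 Nn (fun w => Nn w / (m : ℤ))
    (fun w => (U w, ((Y w, tt w), (um w, Zc w))))
  have hlog : Real.log 2565 = Real.log 15 + Real.log 19 + Real.log 9 := by
    rw [← Real.log_mul (by norm_num) (by norm_num), ← Real.log_mul (by norm_num) (by norm_num)]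
    norm_num
  -- the number
  have hnum : Real.log V - Real.log (16 * r) ≤
      Real.log (2 * M + 1) - Real.log (8 * r * M / V + 1) := by
    rw [← Real.log_div hV0.ne' (by positivity), ← Real.log_div (by positivity) (by positivity)]
    refine Real.log_le_log (by positivity) ?_
    rw [div_le_div_iff₀ (by positivity) (by positivity)]
    have h1 : V * (8 * r * M / V + 1) = 8 * r * M + V := by
      field_simp
    rw [h1]
    nlinarith
  linarith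

end main

end Pool.PR46
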