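import Pool.Agent.H46.PR.Rte

/-!
# Ties on one window

`tie_one`: the hypotheses for one law, one window, one record. There is a closed slope (a function of
the line, equal to a function of the record without the data `E` off a small event), and on large
events of this kind the position of the leaf is nonfull.
-/

set_option autoImplicit false

namespace Pool.PR46

open Finset Real
open Pool.Agent.H49.Ent Pool.Agent.H32.Dense Pool.STK Pool.OWN68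
open Pool.BFL (Pb)

section mono

variable {Ω Λ Φ Γ₁ Γ₂ 𝒜 ℰ 𝒞 𝒟 𝒩₁ 𝒩₂ : Type} [Fintype Ω] {p : Ω → ℝ} {M K Q : ℕ}
    {δ δ' c₀ c' h α B e e' : ℝ} {L : Ω → Λ} {t : Ω → ℤ} {f : Ω → Φ} {G₁ : Ω → Γ₁} {G₂ : Ω → Γ₂}
    {A : Ω → 𝒜} {E : Ω → ℰ} {C : Λ → 𝒞} {D : Λ → 𝒟} {N₁ : Λ → 𝒩₁} {N₂ : Λ → 𝒩₂}
    {u n : Λ → ℤ → ℤ} {du dn : 𝒟 → ℝ}

theorem Recs.mono (H : Recs p M e L t G₁ G₂ C D N₁ N₂) (h : e ≤ e') :
    Recs p M e' L t G₁ G₂ C D N₁ N₂ :=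
  ⟨H.tb, H.g1, H.g2, H.nd, by linarith [H.full], by linarith [H.i1], by linarith [H.i2]⟩

theorem TieH.mono (H : TieH p M K Q δ c₀ h α B L t f G₁ G₂ A E C D N₁ N₂ u n du dn)
    (h1 : δ ≤ δ') (h2 : c₀ ≤ c') :
    TieH p M K Q δ' c' h α B L t f G₁ G₂ A E C D N₁ N₂ u n du dn := by
  have hQ : δ * Q ≤ δ' * Q := mul_le_mul_of_nonneg_right h1 (Nat.cast_nonneg Q)
  exact ⟨H.rcs.mono hQ, H.d1, H.d2, fun S hS => H.al S (h2.trans hS),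
    fun k hk S hS => (H.nf k hk S (h2.trans hS)).trans (by linarith), H.ac, H.ca,
    H.fm.trans (by linarith), H.fi.trans (by linarith), H.gf.trans hQ⟩

end mono

/-- **Ties on one window.** -/
theorem tie_one (K : ℕ) {h ε c₁ : ℝ} (hh : 0 < h) (hh1 : h ≤ 1) (hε : 0 < ε)
    (hε1 : ε ≤ 1) (hc₁ : 0 < c₁) (hc₁1 : c₁ ≤ 1) : ∃ ε' : ℝ, 0 < ε' ∧ ∃ δ : ℝ, 0 < δ ∧
      ∃ c₀ : ℝ, 0 < c₀ ∧ ∀ α : ℝ, 0 < α → ∃ Q₀ : ℕ, ∀ Q ≥ Q₀, ∀ B : ℝ, 0 < B →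
      (2 : ℝ) ^ Q ≤ B * (2 : ℝ) ^ (ε' * Q) →
      ∀ {Ω Λ Φ Γ 𝒜 ℰ 𝒞 𝒟 𝒩 : Type} [Fintype Ω] {p : Ω → ℝ}, IsLaw p →
      ∀ {L : Ω → Λ} {t : Ω → ℤ} {f : Ω → Φ} {G : Ω → Γ} {A : Ω → 𝒜} {E : Ω → ℰ} {C : Λ → 𝒞}
      {D : Λ → 𝒟} {N : Λ → 𝒩} {u n : Λ → ℤ → ℤ} {du dn : 𝒟 → ℝ},
      TieH p (2 ^ Q) K Q δ c₀ h α B L t f G G A E C D N N u n du dn →
      ∃ (r : ℕ) (kc : Λ → ℤ) (kz : 𝒜 × (ℤ × ℤ) → ℤ), 1 ≤ r ∧ (r : ℝ) ≤ (2 : ℝ) ^ (ε * Q) ∧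
        (∀ ω, 0 < p ω → |(kc (L ω) : ℝ)| * r ≤ (2 : ℝ) ^ (ε * Q) * 2 ^ Q) ∧
        Pb p (fun ω => kc (L ω) ≠ kz (FF L t A u n ω)) ≤ ε ∧
        ∀ S : Ω → Prop, c₁ ≤ Pb p S → (∀ ω, S ω → kc (L ω) = kz (FF L t A u n ω)) →
          CH (cond p S True)
            (fun ω => lc (2 ^ Q) r (kc (L ω)) (u (L ω) (t ω)) (n (L ω) (t ω)))
            (fun ω => ((u (L ω) (t ω) / ((2 ^ Q : ℕ) : ℤ), n (L ω) (t ω) / ((2 ^ Q : ℕ) : ℤ)),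
              (kc (L ω), A ω))) ≤ (1 - h) * Q * Real.log 2 + ε * Q := by
  obtain ⟨ε₁, hε₁, δ₁, hδ₁, d₁, hd₁, H₁⟩ := rate_eps K (show 0 < ε / 2 by positivity)
    (by linarith) hc₁ hc₁1
  obtain ⟨εa, hεa⟩ : ∃ εa : ℝ, εa = min δ₁ (ε / 4) := ⟨_, rfl⟩
  have hεa0 : 0 < εa := by rw [hεa]; exact lt_min hδ₁ (by positivity)
  have hεa1 : εa ≤ δ₁ := by rw [hεa]; exact min_le_left _ _
  have hεa2 : εa ≤ ε / 4 := by rw [hεa]; exact min_le_right _ _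
  obtain ⟨ε₂, hε₂, δ₂, hδ₂, d₂, hd₂, H₂⟩ := tie_slope K hh hh1 hεa0 (by linarith)
  refine ⟨min ε₁ ε₂, lt_min hε₁ hε₂, min δ₁ δ₂, lt_min hδ₁ hδ₂, min d₁ d₂, lt_min hd₁ hd₂,
    fun α hα => ?_⟩
  obtain ⟨Q₁, H₁⟩ := H₁ α hα
  obtain ⟨Q₂, H₂⟩ := H₂ α hα
  refine ⟨max (max Q₁ Q₂) ⌈8 / ε⌉₊, ?_⟩
  intro Q hQ B hB hBM Ω Λ Φ Γ 𝒜 ℰ 𝒞 𝒟 𝒩 _ p hp L t f G A E C D N u n du dn H
  have hQ1 : Q₁ ≤ Q := (le_max_left _ _).trans ((le_max_left _ _).trans hQ)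
  have hQ2 : Q₂ ≤ Q := (le_max_right _ _).trans ((le_max_left _ _).trans hQ)
  have hQ3 : 8 / ε ≤ Q := (Nat.le_ceil _).trans (by exact_mod_cast (le_max_right _ _).trans hQ)
  rw [div_le_iff₀ hε] at hQ3
  have hQ0 : (0 : ℝ) ≤ Q := Nat.cast_nonneg Q
  have hcast : (((2 ^ Q : ℕ)) : ℝ) = 2 ^ Q := by push_cast; rfl
  have hM1 : 1 ≤ 2 ^ Q := Nat.one_le_two_pow
  have hMM : 2 ^ Q ≤ 2 ^ Q * 2 ^ Q := by nlinarith
  have hB1 : ∀ x : ℝ, min ε₁ ε₂ ≤ x → (((2 ^ Q : ℕ)) : ℝ) ≤ B * (2 : ℝ) ^ (x * Q) := by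
    intro x hx
    rw [hcast]
    refine hBM.trans (mul_le_mul_of_nonneg_left ?_ hB.le)
    exact Real.rpow_le_rpow_of_exponent_le (by norm_num) (mul_le_mul_of_nonneg_right hx hQ0)
  obtain ⟨ks, kf, f1, f2, f3, f4, f5⟩ := H₂ Q hQ2 (2 ^ Q) hM1 le_rfl hMM B hB
    (hB1 _ (min_le_right _ _)) hp (H.mono (min_le_right _ _) (min_le_right _ _))
  have hpw : (2 : ℝ) ^ (εa * Q) ≤ 2 ^ (δ₁ * Q) :=
    Real.rpow_le_rpow_of_exponent_le (by norm_num) (mul_le_mul_of_nonneg_right hεa1 hQ0)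
  have HR := H.mono (δ' := δ₁) (c' := d₁) (min_le_left _ _) (min_le_left _ _)
  have hrate : RateH p (2 ^ Q) K Q δ₁ d₁ α B ((1 - h) * Q * Real.log 2) L t f G A E C D N u n
      du dn ks kf := by
    refine ⟨HR.rcs, HR.d1, HR.al, fun S hS => ?_, HR.ac, HR.ca, HR.fm, HR.fi,
      fun ω hω => (f1 ω hω).trans hpw, ?_, ?_⟩
    · have h1 := HR.nf Q (by omega) S hS
      have e : (fun ω => ((n (L ω) (t ω) / (((2 ^ Q : ℕ) : ℤ)), u (L ω) (t ω)),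
          (t ω, C (L ω)))) = (fun ω => ((n (L ω) (t ω) / 2 ^ Q, u (L ω) (t ω)),
          (t ω, C (L ω)))) := by
        funext ω
        push_cast
        rfl
      rw [e]
      exact h1
    · refine (Pb_imp (P1_law hp G).nonneg fun w _ hw => ?_).trans (f4.trans hεa1)
      exact lt_of_le_of_lt hpw hw
    · exact (Pb_imp hp.nonneg fun ω _ hw => hpw.trans hw).trans (f3.trans hεa1)
  obtain ⟨r, s₀, g1, g2, g3, g4, g5, g6, g7⟩ := H₁ Q hQ1 (2 ^ Q) hM1 le_rfl hMM B hB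
    (hB1 _ (min_le_left _ _)) hp hrate
  have hr0 : (0 : ℝ) < r := by exact_mod_cast g1
  have hM0 : (0 : ℝ) < 2 ^ Q := by positivity
  have hhalf : (2 : ℝ) ^ (ε / 2 * Q) ≤ 2 ^ (ε * Q) :=
    Real.rpow_le_rpow_of_exponent_le (by norm_num) (by nlinarith)
  refine ⟨r, fun l => kq (2 ^ Q) r (ks l + s₀), fun φ => kq (2 ^ Q) r (kf φ + s₀), g1,
    g3.trans hhalf, fun ω hω => ?_, g6.trans (by linarith), fun S hS hSk => ?_⟩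
  · -- the size of the code
    have h1 := f1 ω hω
    rw [hcast] at g5
    have h2 : |ks (L ω) + s₀| * 2 ^ Q ≤ 2 ^ (εa * Q) * 2 ^ Q + r := by
      have h3 := abs_add_le (ks (L ω)) s₀
      rw [abs_of_nonneg g4] at h3
      have h4 := mul_le_mul_of_nonneg_right (h3.trans (add_le_add_left h1 s₀)) hM0.le
      linarith
    have h5 : |((kq (2 ^ Q) r (ks (L ω) + s₀) : ℤ) : ℝ)| * r ≤ |ks (L ω) + s₀| * 2 ^ Q + r := by
      have h6 : |((kq (2 ^ Q) r (ks (L ω) + s₀) : ℤ) : ℝ)| ≤ |(ks (L ω) + s₀) * 2 ^ Q / r| + 1 := by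
        unfold kq
        rw [hcast]
        obtain ⟨y, hy⟩ : ∃ y : ℝ, y = (ks (L ω) + s₀) * 2 ^ Q / r := ⟨_, rfl⟩
        rw [← hy]
        have a1 := Int.floor_le y
        have a2 := Int.lt_floor_add_one y
        have a3 := neg_abs_le y
        have a4 := le_abs_self y
        rw [abs_le]
        constructor <;> linarith
      have h7 := mul_le_mul_of_nonneg_right h6 hr0.le
      rw [add_mul, one_mul, abs_div, abs_mul, abs_of_pos hM0, abs_of_pos hr0,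
        div_mul_cancel₀ _ hr0.ne'] at h7
      exact h7
    have h8 : (r : ℝ) ≤ 2 ^ Q := by
      rw [← hcast]
      exact_mod_cast g2
    have h9 : (2 : ℝ) ^ (εa * Q) + 2 ≤ 2 ^ (ε * Q) := by
      have b1 : (2 : ℝ) ^ (εa * Q) ≤ 2 ^ (ε * Q - 1) :=
        Real.rpow_le_rpow_of_exponent_le (by norm_num) (by nlinarith)
      have b2 : (2 : ℝ) ≤ 2 ^ (ε * Q - 1) := by
        calc (2 : ℝ) = 2 ^ (1 : ℝ) := by norm_num
          _ ≤ _ := Real.rpow_le_rpow_of_exponent_le (by norm_num) (by linarith)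
      have b3 : (2 : ℝ) ^ (ε * Q) = 2 * 2 ^ (ε * Q - 1) := by
        rw [Real.rpow_sub_one (by norm_num)]
        ring
      linarith
    have h10 := mul_le_mul_of_nonneg_right h9 hM0.le
    linarith
  · have h1 := g7 S hS hSk
    refine h1.trans ?_
    nlinarith

end Pool.PR46
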