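import Pool.Agent.H46.PR.Cnt

/-!
# Two hops: the entropy core

Two times `T1`, `T2` move two heights `un`, `nn` by two linear forms with coefficients which are
functions of `Z`. If the times are full given `Z`, then the second height is full given the first one
and `Z`, down from the freedom `frq`.
-/

set_option autoImplicit false

namespace Pool.PR46

open Finset Real
open Pool.Agent.H49.Ent Pool.Agent.H32.Dense Pool.STK Pool.OWN68

/-- The freedom of the second form given the first one. -/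
noncomputable def frq (x₁ x₂ y₁ y₂ : ℝ) : ℝ := frd x₁ x₂ y₁ y₂ / max 1 (max |x₁| |x₂|)

/-- The range of the second form. -/
theorem rng {M K x₁ x₂ y₁ y₂ s₁ s₂ : ℝ} (hM : 0 ≤ M) (hK : 0 ≤ K) (h1 : |s₁| ≤ 2 * M)
    (h2 : |s₂| ≤ 2 * M) (hu : |x₁ * s₁ + x₂ * s₂| ≤ K * M) :
    |y₁ * s₁ + y₂ * s₂| ≤ (K + 4) * frq x₁ x₂ y₁ y₂ * M := by
  have hfr : 0 ≤ frd x₁ x₂ y₁ y₂ := (abs_nonneg _).trans (le_max_left _ _)
  have fy1 : |y₁| ≤ frd x₁ x₂ y₁ y₂ := (le_max_left _ _).trans (le_max_right _ _)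
  have fy2 : |y₂| ≤ frd x₁ x₂ y₁ y₂ := (le_max_right _ _).trans (le_max_right _ _)
  have fW : |x₁ * y₂ - x₂ * y₁| ≤ frd x₁ x₂ y₁ y₂ := le_max_left _ _
  obtain ⟨F, hF⟩ : ∃ F, F = frd x₁ x₂ y₁ y₂ := ⟨_, rfl⟩
  rw [← hF] at hfr fy1 fy2 fW
  have hfq : frq x₁ x₂ y₁ y₂ = F / max 1 (max |x₁| |x₂|) := by rw [hF]; rfl
  rw [hfq]
  rcases le_total (max |x₁| |x₂|) 1 with h | h
  · rw [max_eq_left h, div_one]
    refine (abs_add_le _ _).trans ?_
    rw [abs_mul, abs_mul]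
    have g1 := mul_le_mul fy1 h1 (abs_nonneg _) hfr
    have g2 := mul_le_mul fy2 h2 (abs_nonneg _) hfr
    have g3 : 0 ≤ K * F * M := by positivity
    linarith
  · rw [max_eq_right h]
    rcases le_total |x₁| |x₂| with hx | hx
    · rw [max_eq_right hx] at h ⊢
      have hX : 0 < |x₂| := by linarith
      have e : x₂ * (y₁ * s₁ + y₂ * s₂) = y₂ * (x₁ * s₁ + x₂ * s₂) - (x₁ * y₂ - x₂ * y₁) * s₁ := by
        ring
      have g : |x₂| * |y₁ * s₁ + y₂ * s₂| ≤ (K + 4) * F * M := by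
        rw [← abs_mul, e]
        refine (abs_sub _ _).trans ?_
        rw [abs_mul, abs_mul]
        have g1 := mul_le_mul fy2 hu (abs_nonneg _) hfr
        have g2 := mul_le_mul fW h1 (abs_nonneg _) hfr
        have g3 : 0 ≤ F * M := by positivity
        linarith
      rw [mul_div_assoc', div_mul_eq_mul_div, le_div_iff₀ hX]
      linarith
    · rw [max_eq_left hx] at h ⊢
      have hX : 0 < |x₁| := by linarith
      have e : x₁ * (y₁ * s₁ + y₂ * s₂) = y₁ * (x₁ * s₁ + x₂ * s₂) + (x₁ * y₂ - x₂ * y₁) * s₂ := by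
        ring
      have g : |x₁| * |y₁ * s₁ + y₂ * s₂| ≤ (K + 4) * F * M := by
        rw [← abs_mul, e]
        refine (abs_add_le _ _).trans ?_
        rw [abs_mul, abs_mul]
        have g1 := mul_le_mul fy1 hu (abs_nonneg _) hfr
        have g2 := mul_le_mul fW h2 (abs_nonneg _) hfr
        have g3 : 0 ≤ F * M := by positivity
        linarith
      rw [mul_div_assoc', div_mul_eq_mul_div, le_div_iff₀ hX]
      linarith

/-- Divisions. -/
theorem ediv_diff {m : ℕ} (hm : 1 ≤ m) (x y : ℤ) :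
    |((x / m - y / m : ℤ) : ℝ)| ≤ |((x : ℝ) - y)| / m + 1 := by
  have hm0 : (0 : ℝ) < m := by exact_mod_cast hm
  have hmz : (0 : ℤ) < m := by exact_mod_cast hm
  have q : ∀ z : ℤ, ((z / m : ℤ) : ℝ) ≤ (z : ℝ) / m ∧ (z : ℝ) / m - 1 ≤ ((z / m : ℤ) : ℝ) := by
    intro z
    have h1 := Int.emod_add_mul_ediv z m
    have h2 := Int.emod_nonneg z hmz.ne'
    have h3 := Int.emod_lt_of_pos z hmz
    have h4 : (z : ℝ) = ((z % m : ℤ) : ℝ) + m * ((z / m : ℤ) : ℝ) := by exact_mod_cast h1.symm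
    have h5 : (0 : ℝ) ≤ ((z % m : ℤ) : ℝ) := by exact_mod_cast h2
    have h6 : ((z % m : ℤ) : ℝ) ≤ m := by exact_mod_cast h3.le
    constructor
    · rw [le_div_iff₀ hm0]
      linarith
    · rw [sub_le_iff_le_add, div_le_iff₀ hm0]
      linarith
  obtain ⟨x1, x2⟩ := q x
  obtain ⟨y1, y2⟩ := q y
  have h7 : |(x : ℝ) / m - (y : ℝ) / m| = |((x : ℝ) - y)| / m := by
    rw [← sub_div, abs_div, abs_of_pos hm0]
  rw [← h7]
  push_cast
  have h8 := abs_le.mp (le_refl |(x : ℝ) / m - (y : ℝ) / m|)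
  rw [abs_le]
  constructor <;> linarith [h8.1, h8.2]

/-- The constant. -/
noncomputable def cst (K : ℕ) : ℝ := (3 + 8 * K + 8 * (K : ℝ) ^ 2) * (9 + 4 * K) * (11 + 8 * K)

theorem cst_pos (K : ℕ) : 0 < cst K := by
  unfold cst
  positivity

open Classical in
/-- **The entropy core.** -/
theorem wdg_core {Ω ζ : Type} [Fintype Ω] {q : Ω → ℝ} (hq : IsLaw q) {M K m : ℕ} (hM : 1 ≤ M)
    (T1 T2 un nn : Ω → ℤ) (Z : Ω → ζ) (x₁ x₂ y₁ y₂ a b : ζ → ℝ) {V : ℝ} (hV : 1 ≤ V)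
    (h1 : ∀ ω, 0 < q ω → |T1 ω| ≤ (M : ℤ)) (h2 : ∀ ω, 0 < q ω → |T2 ω| ≤ (M : ℤ))
    (hx₁ : ∀ ω, 0 < q ω → |x₁ (Z ω)| ≤ M) (hx₂ : ∀ ω, 0 < q ω → |x₂ (Z ω)| ≤ M)
    (hy₁ : ∀ ω, 0 < q ω → |y₁ (Z ω)| ≤ M) (hy₂ : ∀ ω, 0 < q ω → |y₂ (Z ω)| ≤ M)
    (hu : ∀ ω, 0 < q ω →
      |(un ω : ℝ) - (a (Z ω) - (x₁ (Z ω) * T1 ω + x₂ (Z ω) * T2 ω) / M)| ≤ K)
    (hn : ∀ ω, 0 < q ω →
      |(nn ω : ℝ) - (b (Z ω) - (y₁ (Z ω) * T1 ω + y₂ (Z ω) * T2 ω) / M)| ≤ K)
    (hV1 : ∀ ω, 0 < q ω → V ≤ frq (x₁ (Z ω)) (x₂ (Z ω)) (y₁ (Z ω)) (y₂ (Z ω)))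
    (hV2 : ∀ ω, 0 < q ω → frq (x₁ (Z ω)) (x₂ (Z ω)) (y₁ (Z ω)) (y₂ (Z ω)) ≤ m) :
    CH q (fun ω => (T1 ω, T2 ω)) Z - 2 * Real.log M + Real.log V - Real.log (cst K) ≤
      CH q nn (fun ω => (nn ω / m, (un ω, Z ω))) := by
  have h0 := hq.nonneg
  have hMr : (1 : ℝ) ≤ M := by exact_mod_cast hM
  have hM0 : (0 : ℝ) < M := by linarith
  have hK0 : (0 : ℝ) ≤ K := Nat.cast_nonneg K
  obtain ⟨Mu, hMu⟩ : ∃ Mu : Ω → ℝ, ∀ ω, Mu ω = max 1 (max |x₁ (Z ω)| |x₂ (Z ω)|) :=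
    ⟨_, fun _ => rfl⟩
  obtain ⟨Fr, hFr⟩ : ∃ Fr : Ω → ℝ, ∀ ω, Fr ω = frd (x₁ (Z ω)) (x₂ (Z ω)) (y₁ (Z ω)) (y₂ (Z ω)) :=
    ⟨_, fun _ => rfl⟩
  have hMu1 : ∀ ω, 1 ≤ Mu ω := fun ω => by rw [hMu]; exact le_max_left _ _
  have hMu0 : ∀ ω, 0 < Mu ω := fun ω => by have := hMu1 ω; linarith
  have hFM : ∀ ω, frq (x₁ (Z ω)) (x₂ (Z ω)) (y₁ (Z ω)) (y₂ (Z ω)) = Fr ω / Mu ω := fun ω => by
    rw [hMu, hFr]; rfl
  have hFr0 : ∀ ω, 0 < q ω → 0 < Fr ω := fun ω hω => by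
    have g := hV1 ω hω
    rw [hFM, le_div_iff₀ (hMu0 ω)] at g
    nlinarith [hMu0 ω]
  -- the two times are read off
  have hB : CH q (fun ω => (T1 ω, T2 ω)) (fun ω => ((un ω, nn ω), Z ω)) ≤
      Ex q (fun ω => Real.log ((3 + 8 * K + 8 * (K : ℝ) ^ 2) * M ^ 2 / Fr ω)) := by
    refine (CH_le_card h0 hq.sum_one _ _ (fun z => (Finset.univ.filter fun ω =>
      0 < q ω ∧ ((un ω, nn ω), Z ω) = z).image fun ω => (T1 ω, T2 ω)) (fun ω hω =>
        Finset.mem_image_of_mem _ (Finset.mem_filter.mpr ⟨Finset.mem_univ _, hω, rfl⟩))).trans ?_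
    refine Ex_mono h0 fun ω hω => Real.log_le_log ?_ ?_
    · have : 0 < ((Finset.univ.filter fun ω' => 0 < q ω' ∧ ((un ω', nn ω'), Z ω') =
          ((un ω, nn ω), Z ω)).image fun ω => (T1 ω, T2 ω)).card :=
        Finset.card_pos.mpr ⟨_, Finset.mem_image_of_mem _ (Finset.mem_filter.mpr
          ⟨Finset.mem_univ ω, hω, rfl⟩)⟩
      exact_mod_cast this
    · rw [hFr]
      refine cnt_two hM (α := M * (a (Z ω) - un ω)) (β := M * (b (Z ω) - nn ω)) hK0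
        (hx₁ ω hω) (hx₂ ω hω) (hy₁ ω hω) (hy₂ ω hω) (by rw [← hFr]; exact hFr0 ω hω) _ ?_ ?_
      · intro t ht
        obtain ⟨ω', hω', rfl⟩ := Finset.mem_image.mp ht
        obtain ⟨-, hω'2, -⟩ := Finset.mem_filter.mp hω'
        have g1 := h1 ω' hω'2
        have g2 := h2 ω' hω'2
        constructor
        · exact_mod_cast g1
        · exact_mod_cast g2
      · intro t ht
        obtain ⟨ω', hω', rfl⟩ := Finset.mem_image.mp ht
        obtain ⟨-, hω'2, hω'3⟩ := Finset.mem_filter.mp hω'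
        have e3 : Z ω' = Z ω := (Prod.ext_iff.mp hω'3).2
        have e4 := (Prod.ext_iff.mp hω'3).1
        have e1 : un ω' = un ω := (Prod.ext_iff.mp e4).1
        have e2 : nn ω' = nn ω := (Prod.ext_iff.mp e4).2
        have g1 := hu ω' hω'2
        have g2 := hn ω' hω'2
        rw [e3, e1] at g1
        rw [e3, e2] at g2
        dsimp only
        constructor
        · have e5 : x₁ (Z ω) * (T1 ω' : ℝ) + x₂ (Z ω) * (T2 ω' : ℝ) - M * (a (Z ω) - un ω) =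
              ((un ω : ℝ) - (a (Z ω) - (x₁ (Z ω) * T1 ω' + x₂ (Z ω) * T2 ω') / M)) * M := by
            field_simp
            ring
          rw [e5, abs_mul, abs_of_pos hM0]
          exact mul_le_mul_of_nonneg_right g1 hM0.le
        · have e5 : y₁ (Z ω) * (T1 ω' : ℝ) + y₂ (Z ω) * (T2 ω' : ℝ) - M * (b (Z ω) - nn ω) =
              ((nn ω : ℝ) - (b (Z ω) - (y₁ (Z ω) * T1 ω' + y₂ (Z ω) * T2 ω') / M)) * M := by
            field_simp
            ring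
          rw [e5, abs_mul, abs_of_pos hM0]
          exact mul_le_mul_of_nonneg_right g2 hM0.le
  -- differences
  have hdiff : ∀ ω ω', 0 < q ω → 0 < q ω' → Z ω = Z ω' →
      |((T1 ω : ℝ) - T1 ω')| ≤ 2 * M ∧ |((T2 ω : ℝ) - T2 ω')| ≤ 2 * M := by
    intro ω ω' hω hω' _
    have a1 : |(T1 ω : ℝ)| ≤ M := by exact_mod_cast h1 ω hω
    have a2 : |(T1 ω' : ℝ)| ≤ M := by exact_mod_cast h1 ω' hω'
    have a3 : |(T2 ω : ℝ)| ≤ M := by exact_mod_cast h2 ω hω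
    have a4 : |(T2 ω' : ℝ)| ≤ M := by exact_mod_cast h2 ω' hω'
    constructor
    · exact (abs_sub _ _).trans (by linarith)
    · exact (abs_sub _ _).trans (by linarith)
  have hD : CH q un Z ≤ Ex q (fun ω => Real.log ((9 + 4 * K) * Mu ω)) := by
    refine (CH_le_int h0 hq.sum_one un Z (fun ω => 4 * Mu ω + 2 * K) ?_).trans ?_
    · intro ω ω' hω hω' hz
      obtain ⟨d1, d2⟩ := hdiff ω ω' hω hω' hz
      have g1 := hu ω hω
      have g2 := hu ω' hω'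
      rw [← hz] at g2
      have b1 : |x₁ (Z ω)| ≤ Mu ω := by rw [hMu]; exact (le_max_left _ _).trans (le_max_right _ _)
      have b2 : |x₂ (Z ω)| ≤ Mu ω := by rw [hMu]; exact (le_max_right _ _).trans (le_max_right _ _)
      have e : (((un ω - un ω' : ℤ)) : ℝ) =
          ((un ω : ℝ) - (a (Z ω) - (x₁ (Z ω) * T1 ω + x₂ (Z ω) * T2 ω) / M)) -
          ((un ω' : ℝ) - (a (Z ω) - (x₁ (Z ω) * T1 ω' + x₂ (Z ω) * T2 ω') / M)) -
          (x₁ (Z ω) * ((T1 ω : ℝ) - T1 ω') + x₂ (Z ω) * ((T2 ω : ℝ) - T2 ω')) / M := by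
        push_cast
        field_simp
        ring
      rw [e]
      refine (abs_sub _ _).trans ?_
      have c1 : |(x₁ (Z ω) * ((T1 ω : ℝ) - T1 ω') + x₂ (Z ω) * ((T2 ω : ℝ) - T2 ω')) / M| ≤
          4 * Mu ω := by
        rw [abs_div, abs_of_pos hM0, div_le_iff₀ hM0]
        refine (abs_add_le _ _).trans ?_
        rw [abs_mul, abs_mul]
        have c2 := mul_le_mul b1 d1 (abs_nonneg _) (hMu0 ω).le
        have c3 := mul_le_mul b2 d2 (abs_nonneg _) (hMu0 ω).le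
        linarith
      have c4 := abs_sub ((un ω : ℝ) - (a (Z ω) - (x₁ (Z ω) * T1 ω + x₂ (Z ω) * T2 ω) / M))
        ((un ω' : ℝ) - (a (Z ω) - (x₁ (Z ω) * T1 ω' + x₂ (Z ω) * T2 ω') / M))
      linarith
    · refine Ex_mono h0 fun ω hω => Real.log_le_log ?_ ?_
      · have := hMu0 ω
        positivity
      · nlinarith [hMu1 ω]
  -- the coarse part
  have hF : CH q (fun ω => nn ω / (m : ℤ)) (fun ω => (un ω, Z ω)) ≤ Real.log (11 + 8 * K) := by
    refine (CH_le_int h0 hq.sum_one _ _ (fun _ => 5 + 4 * K) ?_).trans (le_of_eq ?_)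
    · intro ω ω' hω hω' hzz
      have hz : Z ω = Z ω' := (Prod.ext_iff.mp hzz).2
      have huu : un ω = un ω' := (Prod.ext_iff.mp hzz).1
      obtain ⟨d1, d2⟩ := hdiff ω ω' hω hω' hz
      have g1 := hu ω hω
      have g2 := hu ω' hω'
      have g3 := hn ω hω
      have g4 := hn ω' hω'
      rw [← hz] at g2 g4
      rw [← huu] at g2
      have hΦ1 := hV1 ω hω
      have hΦ2 := hV2 ω hω
      obtain ⟨Φ, hΦ⟩ : ∃ Φ, Φ = frq (x₁ (Z ω)) (x₂ (Z ω)) (y₁ (Z ω)) (y₂ (Z ω)) := ⟨_, rfl⟩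
      have hmr : (1 : ℝ) ≤ m := by linarith
      have hm1 : 1 ≤ m := by exact_mod_cast hmr
      have r1 := rng (y₁ := y₁ (Z ω)) (y₂ := y₂ (Z ω)) hM0.le (by positivity : (0 : ℝ) ≤ 2 * K) d1 d2
        (x₁ := x₁ (Z ω)) (x₂ := x₂ (Z ω)) (by
          have e : x₁ (Z ω) * ((T1 ω : ℝ) - T1 ω') + x₂ (Z ω) * ((T2 ω : ℝ) - T2 ω') =
            (((un ω : ℝ) - (a (Z ω) - (x₁ (Z ω) * T1 ω + x₂ (Z ω) * T2 ω) / M)) -
            ((un ω : ℝ) - (a (Z ω) - (x₁ (Z ω) * T1 ω' + x₂ (Z ω) * T2 ω') / M))) * M := by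
            field_simp
            ring
          rw [e, abs_mul, abs_of_pos hM0]
          refine mul_le_mul_of_nonneg_right ?_ hM0.le
          refine (abs_sub _ _).trans ?_
          linarith)
      rw [← hΦ] at r1 hΦ1 hΦ2
      have r2 : |((nn ω : ℝ) - nn ω')| ≤ (4 + 4 * K) * m := by
        have e : ((nn ω : ℝ) - nn ω') =
          ((nn ω : ℝ) - (b (Z ω) - (y₁ (Z ω) * T1 ω + y₂ (Z ω) * T2 ω) / M)) -
          ((nn ω' : ℝ) - (b (Z ω) - (y₁ (Z ω) * T1 ω' + y₂ (Z ω) * T2 ω') / M)) -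
          (y₁ (Z ω) * ((T1 ω : ℝ) - T1 ω') + y₂ (Z ω) * ((T2 ω : ℝ) - T2 ω')) / M := by
          field_simp
          ring
        rw [e]
        refine (abs_sub _ _).trans ?_
        have c1 : |(y₁ (Z ω) * ((T1 ω : ℝ) - T1 ω') + y₂ (Z ω) * ((T2 ω : ℝ) - T2 ω')) / M| ≤
            (2 * K + 4) * m := by
          rw [abs_div, abs_of_pos hM0, div_le_iff₀ hM0]
          refine r1.trans (mul_le_mul_of_nonneg_right ?_ hM0.le)
          exact mul_le_mul_of_nonneg_left hΦ2 (by positivity)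
        have c4 := abs_sub ((nn ω : ℝ) - (b (Z ω) - (y₁ (Z ω) * T1 ω + y₂ (Z ω) * T2 ω) / M))
          ((nn ω' : ℝ) - (b (Z ω) - (y₁ (Z ω) * T1 ω' + y₂ (Z ω) * T2 ω') / M))
        nlinarith
      refine (ediv_diff hm1 (nn ω) (nn ω')).trans ?_
      have r3 : |((nn ω : ℝ) - nn ω')| / m ≤ 4 + 4 * K := by
        rw [div_le_iff₀ (by linarith)]
        exact r2
      linarith
    · rw [Ex_const hq.sum_one]
      congr 1
      ring
  have hA := CH_le_add h0 (fun ω => (T1 ω, T2 ω)) (fun ω => (un ω, nn ω)) Z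
  have hC := CH_chain2 h0 un nn Z
  have hE := CH_le_add h0 nn (fun ω => nn ω / (m : ℤ)) (fun ω => (un ω, Z ω))
  have hsum : Ex q (fun ω => Real.log ((9 + 4 * K) * Mu ω)) +
      Ex q (fun ω => Real.log ((3 + 8 * K + 8 * (K : ℝ) ^ 2) * M ^ 2 / Fr ω)) +
      Real.log (11 + 8 * K) ≤ 2 * Real.log M - Real.log V + Real.log (cst K) := by
    rw [← Ex_add]
    have e1 : Real.log (11 + 8 * (K : ℝ)) = Ex q (fun _ => Real.log (11 + 8 * K)) :=
      (Ex_const hq.sum_one _).symm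
    have e2 : 2 * Real.log M - Real.log V + Real.log (cst K) =
        Ex q (fun _ => 2 * Real.log M - Real.log V + Real.log (cst K)) :=
      (Ex_const hq.sum_one _).symm
    rw [e1, e2, ← Ex_add]
    refine Ex_mono h0 fun ω hω => ?_
    have p1 := hMu0 ω
    have p2 := hFr0 ω hω
    have p3 : (0 : ℝ) < 9 + 4 * K := by positivity
    have p4 : (0 : ℝ) < 3 + 8 * K + 8 * (K : ℝ) ^ 2 := by positivity
    have p5 : (0 : ℝ) < 11 + 8 * K := by positivity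
    have g := hV1 ω hω
    rw [hFM] at g
    have g2 := Real.log_le_log (by linarith) g
    rw [Real.log_div p2.ne' p1.ne'] at g2
    rw [Real.log_mul p3.ne' p1.ne', Real.log_div (by positivity) p2.ne',
      Real.log_mul p4.ne' (by positivity), Real.log_pow]
    unfold cst
    rw [Real.log_mul (by positivity) p5.ne', Real.log_mul p4.ne' p3.ne']
    push_cast
    linarith
  linarith

end Pool.PR46
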